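import Pool.Agent.helper797_it.Defs

/-! # G6: the universe -/

set_option autoImplicit false
namespace Pool.Agent.helper797_it
open Pool.Agent.W868 Pool.Agent.R587 Pool.Agent.helper797_cs
open ZFSet (pair)

theorem isZFC_univ : IsZFC (Set.univ : Set ZFSet.{0}) := by
  refine ⟨⟨fun _ _ _ _ => trivial, fun _ _ _ _ => trivial, fun _ _ => trivial, trivial,
    fun x _ => ⟨ZFSet.powerset x, trivial, fun z => by simp⟩, fun φ _ x _ => ?_,
    fun φ _ x _ h => ?_⟩, ?_⟩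
  · exact ⟨ZFSet.sep (fun z => Sat Set.univ id φ ![z]) x, trivial, fun z => ZFSet.mem_sep⟩
  · choose! g hg hg' using h
    refine ⟨im g x, trivial, fun w => ?_⟩
    rw [mem_im]
    constructor
    · rintro ⟨z, hz, rfl⟩
      exact ⟨trivial, z, hz, (hg z hz).2⟩
    · rintro ⟨-, z, hz, h1⟩
      exact ⟨z, hz, hg' z hz w ⟨trivial, h1⟩⟩
  · intro x _ hx hd
    choose! g hg using hx
    refine ⟨im g x, trivial, fun y hy => ⟨g y, ⟨hg y hy, mem_im.2 ⟨y, hy, rfl⟩⟩, ?_⟩⟩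
    rintro z ⟨hz, hz'⟩
    obtain ⟨y', hy', rfl⟩ := mem_im.1 hz'
    rw [hd y' hy' y hy _ (hg y' hy') hz]

end Pool.Agent.helper797_it
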