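import Pool.Agent.helper797_cs.CDefs
import Pool.Agent.helper797_cs.KDefs
import Pool.Agent.W868.Hart
import Pool.Agent.W868.Eo
import Pool.Agent.W868.Mos

/-!
# Iterated inner models of the cofinality quantifier: definitions
-/

set_option autoImplicit false

namespace Pool.Agent.helper797_it

open Pool.Agent.W868 Pool.Agent.R587 Pool.Agent.helper797_cs
open ZFSet (pair)

/-- The iterated `C*` of the transitive model `N`: `C*0 = N`, `C*(n+1) = (C*)^(C*n)`. -/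
def Cn (N : Set ZFSet.{0}) : ℕ → Set ZFSet.{0}
  | 0 => N
  | n + 1 => Cst (Cn N n)

/-- The intersection `C*ω` of the classes `C*n`. -/
def Cw (N : Set ZFSet.{0}) : Set ZFSet.{0} := {x | ∀ n, x ∈ Cn N n}

/-! ### The cumulative hierarchy in a model -/

/-- The power set of `x` in the model `M`. -/
noncomputable def Pw (M : Set ZFSet.{0}) (x : ZFSet.{0}) : ZFSet.{0} :=
  ZFSet.sep (fun z => z ∈ M) (ZFSet.powerset x)

/-- The level `V_α` of the model `M`, for `z = α`. -/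
noncomputable def Vh (M : Set ZFSet.{0}) : ZFSet.{0} → ZFSet.{0} :=
  wfF (fun z => z) ZFSet.mem_wf fun _ g => ZFSet.sUnion (im (fun p => Pw M (sn p)) g)

/-! ### The hierarchy `L'` with sets as indices -/

/-- The relation that is defined by `φ`, as a set of tuples. -/
noncomputable def rl (K : ZFSet.{0} → Prop) (X : ZFSet.{0}) {n : ℕ} (φ : FmQ n) : ZFSet.{0} :=
  ZFSet.sep (fun t => ∃ v : Fin n → ZFSet.{0}, t = tup v ∧ φ.Sat K X v) (pw X n)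

/-- The set of the pairs `(X^n, R)`, where `R` is an `n`-ary relation that is definable without
parameters. -/
noncomputable def Rels (K : ZFSet.{0} → Prop) (X : ZFSet.{0}) : ZFSet.{0} :=
  ZFSet.range fun p : (Σ n : ℕ, FmQ n) => pair (pw X p.1) (rl K X p.2)

/-- The hierarchy `L'`: `LpS K z` is the union of `Def(LpS K u)` for `u ∈ z`. -/
noncomputable def LpS (K : ZFSet.{0} → Prop) : ZFSet.{0} → ZFSet.{0} :=
  wfF (fun z => z) ZFSet.mem_wf fun _ g => ZFSet.sUnion (im (fun p => DefQ K (sn p)) g)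

/-! ### The ordinals of cofinality omega -/

/-- In `W`, the ordinal `a` has cofinality `ω`. -/
def Cf0 (W : Set ZFSet.{0}) (a : ZFSet.{0}) : Prop :=
  ∃ g : ℕ → ZFSet.{0}, sqSet g ∈ W ∧ (∀ n, g n ∈ a) ∧ ∀ x ∈ a, ∃ n, x ∈ g n

/-- The set of the elements of `z` of cofinality `ω` in `W`. -/
noncomputable def SWs (W : Set ZFSet.{0}) (z : ZFSet.{0}) : ZFSet.{0} :=
  ZFSet.sep (fun a => Cf0 W a) z

/-- The set of the ordinals below `ξ` of cofinality `ω` in `W`. -/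
noncomputable def SW (W : Set ZFSet.{0}) (ξ : Ordinal.{0}) : ZFSet.{0} := SWs W ξ.toZFSet

/-- The class `L[S]` where `S` is the class of the ordinals of cofinality `ω` in `W`. -/
def KC (W : Set ZFSet.{0}) : Set ZFSet.{0} :=
  {x | ∃ ξ : Ordinal.{0}, ξ.toZFSet ∈ W ∧ x ∈ KS (SW W ξ) ξ}

/-- `x` is the canonical least element of the class `P` in `C*` of `W`. -/
def IsCh (W : Set ZFSet.{0}) (P : ZFSet.{0} → Prop) (x : ZFSet.{0}) : Prop :=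
  ∃ ξ : Ordinal.{0}, ξ.toZFSet ∈ W ∧ x ∈ KS (SW W ξ) ξ ∧ P x ∧
    (∀ ζ < ξ, ∀ y ∈ KS (SW W ζ) ζ, ¬ P y) ∧
    ∀ y ∈ KS (SW W ξ) ξ, P y → x = y ∨ pair x y ∈ KW (SW W ξ) ξ

/-! ### Cardinals in a model -/

/-- `a` is the first uncountable ordinal of `W`. -/
def U1 (W : Set ZFSet.{0}) (a : ZFSet.{0}) : Prop :=
  a ∈ W ∧ a.IsOrdinal ∧ ¬ Inj W a ZFSet.omega ∧ ∀ b ∈ a, Inj W b ZFSet.omega

/-- `a` is the second uncountable cardinal of `W`. -/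
def U2 (W : Set ZFSet.{0}) (a : ZFSet.{0}) : Prop :=
  a ∈ W ∧ a.IsOrdinal ∧ ∃ b, U1 W b ∧ ¬ Inj W a b ∧ ∀ c ∈ a, Inj W c b

/-- `θ` is a cardinal of `N` which is larger than the first uncountable cardinal. -/
def BigC (N : Set ZFSet.{0}) (θ : ZFSet.{0}) : Prop :=
  θ ∈ N ∧ θ.IsOrdinal ∧ (∀ α ∈ θ, ¬ Inj N θ α) ∧ ∃ κ ∈ θ, ¬ Inj N κ ZFSet.omega

/-- In `N`, `x` is in a transitive set of size less than `θ`. -/
def HH (N : Set ZFSet.{0}) (θ x : ZFSet.{0}) : Prop :=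
  ∃ t ∈ N, (∀ y ∈ t, ∀ z ∈ y, z ∈ t) ∧ x ∈ t ∧ ∃ α ∈ θ, Inj N t α

/-- The set `H_θ` of `N`. -/
noncomputable def Hs (N : Set ZFSet.{0}) (θ : ZFSet.{0}) : ZFSet.{0} :=
  ZFSet.sep (fun x => HH N θ x) (Vh N θ)

/-- The iteration of the operation `A ↦ L'_θ`, where the quantifier is evaluated in the set `A`. -/
noncomputable def It (N : Set ZFSet.{0}) (θ : ZFSet.{0}) : ℕ → ZFSet.{0}
  | 0 => Hs N θ
  | n + 1 => LpS (CofW {x | x ∈ It N θ n}) θ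

/-! ### Hulls -/

/-- The closure properties of the hull that are used. -/
structure HullC (W : Set ZFSet.{0}) (lam N : ZFSet.{0}) : Prop where
  mem : N ∈ W
  om : ZFSet.omega ⊆ N
  top : lam ∈ N
  pr : ∀ a ∈ N, ∀ b ∈ N, pair a b ∈ N
  fst : ∀ a ∈ N, fs a ∈ N
  snd : ∀ a ∈ N, sn a ∈ N
  diff : ∀ x ∈ N, ∀ y ∈ N, x ≠ y → ∃ z ∈ N, (z ∈ x ∧ z ∉ y) ∨ (z ∉ x ∧ z ∈ y)
  lp : ∀ β : Ordinal.{0}, β.toZFSet ∈ N → Lp (CofW W) β ∈ N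
  rel : ∀ β : Ordinal.{0}, β.toZFSet ∈ N → ∀ {n : ℕ} (φ : FmQ n), rl (CofW W) (Lp (CofW W) β) φ ∈ N
  sct : ∀ R ∈ N, ∀ q ∈ N, ∀ X ∈ N, ZFSet.sep (fun a => pair a q ∈ R) X ∈ N
  sct2 : ∀ R ∈ N, ∀ q ∈ N, ∀ X ∈ N, ZFSet.sep (fun p => ∃ a b, p = pair a b ∧
    pair a (pair b q) ∈ R) (ZFSet.prod X X) ∈ N
  wit : ∀ Y ∈ N, (∃ a, a ∈ Y) → ∃ a ∈ N, a ∈ Y
  lev : ∀ x ∈ N, ∀ β : Ordinal.{0}, β.toZFSet ∈ N → x ∈ Lp (CofW W) β →
    ∃ γ < β, γ.toZFSet ∈ N ∧ x ∈ DefQ (CofW W) (Lp (CofW W) γ)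
  par : ∀ x ∈ N, ∀ γ : Ordinal.{0}, γ.toZFSet ∈ N → x ∈ DefQ (CofW W) (Lp (CofW W) γ) →
    ∃ (n : ℕ) (φ : FmQ (n + 1)) (v : Fin n → ZFSet.{0}), (∀ i, v i ∈ N ∧ v i ∈ Lp (CofW W) γ) ∧
      x = ZFSet.sep (fun a => pair a (tup v) ∈ rl (CofW W) (Lp (CofW W) γ) φ) (Lp (CofW W) γ)
  lin : ∀ R ∈ N, IsLin (R ∩ ZFSet.prod N N) → IsLin R
  cof : ∀ R ∈ N, CofW W R → ∃ g : ℕ → ZFSet.{0}, sqSet g ∈ N ∧ (∀ n, g n ∈ N) ∧
    (∀ m n, m < n → g m ≠ g n ∧ pair (g m) (g n) ∈ R) ∧ ∀ a, Fld R a → ∃ n, pair a (g n) ∈ R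
  bd : ∀ R ∈ N, ∀ N' ∈ N, (∃ b, Fld R b ∧ ∀ a ∈ N', Fld R a → pair a b ∈ R ∧ a ≠ b) →
    ∃ b ∈ N, Fld R b ∧ ∀ a ∈ N', Fld R a → pair a b ∈ R ∧ a ≠ b
  cvr : ∀ c ∈ W, c ⊆ N → Inj W c ZFSet.omega → ∃ N' ∈ N, c ⊆ N' ∧ N' ⊆ N

/-! ### Regular ordinals and the coherent sequence -/

/-- `ρ` is an uncountable regular ordinal of `M`. -/
def RegM (M : Set ZFSet.{0}) (ρ : Ordinal.{0}) : Prop :=
  ρ.toZFSet ∈ M ∧ Ordinal.omega0 < ρ ∧ ∀ σ < ρ, ∀ f ∈ M,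
    (∀ p ∈ f, ∃ a ∈ σ.toZFSet, ∃ b ∈ ρ.toZFSet, p = pair a b) →
    (∀ a b b', pair a b ∈ f → pair a b' ∈ f → b = b') →
    ∃ ξ < ρ, ∀ a b, pair a b ∈ f → b ∈ ξ.toZFSet

/-- `κ` is regular in `C*` of `W` and has cofinality `ω` in `W`. -/
def IsK (W : Set ZFSet.{0}) (κ : Ordinal.{0}) : Prop := RegM (Cst W) κ ∧ Cf0 W κ.toZFSet

/-- The least such ordinal. -/
noncomputable def kp (W : Set ZFSet.{0}) : Ordinal.{0} := sInf {κ | IsK W κ}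

/-- `x` is a cofinal sequence of length `ω` in `kp (Cst W)`. -/
def IsSq (W : Set ZFSet.{0}) (x : ZFSet.{0}) : Prop :=
  ∃ g : ℕ → ZFSet.{0}, x = sqSet g ∧ x ∈ Cst W ∧ (∀ n, g n ∈ (kp (Cst W)).toZFSet) ∧
    ∀ y ∈ (kp (Cst W)).toZFSet, ∃ n, y ∈ g n

open Classical in
/-- The canonical least such sequence. -/
noncomputable def ts (W : Set ZFSet.{0}) : ZFSet.{0} :=
  if h : ∃ x, IsCh W (IsSq W) x then h.choose else ∅

end Pool.Agent.helper797_it
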