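import Pool.Agent.helper797_it.Defs

/-! # U1: sequences in a model -/

set_option autoImplicit false
namespace Pool.Agent.helper797_it
open Pool.Agent.W868 Pool.Agent.R587 Pool.Agent.helper797_cs
open ZFSet (pair)

/-- Replacement for definable functions. -/
theorem im_mem' {M : Set ZFSet.{0}} (hM : IsZF M) {F : ZFSet.{0} → ZFSet.{0}}
    (hF : DfnF M M fun w : Fin 1 → ZFSet.{0} => F (w 0)) {x : ZFSet.{0}} (hx : x ∈ M) :
    im F x ∈ M ∧ gr F x ∈ M :=
  ⟨hM.im_mem hx hF, hM.im_mem hx (h := fun u => pair u (F u)) (hM.base.pair' (DfnF.proj 0) hF)⟩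

namespace PU1

theorem mem_sqSet {g : ℕ → ZFSet.{0}} {p : ZFSet.{0}} :
    p ∈ sqSet g ↔ ∃ n, p = pair (nat n) (g n) := by
  rw [sqSet, ZFSet.mem_range]
  constructor
  · rintro ⟨n, rfl⟩
    exact ⟨n, rfl⟩
  · rintro ⟨n, rfl⟩
    exact ⟨n, rfl⟩

theorem nat_trans (n : ℕ) : ∀ x ∈ nat n, ∀ y ∈ x, y ∈ nat n := by
  induction n with
  | zero =>
    intro x hx
    exact absurd hx (ZFSet.notMem_empty x)
  | succ n ih =>
    intro x hx y hy
    rw [nat, ZFSet.mem_insert_iff] at hx ⊢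
    rcases hx with rfl | hx
    · exact Or.inr hy
    · exact Or.inr (ih x hx y hy)

theorem sUnion_nat_succ (n : ℕ) : ZFSet.sUnion (nat (n + 1)) = nat n := by
  ext x
  rw [ZFSet.mem_sUnion]
  constructor
  · rintro ⟨y, hy, hx⟩
    rw [nat, ZFSet.mem_insert_iff] at hy
    rcases hy with rfl | hy
    · exact hx
    · exact nat_trans n y hy x hx
  · intro hx
    refine ⟨nat n, ?_, hx⟩
    rw [nat, ZFSet.mem_insert_iff]
    exact Or.inl rfl

theorem mem_of_sqSet {M : Set ZFSet.{0}} (hM : IsZF M) {f : ℕ → ZFSet.{0}}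
    (h : sqSet f ∈ M) (i : ℕ) : f i ∈ M :=
  (hM.of_pair_mem (hM.trans _ h _ (mem_sqSet.2 ⟨i, rfl⟩))).2

theorem sqSet_succ {M : Set ZFSet.{0}} (hM : IsZF M) {f : ℕ → ZFSet.{0}}
    (h : sqSet f ∈ M) : sqSet (fun i => f (i + 1)) ∈ M := by
  have hB := hM.base
  have h0 := hM.empty_mem
  have h1 : ZFSet.sep (fun p => ¬ fs p = ∅) (sqSet f) ∈ M :=
    hM.sep_mem (Q := fun p => ¬ fs p = ∅)
      (Dfn.not (Dfn.eq (hM.fs' (DfnF.proj 0)) (DfnF.const h0))) h
  have h2 := hM.im_mem h1 (h := fun p => pair (ZFSet.sUnion (fs p)) (sn p))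
    (hB.pair' (hB.sUnion' (hM.fs' (DfnF.proj 0))) (hM.sn' (DfnF.proj 0)))
  have h3 : im (fun p => pair (ZFSet.sUnion (fs p)) (sn p))
      (ZFSet.sep (fun p => ¬ fs p = ∅) (sqSet f)) = sqSet (fun i => f (i + 1)) := by
    ext p
    rw [mem_im, mem_sqSet]
    constructor
    · rintro ⟨q, hq, rfl⟩
      obtain ⟨hq1, hq2⟩ := ZFSet.mem_sep.1 hq
      obtain ⟨n, rfl⟩ := mem_sqSet.1 hq1
      rw [fs_pair] at hq2
      cases n with
      | zero => exact absurd rfl hq2
      | succ n => exact ⟨n, by rw [fs_pair, sn_pair, sUnion_nat_succ]⟩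
    · rintro ⟨n, rfl⟩
      refine ⟨pair (nat (n + 1)) (f (n + 1)), ZFSet.mem_sep.2 ⟨mem_sqSet.2 ⟨_, rfl⟩, ?_⟩, ?_⟩
      · rw [fs_pair]
        intro he
        have hh : nat n ∈ nat (n + 1) := by
          rw [nat, ZFSet.mem_insert_iff]
          exact Or.inl rfl
        rw [he] at hh
        exact ZFSet.notMem_empty _ hh
      · rw [fs_pair, sn_pair, sUnion_nat_succ]
  exact h3 ▸ h2

theorem sqSet_pred {M : Set ZFSet.{0}} (hM : IsZF M) {f : ℕ → ZFSet.{0}} (h0 : f 0 ∈ M)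
    (h : sqSet (fun i => f (i + 1)) ∈ M) : sqSet f ∈ M := by
  have hB := hM.base
  have h2 := hM.im_mem h (h := fun p => pair (insert (fs p) (fs p)) (sn p))
    (hB.pair' (hB.insert' (hM.fs' (DfnF.proj 0)) (hM.fs' (DfnF.proj 0))) (hM.sn' (DfnF.proj 0)))
  have h4 := hM.insert_mem (hM.pair_mem hM.empty_mem h0) h2
  have h3 : insert (pair ∅ (f 0)) (im (fun p => pair (insert (fs p) (fs p)) (sn p))
      (sqSet (fun i => f (i + 1)))) = sqSet f := by
    ext p
    rw [ZFSet.mem_insert_iff, mem_im, mem_sqSet]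
    constructor
    · rintro (rfl | ⟨q, hq, rfl⟩)
      · exact ⟨0, rfl⟩
      · obtain ⟨n, rfl⟩ := mem_sqSet.1 hq
        exact ⟨n + 1, by rw [fs_pair, sn_pair]; rfl⟩
    · rintro ⟨n, rfl⟩
      cases n with
      | zero => exact Or.inl rfl
      | succ n =>
        refine Or.inr ⟨pair (nat n) (f (n + 1)), mem_sqSet.2 ⟨n, rfl⟩, ?_⟩
        rw [fs_pair, sn_pair]
        rfl
  exact h3 ▸ h4

end PU1

/-- The sequence `f 0, f 1, ...` is in `M` if its members are in `M` and it is definable from some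
point on. -/
theorem sqSet_mem {M : Set ZFSet.{0}} (hM : IsZF M) {f : ℕ → ZFSet.{0}} (k : ℕ)
    (h1 : ∀ i < k, f i ∈ M) (h2 : sqSet (fun i => f (k + i)) ∈ M) : sqSet f ∈ M := by
  induction k generalizing f with
  | zero => simpa only [Nat.zero_add] using h2
  | succ k ih =>
    refine PU1.sqSet_pred hM (h1 0 (Nat.succ_pos k)) (ih (f := fun i => f (i + 1)) ?_ ?_)
    · intro i hi
      exact h1 (i + 1) (Nat.succ_lt_succ hi)
    · have e : (fun i => f (k + 1 + i)) = fun i => f (k + i + 1) := by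
        funext i
        rw [Nat.add_right_comm]
      rw [e] at h2
      exact h2

/-- The converse. -/
theorem sqSet_tail {M : Set ZFSet.{0}} (hM : IsZF M) {f : ℕ → ZFSet.{0}} (k : ℕ)
    (h : sqSet f ∈ M) : sqSet (fun i => f (k + i)) ∈ M ∧ ∀ i, f i ∈ M := by
  refine ⟨?_, PU1.mem_of_sqSet hM h⟩
  induction k with
  | zero => simpa only [Nat.zero_add] using h
  | succ k ih =>
    have h1 := PU1.sqSet_succ hM ih
    have e : (fun i => f (k + 1 + i)) = fun i => f (k + (i + 1)) := by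
      funext i
      rw [Nat.add_right_comm, Nat.add_assoc]
    rw [e]
    exact h1

end Pool.Agent.helper797_it
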