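import Pool.Agent.helper797_it.PU0
import Pool.Agent.helper797_it.PU1

/-! # A1: the definable relations and `Def(X)` are definable -/

set_option autoImplicit false
namespace Pool.Agent.helper797_it
open Pool.Agent.W868 Pool.Agent.R587 Pool.Agent.helper797_cs
open ZFSet (pair)

namespace PA1

/-! ### Natural numbers -/

theorem mem_nat {x : ZFSet.{0}} : ∀ {n : ℕ}, x ∈ nat n ↔ ∃ i < n, x = nat i
  | 0 => by
    constructor
    · intro h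
      exact absurd h (ZFSet.notMem_empty _)
    · rintro ⟨i, hi, _⟩
      omega
  | n + 1 => by
    rw [nat, ZFSet.mem_insert_iff, mem_nat (n := n)]
    constructor
    · rintro (rfl | ⟨i, hi, rfl⟩)
      · exact ⟨n, by omega, rfl⟩
      · exact ⟨i, by omega, rfl⟩
    · rintro ⟨i, hi, rfl⟩
      by_cases h : i = n
      · left
        rw [h]
      · right
        exact ⟨i, by omega, rfl⟩

theorem sUnion_nat (n : ℕ) : ZFSet.sUnion (nat (n + 1)) = nat n := by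
  ext x
  rw [ZFSet.mem_sUnion]
  constructor
  · rintro ⟨y, hy, hx⟩
    obtain ⟨i, hi, rfl⟩ := mem_nat.1 hy
    obtain ⟨j, hj, rfl⟩ := mem_nat.1 hx
    exact mem_nat.2 ⟨j, by omega, rfl⟩
  · intro hx
    exact ⟨nat n, mem_nat.2 ⟨n, by omega, rfl⟩, hx⟩

theorem nat_succ_ne (n : ℕ) : nat (n + 1) ≠ ∅ := by
  intro h
  have h1 : nat n ∈ nat (n + 1) := mem_nat.2 ⟨n, by omega, rfl⟩
  rw [h] at h1
  exact ZFSet.notMem_empty _ h1

theorem nat_zero : nat 0 = ∅ := rfl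

/-! ### Lookup in a graph -/

/-- The value of the function `g` at `u`. -/
noncomputable def lk (g u : ZFSet.{0}) : ZFSet.{0} :=
  ZFSet.sUnion (im sn (ZFSet.sep (fun p => fs p = u) g))

theorem lk_gr {F : ZFSet.{0} → ZFSet.{0}} {z u : ZFSet.{0}} (h : u ∈ z) :
    lk (gr F z) u = F u := by
  have h1 : im sn (ZFSet.sep (fun p => fs p = u) (gr F z)) = {F u} := by
    ext y
    rw [mem_im, ZFSet.mem_singleton]
    constructor
    · rintro ⟨p, hp, rfl⟩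
      rw [ZFSet.mem_sep] at hp
      obtain ⟨h2, h3⟩ := hp
      obtain ⟨w, hw, rfl⟩ := mem_gr.1 h2
      rw [fs_pair] at h3
      rw [sn_pair, h3]
    · rintro rfl
      exact ⟨pair u (F u), ZFSet.mem_sep.2 ⟨mem_gr.2 ⟨u, h, rfl⟩, fs_pair _ _⟩,
        (sn_pair _ _).symm⟩
  rw [lk, h1, ZFSet.sUnion_singleton]

section dfn0
variable {M : Set ZFSet.{0}} (hM : IsZF M) {m : ℕ} {F G : (Fin m → ZFSet.{0}) → ZFSet.{0}}

include hM

theorem dfn_lk (hF : DfnF M M F) (hG : DfnF M M G) : DfnF M M fun w => lk (F w) (G w) := by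
  have hB := hM.base
  refine hB.sUnion' (hM.im' (h := fun p _ => sn p) (hM.sep' (Q := fun p w => fs p = G w) hF ?_) ?_)
  · exact Dfn.eq (hM.fs' (DfnF.proj 0)) hG.tail
  · exact hM.sn' (DfnF.proj 0)

end dfn0

/-! ### The powers of a set -/

open Classical in
/-- The step of the recursion. -/
noncomputable def PWG (X z g : ZFSet.{0}) : ZFSet.{0} :=
  if z = ∅ then {∅} else ZFSet.prod X (lk g (ZFSet.sUnion z))

/-- The powers of `X`. -/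
noncomputable def PW (X : ZFSet.{0}) : ZFSet.{0} → ZFSet.{0} :=
  wfF (fun z => z) ZFSet.mem_wf (PWG X)

theorem PW_eq (X z : ZFSet.{0}) : PW X z = PWG X z (gr (PW X) z) := by
  rw [PW, wfF_eq]

theorem PW_nat (X : ZFSet.{0}) : ∀ n : ℕ, PW X (nat n) = pw X n
  | 0 => by
    rw [PW_eq, PWG, if_pos nat_zero]
    rfl
  | n + 1 => by
    rw [PW_eq, PWG, if_neg (nat_succ_ne n), sUnion_nat, lk_gr (mem_nat.2 ⟨n, by omega, rfl⟩),
      PW_nat X n]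
    rfl

open Classical in
/-- The step of the recursion. -/
noncomputable def SXG (t z g : ZFSet.{0}) : ZFSet.{0} :=
  if z = ∅ then t else sn (lk g (ZFSet.sUnion z))

/-- The iterated second component. -/
noncomputable def SX (t : ZFSet.{0}) : ZFSet.{0} → ZFSet.{0} :=
  wfF (fun z => z) ZFSet.mem_wf (SXG t)

theorem SX_eq (t z : ZFSet.{0}) : SX t z = SXG t z (gr (SX t) z) := by
  rw [SX, wfF_eq]

theorem SX_zero (t : ZFSet.{0}) : SX t (nat 0) = t := by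
  rw [SX_eq, SXG, if_pos nat_zero]

theorem SX_succ (t : ZFSet.{0}) (n : ℕ) : SX t (nat (n + 1)) = sn (SX t (nat n)) := by
  rw [SX_eq, SXG, if_neg (nat_succ_ne n), sUnion_nat, lk_gr (mem_nat.2 ⟨n, by omega, rfl⟩)]

theorem SX_succ' (t : ZFSet.{0}) (n : ℕ) : SX t (nat (n + 1)) = SX (sn t) (nat n) := by
  induction n with
  | zero => rw [SX_succ, SX_zero, SX_zero]
  | succ n ih => rw [SX_succ, ih, SX_succ]

theorem fs_SX : ∀ {n : ℕ} (v : Fin n → ZFSet.{0}) (i : ℕ) (h : i < n),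
    fs (SX (tup v) (nat i)) = v ⟨i, h⟩
  | 0, _, _, h => absurd h (Nat.not_lt_zero _)
  | n + 1, v, 0, h => by
    rw [SX_zero, tup, fs_pair]
    rfl
  | n + 1, v, i + 1, h => by
    rw [SX_succ', tup, sn_pair, fs_SX (Fin.tail v) i (by omega)]
    rfl

section dfn1
variable {M : Set ZFSet.{0}} (hM : IsZF M) {m : ℕ} {F G : (Fin m → ZFSet.{0}) → ZFSet.{0}}

include hM

theorem dfn_PW (hF : DfnF M M F) (hG : DfnF M M G) : DfnF M M fun w => PW (F w) (G w) := by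
  have hB := hM.base
  refine DfnF.comp2 (f := PW) (memrec2 hM (G := PWG) ?_ PW_eq) hF hG
  refine DfnF.ite ?_ ?_ ?_
  · exact Dfn.eq (DfnF.proj 1) (DfnF.const hM.empty_mem)
  · exact DfnF.const (hM.single_mem hM.empty_mem)
  · exact hM.prod' (DfnF.proj 0) (dfn_lk hM (DfnF.proj 2) (hB.sUnion' (DfnF.proj 1)))

theorem dfn_SX (hF : DfnF M M F) (hG : DfnF M M G) : DfnF M M fun w => SX (F w) (G w) := by
  have hB := hM.base
  refine DfnF.comp2 (f := SX) (memrec2 hM (G := SXG) ?_ SX_eq) hF hG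
  refine DfnF.ite ?_ ?_ ?_
  · exact Dfn.eq (DfnF.proj 1) (DfnF.const hM.empty_mem)
  · exact DfnF.proj 0
  · exact hM.sn' (dfn_lk hM (DfnF.proj 2) (hB.sUnion' (DfnF.proj 1)))

end dfn1

/-! ### The relations -/

theorem tup_mem_rl {K : ZFSet.{0} → Prop} {X : ZFSet.{0}} {n : ℕ} {φ : FmQ n}
    {v : Fin n → ZFSet.{0}} (hv : ∀ i, v i ∈ X) : tup v ∈ rl K X φ ↔ φ.Sat K X v := by
  rw [rl, ZFSet.mem_sep]
  constructor
  · rintro ⟨-, w, hw, h⟩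
    rwa [tup_inj hw]
  · intro h
    exact ⟨mem_pw.2 ⟨v, hv, rfl⟩, v, rfl, h⟩

theorem rl_sub {K : ZFSet.{0} → Prop} {X : ZFSet.{0}} {n : ℕ} {φ : FmQ n} {t : ZFSet.{0}}
    (h : t ∈ rl K X φ) : t ∈ pw X n := (ZFSet.mem_sep.1 h).1

theorem rl_ext {K : ZFSet.{0} → Prop} {X R : ZFSet.{0}} {n : ℕ} {φ : FmQ n}
    (h : ∀ t ∈ R, t ∈ pw X n)
    (h' : ∀ v : Fin n → ZFSet.{0}, (∀ i, v i ∈ X) → (tup v ∈ R ↔ φ.Sat K X v)) :
    R = rl K X φ := by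
  ext t
  constructor
  · intro ht
    obtain ⟨v, hv, rfl⟩ := mem_pw.1 (h t ht)
    exact (tup_mem_rl hv).2 ((h' v hv).1 ht)
  · intro ht
    obtain ⟨v, hv, rfl⟩ := mem_pw.1 (rl_sub ht)
    exact (h' v hv).2 ((tup_mem_rl hv).1 ht)

theorem cons_mem {X a : ZFSet.{0}} {n : ℕ} {v : Fin n → ZFSet.{0}} (ha : a ∈ X)
    (hv : ∀ i, v i ∈ X) : ∀ i, (Fin.cons a v : Fin (n + 1) → ZFSet.{0}) i ∈ X := by
  intro i
  refine Fin.cases ?_ (fun i => ?_) i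
  · exact ha
  · exact hv i

theorem pair_mem_rl {K : ZFSet.{0} → Prop} {X a : ZFSet.{0}} {n : ℕ} {φ : FmQ (n + 1)}
    {v : Fin n → ZFSet.{0}} (ha : a ∈ X) (hv : ∀ i, v i ∈ X) :
    pair a (tup v) ∈ rl K X φ ↔ φ.Sat K X (Fin.cons a v) := by
  rw [← tup_cons, tup_mem_rl (cons_mem ha hv)]

theorem pair2_mem_rl {K : ZFSet.{0} → Prop} {X a b : ZFSet.{0}} {n : ℕ} {φ : FmQ (n + 2)}
    {v : Fin n → ZFSet.{0}} (ha : a ∈ X) (hb : b ∈ X) (hv : ∀ i, v i ∈ X) :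
    pair a (pair b (tup v)) ∈ rl K X φ ↔ φ.Sat K X (Fin.cons a (Fin.cons b v)) := by
  rw [← tup_cons, pair_mem_rl ha (cons_mem hb hv)]

/-! ### The operations on the coded relations -/

/-- Negation. -/
noncomputable def ng (X q : ZFSet.{0}) : ZFSet.{0} :=
  pair (fs q) (ZFSet.sep (fun t => t ∉ sn q) (PW X (fs q)))

/-- Conjunction. -/
noncomputable def an (q : ZFSet.{0}) : ZFSet.{0} :=
  pair (fs (fs q)) (ZFSet.sep (fun t => t ∈ sn (sn q)) (sn (fs q)))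

/-- The existential quantifier. -/
noncomputable def exq (X q : ZFSet.{0}) : ZFSet.{0} :=
  pair (ZFSet.sUnion (fs q))
    (ZFSet.sep (fun t => ∃ x ∈ X, pair x t ∈ sn q) (PW X (ZFSet.sUnion (fs q))))

/-- The set of the pairs that is used in the quantifier. -/
noncomputable def qs (X R t : ZFSet.{0}) : ZFSet.{0} :=
  ZFSet.sep (fun p => ∃ x ∈ X, ∃ y ∈ X, p = pair x y ∧ pair x (pair y t) ∈ R) (ZFSet.prod X X)

/-- The quantifier. -/
noncomputable def qc (K : ZFSet.{0} → ZFSet.{0} → Prop) (p q : ZFSet.{0}) : ZFSet.{0} :=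
  pair (ZFSet.sUnion (ZFSet.sUnion (fs q)))
    (ZFSet.sep (fun t => K (fs p) (qs (sn p) (sn q) t))
      (PW (sn p) (ZFSet.sUnion (ZFSet.sUnion (fs q)))))

/-- One step. The parameter `p` is the pair of the parameter of `K` and `X`. -/
noncomputable def TT (K : ZFSet.{0} → ZFSet.{0} → Prop) (p Y : ZFSet.{0}) : ZFSet.{0} :=
  Y ∪ (im (fun q => ng (sn p) q) Y ∪
    (im an (ZFSet.sep (fun q => fs (fs q) = fs (sn q)) (ZFSet.prod Y Y)) ∪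
    (im (fun q => exq (sn p) q) (ZFSet.sep (fun q => fs q ≠ ∅) Y) ∪
    im (fun q => qc K p q) (ZFSet.sep (fun q => fs q ≠ ∅ ∧ ZFSet.sUnion (fs q) ≠ ∅) Y))))

/-- The atomic relations. -/
noncomputable def BB (X : ZFSet.{0}) : ZFSet.{0} :=
  im (fun q => pair (fs q) (ZFSet.sep
    (fun t => fs (SX t (fs (sn q))) ∈ fs (SX t (sn (sn q)))) (PW X (fs q))))
    (ZFSet.sep (fun q => fs (sn q) ∈ fs q ∧ sn (sn q) ∈ fs q)
      (ZFSet.prod ZFSet.omega (ZFSet.prod ZFSet.omega ZFSet.omega))) ∪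
  im (fun q => pair (fs q) (ZFSet.sep
    (fun t => fs (SX t (fs (sn q))) = fs (SX t (sn (sn q)))) (PW X (fs q))))
    (ZFSet.sep (fun q => fs (sn q) ∈ fs q ∧ sn (sn q) ∈ fs q)
      (ZFSet.prod ZFSet.omega (ZFSet.prod ZFSet.omega ZFSet.omega)))

/-- The step of the recursion. -/
noncomputable def YG (K : ZFSet.{0} → ZFSet.{0} → Prop) (p _z g : ZFSet.{0}) : ZFSet.{0} :=
  BB (sn p) ∪ ZFSet.sUnion (im (fun q => TT K p (sn q)) g)

/-- The iteration. -/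
noncomputable def YY (K : ZFSet.{0} → ZFSet.{0} → Prop) (p : ZFSet.{0}) : ZFSet.{0} → ZFSet.{0} :=
  wfF (fun z => z) ZFSet.mem_wf (YG K p)

theorem YY_eq (K : ZFSet.{0} → ZFSet.{0} → Prop) (p z : ZFSet.{0}) :
    YY K p z = YG K p z (gr (YY K p) z) := by
  rw [YY, wfF_eq]

theorem mem_YY {K : ZFSet.{0} → ZFSet.{0} → Prop} {p z y : ZFSet.{0}} :
    y ∈ YY K p z ↔ y ∈ BB (sn p) ∨ ∃ u ∈ z, y ∈ TT K p (YY K p u) := by
  rw [YY_eq, YG, ZFSet.mem_union, ZFSet.mem_sUnion]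
  refine or_congr Iff.rfl ?_
  constructor
  · rintro ⟨w, hw, h⟩
    obtain ⟨q, hq, rfl⟩ := mem_im.1 hw
    obtain ⟨u, hu, rfl⟩ := mem_gr.1 hq
    rw [sn_pair] at h
    exact ⟨u, hu, h⟩
  · rintro ⟨u, hu, h⟩
    exact ⟨_, mem_im.2 ⟨_, mem_gr.2 ⟨u, hu, rfl⟩, rfl⟩, by rwa [sn_pair]⟩

theorem YY_mono {K : ZFSet.{0} → ZFSet.{0} → Prop} {p z z' : ZFSet.{0}} (h : z ⊆ z') :
    YY K p z ⊆ YY K p z' := by
  intro y hy
  rcases mem_YY.1 hy with h1 | ⟨u, hu, h1⟩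
  · exact mem_YY.2 (Or.inl h1)
  · exact mem_YY.2 (Or.inr ⟨u, h hu, h1⟩)

/-- The codes of the definable relations. -/
def Gdr (K : ZFSet.{0} → ZFSet.{0} → Prop) (a X q : ZFSet.{0}) : Prop :=
  ∃ (n : ℕ) (φ : FmQ n), q = pair (nat n) (rl (K a) X φ)

theorem co_tup {n : ℕ} (v : Fin n → ZFSet.{0}) (i : Fin n) :
    fs (SX (tup v) (nat i)) = v i := fs_SX v i.1 i.2

theorem rl_memF (K : ZFSet.{0} → Prop) (X : ZFSet.{0}) {n : ℕ} (i j : Fin n) :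
    ZFSet.sep (fun t => fs (SX t (nat i)) ∈ fs (SX t (nat j))) (PW X (nat n)) =
      rl K X (.mem i j) := by
  rw [PW_nat]
  refine rl_ext (fun t ht => (ZFSet.mem_sep.1 ht).1) fun v hv => ?_
  rw [ZFSet.mem_sep, co_tup, co_tup]
  exact ⟨fun h => h.2, fun h => ⟨mem_pw.2 ⟨v, hv, rfl⟩, h⟩⟩

theorem rl_eqF (K : ZFSet.{0} → Prop) (X : ZFSet.{0}) {n : ℕ} (i j : Fin n) :
    ZFSet.sep (fun t => fs (SX t (nat i)) = fs (SX t (nat j))) (PW X (nat n)) =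
      rl K X (.eq i j) := by
  rw [PW_nat]
  refine rl_ext (fun t ht => (ZFSet.mem_sep.1 ht).1) fun v hv => ?_
  rw [ZFSet.mem_sep, co_tup, co_tup]
  exact ⟨fun h => h.2, fun h => ⟨mem_pw.2 ⟨v, hv, rfl⟩, h⟩⟩

theorem ng_rl (K : ZFSet.{0} → Prop) (X : ZFSet.{0}) {n : ℕ} (φ : FmQ n) :
    ng X (pair (nat n) (rl K X φ)) = pair (nat n) (rl K X (.neg φ)) := by
  rw [ng, fs_pair, sn_pair, PW_nat]
  congr 1
  refine rl_ext (fun t ht => (ZFSet.mem_sep.1 ht).1) fun v hv => ?_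
  rw [ZFSet.mem_sep, tup_mem_rl hv]
  exact ⟨fun h => h.2, fun h => ⟨mem_pw.2 ⟨v, hv, rfl⟩, h⟩⟩

theorem an_rl (K : ZFSet.{0} → Prop) (X : ZFSet.{0}) {n : ℕ} (φ ψ : FmQ n) :
    an (pair (pair (nat n) (rl K X φ)) (pair (nat n) (rl K X ψ))) =
      pair (nat n) (rl K X (.and φ ψ)) := by
  rw [an, fs_pair, sn_pair, fs_pair, sn_pair, sn_pair]
  congr 1
  refine rl_ext (fun t ht => rl_sub (ZFSet.mem_sep.1 ht).1) fun v hv => ?_
  rw [ZFSet.mem_sep, tup_mem_rl hv, tup_mem_rl hv]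
  exact Iff.rfl

theorem exq_rl (K : ZFSet.{0} → Prop) (X : ZFSet.{0}) {n : ℕ} (φ : FmQ (n + 1)) :
    exq X (pair (nat (n + 1)) (rl K X φ)) = pair (nat n) (rl K X (.ex φ)) := by
  rw [exq, fs_pair, sn_pair, sUnion_nat, PW_nat]
  congr 1
  refine rl_ext (fun t ht => (ZFSet.mem_sep.1 ht).1) fun v hv => ?_
  rw [ZFSet.mem_sep]
  constructor
  · rintro ⟨-, x, hx, h⟩
    exact ⟨x, hx, (pair_mem_rl hx hv).1 h⟩
  · rintro ⟨x, hx, h⟩
    exact ⟨mem_pw.2 ⟨v, hv, rfl⟩, x, hx, (pair_mem_rl hx hv).2 h⟩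

theorem qs_rl (K : ZFSet.{0} → Prop) (X : ZFSet.{0}) {n : ℕ} (φ : FmQ (n + 2))
    {v : Fin n → ZFSet.{0}} (hv : ∀ i, v i ∈ X) :
    qs X (rl K X φ) (tup v) = ZFSet.sep (fun p => ∃ a ∈ X, ∃ b ∈ X, p = pair a b ∧
      φ.Sat K X (Fin.cons a (Fin.cons b v))) (ZFSet.prod X X) := by
  ext p
  rw [qs, ZFSet.mem_sep, ZFSet.mem_sep]
  refine and_congr_right fun _ => ?_
  constructor
  · rintro ⟨a, ha, b, hb, rfl, h⟩
    exact ⟨a, ha, b, hb, rfl, (pair2_mem_rl ha hb hv).1 h⟩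
  · rintro ⟨a, ha, b, hb, rfl, h⟩
    exact ⟨a, ha, b, hb, rfl, (pair2_mem_rl ha hb hv).2 h⟩

theorem qc_rl (K : ZFSet.{0} → ZFSet.{0} → Prop) (a X : ZFSet.{0}) {n : ℕ} (φ : FmQ (n + 2)) :
    qc K (pair a X) (pair (nat (n + 2)) (rl (K a) X φ)) =
      pair (nat n) (rl (K a) X (.qcf φ)) := by
  rw [qc, fs_pair, fs_pair, sn_pair, sn_pair, sUnion_nat, sUnion_nat, PW_nat]
  congr 1
  refine rl_ext (fun t ht => (ZFSet.mem_sep.1 ht).1) fun v hv => ?_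
  rw [ZFSet.mem_sep, qs_rl (K a) X φ hv]
  exact ⟨fun h => h.2, fun h => ⟨mem_pw.2 ⟨v, hv, rfl⟩, h⟩⟩

theorem BB_sound {K : ZFSet.{0} → ZFSet.{0} → Prop} {a X q : ZFSet.{0}} (h : q ∈ BB X) :
    Gdr K a X q := by
  rw [BB, ZFSet.mem_union] at h
  rcases h with h | h
  · obtain ⟨r, hr, rfl⟩ := mem_im.1 h
    obtain ⟨h1, h2, h3⟩ := ZFSet.mem_sep.1 hr
    obtain ⟨n', hn, s, hs, rfl⟩ := ZFSet.mem_prod.1 h1
    obtain ⟨i', hi, j', hj, rfl⟩ := ZFSet.mem_prod.1 hs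
    simp only [fs_pair, sn_pair] at h2 h3 ⊢
    obtain ⟨n, rfl⟩ := mem_omega_iff.1 hn
    obtain ⟨i, hi', rfl⟩ := mem_nat.1 h2
    obtain ⟨j, hj', rfl⟩ := mem_nat.1 h3
    exact ⟨n, .mem ⟨i, hi'⟩ ⟨j, hj'⟩, by rw [← rl_memF (K a) X ⟨i, hi'⟩ ⟨j, hj'⟩]⟩
  · obtain ⟨r, hr, rfl⟩ := mem_im.1 h
    obtain ⟨h1, h2, h3⟩ := ZFSet.mem_sep.1 hr
    obtain ⟨n', hn, s, hs, rfl⟩ := ZFSet.mem_prod.1 h1
    obtain ⟨i', hi, j', hj, rfl⟩ := ZFSet.mem_prod.1 hs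
    simp only [fs_pair, sn_pair] at h2 h3 ⊢
    obtain ⟨n, rfl⟩ := mem_omega_iff.1 hn
    obtain ⟨i, hi', rfl⟩ := mem_nat.1 h2
    obtain ⟨j, hj', rfl⟩ := mem_nat.1 h3
    exact ⟨n, .eq ⟨i, hi'⟩ ⟨j, hj'⟩, by rw [← rl_eqF (K a) X ⟨i, hi'⟩ ⟨j, hj'⟩]⟩

theorem BB_mem (K : ZFSet.{0} → Prop) (X : ZFSet.{0}) {n : ℕ} (i j : Fin n) :
    pair (nat n) (rl K X (.mem i j)) ∈ BB X := by
  rw [BB, ZFSet.mem_union]
  left
  refine mem_im.2 ⟨pair (nat n) (pair (nat i) (nat j)), ?_, ?_⟩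
  · rw [ZFSet.mem_sep]
    simp only [fs_pair, sn_pair]
    refine ⟨?_, mem_nat.2 ⟨i, i.2, rfl⟩, mem_nat.2 ⟨j, j.2, rfl⟩⟩
    rw [ZFSet.pair_mem_prod, ZFSet.pair_mem_prod]
    exact ⟨nat_mem_omega _, nat_mem_omega _, nat_mem_omega _⟩
  · simp only [fs_pair, sn_pair]
    rw [rl_memF K X i j]

theorem BB_eq (K : ZFSet.{0} → Prop) (X : ZFSet.{0}) {n : ℕ} (i j : Fin n) :
    pair (nat n) (rl K X (.eq i j)) ∈ BB X := by
  rw [BB, ZFSet.mem_union]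
  right
  refine mem_im.2 ⟨pair (nat n) (pair (nat i) (nat j)), ?_, ?_⟩
  · rw [ZFSet.mem_sep]
    simp only [fs_pair, sn_pair]
    refine ⟨?_, mem_nat.2 ⟨i, i.2, rfl⟩, mem_nat.2 ⟨j, j.2, rfl⟩⟩
    rw [ZFSet.pair_mem_prod, ZFSet.pair_mem_prod]
    exact ⟨nat_mem_omega _, nat_mem_omega _, nat_mem_omega _⟩
  · simp only [fs_pair, sn_pair]
    rw [rl_eqF K X i j]

theorem mem_TT {K : ZFSet.{0} → ZFSet.{0} → Prop} {p Y y : ZFSet.{0}} : y ∈ TT K p Y ↔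
    y ∈ Y ∨ (∃ q ∈ Y, y = ng (sn p) q) ∨
    (∃ q ∈ Y, ∃ r ∈ Y, fs q = fs r ∧ y = an (pair q r)) ∨
    (∃ q ∈ Y, fs q ≠ ∅ ∧ y = exq (sn p) q) ∨
    (∃ q ∈ Y, fs q ≠ ∅ ∧ ZFSet.sUnion (fs q) ≠ ∅ ∧ y = qc K p q) := by
  simp only [TT, ZFSet.mem_union, mem_im, ZFSet.mem_sep]
  refine or_congr Iff.rfl (or_congr Iff.rfl (or_congr ?_ (or_congr ?_ ?_)))
  · constructor
    · rintro ⟨s, ⟨h1, h2⟩, rfl⟩
      obtain ⟨q, hq, r, hr, rfl⟩ := ZFSet.mem_prod.1 h1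
      rw [fs_pair, sn_pair] at h2
      exact ⟨q, hq, r, hr, h2, rfl⟩
    · rintro ⟨q, hq, r, hr, h, rfl⟩
      exact ⟨pair q r, ⟨ZFSet.pair_mem_prod.2 ⟨hq, hr⟩, by rw [fs_pair, sn_pair, h]⟩, rfl⟩
  · constructor
    · rintro ⟨q, ⟨h1, h2⟩, rfl⟩
      exact ⟨q, h1, h2, rfl⟩
    · rintro ⟨q, h1, h2, rfl⟩
      exact ⟨q, ⟨h1, h2⟩, rfl⟩
  · constructor
    · rintro ⟨q, ⟨h1, h2, h3⟩, rfl⟩
      exact ⟨q, h1, h2, h3, rfl⟩
    · rintro ⟨q, h1, h2, h3, rfl⟩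
      exact ⟨q, ⟨h1, h2, h3⟩, rfl⟩

theorem TT_sound {K : ZFSet.{0} → ZFSet.{0} → Prop} {a X Y : ZFSet.{0}}
    (hY : ∀ q ∈ Y, Gdr K a X q) {y : ZFSet.{0}} (h : y ∈ TT K (pair a X) Y) : Gdr K a X y := by
  rcases mem_TT.1 h with h | ⟨q, hq, rfl⟩ | ⟨q, hq, r, hr, h1, rfl⟩ | ⟨q, hq, h1, rfl⟩ |
    ⟨q, hq, h1, h2, rfl⟩
  · exact hY y h
  · obtain ⟨n, φ, rfl⟩ := hY q hq
    rw [sn_pair]
    exact ⟨n, _, ng_rl _ _ _⟩
  · obtain ⟨n, φ, rfl⟩ := hY q hq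
    obtain ⟨m, ψ, rfl⟩ := hY r hr
    rw [fs_pair, fs_pair] at h1
    obtain rfl := nat_injective h1
    exact ⟨n, _, an_rl _ _ _ _⟩
  · obtain ⟨n, φ, rfl⟩ := hY q hq
    rw [fs_pair] at h1
    rw [sn_pair]
    cases n with
    | zero => exact absurd rfl h1
    | succ n => exact ⟨n, _, exq_rl _ _ _⟩
  · obtain ⟨n, φ, rfl⟩ := hY q hq
    rw [fs_pair] at h1 h2
    cases n with
    | zero => exact absurd rfl h1
    | succ n =>
      rw [sUnion_nat] at h2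
      cases n with
      | zero => exact absurd rfl h2
      | succ n => exact ⟨n, _, qc_rl _ _ _ _⟩

theorem YY_sound {K : ZFSet.{0} → ZFSet.{0} → Prop} {a X : ZFSet.{0}} (z : ZFSet.{0}) :
    ∀ y ∈ YY K (pair a X) z, Gdr K a X y := by
  induction z using ZFSet.mem_wf.induction with
  | _ z ih =>
  intro y hy
  rcases mem_YY.1 hy with h | ⟨u, hu, h⟩
  · rw [sn_pair] at h
    exact BB_sound h
  · exact TT_sound (ih u hu) h

theorem YY_complete (K : ZFSet.{0} → ZFSet.{0} → Prop) (a X : ZFSet.{0}) {n : ℕ} (φ : FmQ n) :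
    ∃ k : ℕ, pair (nat n) (rl (K a) X φ) ∈ YY K (pair a X) (nat k) := by
  induction φ with
  | mem i j =>
    refine ⟨0, mem_YY.2 (Or.inl ?_)⟩
    rw [sn_pair]
    exact BB_mem _ _ _ _
  | eq i j =>
    refine ⟨0, mem_YY.2 (Or.inl ?_)⟩
    rw [sn_pair]
    exact BB_eq _ _ _ _
  | neg φ ih =>
    obtain ⟨k, hk⟩ := ih
    refine ⟨k + 1, mem_YY.2 (Or.inr ⟨nat k, mem_nat.2 ⟨k, by omega, rfl⟩, mem_TT.2 ?_⟩)⟩
    right; left
    exact ⟨_, hk, by rw [sn_pair, ng_rl]⟩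
  | and φ ψ ih ih' =>
    obtain ⟨k, hk⟩ := ih
    obtain ⟨l, hl⟩ := ih'
    refine ⟨max k l + 1, mem_YY.2 (Or.inr ⟨nat (max k l), mem_nat.2 ⟨_, by omega, rfl⟩,
      mem_TT.2 ?_⟩)⟩
    right; right; left
    exact ⟨_, YY_mono (nat_subset (le_max_left k l)) hk, _,
      YY_mono (nat_subset (le_max_right k l)) hl, by rw [fs_pair, fs_pair], by rw [an_rl]⟩
  | ex φ ih =>
    obtain ⟨k, hk⟩ := ih
    refine ⟨k + 1, mem_YY.2 (Or.inr ⟨nat k, mem_nat.2 ⟨k, by omega, rfl⟩, mem_TT.2 ?_⟩)⟩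
    right; right; right; left
    exact ⟨_, hk, by rw [fs_pair]; exact nat_succ_ne _, by rw [sn_pair, exq_rl]⟩
  | qcf φ ih =>
    obtain ⟨k, hk⟩ := ih
    refine ⟨k + 1, mem_YY.2 (Or.inr ⟨nat k, mem_nat.2 ⟨k, by omega, rfl⟩, mem_TT.2 ?_⟩)⟩
    right; right; right; right
    refine ⟨_, hk, ?_, ?_, ?_⟩
    · rw [fs_pair]
      exact nat_succ_ne _
    · rw [fs_pair, sUnion_nat]
      exact nat_succ_ne _
    · rw [qc_rl]

theorem YY_omega (K : ZFSet.{0} → ZFSet.{0} → Prop) (a X q : ZFSet.{0}) :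
    q ∈ YY K (pair a X) ZFSet.omega ↔ Gdr K a X q := by
  constructor
  · exact YY_sound _ q
  · rintro ⟨n, φ, rfl⟩
    obtain ⟨k, hk⟩ := YY_complete K a X φ
    exact YY_mono nat_subset_omega hk

theorem Rels_eq (K : ZFSet.{0} → ZFSet.{0} → Prop) (a X : ZFSet.{0}) :
    Rels (K a) X = im (fun q => pair (PW X (fs q)) (sn q)) (YY K (pair a X) ZFSet.omega) := by
  ext y
  rw [Rels, ZFSet.mem_range, mem_im]
  constructor
  · rintro ⟨⟨n, φ⟩, rfl⟩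
    refine ⟨pair (nat n) (rl (K a) X φ), (YY_omega K a X _).2 ⟨n, φ, rfl⟩, ?_⟩
    rw [fs_pair, sn_pair, PW_nat]
  · rintro ⟨q, hq, rfl⟩
    obtain ⟨n, φ, rfl⟩ := (YY_omega K a X _).1 hq
    refine ⟨⟨n, φ⟩, ?_⟩
    rw [fs_pair, sn_pair, PW_nat]

/-- The sections. -/
noncomputable def sct (X R t : ZFSet.{0}) : ZFSet.{0} :=
  ZFSet.sep (fun a => pair a t ∈ R) X

theorem defQ_iff {K : ZFSet.{0} → Prop} {X Y : ZFSet.{0}} : Y ∈ DefQ K X ↔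
    ∃ (n : ℕ) (φ : FmQ (n + 1)) (v : Fin n → ZFSet.{0}), (∀ i, v i ∈ X) ∧
      Y = ZFSet.sep (fun a => pair a (tup v) ∈ rl K X φ) X := by
  rw [DefQ, ZFSet.mem_sep]
  constructor
  · rintro ⟨-, n, φ, v, hv, h⟩
    refine ⟨n, φ, v, hv, ?_⟩
    ext a
    rw [ZFSet.mem_sep, h a]
    exact and_congr_right fun ha => (pair_mem_rl ha hv).symm
  · rintro ⟨n, φ, v, hv, rfl⟩
    refine ⟨ZFSet.mem_powerset.2 fun a ha => (ZFSet.mem_sep.1 ha).1, n, φ, v, hv, fun a => ?_⟩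
    rw [ZFSet.mem_sep]
    exact and_congr_right fun ha => pair_mem_rl ha hv

theorem DefQ_eq (K : ZFSet.{0} → ZFSet.{0} → Prop) (a X : ZFSet.{0}) :
    DefQ (K a) X = ZFSet.sUnion (im (fun q => im (fun t => sct X (sn q) t)
      (PW X (ZFSet.sUnion (fs q)))) (ZFSet.sep (fun q => fs q ≠ ∅)
        (YY K (pair a X) ZFSet.omega))) := by
  ext y
  rw [defQ_iff, ZFSet.mem_sUnion]
  constructor
  · rintro ⟨n, φ, v, hv, rfl⟩
    refine ⟨_, mem_im.2 ⟨pair (nat (n + 1)) (rl (K a) X φ), ?_, rfl⟩, ?_⟩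
    · rw [ZFSet.mem_sep, fs_pair]
      exact ⟨(YY_omega K a X _).2 ⟨n + 1, φ, rfl⟩, nat_succ_ne n⟩
    · rw [mem_im, fs_pair, sn_pair, sUnion_nat, PW_nat]
      exact ⟨tup v, mem_pw.2 ⟨v, hv, rfl⟩, rfl⟩
  · rintro ⟨z, hz, hy⟩
    obtain ⟨q, hq, rfl⟩ := mem_im.1 hz
    obtain ⟨h1, h2⟩ := ZFSet.mem_sep.1 hq
    obtain ⟨n, φ, rfl⟩ := (YY_omega K a X _).1 h1
    rw [fs_pair] at h2
    cases n with
    | zero => exact absurd rfl h2
    | succ n =>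
      rw [mem_im, fs_pair, sn_pair, sUnion_nat, PW_nat] at hy
      obtain ⟨t, ht, rfl⟩ := hy
      obtain ⟨v, hv, rfl⟩ := mem_pw.1 ht
      exact ⟨n, φ, v, hv, rfl⟩

section dfn2

variable {M : Set ZFSet.{0}} (hM : IsZF M) {m : ℕ} {F G H : (Fin m → ZFSet.{0}) → ZFSet.{0}}

include hM

theorem dfn_ng (hF : DfnF M M F) (hG : DfnF M M G) : DfnF M M fun w => ng (F w) (G w) := by
  have hB := hM.base
  refine hB.pair' (hM.fs' hG) (hM.sep' (Q := fun t w => t ∉ sn (G w))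
    (dfn_PW hM hF (hM.fs' hG)) ?_)
  exact (Dfn.mem (DfnF.proj 0) (hM.sn' hG.tail)).not

theorem dfn_an (hG : DfnF M M G) : DfnF M M fun w => an (G w) := by
  have hB := hM.base
  refine hB.pair' (hM.fs' (hM.fs' hG)) (hM.sep' (Q := fun t w => t ∈ sn (sn (G w)))
    (hM.sn' (hM.fs' hG)) ?_)
  exact Dfn.mem (DfnF.proj 0) (hM.sn' (hM.sn' hG.tail))

theorem dfn_exq (hF : DfnF M M F) (hG : DfnF M M G) : DfnF M M fun w => exq (F w) (G w) := by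
  have hB := hM.base
  refine hB.pair' (hB.sUnion' (hM.fs' hG)) (hM.sep'
    (Q := fun t w => ∃ x ∈ F w, pair x t ∈ sn (G w))
    (dfn_PW hM hF (hB.sUnion' (hM.fs' hG))) ?_)
  refine hB.bex hF.tail ?_
  exact Dfn.mem (hB.pair' (DfnF.proj 0) (DfnF.proj 1)) (hM.sn' hG.tail.tail)

theorem dfn_qs (hF : DfnF M M F) (hG : DfnF M M G) (hH : DfnF M M H) :
    DfnF M M fun w => qs (F w) (G w) (H w) := by
  have hB := hM.base
  refine hM.sep' (Q := fun p w => ∃ x ∈ F w, ∃ y ∈ F w, p = pair x y ∧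
    pair x (pair y (H w)) ∈ G w) (hM.prod' hF hF) ?_
  refine hB.bex hF.tail (hB.bex hF.tail.tail ?_)
  refine Dfn.and ?_ ?_
  · exact Dfn.eq (DfnF.proj 2) (hB.pair' (DfnF.proj 1) (DfnF.proj 0))
  · exact Dfn.mem (hB.pair' (DfnF.proj 1) (hB.pair' (DfnF.proj 0) hH.tail.tail.tail))
      hG.tail.tail.tail

theorem dfn_sct (hF : DfnF M M F) (hG : DfnF M M G) (hH : DfnF M M H) :
    DfnF M M fun w => sct (F w) (G w) (H w) := by
  have hB := hM.base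
  refine hM.sep' (Q := fun p w => pair p (H w) ∈ G w) hF ?_
  exact Dfn.mem (hB.pair' (DfnF.proj 0) hH.tail) hG.tail

theorem dfn_BB (hF : DfnF M M F) : DfnF M M fun w => BB (F w) := by
  have hB := hM.base
  have hs : DfnF M M fun _ : Fin m → ZFSet.{0} =>
      ZFSet.sep (fun q => fs (sn q) ∈ fs q ∧ sn (sn q) ∈ fs q)
      (ZFSet.prod ZFSet.omega (ZFSet.prod ZFSet.omega ZFSet.omega)) := by
    refine hM.sep' (Q := fun q _ => fs (sn q) ∈ fs q ∧ sn (sn q) ∈ fs q) (DfnF.const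
      (hM.prod_mem hM.infinity (hM.prod_mem hM.infinity hM.infinity))) ?_
    exact (Dfn.mem (hM.fs' (hM.sn' (DfnF.proj 0))) (hM.fs' (DfnF.proj 0))).and
      (Dfn.mem (hM.sn' (hM.sn' (DfnF.proj 0))) (hM.fs' (DfnF.proj 0)))
  refine hB.union' ?_ ?_
  · refine hM.im' (h := fun q w => pair (fs q) (ZFSet.sep
      (fun t => fs (SX t (fs (sn q))) ∈ fs (SX t (sn (sn q)))) (PW (F w) (fs q)))) hs ?_
    refine hB.pair' (hM.fs' (DfnF.proj 0)) (hM.sep'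
      (Q := fun t w => fs (SX t (fs (sn (w 0)))) ∈ fs (SX t (sn (sn (w 0)))))
      (dfn_PW hM hF.tail (hM.fs' (DfnF.proj 0))) ?_)
    exact Dfn.mem (hM.fs' (dfn_SX hM (DfnF.proj 0) (hM.fs' (hM.sn' (DfnF.proj 1)))))
      (hM.fs' (dfn_SX hM (DfnF.proj 0) (hM.sn' (hM.sn' (DfnF.proj 1)))))
  · refine hM.im' (h := fun q w => pair (fs q) (ZFSet.sep
      (fun t => fs (SX t (fs (sn q))) = fs (SX t (sn (sn q)))) (PW (F w) (fs q)))) hs ?_
    refine hB.pair' (hM.fs' (DfnF.proj 0)) (hM.sep'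
      (Q := fun t w => fs (SX t (fs (sn (w 0)))) = fs (SX t (sn (sn (w 0)))))
      (dfn_PW hM hF.tail (hM.fs' (DfnF.proj 0))) ?_)
    exact Dfn.eq (hM.fs' (dfn_SX hM (DfnF.proj 0) (hM.fs' (hM.sn' (DfnF.proj 1)))))
      (hM.fs' (dfn_SX hM (DfnF.proj 0) (hM.sn' (hM.sn' (DfnF.proj 1)))))

variable {K : ZFSet.{0} → ZFSet.{0} → Prop}
  (hK : Dfn M M fun w : Fin 2 → ZFSet.{0} => K (w 0) (w 1))

include hK

theorem dfn_qc (hF : DfnF M M F) (hG : DfnF M M G) : DfnF M M fun w => qc K (F w) (G w) := by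
  have hB := hM.base
  refine hB.pair' (hB.sUnion' (hB.sUnion' (hM.fs' hG))) (hM.sep'
    (Q := fun t w => K (fs (F w)) (qs (sn (F w)) (sn (G w)) t))
    (dfn_PW hM (hM.sn' hF) (hB.sUnion' (hB.sUnion' (hM.fs' hG)))) ?_)
  exact Dfn.comp2 (Q := K) hK (hM.fs' hF.tail)
    (dfn_qs hM (hM.sn' hF.tail) (hM.sn' hG.tail) (DfnF.proj 0))

theorem dfn_TT (hF : DfnF M M F) (hG : DfnF M M G) : DfnF M M fun w => TT K (F w) (G w) := by
  have hB := hM.base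
  refine hB.union' hG (hB.union' ?_ (hB.union' ?_ (hB.union' ?_ ?_)))
  · exact hM.im' (h := fun q w => ng (sn (F w)) q) hG
      (dfn_ng hM (hM.sn' hF.tail) (DfnF.proj 0))
  · refine hM.im' (h := fun q _ => an q) (hM.sep' (Q := fun q _ => fs (fs q) = fs (sn q))
      (hM.prod' hG hG) ?_) (dfn_an hM (DfnF.proj 0))
    exact Dfn.eq (hM.fs' (hM.fs' (DfnF.proj 0))) (hM.fs' (hM.sn' (DfnF.proj 0)))
  · refine hM.im' (h := fun q w => exq (sn (F w)) q) (hM.sep' (Q := fun q _ => fs q ≠ ∅) hG ?_)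
      (dfn_exq hM (hM.sn' hF.tail) (DfnF.proj 0))
    exact (Dfn.eq (hM.fs' (DfnF.proj 0)) (DfnF.const hM.empty_mem)).not
  · refine hM.im' (h := fun q w => qc K (F w) q)
      (hM.sep' (Q := fun q _ => fs q ≠ ∅ ∧ ZFSet.sUnion (fs q) ≠ ∅) hG ?_)
      (dfn_qc hM hK hF.tail (DfnF.proj 0))
    exact (Dfn.eq (hM.fs' (DfnF.proj 0)) (DfnF.const hM.empty_mem)).not.and
      (Dfn.eq (hB.sUnion' (hM.fs' (DfnF.proj 0))) (DfnF.const hM.empty_mem)).not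

theorem dfn_YY (hF : DfnF M M F) (hG : DfnF M M G) : DfnF M M fun w => YY K (F w) (G w) := by
  have hB := hM.base
  refine DfnF.comp2 (f := YY K) (memrec2 hM (G := YG K) ?_ (YY_eq K)) hF hG
  refine hB.union' (dfn_BB hM (hM.sn' (DfnF.proj 0))) (hB.sUnion'
    (hM.im' (h := fun q w => TT K (w 0) (sn q)) (DfnF.proj 2) ?_))
  exact dfn_TT hM hK (DfnF.proj 1) (hM.sn' (DfnF.proj 0))

end dfn2

end PA1

section

variable {M : Set ZFSet.{0}} (hM : IsZF M) {K : ZFSet.{0} → ZFSet.{0} → Prop}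
  (hK : Dfn M M fun w : Fin 2 → ZFSet.{0} => K (w 0) (w 1))

include hM hK

/-- `K` may depend on a parameter `a = w 0`. -/
theorem rl_mem {a X : ZFSet.{0}} (ha : a ∈ M) (hX : X ∈ M) {n : ℕ} (φ : FmQ n) :
    rl (K a) X φ ∈ M := by
  have h1 : PA1.YY K (pair a X) ZFSet.omega ∈ M :=
    (PA1.dfn_YY hM hK (DfnF.const (hM.pair_mem ha hX)) (DfnF.const hM.infinity)).1 Fin.elim0
      fun i => i.elim0
  have h2 := (PA1.YY_omega K a X (pair (nat n) (rl (K a) X φ))).2 ⟨n, φ, rfl⟩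
  exact (hM.of_pair_mem (hM.trans _ h1 _ h2)).2

theorem dfn_Rels : DfnF M M fun w : Fin 2 → ZFSet.{0} => Rels (K (w 0)) (w 1) := by
  have hB := hM.base
  have h : DfnF M M fun w : Fin 2 → ZFSet.{0} => im (fun q => pair (PA1.PW (w 1) (fs q)) (sn q))
      (PA1.YY K (pair (w 0) (w 1)) ZFSet.omega) := by
    refine hM.im' (h := fun q w => pair (PA1.PW (w 1) (fs q)) (sn q))
      (PA1.dfn_YY hM hK (hB.pair' (DfnF.proj 0) (DfnF.proj 1)) (DfnF.const hM.infinity)) ?_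
    exact hB.pair' (PA1.dfn_PW hM (DfnF.proj 2) (hM.fs' (DfnF.proj 0))) (hM.sn' (DfnF.proj 0))
  exact h.congr fun v _ => (PA1.Rels_eq K (v 0) (v 1)).symm

theorem dfn_DefQ : DfnF M M fun w : Fin 2 → ZFSet.{0} => DefQ (K (w 0)) (w 1) := by
  have hB := hM.base
  have h : DfnF M M fun w : Fin 2 → ZFSet.{0} => ZFSet.sUnion (im (fun q =>
      im (fun t => PA1.sct (w 1) (sn q) t) (PA1.PW (w 1) (ZFSet.sUnion (fs q))))
      (ZFSet.sep (fun q => fs q ≠ ∅) (PA1.YY K (pair (w 0) (w 1)) ZFSet.omega))) := by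
    refine hB.sUnion' (hM.im' (h := fun q w =>
      im (fun t => PA1.sct (w 1) (sn q) t) (PA1.PW (w 1) (ZFSet.sUnion (fs q))))
      (hM.sep' (Q := fun q _ => fs q ≠ ∅) (PA1.dfn_YY hM hK
        (hB.pair' (DfnF.proj 0) (DfnF.proj 1)) (DfnF.const hM.infinity)) ?_) ?_)
    · exact (Dfn.eq (hM.fs' (DfnF.proj 0)) (DfnF.const hM.empty_mem)).not
    · refine hM.im' (h := fun t w => PA1.sct (w 2) (sn (w 0)) t)
        (PA1.dfn_PW hM (DfnF.proj 2) (hB.sUnion' (hM.fs' (DfnF.proj 0)))) ?_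
      exact PA1.dfn_sct hM (DfnF.proj 3) (hM.sn' (DfnF.proj 1)) (DfnF.proj 0)
  exact h.congr fun v _ => (PA1.DefQ_eq K (v 0) (v 1)).symm

end

/-- The elements of `Def(X)` are the sections of the definable relations. -/
theorem mem_defQ_iff {K : ZFSet.{0} → Prop} {X Y : ZFSet.{0}} : Y ∈ DefQ K X ↔
    ∃ (n : ℕ) (φ : FmQ (n + 1)) (v : Fin n → ZFSet.{0}), (∀ i, v i ∈ X) ∧
      Y = ZFSet.sep (fun a => pair a (tup v) ∈ rl K X φ) X := PA1.defQ_iff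

namespace PA1

theorem tup_memM {M : Set ZFSet.{0}} (hM : IsZF M) {X : ZFSet.{0}} (hX : X ∈ M) {n : ℕ}
    {v : Fin n → ZFSet.{0}} (hv : ∀ i, v i ∈ X) : tup v ∈ M := by
  have h3 : pw X n ∈ M := (dfn_pw hM n (DfnF.const (n := 0) hX)).1 Fin.elim0 fun i => i.elim0
  exact hM.trans _ h3 _ (mem_pw.2 ⟨v, hv, rfl⟩)

theorem sat_congr {M : Set ZFSet.{0}} (hM : IsZF M) {K K' : ZFSet.{0} → Prop} {X : ZFSet.{0}}
    (hK : Dfn M M fun w : Fin 1 → ZFSet.{0} => K (w 0)) (hX : X ∈ M)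
    (h : ∀ R ∈ M, R ⊆ ZFSet.prod X X → (K R ↔ K' R)) {n : ℕ} (φ : FmQ n) :
    ∀ v : Fin n → ZFSet.{0}, (∀ i, v i ∈ X) → (φ.Sat K X v ↔ φ.Sat K' X v) := by
  induction φ with
  | mem i j => exact fun v _ => Iff.rfl
  | eq i j => exact fun v _ => Iff.rfl
  | neg φ ih => exact fun v hv => not_congr (ih v hv)
  | and φ ψ ih ih' => exact fun v hv => and_congr (ih v hv) (ih' v hv)
  | ex φ ih =>
    intro v hv
    exact exists_congr fun a => and_congr_right fun ha => ih _ (cons_mem ha hv)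
  | qcf φ ih =>
    intro v hv
    have hK2 : Dfn M M fun w : Fin 2 → ZFSet.{0} => (fun _ R => K R) (w 0) (w 1) :=
      hK.comp (fun _ => 1 : Fin 1 → Fin 2)
    have h1 : rl K X φ ∈ M := rl_mem (K := fun _ R => K R) hM hK2 hM.empty_mem hX φ
    have h2 : tup v ∈ M := tup_memM hM hX hv
    have h4 : qs X (rl K X φ) (tup v) ∈ M :=
      (dfn_qs hM (DfnF.const hX) (DfnF.const h1) (DfnF.const h2)).1 Fin.elim0 fun i => i.elim0
    have h5 := h _ h4 (fun p hp => (ZFSet.mem_sep.1 hp).1)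
    have h6 : (ZFSet.sep (fun p => ∃ a ∈ X, ∃ b ∈ X, p = pair a b ∧
        φ.Sat K X (Fin.cons a (Fin.cons b v))) (ZFSet.prod X X)) =
        ZFSet.sep (fun p => ∃ a ∈ X, ∃ b ∈ X, p = pair a b ∧
        φ.Sat K' X (Fin.cons a (Fin.cons b v))) (ZFSet.prod X X) := by
      ext p
      rw [ZFSet.mem_sep, ZFSet.mem_sep]
      refine and_congr_right fun _ => ?_
      exact exists_congr fun a => and_congr_right fun ha => exists_congr fun b =>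
        and_congr_right fun hb => and_congr_right fun _ =>
          ih _ (cons_mem ha (cons_mem hb hv))
    rw [qs_rl K X φ hv] at h5
    show K _ ↔ K' _
    rw [← h6]
    exact h5

end PA1

/-- `Def(X)` depends only on the values of `K` at subsets of `X × X` in a model `M` of ZF in which
`K` is definable. -/
theorem defQ_congr {M : Set ZFSet.{0}} (hM : IsZF M) {K K' : ZFSet.{0} → Prop} {X : ZFSet.{0}}
    (hK : Dfn M M fun w : Fin 1 → ZFSet.{0} => K (w 0)) (hX : X ∈ M)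
    (h : ∀ R ∈ M, R ⊆ ZFSet.prod X X → (K R ↔ K' R)) : DefQ K X = DefQ K' X := by
  ext Y
  rw [DefQ, DefQ, ZFSet.mem_sep, ZFSet.mem_sep]
  refine and_congr_right fun _ => ?_
  refine exists_congr fun n => exists_congr fun φ => exists_congr fun v => and_congr_right fun hv =>
    forall_congr' fun a => iff_congr Iff.rfl (and_congr_right fun ha => ?_)
  exact PA1.sat_congr hM hK hX h φ _ (PA1.cons_mem ha hv)

end Pool.Agent.helper797_it
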