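import Pool.Agent.helper797_it.St.U0
import Pool.Agent.helper797_it.St.U1
import Pool.Agent.helper797_it.PA1

/-! # A1: the elements of `Def(X)` are the sections of the definable relations -/

set_option autoImplicit false
namespace Pool.Agent.helper797_it
open Pool.Agent.W868 Pool.Agent.R587 Pool.Agent.helper797_cs
open ZFSet (pair)

namespace PA1

theorem tup_mem_rl {K : ZFSet.{0} → Prop} {X : ZFSet.{0}} {n : ℕ} {φ : FmQ n}
    {v : Fin n → ZFSet.{0}} : tup v ∈ rl K X φ ↔ (∀ i, v i ∈ X) ∧ φ.Sat K X v := by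
  unfold rl
  rw [ZFSet.mem_sep, mem_pw]
  constructor
  · rintro ⟨⟨v', hv', h1⟩, v'', h2, h3⟩
    rw [tup_inj h1]
    rw [← tup_inj h2, tup_inj h1] at h3
    exact ⟨hv', h3⟩
  · rintro ⟨h1, h2⟩
    exact ⟨⟨v, h1, rfl⟩, v, rfl, h2⟩

theorem pair_mem_rl {K : ZFSet.{0} → Prop} {X a : ZFSet.{0}} {n : ℕ} {φ : FmQ (n + 1)}
    {v : Fin n → ZFSet.{0}} : pair a (tup v) ∈ rl K X φ ↔
      (a ∈ X ∧ ∀ i, v i ∈ X) ∧ φ.Sat K X (Fin.cons a v) := by
  rw [← tup_cons, tup_mem_rl]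
  refine and_congr_left fun _ => ?_
  constructor
  · intro h
    exact ⟨h 0, fun i => h i.succ⟩
  · rintro ⟨h1, h2⟩ i
    refine Fin.cases ?_ (fun i => ?_) i
    · exact h1
    · exact h2 i

theorem tup_mem' {M : Set ZFSet.{0}} (hM : IsZF M) : {n : ℕ} → (v : Fin n → ZFSet.{0}) →
    (∀ i, v i ∈ M) → tup v ∈ M
  | 0, _, _ => hM.empty_mem
  | _ + 1, v, hv => hM.pair_mem (hv 0) (tup_mem' hM (Fin.tail v) fun i => hv i.succ)

theorem sat_congr {M : Set ZFSet.{0}} (hM : IsZF M) {K K' : ZFSet.{0} → Prop} {X : ZFSet.{0}}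
    (hK : Dfn M M fun w : Fin 1 → ZFSet.{0} => K (w 0)) (hX : X ∈ M)
    (h : ∀ R ∈ M, R ⊆ ZFSet.prod X X → (K R ↔ K' R)) : {n : ℕ} → (φ : FmQ n) →
    (v : Fin n → ZFSet.{0}) → (∀ i, v i ∈ X) → (φ.Sat K X v ↔ φ.Sat K' X v)
  | _, .mem i j, v, hv => Iff.rfl
  | _, .eq i j, v, hv => Iff.rfl
  | _, .neg φ, v, hv => not_congr (sat_congr hM hK hX h φ v hv)
  | _, .and φ ψ, v, hv => and_congr (sat_congr hM hK hX h φ v hv) (sat_congr hM hK hX h ψ v hv)
  | _, .ex φ, v, hv => by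
    simp only [FmQ.Sat]
    refine exists_congr fun a => and_congr_right fun ha => ?_
    refine sat_congr hM hK hX h φ _ fun i => ?_
    refine Fin.cases ?_ (fun i => ?_) i
    · exact ha
    · exact hv i
  | n, .qcf φ, v, hv => by
    simp only [FmQ.Sat]
    have e : (ZFSet.sep (fun p => ∃ a ∈ X, ∃ b ∈ X, p = pair a b ∧
        φ.Sat K X (Fin.cons a (Fin.cons b v))) (ZFSet.prod X X)) =
        (ZFSet.sep (fun p => ∃ a ∈ X, ∃ b ∈ X, p = pair a b ∧
        φ.Sat K' X (Fin.cons a (Fin.cons b v))) (ZFSet.prod X X)) := by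
      ext p
      rw [ZFSet.mem_sep, ZFSet.mem_sep]
      refine and_congr_right fun _ => ?_
      refine exists_congr fun a => and_congr_right fun ha => ?_
      refine exists_congr fun b => and_congr_right fun hb => ?_
      refine and_congr_right fun _ => ?_
      refine sat_congr hM hK hX h φ _ fun i => ?_
      refine Fin.cases ?_ (fun i => Fin.cases ?_ (fun i => ?_) i) i
      · exact ha
      · exact hb
      · exact hv i
    rw [← e]
    refine h _ ?_ fun p hp => (ZFSet.mem_sep.1 hp).1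
    have hr : rl K X φ ∈ M := by
      have h1 : Dfn M M fun w : Fin 2 → ZFSet.{0} => K (w 1) := hK.comp ![1]
      exact rl_mem (K := fun _ R => K R) hM h1 hM.empty_mem hX φ
    have ht : tup v ∈ M := tup_mem' hM v fun i => hM.trans _ hX _ (hv i)
    have e2 : (ZFSet.sep (fun p => ∃ a ∈ X, ∃ b ∈ X, p = pair a b ∧
        φ.Sat K X (Fin.cons a (Fin.cons b v))) (ZFSet.prod X X)) =
        ZFSet.sep (fun p => pair (fs p) (pair (sn p) (tup v)) ∈ rl K X φ) (ZFSet.prod X X) := by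
      ext p
      rw [ZFSet.mem_sep, ZFSet.mem_sep]
      refine and_congr_right fun hp => ?_
      obtain ⟨a, ha, b, hb, rfl⟩ := ZFSet.mem_prod.1 hp
      rw [fs_pair, sn_pair, ← tup_cons, pair_mem_rl]
      constructor
      · rintro ⟨a', ha', b', hb', hpr, hs⟩
        obtain ⟨rfl, rfl⟩ := ZFSet.pair_inj.1 hpr
        refine ⟨⟨ha, fun i => ?_⟩, hs⟩
        refine Fin.cases ?_ (fun i => ?_) i
        · exact hb
        · exact hv i
      · rintro ⟨-, hs⟩
        exact ⟨a, ha, b, hb, rfl, hs⟩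
    rw [e2]
    refine hM.sep_mem ?_ (hM.prod_mem hX hX)
    exact Dfn.mem (hM.base.pair' (hM.fs' (DfnF.proj 0))
      (hM.base.pair' (hM.sn' (DfnF.proj 0)) (DfnF.const ht))) (DfnF.const hr)

end PA1

/-- The elements of `Def(X)` are the sections of the definable relations. -/
theorem mem_defQ_iff {K : ZFSet.{0} → Prop} {X Y : ZFSet.{0}} : Y ∈ DefQ K X ↔
    ∃ (n : ℕ) (φ : FmQ (n + 1)) (v : Fin n → ZFSet.{0}), (∀ i, v i ∈ X) ∧
      Y = ZFSet.sep (fun a => pair a (tup v) ∈ rl K X φ) X := by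
  unfold DefQ
  rw [ZFSet.mem_sep]
  constructor
  · rintro ⟨hY, n, φ, v, hv, h⟩
    refine ⟨n, φ, v, hv, ?_⟩
    ext a
    rw [ZFSet.mem_sep, h, PA1.pair_mem_rl]
    constructor
    · rintro ⟨h1, h2⟩
      exact ⟨h1, ⟨h1, hv⟩, h2⟩
    · rintro ⟨h1, -, h2⟩
      exact ⟨h1, h2⟩
  · rintro ⟨n, φ, v, hv, rfl⟩
    refine ⟨ZFSet.mem_powerset.2 fun a ha => (ZFSet.mem_sep.1 ha).1, n, φ, v, hv, fun a => ?_⟩
    rw [ZFSet.mem_sep, PA1.pair_mem_rl]
    constructor
    · rintro ⟨h1, -, h2⟩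
      exact ⟨h1, h2⟩
    · rintro ⟨h1, h2⟩
      exact ⟨h1, ⟨h1, hv⟩, h2⟩

/-- `Def(X)` depends only on the values of `K` at subsets of `X × X` in a model `M` of ZF in which
`K` is definable. -/
theorem defQ_congr {M : Set ZFSet.{0}} (hM : IsZF M) {K K' : ZFSet.{0} → Prop} {X : ZFSet.{0}}
    (hK : Dfn M M fun w : Fin 1 → ZFSet.{0} => K (w 0)) (hX : X ∈ M)
    (h : ∀ R ∈ M, R ⊆ ZFSet.prod X X → (K R ↔ K' R)) : DefQ K X = DefQ K' X := by
  ext Y
  unfold DefQ
  rw [ZFSet.mem_sep, ZFSet.mem_sep]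
  refine and_congr_right fun _ => ?_
  refine exists_congr fun n => exists_congr fun φ => exists_congr fun v =>
    and_congr_right fun hv => ?_
  refine forall_congr' fun a => ?_
  refine iff_congr Iff.rfl (and_congr_right fun ha => ?_)
  refine PA1.sat_congr hM hK hX h φ _ fun i => ?_
  refine Fin.cases ?_ (fun i => ?_) i
  · exact ha
  · exact hv i

end Pool.Agent.helper797_it
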