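import Pool.Agent.helper797_it.PA1
import Pool.Agent.helper797_cs.PW2

/-! # A2: the hierarchy `L'` -/

set_option autoImplicit false
namespace Pool.Agent.helper797_it
open Pool.Agent.W868 Pool.Agent.R587 Pool.Agent.helper797_cs
open ZFSet (pair)

namespace PA2

/-- A formula which says that the variable `0` is an ordinal. -/
def fOrd : FmQ 1 :=
  .and (.neg (.ex (.and (.mem 0 1) (.ex (.and (.mem 0 1) (.neg (.mem 0 2)))))))
    (.neg (.ex (.and (.mem 0 1) (.ex (.and (.mem 0 1) (.ex (.and (.mem 0 1) (.neg (.mem 0 2)))))))))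

theorem sat_fOrd {K : ZFSet.{0} → Prop} {X : ZFSet.{0}} (hX : ∀ x ∈ X, ∀ y ∈ x, y ∈ X)
    {a : ZFSet.{0}} (ha : a ∈ X) (v : Fin 0 → ZFSet.{0}) :
    fOrd.Sat K X (Fin.cons a v) ↔ a.IsOrdinal := by
  have e1 : ∀ (b c : ZFSet.{0}) {n : ℕ} (w : Fin n → ZFSet.{0}),
      (Fin.cons b (Fin.cons c w) : Fin (n + 2) → ZFSet.{0}) 1 = c := fun b c n w => rfl
  have e2 : ∀ (b c d : ZFSet.{0}) {n : ℕ} (w : Fin n → ZFSet.{0}),
      (Fin.cons b (Fin.cons c (Fin.cons d w)) : Fin (n + 3) → ZFSet.{0}) 2 = d :=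
    fun b c d n w => rfl
  simp only [fOrd, FmQ.Sat, Fin.cons_zero, e1, e2]
  constructor
  · rintro ⟨h1, h2⟩
    refine ⟨fun y hy z hz => ?_, fun {y z w} h3 h4 h5 => ?_⟩
    · by_contra h
      exact h1 ⟨y, hX _ ha _ hy, hy, z, hX _ (hX _ ha _ hy) _ hz, hz, h⟩
    · by_contra h
      have hw := hX _ ha _ h5
      have hz := hX _ hw _ h4
      exact h2 ⟨w, hw, h5, z, hz, h4, y, hX _ hz _ h3, h3, h⟩
  · rintro ⟨h1, h2⟩
    constructor
    · rintro ⟨y, -, hy, z, -, hz, h⟩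
      exact h (h1.mem_trans hz hy)
    · rintro ⟨w, -, h5, z, -, h4, y, -, h3, h⟩
      exact h (h2 h3 h4 h5)

end PA2

theorem mem_LpS {K : ZFSet.{0} → Prop} {x z : ZFSet.{0}} :
    x ∈ LpS K z ↔ ∃ u ∈ z, x ∈ DefQ K (LpS K u) := by
  have h : LpS K z = ZFSet.sUnion (im (fun p => DefQ K (sn p)) (gr (LpS K) z)) :=
    wfF_eq (fun z => z) ZFSet.mem_wf
      (fun _ g => ZFSet.sUnion (im (fun p => DefQ K (sn p)) g)) z
  rw [h, ZFSet.mem_sUnion]
  constructor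
  · rintro ⟨y, hy, hx⟩
    obtain ⟨p, hp, rfl⟩ := mem_im.1 hy
    obtain ⟨u, hu, rfl⟩ := mem_gr.1 hp
    rw [sn_pair] at hx
    exact ⟨u, hu, hx⟩
  · rintro ⟨u, hu, hx⟩
    exact ⟨_, mem_im.2 ⟨_, mem_gr.2 ⟨u, hu, rfl⟩, (by rw [sn_pair])⟩, hx⟩

theorem mem_Lp {K : ZFSet.{0} → Prop} {α : Ordinal.{0}} {x : ZFSet.{0}} :
    x ∈ Lp K α ↔ ∃ β < α, x ∈ DefQ K (Lp K β) := by
  constructor
  · induction α using Ordinal.limitRecOn with
    | zero =>
      intro hx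
      rw [lp_zero] at hx
      exact absurd hx (ZFSet.notMem_empty _)
    | add_one α ih =>
      intro hx
      rw [lp_succ] at hx
      exact ⟨α, lt_add_one α, hx⟩
    | limit α hα ih =>
      intro hx
      obtain ⟨β, hβ, hx⟩ := (lp_limit K hα).1 hx
      obtain ⟨γ, hγ, hx⟩ := ih β hβ hx
      exact ⟨γ, hγ.trans hβ, hx⟩
  · rintro ⟨β, hβ, hx⟩
    rw [← lp_succ] at hx
    exact lp_mono K (Order.add_one_le_of_lt hβ) hx

theorem LpS_eq (K : ZFSet.{0} → Prop) (α : Ordinal.{0}) : LpS K α.toZFSet = Lp K α := by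
  induction α using WellFoundedLT.induction with
  | ind α ih =>
    ext x
    rw [mem_LpS, mem_Lp]
    constructor
    · rintro ⟨u, hu, hx⟩
      obtain ⟨β, hβ, rfl⟩ := Ordinal.mem_toZFSet_iff.1 hu
      rw [ih β hβ] at hx
      exact ⟨β, hβ, hx⟩
    · rintro ⟨β, hβ, hx⟩
      rw [← ih β hβ] at hx
      exact ⟨_, Ordinal.mem_toZFSet_iff.2 ⟨β, hβ, rfl⟩, hx⟩

/-- `α ∈ Lp K (α + 1)`. -/
theorem ord_mem_Lp (K : ZFSet.{0} → Prop) (α β : Ordinal.{0}) :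
    α.toZFSet ∈ Lp K β ↔ α < β := by
  induction β using WellFoundedLT.induction generalizing α with
  | ind β ih =>
    constructor
    · intro h
      obtain ⟨γ, hγ, h1⟩ := mem_Lp.1 h
      have h2 := (W2_mem_defQ.1 h1).1
      refine lt_of_le_of_lt ?_ hγ
      refine le_of_forall_lt fun ξ hξ => ?_
      exact (ih γ hγ ξ).1 (h2 (Ordinal.toZFSet_mem_toZFSet_iff.2 hξ))
    · intro h
      refine mem_Lp.2 ⟨α, h, ?_⟩
      have h1 := W2_sep_mem (K := K) (X := Lp K α) (n := 0) PA2.fOrd Fin.elim0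
        (fun i => i.elim0) (fun a => a.IsOrdinal)
        (fun a ha => (PA2.sat_fOrd (lp_trans K α) ha _).symm)
      have h2 : ZFSet.sep (fun a => a.IsOrdinal) (Lp K α) = α.toZFSet := by
        ext a
        rw [ZFSet.mem_sep]
        constructor
        · rintro ⟨h3, h4⟩
          rw [← h4.toZFSet_rank_eq] at h3 ⊢
          exact Ordinal.toZFSet_mem_toZFSet_iff.2 ((ih α h _).1 h3)
        · intro h3
          obtain ⟨ξ, hξ, rfl⟩ := Ordinal.mem_toZFSet_iff.1 h3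
          exact ⟨(ih α h ξ).2 hξ, ZFSet.isOrdinal_toZFSet _⟩
      rwa [h2] at h1

theorem Lp_mem_succ (K : ZFSet.{0} → Prop) (α : Ordinal.{0}) : Lp K α ∈ Lp K (α + 1) := by
  rw [lp_succ]
  have h1 := W2_sep_mem (K := K) (X := Lp K α) (n := 0) (.eq 0 0) Fin.elim0
    (fun i => i.elim0) (fun a => a = a) (fun a _ => Iff.rfl)
  have h2 : ZFSet.sep (fun a => a = a) (Lp K α) = Lp K α := by
    ext a
    rw [ZFSet.mem_sep]
    exact ⟨fun h => h.1, fun h => ⟨h, rfl⟩⟩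
  rwa [h2] at h1

end Pool.Agent.helper797_it
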