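import Pool.Agent.helper797_it.PA1
import Pool.Agent.W868.Small

/-! # A3: sizes of `Def(X)` -/

set_option autoImplicit false
namespace Pool.Agent.helper797_it
open Pool.Agent.W868 Pool.Agent.R587 Pool.Agent.helper797_cs
open ZFSet (pair)

namespace PA3

/-- Choice functions for definable relations. -/
theorem choose {M : Set ZFSet.{0}} (hM : IsZFC M) {x : ZFSet.{0}} (hx : x ∈ M)
    {Q : ZFSet.{0} → ZFSet.{0} → Prop}
    (hQ : Dfn M M fun w : Fin 2 → ZFSet.{0} => Q (w 0) (w 1))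
    (h : ∀ z ∈ x, ∃ w ∈ M, Q w z) : ∃ f ∈ M, (∀ p ∈ f, ∃ z ∈ x, p = pair z (ap f z)) ∧
      (∀ z ∈ x, pair z (ap f z) ∈ f) ∧ ∀ z ∈ x, Q (ap f z) z := by
  have hZ := hM.toIsZF
  have hB := hZ.base
  obtain ⟨Y, hY, h1⟩ : ∃ Y ∈ M, ∀ z ∈ x, ∃ w ∈ Y, Q w z := by
    obtain ⟨α, hα, h2⟩ := collect hZ hQ hx
    refine ⟨Vh M α.toZFSet, ?_, fun z hz => h2 z hz (h z hz)⟩
    exact (dfn_Vh hZ (F := fun w : Fin 1 → ZFSet.{0} => w 0) (DfnF.proj 0)).1
      (fun _ => α.toZFSet) fun _ => hα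
  set S : ZFSet.{0} → ZFSet.{0} := fun z => ZFSet.sep (fun p => fs p = z ∧ Q (sn p) z)
    (ZFSet.prod x Y) with hS
  have hSd : DfnF M M fun w : Fin 1 → ZFSet.{0} => S (w 0) := by
    refine hZ.sep' (Q := fun p w => fs p = w 0 ∧ Q (sn p) (w 0)) (DfnF.const
      (hZ.prod_mem hx hY)) ?_
    apply Dfn.and
    · exact Dfn.eq (hZ.fs' (DfnF.proj 0)) (DfnF.proj 1)
    · exact Dfn.comp2 (Q := Q) hQ (hZ.sn' (DfnF.proj 0)) (DfnF.proj 1)
  have hmem : ∀ z p, p ∈ S z ↔ ∃ w ∈ Y, z ∈ x ∧ p = pair z w ∧ Q w z := by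
    intro z p
    simp only [hS, ZFSet.mem_sep, ZFSet.mem_prod]
    constructor
    · rintro ⟨⟨a, ha, b, hb, rfl⟩, h2, h3⟩
      rw [fs_pair] at h2
      rw [sn_pair] at h3
      subst h2
      exact ⟨b, hb, ha, rfl, h3⟩
    · rintro ⟨w, hw, hz, rfl, h2⟩
      refine ⟨⟨z, hz, w, hw, rfl⟩, fs_pair _ _, ?_⟩
      rwa [sn_pair]
  have hfam : im S x ∈ M := hZ.im_mem hx hSd
  obtain ⟨c, hc, hc1⟩ := hM.choice _ hfam (by
    intro y hy
    obtain ⟨z, hz, rfl⟩ := mem_im.1 hy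
    obtain ⟨w, hw, h2⟩ := h1 z hz
    exact ⟨pair z w, (hmem _ _).2 ⟨w, hw, hz, rfl, h2⟩⟩) (by
    intro y hy y' hy' p hp hp'
    obtain ⟨z, hz, rfl⟩ := mem_im.1 hy
    obtain ⟨z', hz', rfl⟩ := mem_im.1 hy'
    obtain ⟨w, -, -, h2, -⟩ := (hmem _ _).1 hp
    obtain ⟨w', -, -, h3, -⟩ := (hmem _ _).1 hp'
    rw [h2] at h3
    rw [(ZFSet.pair_inj.1 h3).1])
  set f := ZFSet.sep (fun p => p ∈ c) (ZFSet.sUnion (im S x)) with hf
  have hfM : f ∈ M := by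
    refine hZ.sep_mem (Q := fun p => p ∈ c) ?_ (hZ.union _ hfam)
    exact Dfn.mem (DfnF.proj 0) (DfnF.const hc)
  have hval : ∀ z ∈ x, ∃ w, pair z w ∈ f ∧ Q w z ∧ ∀ w', pair z w' ∈ f → w' = w := by
    intro z hz
    obtain ⟨p, ⟨hp1, hp2⟩, hp3⟩ := hc1 (S z) (mem_im.2 ⟨z, hz, rfl⟩)
    obtain ⟨w, hw, -, rfl, h2⟩ := (hmem _ _).1 hp1
    refine ⟨w, ZFSet.mem_sep.2 ⟨ZFSet.mem_sUnion.2 ⟨_, mem_im.2 ⟨z, hz, rfl⟩, hp1⟩, hp2⟩, h2,
      fun w' hw' => ?_⟩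
    obtain ⟨h3, h4⟩ := ZFSet.mem_sep.1 hw'
    obtain ⟨y, hy, h5⟩ := ZFSet.mem_sUnion.1 h3
    obtain ⟨z', hz', rfl⟩ := mem_im.1 hy
    have h6 := (hmem _ _).1 h5
    obtain ⟨w'', -, -, h7, -⟩ := h6
    obtain ⟨rfl, rfl⟩ := ZFSet.pair_inj.1 h7
    exact (ZFSet.pair_inj.1 (hp3 _ ⟨h5, h4⟩)).2
  have hfun : ZFSet.IsFunc x Y f := by
    refine ⟨fun p hp => ?_, fun z hz => ?_⟩
    · obtain ⟨h3, -⟩ := ZFSet.mem_sep.1 hp
      obtain ⟨y, hy, h5⟩ := ZFSet.mem_sUnion.1 h3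
      obtain ⟨z', hz', rfl⟩ := mem_im.1 hy
      obtain ⟨w, hw, hz, rfl, -⟩ := (hmem _ _).1 h5
      exact ZFSet.mem_prod.2 ⟨_, hz, _, hw, rfl⟩
    · obtain ⟨w, h2, -, h3⟩ := hval z hz
      exact ⟨w, h2, h3⟩
  have hap : ∀ z ∈ x, pair z (ap f z) ∈ f ∧ Q (ap f z) z := by
    intro z hz
    obtain ⟨w, h2, h3, -⟩ := hval z hz
    rw [ap_func hfun h2]
    exact ⟨h2, h3⟩
  refine ⟨f, hfM, fun p hp => ?_, fun z hz => (hap z hz).1, fun z hz => (hap z hz).2⟩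
  obtain ⟨z, hz, w, -, rfl⟩ := ZFSet.mem_prod.1 (hfun.1 hp)
  exact ⟨z, hz, by rw [ap_func hfun hp]⟩

section

variable {M : Set ZFSet.{0}} (hM : IsZFC M) {κ : ZFSet.{0}} (hκ : κ ∈ M) (hκo : κ.IsOrdinal)
  (hω : ZFSet.omega ⊆ κ)

include hM hκ hκo hω

theorem iUnion {x : ZFSet.{0}} (hx : x ∈ M) (h : Inj M x κ) {F : ZFSet.{0} → ZFSet.{0}}
    (hF : DfnF M M fun w : Fin 1 → ZFSet.{0} => F (w 0)) (hF' : ∀ u ∈ x, Inj M (F u) κ) :
    Inj M (ZFSet.sUnion (im F x)) κ := by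
  have hZ := hM.toIsZF
  have hB := hZ.base
  have hU : ZFSet.sUnion (im F x) ∈ M := hZ.union _ (hZ.im_mem hx hF)
  obtain ⟨c, hcM, -, -, hc⟩ := choose hM hx (Q := fun f u => IsInj (F u) κ f)
    (hB.isInj' (DfnF.comp1 (f := F) hF (DfnF.proj 1)) (DfnF.const hκ) (DfnF.proj 0))
    (fun u hu => by
      obtain ⟨f, hf, h1⟩ := hF' u hu
      exact ⟨f, hf, h1⟩)
  obtain ⟨i, hiM, -, -, hi⟩ := choose hM hU (Q := fun u y => u ∈ x ∧ y ∈ F u)
    ((Dfn.mem (DfnF.proj 0) (DfnF.const hx)).and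
      (Dfn.mem (DfnF.proj 1) (DfnF.comp1 (f := F) hF (DfnF.proj 0))))
    (fun y hy => by
      obtain ⟨z, hz, hyz⟩ := ZFSet.mem_sUnion.1 hy
      obtain ⟨u, hu, rfl⟩ := mem_im.1 hz
      exact ⟨u, hZ.trans _ hx _ hu, hu, hyz⟩)
  have hd : DfnF M M fun w : Fin 1 → ZFSet.{0} =>
      pair (ap i (w 0)) (ap (ap c (ap i (w 0))) (w 0)) := by
    have h1 : DfnF M M fun w : Fin 1 → ZFSet.{0} => ap i (w 0) :=
      hZ.ap' (DfnF.const hiM) (DfnF.proj 0)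
    exact hB.pair' h1 (hZ.ap' (hZ.ap' (DfnF.const hcM) h1) (DfnF.proj 0))
  have hkey : ∀ y ∈ ZFSet.sUnion (im F x), ∃ b ∈ κ, pair y b ∈ ap c (ap i y) ∧
      ap (ap c (ap i y)) y = b := by
    intro y hy
    obtain ⟨h1, h2⟩ := hi y hy
    have h4 := hc _ h1
    obtain ⟨b, hb, h5⟩ := fun_exists h4.1 h2
    exact ⟨b, hb, h5, ap_func h4.1 h5⟩
  have h1 : Inj M (ZFSet.sUnion (im F x)) (ZFSet.prod x κ) := by
    refine Inj.of_fun hZ hU (hZ.prod_mem hx hκ)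
      (h := fun y => pair (ap i y) (ap (ap c (ap i y)) y)) hd ?_ ?_
    · intro y hy
      obtain ⟨b, hb, -, h5⟩ := hkey y hy
      rw [h5]
      exact ZFSet.pair_mem_prod.2 ⟨(hi y hy).1, hb⟩
    · intro y hy y' hy' h2
      obtain ⟨h3, h4⟩ := ZFSet.pair_inj.1 h2
      obtain ⟨b, hb, h5, h6⟩ := hkey y hy
      obtain ⟨b', hb', h7, h8⟩ := hkey y' hy'
      rw [h6, h8] at h4
      subst h4
      rw [← h3] at h7
      exact (hc _ (hi y hy).1).2 _ _ _ h5 h7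
  have h2 : Inj M (ZFSet.prod x κ) (ZFSet.prod κ κ) :=
    Inj.prod hZ hx hκ hκ hκ h (Inj.of_subset hZ hκ hκ fun _ h => h)
  exact Inj.trans hZ hU hκ h1
    (Inj.trans hZ (hZ.prod_mem hx hκ) hκ h2 (sq_inj hZ hκ hκo hω))

theorem union {x y : ZFSet.{0}} (hx : x ∈ M) (hy : y ∈ M) (h1 : Inj M x κ)
    (h2 : Inj M y κ) : Inj M (x ∪ y) κ := by
  have hZ := hM.toIsZF
  have h3 : Inj M {x, y} κ :=
    Inj.trans hZ (hZ.pairing _ hx _ hy) hκ (upair_countable hZ hx hy)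
      (Inj.of_subset hZ hZ.infinity hκ hω)
  have h4 := iUnion hM hκ hκo hω (hZ.pairing _ hx _ hy) h3 (F := fun u => u)
    (DfnF.proj 0) (by
      intro u hu
      rcases ZFSet.mem_pair.1 hu with rfl | rfl
      · exact h1
      · exact h2)
  have h5 : im (fun u => u) {x, y} = {x, y} := by
    ext z
    rw [mem_im]
    exact ⟨fun ⟨p, hp, h⟩ => h ▸ hp, fun h => ⟨z, h, rfl⟩⟩
  rw [h5, ZFSet.sUnion_pair] at h4
  exact h4

omit hκo in
theorem single {x : ZFSet.{0}} (hx : x ∈ M) : Inj M {x} κ := by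
  have hZ := hM.toIsZF
  have h := upair_countable hZ hx hx
  rw [ZFSet.pair_eq_singleton] at h
  exact Inj.trans hZ (hZ.single_mem hx) hκ h (Inj.of_subset hZ hZ.infinity hκ hω)

theorem ipw {x : ZFSet.{0}} (hx : x ∈ M) (h1 : Inj M x κ) (n : ℕ) : Inj M (pw x n) κ := by
  have hZ := hM.toIsZF
  induction n with
  | zero => exact single hM hκ hω hZ.empty_mem
  | succ n ih =>
    have hpw : pw x n ∈ M := (dfn_pw hZ n (DfnF.proj (0 : Fin 1))).1 (fun _ => x) fun _ => hx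
    exact Inj.trans hZ (hZ.prod_mem hx hpw) hκ (Inj.prod hZ hx hpw hκ hκ h1 ih)
      (sq_inj hZ hκ hκo hω)

end

/-- One step of the closure. -/
noncomputable def stp (o : ℕ → ZFSet.{0} → ZFSet.{0}) (Y : ZFSet.{0}) : ℕ → ZFSet.{0}
  | 0 => Y
  | k + 1 => stp o Y k ∪ im (o k) (ZFSet.prod Y Y)

theorem base_stp {o : ℕ → ZFSet.{0} → ZFSet.{0}} {Y : ZFSet.{0}} (k : ℕ) : Y ⊆ stp o Y k := by
  induction k with
  | zero => exact fun _ h => h
  | succ k ih => exact fun _ h => ZFSet.mem_union.2 (Or.inl (ih h))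

theorem im_stp {o : ℕ → ZFSet.{0} → ZFSet.{0}} {Y : ZFSet.{0}} {k i : ℕ} (hi : i < k)
    {p q : ZFSet.{0}} (hp : p ∈ Y) (hq : q ∈ Y) : o i (pair p q) ∈ stp o Y k := by
  induction k with
  | zero => omega
  | succ k ih =>
    rw [stp, ZFSet.mem_union]
    rcases Nat.lt_succ_iff_lt_or_eq.1 hi with h | rfl
    · exact Or.inl (ih h)
    · exact Or.inr (mem_im.2 ⟨_, ZFSet.pair_mem_prod.2 ⟨hp, hq⟩, rfl⟩)

theorem dfn_stp {M : Set ZFSet.{0}} (hM : IsZF M) {o : ℕ → ZFSet.{0} → ZFSet.{0}} {k : ℕ}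
    (ho : ∀ i < k, DfnF M M fun w : Fin 1 → ZFSet.{0} => o i (w 0)) :
    DfnF M M fun w : Fin 1 → ZFSet.{0} => stp o (w 0) k := by
  induction k with
  | zero => exact DfnF.proj 0
  | succ k ih =>
    refine hM.base.union' (ih fun i hi => ho i (by omega)) ?_
    refine hM.im' (h := fun p _ => o k p) (hM.prod' (DfnF.proj 0) (DfnF.proj 0)) ?_
    exact DfnF.comp1 (f := o k) (ho k (by omega)) (DfnF.proj 0)

/-- Small sets are contained in small closed sets. -/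
theorem closure {M : Set ZFSet.{0}} (hM : IsZFC M) {κ : ZFSet.{0}} (hκ : κ ∈ M)
    (hκo : κ.IsOrdinal) (hω : ZFSet.omega ⊆ κ) {a : ZFSet.{0}} (ha : a ∈ M) (h1 : Inj M a κ)
    {o : ℕ → ZFSet.{0} → ZFSet.{0}} {k : ℕ}
    (ho : ∀ i < k, DfnF M M fun w : Fin 1 → ZFSet.{0} => o i (w 0)) :
    ∃ H ∈ M, a ⊆ H ∧ Inj M H κ ∧ ∀ i < k, ∀ p ∈ H, ∀ q ∈ H, o i (pair p q) ∈ H := by
  have hZ := hM.toIsZF
  have hB := hZ.base
  have hsm : ∀ l ≤ k, ∀ Y ∈ M, Inj M Y κ → stp o Y l ∈ M ∧ Inj M (stp o Y l) κ := by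
    intro l hl Y hY hYκ
    induction l with
    | zero => exact ⟨hY, hYκ⟩
    | succ l ih =>
      obtain ⟨h2, h3⟩ := ih (by omega)
      have hp := hZ.prod_mem hY hY
      have h4 := hZ.im_mem hp (ho l (by omega))
      refine ⟨hZ.union_mem h2 h4, union hM hκ hκo hω h2 h4 h3 ?_⟩
      exact Inj.image hZ hp hκ hκo (Inj.trans hZ hp hκ (Inj.prod hZ hY hY hκ hκ hYκ hYκ)
        (sq_inj hZ hκ hκo hω)) (ho l (by omega))
  set T : ZFSet.{0} → ZFSet.{0} := fun Y => stp o Y k with hT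
  have hTd : DfnF M M fun w : Fin 1 → ZFSet.{0} => T (w 0) := dfn_stp hZ ho
  have hid := dfn_itr hZ ha hTd
  have hsmall : ∀ z : ZFSet.{0}, z ⊆ ZFSet.omega → z ∈ M → Inj M (itr T a z) κ := by
    intro z
    induction z using ZFSet.inductionOn with
    | _ z ih =>
    intro hz hzC
    have h2 : itr T a z = a ∪ ZFSet.sUnion (im (fun u => T (itr T a u)) z) := by
      ext y
      rw [mem_itr, ZFSet.mem_union, ZFSet.mem_sUnion]
      refine or_congr Iff.rfl ?_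
      constructor
      · rintro ⟨u, hu, h⟩
        exact ⟨_, mem_im.2 ⟨u, hu, rfl⟩, h⟩
      · rintro ⟨w, hw, h⟩
        obtain ⟨u, hu, rfl⟩ := mem_im.1 hw
        exact ⟨u, hu, h⟩
    have hd2 : DfnF M M fun w : Fin 1 → ZFSet.{0} => T (itr T a (w 0)) :=
      DfnF.comp1 (f := T) hTd hid
    rw [h2]
    refine union hM hκ hκo hω ha (hZ.union _ (hZ.im_mem hzC hd2)) h1 ?_
    refine iUnion hM hκ hκo hω hzC ?_ hd2 ?_
    · exact Inj.of_subset hZ hzC hκ fun u hu => hω (hz hu)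
    · intro u hu
      have huC := hZ.trans _ hzC _ hu
      have h3 := ih u hu (isOrdinal_omega.subset_of_mem (hz hu)) huC
      have h4 : itr T a u ∈ M := itr_mem_M hZ ha huC hTd
      exact (hsm k le_rfl _ h4 h3).2
  refine ⟨itr T a ZFSet.omega, itr_mem_M hZ ha hZ.infinity hTd, itr_base,
    hsmall _ (fun _ h => h) hZ.infinity, ?_⟩
  intro i hi p hp q hq
  obtain ⟨k1, h2⟩ := mem_itr_omega hp
  obtain ⟨k2, h3⟩ := mem_itr_omega hq
  have h4 : p ∈ itr T a (nat (max k1 k2)) := itr_mono (nat_subset (le_max_left _ _)) h2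
  have h5 : q ∈ itr T a (nat (max k1 k2)) := itr_mono (nat_subset (le_max_right _ _)) h3
  exact itr_step (nat_mem_omega (max k1 k2)) (im_stp hi h4 h5)

/-! ### The operations -/

/-- The operations on the relations. The argument is a pair of pairs. -/
noncomputable def op (K : ZFSet.{0} → Prop) (X : ZFSet.{0}) : ℕ → ZFSet.{0} → ZFSet.{0}
  | 0, u => pair (fs (fs u)) (ZFSet.sep (fun t => t ∉ sn (fs u)) (fs (fs u)))
  | 1, u => pair (fs (fs u)) (ZFSet.sep (fun t => t ∈ sn (fs u) ∧ t ∈ sn (sn u)) (fs (fs u)))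
  | 2, u => pair (fs (sn u)) (ZFSet.sep (fun t => ∃ a ∈ X, pair a t ∈ sn (fs u)) (fs (sn u)))
  | 3, u => pair (fs (sn u)) (ZFSet.sep (fun t => K (ZFSet.sep
      (fun z => pair (fs z) (pair (sn z) t) ∈ sn (fs u)) (ZFSet.prod X X))) (fs (sn u)))
  | 4, u => pair (ZFSet.prod X (fs (fs u)))
      (ZFSet.sep (fun t => sn t ∈ sn (fs u)) (ZFSet.prod X (fs (fs u))))
  | 5, u => pair (ZFSet.prod X (ZFSet.prod X (fs (sn u))))
      (ZFSet.sep (fun t => pair (fs t) (sn (sn t)) ∈ sn (fs u))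
        (ZFSet.prod X (ZFSet.prod X (fs (sn u)))))
  | 6, u => pair (ZFSet.prod X (ZFSet.prod X (fs (fs u))))
      (ZFSet.sep (fun t => fs t ∈ fs (sn t)) (ZFSet.prod X (ZFSet.prod X (fs (fs u)))))
  | 7, u => pair (ZFSet.prod X (ZFSet.prod X (fs (fs u))))
      (ZFSet.sep (fun t => fs (sn t) ∈ fs t) (ZFSet.prod X (ZFSet.prod X (fs (fs u)))))
  | _, u => pair (ZFSet.prod X (ZFSet.prod X (fs (fs u))))
      (ZFSet.sep (fun t => fs t = fs (sn t)) (ZFSet.prod X (ZFSet.prod X (fs (fs u)))))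

theorem dfn_op {M : Set ZFSet.{0}} (hM : IsZF M) {K : ZFSet.{0} → ZFSet.{0} → Prop}
    (hK : Dfn M M fun w : Fin 2 → ZFSet.{0} => K (w 0) (w 1)) {a X : ZFSet.{0}} (ha : a ∈ M)
    (hX : X ∈ M) (i : ℕ) (hi : i < 9) :
    DfnF M M fun w : Fin 1 → ZFSet.{0} => op (K a) X i (w 0) := by
  have hB := hM.base
  have f1 : DfnF M M fun w : Fin 1 → ZFSet.{0} => fs (fs (w 0)) := hM.fs' (hM.fs' (DfnF.proj 0))
  have f2 : DfnF M M fun w : Fin 1 → ZFSet.{0} => fs (sn (w 0)) := hM.fs' (hM.sn' (DfnF.proj 0))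
  have s1 : DfnF M M fun w : Fin 2 → ZFSet.{0} => sn (fs (w 1)) := hM.sn' (hM.fs' (DfnF.proj 1))
  have s2 : DfnF M M fun w : Fin 2 → ZFSet.{0} => sn (sn (w 1)) := hM.sn' (hM.sn' (DfnF.proj 1))
  have s3 : DfnF M M fun w : Fin 3 → ZFSet.{0} => sn (fs (w 2)) := hM.sn' (hM.fs' (DfnF.proj 2))
  have p1 : DfnF M M fun w : Fin 1 → ZFSet.{0} => ZFSet.prod X (fs (fs (w 0))) :=
    hM.prod' (DfnF.const hX) f1
  have p2 : DfnF M M fun w : Fin 1 → ZFSet.{0} => ZFSet.prod X (ZFSet.prod X (fs (fs (w 0)))) :=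
    hM.prod' (DfnF.const hX) p1
  have p3 : DfnF M M fun w : Fin 1 → ZFSet.{0} => ZFSet.prod X (ZFSet.prod X (fs (sn (w 0)))) :=
    hM.prod' (DfnF.const hX) (hM.prod' (DfnF.const hX) f2)
  have t0 : DfnF M M fun w : Fin 2 → ZFSet.{0} => w 0 := DfnF.proj 0
  interval_cases i
  · exact hB.pair' f1 (hM.sep' (Q := fun t w => t ∉ sn (fs (w 0))) f1 (Dfn.mem t0 s1).not)
  · exact hB.pair' f1 (hM.sep' (Q := fun t w => t ∈ sn (fs (w 0)) ∧ t ∈ sn (sn (w 0))) f1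
      ((Dfn.mem t0 s1).and (Dfn.mem t0 s2)))
  · refine hB.pair' f2 (hM.sep' (Q := fun t w => ∃ a ∈ X, pair a t ∈ sn (fs (w 0))) f2 ?_)
    refine hB.bex (Q := fun a w => pair a (w 0) ∈ sn (fs (w 1))) (DfnF.const hX) ?_
    exact Dfn.mem (hB.pair' (DfnF.proj 0) (DfnF.proj 1)) s3
  · refine hB.pair' f2 (hM.sep' (Q := fun t w => K a (ZFSet.sep
      (fun z => pair (fs z) (pair (sn z) t) ∈ sn (fs (w 0))) (ZFSet.prod X X))) f2 ?_)
    refine Dfn.comp2 (Q := K) hK (DfnF.const ha) ?_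
    refine hM.sep' (Q := fun z w => pair (fs z) (pair (sn z) (w 0)) ∈ sn (fs (w 1)))
      (DfnF.const (hM.prod_mem hX hX)) ?_
    exact Dfn.mem (hB.pair' (hM.fs' (DfnF.proj 0))
      (hB.pair' (hM.sn' (DfnF.proj 0)) (DfnF.proj 1))) s3
  · exact hB.pair' p1 (hM.sep' (Q := fun t w => sn t ∈ sn (fs (w 0))) p1
      (Dfn.mem (hM.sn' t0) s1))
  · exact hB.pair' p3 (hM.sep' (Q := fun t w => pair (fs t) (sn (sn t)) ∈ sn (fs (w 0))) p3
      (Dfn.mem (hB.pair' (hM.fs' t0) (hM.sn' (hM.sn' t0))) s1))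
  · exact hB.pair' p2 (hM.sep' (Q := fun t w => fs t ∈ fs (sn t)) p2
      (Dfn.mem (hM.fs' t0) (hM.fs' (hM.sn' t0))))
  · exact hB.pair' p2 (hM.sep' (Q := fun t w => fs (sn t) ∈ fs t) p2
      (Dfn.mem (hM.fs' (hM.sn' t0)) (hM.fs' t0)))
  · exact hB.pair' p2 (hM.sep' (Q := fun t w => fs t = fs (sn t)) p2
      (Dfn.eq (hM.fs' t0) (hM.fs' (hM.sn' t0))))

/-! ### The closed sets contain all the definable relations -/

theorem mem_rl {K : ZFSet.{0} → Prop} {X : ZFSet.{0}} {n : ℕ} {φ : FmQ n} {t : ZFSet.{0}} :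
    t ∈ rl K X φ ↔ ∃ v : Fin n → ZFSet.{0}, (∀ i, v i ∈ X) ∧ t = tup v ∧ φ.Sat K X v := by
  rw [rl, ZFSet.mem_sep, mem_pw]
  constructor
  · rintro ⟨⟨v, hv, rfl⟩, w, hw, h⟩
    obtain rfl := tup_inj hw
    exact ⟨v, hv, rfl, h⟩
  · rintro ⟨v, hv, rfl, h⟩
    exact ⟨⟨v, hv, rfl⟩, v, rfl, h⟩

theorem tup_mem_rl {K : ZFSet.{0} → Prop} {X : ZFSet.{0}} {n : ℕ} {φ : FmQ n}
    {v : Fin n → ZFSet.{0}} : tup v ∈ rl K X φ ↔ (∀ i, v i ∈ X) ∧ φ.Sat K X v := by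
  rw [mem_rl]
  constructor
  · rintro ⟨w, hw, h1, h⟩
    obtain rfl := tup_inj h1
    exact ⟨hw, h⟩
  · rintro ⟨hv, h⟩
    exact ⟨v, hv, rfl, h⟩

/-- The atomic relations. -/
noncomputable def At (r : ZFSet.{0} → ZFSet.{0} → Prop) (X : ZFSet.{0}) {n : ℕ} (i j : Fin n) :
    ZFSet.{0} :=
  ZFSet.sep (fun t => ∃ v : Fin n → ZFSet.{0}, t = tup v ∧ r (v i) (v j)) (pw X n)

theorem tup_mem_At {r : ZFSet.{0} → ZFSet.{0} → Prop} {X : ZFSet.{0}} {n : ℕ} {i j : Fin n}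
    {v : Fin n → ZFSet.{0}} : tup v ∈ At r X i j ↔ (∀ i, v i ∈ X) ∧ r (v i) (v j) := by
  rw [At, ZFSet.mem_sep, mem_pw]
  constructor
  · rintro ⟨⟨w, hw, h1⟩, w', h2, h⟩
    obtain rfl := tup_inj h1
    obtain rfl := tup_inj h2
    exact ⟨hw, h⟩
  · rintro ⟨hv, h⟩
    exact ⟨⟨v, hv, rfl⟩, v, rfl, h⟩

theorem tup_mem_pw {X : ZFSet.{0}} {n : ℕ} {v : Fin n → ZFSet.{0}} :
    tup v ∈ pw X n ↔ ∀ i, v i ∈ X := by
  rw [mem_pw]
  constructor
  · rintro ⟨w, hw, h1⟩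
    obtain rfl := tup_inj h1
    exact hw
  · exact fun hv => ⟨v, hv, rfl⟩

/-- Sets of tuples. -/
theorem ext_tup {X : ZFSet.{0}} {n : ℕ} {A B : ZFSet.{0}} (hA : A ⊆ pw X n) (hB : B ⊆ pw X n)
    (h : ∀ v : Fin n → ZFSet.{0}, (∀ i, v i ∈ X) → (tup v ∈ A ↔ tup v ∈ B)) : A = B := by
  ext t
  constructor
  · intro ht
    obtain ⟨v, hv, rfl⟩ := mem_pw.1 (hA ht)
    exact (h v hv).1 ht
  · intro ht
    obtain ⟨v, hv, rfl⟩ := mem_pw.1 (hB ht)
    exact (h v hv).2 ht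

theorem rl_sub {K : ZFSet.{0} → Prop} {X : ZFSet.{0}} {n : ℕ} {φ : FmQ n} :
    rl K X φ ⊆ pw X n := fun _ h => (ZFSet.mem_sep.1 h).1

theorem At_sub {r : ZFSet.{0} → ZFSet.{0} → Prop} {X : ZFSet.{0}} {n : ℕ} {i j : Fin n} :
    At r X i j ⊆ pw X n := fun _ h => (ZFSet.mem_sep.1 h).1

theorem sep_sub {Q : ZFSet.{0} → Prop} {X : ZFSet.{0}} : ZFSet.sep Q X ⊆ X :=
  fun _ h => (ZFSet.mem_sep.1 h).1

/-- Tuples of positive length. -/
theorem tup_eq {n : ℕ} (v : Fin (n + 1) → ZFSet.{0}) : tup v = pair (v 0) (tup (Fin.tail v)) :=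
  rfl

section

variable {K : ZFSet.{0} → Prop} {X H : ZFSet.{0}} (h0 : pair {∅} {∅} ∈ H)
  (hH : ∀ i < 9, ∀ p ∈ H, ∀ q ∈ H, op K X i (pair p q) ∈ H)

include h0 hH

theorem full (n : ℕ) : pair (pw X n) (pw X n) ∈ H := by
  induction n with
  | zero => exact h0
  | succ n ih =>
    have h := hH 4 (by norm_num) _ ih _ ih
    simp only [op, fs_pair, sn_pair] at h
    have h1 : ZFSet.sep (fun t => sn t ∈ pw X n) (ZFSet.prod X (pw X n)) = pw X (n + 1) := by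
      refine ext_tup sep_sub (fun _ h => h) fun v hv => ?_
      rw [ZFSet.mem_sep, tup_eq, sn_pair]
      have h2 : tup (Fin.tail v) ∈ pw X n := tup_mem_pw.2 fun i => hv _
      exact ⟨fun h => h.1, fun h => ⟨h, h2⟩⟩
    rw [h1] at h
    exact h

theorem at_zero {r : ZFSet.{0} → ZFSet.{0} → Prop}
    (hr : ∀ n : ℕ, pair (pw X (n + 2)) (At r X (0 : Fin (n + 2)) 1) ∈ H) :
    ∀ (n : ℕ) (j : Fin n), pair (pw X (n + 1)) (At r X 0 j.succ) ∈ H := by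
  intro n
  induction n with
  | zero => exact fun j => j.elim0
  | succ n ih =>
    intro j
    refine Fin.cases ?_ (fun j => ?_) j
    · exact hr n
    · have h := hH 5 (by norm_num) _ (ih j) _ (full h0 hH n)
      simp only [op, fs_pair, sn_pair] at h
      have h1 : ZFSet.sep (fun t => pair (fs t) (sn (sn t)) ∈ At r X 0 j.succ)
          (ZFSet.prod X (ZFSet.prod X (pw X n))) = At r X (0 : Fin (n + 2)) j.succ.succ := by
        refine ext_tup (X := X) (n := n + 2) sep_sub At_sub fun v hv => ?_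
        rw [tup_mem_At, ZFSet.mem_sep]
        have h2 : tup v = pair (v 0) (pair (v 1) (tup (Fin.tail (Fin.tail v)))) := rfl
        have h3 : pair (fs (tup v)) (sn (sn (tup v)))
            = tup (Fin.cons (v 0) (Fin.tail (Fin.tail v)) : Fin (n + 1) → ZFSet.{0}) := by
          rw [tup_cons, h2, fs_pair, sn_pair, sn_pair]
        rw [h3, tup_mem_At]
        have h4 : tup v ∈ ZFSet.prod X (ZFSet.prod X (pw X n)) :=
          (tup_mem_pw (X := X) (n := n + 2)).2 hv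
        have h5 : ∀ i, (Fin.cons (v 0) (Fin.tail (Fin.tail v)) : Fin (n + 1) → ZFSet.{0}) i ∈ X := by
          intro i
          refine Fin.cases ?_ (fun i => ?_) i
          · exact hv 0
          · exact hv _
        exact ⟨fun h => ⟨hv, h.2.2⟩, fun h => ⟨h4, h5, h.2⟩⟩
      rw [h1] at h
      exact h

theorem at_lt {r : ZFSet.{0} → ZFSet.{0} → Prop}
    (hr : ∀ n : ℕ, pair (pw X (n + 2)) (At r X (0 : Fin (n + 2)) 1) ∈ H) :
    ∀ (n : ℕ) (i j : Fin n), i < j → pair (pw X n) (At r X i j) ∈ H := by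
  intro n
  induction n with
  | zero => exact fun i => i.elim0
  | succ n ih =>
    intro i j
    refine Fin.cases ?_ (fun i => ?_) i
    · refine Fin.cases ?_ (fun j => ?_) j
      · exact fun h => absurd h (lt_irrefl _)
      · exact fun _ => at_zero h0 hH hr n j
    · refine Fin.cases ?_ (fun j => ?_) j
      · exact fun h => absurd h (by simp)
      · intro hij
        have h := hH 4 (by norm_num) _ (ih i j (Fin.succ_lt_succ_iff.1 hij)) _ (full h0 hH n)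
        simp only [op, fs_pair, sn_pair] at h
        have h1 : ZFSet.sep (fun t => sn t ∈ At r X i j) (ZFSet.prod X (pw X n))
            = At r X i.succ j.succ := by
          refine ext_tup (X := X) (n := n + 1) sep_sub At_sub fun v hv => ?_
          rw [tup_mem_At, ZFSet.mem_sep, tup_eq, sn_pair, tup_mem_At]
          have h4 : pair (v 0) (tup (Fin.tail v)) ∈ ZFSet.prod X (pw X n) :=
            (tup_mem_pw (X := X) (n := n + 1)).2 hv
          exact ⟨fun h => ⟨hv, h.2.2⟩, fun h => ⟨h4, fun i => hv _, h.2⟩⟩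
        rw [h1] at h
        exact h

theorem at_mem (n : ℕ) (i j : Fin n) (hij : i < j) : pair (pw X n) (At (· ∈ ·) X i j) ∈ H := by
  refine at_lt h0 hH (fun n => ?_) n i j hij
  have h := hH 6 (by norm_num) _ (full h0 hH n) _ (full h0 hH n)
  simp only [op, fs_pair] at h
  have h1 : ZFSet.sep (fun t => fs t ∈ fs (sn t)) (ZFSet.prod X (ZFSet.prod X (pw X n)))
      = At (· ∈ ·) X (0 : Fin (n + 2)) 1 := by
    refine ext_tup (X := X) (n := n + 2) sep_sub At_sub fun v hv => ?_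
    rw [tup_mem_At, ZFSet.mem_sep]
    have h2 : tup v = pair (v 0) (pair (v 1) (tup (Fin.tail (Fin.tail v)))) := rfl
    have h4 : tup v ∈ ZFSet.prod X (ZFSet.prod X (pw X n)) :=
      (tup_mem_pw (X := X) (n := n + 2)).2 hv
    have h5 : fs (tup v) ∈ fs (sn (tup v)) ↔ v 0 ∈ v 1 := by
      rw [h2, fs_pair, sn_pair, fs_pair]
    rw [h5]
    exact ⟨fun h => ⟨hv, h.2⟩, fun h => ⟨h4, h.2⟩⟩
  rw [h1] at h
  exact h

theorem at_ni (n : ℕ) (i j : Fin n) (hij : i < j) :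
    pair (pw X n) (At (fun x y => y ∈ x) X i j) ∈ H := by
  refine at_lt h0 hH (fun n => ?_) n i j hij
  have h := hH 7 (by norm_num) _ (full h0 hH n) _ (full h0 hH n)
  simp only [op, fs_pair] at h
  have h1 : ZFSet.sep (fun t => fs (sn t) ∈ fs t) (ZFSet.prod X (ZFSet.prod X (pw X n)))
      = At (fun x y => y ∈ x) X (0 : Fin (n + 2)) 1 := by
    refine ext_tup (X := X) (n := n + 2) sep_sub At_sub fun v hv => ?_
    rw [tup_mem_At, ZFSet.mem_sep]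
    have h2 : tup v = pair (v 0) (pair (v 1) (tup (Fin.tail (Fin.tail v)))) := rfl
    have h4 : tup v ∈ ZFSet.prod X (ZFSet.prod X (pw X n)) :=
      (tup_mem_pw (X := X) (n := n + 2)).2 hv
    have h5 : fs (sn (tup v)) ∈ fs (tup v) ↔ v 1 ∈ v 0 := by
      rw [h2, fs_pair, sn_pair, fs_pair]
    rw [h5]
    exact ⟨fun h => ⟨hv, h.2⟩, fun h => ⟨h4, h.2⟩⟩
  rw [h1] at h
  exact h

theorem at_eq (n : ℕ) (i j : Fin n) (hij : i < j) : pair (pw X n) (At (· = ·) X i j) ∈ H := by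
  refine at_lt h0 hH (fun n => ?_) n i j hij
  have h := hH 8 (by norm_num) _ (full h0 hH n) _ (full h0 hH n)
  simp only [op, fs_pair] at h
  have h1 : ZFSet.sep (fun t => fs t = fs (sn t)) (ZFSet.prod X (ZFSet.prod X (pw X n)))
      = At (· = ·) X (0 : Fin (n + 2)) 1 := by
    refine ext_tup (X := X) (n := n + 2) sep_sub At_sub fun v hv => ?_
    rw [tup_mem_At, ZFSet.mem_sep]
    have h2 : tup v = pair (v 0) (pair (v 1) (tup (Fin.tail (Fin.tail v)))) := rfl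
    have h4 : tup v ∈ ZFSet.prod X (ZFSet.prod X (pw X n)) :=
      (tup_mem_pw (X := X) (n := n + 2)).2 hv
    have h5 : fs (tup v) = fs (sn (tup v)) ↔ v 0 = v 1 := by
      rw [h2, fs_pair, sn_pair, fs_pair]
    rw [h5]
    exact ⟨fun h => ⟨hv, h.2⟩, fun h => ⟨h4, h.2⟩⟩
  rw [h1] at h
  exact h

theorem rel_mem : {n : ℕ} → (φ : FmQ n) → pair (pw X n) (rl K X φ) ∈ H
  | n, .mem i j => by
    rcases lt_trichotomy i j with hij | rfl | hij
    · have h := at_mem h0 hH n i j hij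
      have h1 : rl K X (.mem i j) = At (· ∈ ·) X i j :=
        ext_tup rl_sub At_sub fun v _ => by rw [tup_mem_rl, tup_mem_At]; rfl
      rwa [h1]
    · have h := hH 0 (by norm_num) _ (full h0 hH n) _ (full h0 hH n)
      simp only [op, fs_pair, sn_pair] at h
      have h1 : rl K X (.mem i i) = ZFSet.sep (fun t => t ∉ pw X n) (pw X n) := by
        refine ext_tup rl_sub sep_sub fun v hv => ?_
        rw [tup_mem_rl, ZFSet.mem_sep]
        exact ⟨fun h => absurd h.2 (ZFSet.mem_irrefl _), fun h => absurd h.1 h.2⟩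
      rwa [h1]
    · have h := at_ni h0 hH n j i hij
      have h1 : rl K X (.mem i j) = At (fun x y => y ∈ x) X j i :=
        ext_tup rl_sub At_sub fun v _ => by rw [tup_mem_rl, tup_mem_At]; rfl
      rwa [h1]
  | n, .eq i j => by
    rcases lt_trichotomy i j with hij | rfl | hij
    · have h := at_eq h0 hH n i j hij
      have h1 : rl K X (.eq i j) = At (· = ·) X i j :=
        ext_tup rl_sub At_sub fun v _ => by rw [tup_mem_rl, tup_mem_At]; rfl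
      rwa [h1]
    · have h := full h0 hH n
      have h1 : rl K X (.eq i i) = pw X n := by
        refine ext_tup rl_sub (fun _ h => h) fun v hv => ?_
        rw [tup_mem_rl, tup_mem_pw]
        exact ⟨fun h => h.1, fun h => ⟨h, rfl⟩⟩
      rwa [h1]
    · have h := at_eq h0 hH n j i hij
      have h1 : rl K X (.eq i j) = At (· = ·) X j i := by
        refine ext_tup rl_sub At_sub fun v _ => ?_
        rw [tup_mem_rl, tup_mem_At]
        exact and_congr_right fun _ => ⟨fun h => h.symm, fun h => h.symm⟩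
      rwa [h1]
  | n, .neg φ => by
    have ih := rel_mem φ
    have h := hH 0 (by norm_num) _ ih _ ih
    simp only [op, fs_pair, sn_pair] at h
    have h1 : rl K X (.neg φ) = ZFSet.sep (fun t => t ∉ rl K X φ) (pw X n) := by
      refine ext_tup rl_sub sep_sub fun v hv => ?_
      rw [tup_mem_rl, ZFSet.mem_sep, tup_mem_pw, tup_mem_rl]
      exact ⟨fun h => ⟨h.1, fun h2 => h.2 h2.2⟩, fun h => ⟨h.1, fun h2 => h.2 ⟨hv, h2⟩⟩⟩
    rwa [h1]
  | n, .and φ ψ => by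
    have ih := rel_mem φ
    have ih' := rel_mem ψ
    have h := hH 1 (by norm_num) _ ih _ ih'
    simp only [op, fs_pair, sn_pair] at h
    have h1 : rl K X (.and φ ψ)
        = ZFSet.sep (fun t => t ∈ rl K X φ ∧ t ∈ rl K X ψ) (pw X n) := by
      refine ext_tup rl_sub sep_sub fun v hv => ?_
      rw [tup_mem_rl, ZFSet.mem_sep, tup_mem_pw, tup_mem_rl, tup_mem_rl]
      exact ⟨fun h => ⟨hv, ⟨hv, h.2.1⟩, hv, h.2.2⟩, fun h => ⟨hv, h.2.1.2, h.2.2.2⟩⟩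
    rwa [h1]
  | n, .ex φ => by
    have ih := rel_mem φ
    have h := hH 2 (by norm_num) _ ih _ (full h0 hH n)
    simp only [op, fs_pair, sn_pair] at h
    have h1 : rl K X (.ex φ)
        = ZFSet.sep (fun t => ∃ a ∈ X, pair a t ∈ rl K X φ) (pw X n) := by
      refine ext_tup rl_sub sep_sub fun v hv => ?_
      rw [tup_mem_rl, ZFSet.mem_sep, tup_mem_pw]
      refine and_congr_right fun _ => ?_
      show (∃ a ∈ X, φ.Sat K X (Fin.cons a v)) ↔ _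
      refine exists_congr fun a => and_congr_right fun ha => ?_
      rw [← tup_cons, tup_mem_rl]
      refine ⟨fun h => ⟨fun i => ?_, h⟩, fun h => h.2⟩
      refine Fin.cases ?_ (fun i => ?_) i
      · exact ha
      · exact hv _
    rwa [h1]
  | n, .qcf φ => by
    have ih := rel_mem φ
    have h := hH 3 (by norm_num) _ ih _ (full h0 hH n)
    simp only [op, fs_pair, sn_pair] at h
    have h1 : rl K X (.qcf φ)
        = ZFSet.sep (fun t => K (ZFSet.sep (fun z => pair (fs z) (pair (sn z) t) ∈ rl K X φ)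
          (ZFSet.prod X X))) (pw X n) := by
      refine ext_tup rl_sub sep_sub fun v hv => ?_
      rw [tup_mem_rl, ZFSet.mem_sep, tup_mem_pw]
      refine and_congr_right fun _ => ?_
      show K (ZFSet.sep (fun p => ∃ a ∈ X, ∃ b ∈ X, p = pair a b ∧
        φ.Sat K X (Fin.cons a (Fin.cons b v))) (ZFSet.prod X X)) ↔ _
      have h2 : ZFSet.sep (fun p => ∃ a ∈ X, ∃ b ∈ X, p = pair a b ∧
          φ.Sat K X (Fin.cons a (Fin.cons b v))) (ZFSet.prod X X)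
          = ZFSet.sep (fun z => pair (fs z) (pair (sn z) (tup v)) ∈ rl K X φ)
            (ZFSet.prod X X) := by
        ext p
        rw [ZFSet.mem_sep, ZFSet.mem_sep]
        refine and_congr_right fun hp => ?_
        obtain ⟨a, ha, b, hb, rfl⟩ := ZFSet.mem_prod.1 hp
        rw [fs_pair, sn_pair, ← tup_cons, ← tup_cons, tup_mem_rl]
        constructor
        · rintro ⟨a', -, b', -, h3, h4⟩
          obtain ⟨rfl, rfl⟩ := ZFSet.pair_inj.1 h3
          refine ⟨fun i => ?_, h4⟩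
          refine Fin.cases ?_ (fun i => ?_) i
          · exact ha
          · refine Fin.cases ?_ (fun i => ?_) i
            · exact hb
            · exact hv _
        · exact fun h => ⟨a, ha, b, hb, rfl, h.2⟩
      rw [h2]
    rwa [h1]

end

theorem mem_Rels {K : ZFSet.{0} → Prop} {X : ZFSet.{0}} {n : ℕ} (φ : FmQ n) :
    pair (pw X n) (rl K X φ) ∈ Rels K X := by
  rw [Rels, ZFSet.mem_range]
  exact ⟨⟨n, φ⟩, rfl⟩

theorem rels_mem {M : Set ZFSet.{0}} (hM : IsZF M) {K : ZFSet.{0} → ZFSet.{0} → Prop}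
    (hK : Dfn M M fun w : Fin 2 → ZFSet.{0} => K (w 0) (w 1)) {a X : ZFSet.{0}} (ha : a ∈ M)
    (hX : X ∈ M) : Rels (K a) X ∈ M := by
  have h := (dfn_Rels hM hK).1 ![a, X] (by
    intro i
    fin_cases i
    · exact ha
    · exact hX)
  exact h

theorem rels_inj {M : Set ZFSet.{0}} {K : ZFSet.{0} → ZFSet.{0} → Prop}
    (hK : Dfn M M fun w : Fin 2 → ZFSet.{0} => K (w 0) (w 1)) (hM : IsZFC M) {a X : ZFSet.{0}}
    (ha : a ∈ M) (hX : X ∈ M) : Inj M (Rels (K a) X) ZFSet.omega := by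
  have hZ := hM.toIsZF
  have hRM := rels_mem hZ hK ha hX
  have h1 : (pair {∅} {∅} : ZFSet.{0}) ∈ M :=
    hZ.pair_mem (hZ.single_mem hZ.empty_mem) (hZ.single_mem hZ.empty_mem)
  obtain ⟨H, hHM, hsub, hinj, hcl⟩ := closure hM hZ.infinity isOrdinal_omega (fun _ h => h)
    (a := {pair {∅} {∅}}) (hZ.single_mem h1) (single hM hZ.infinity (fun _ h => h) h1)
    (o := op (K a) X) (k := 9) (fun i hi => dfn_op hZ hK ha hX i hi)
  have h0 : (pair {∅} {∅} : ZFSet.{0}) ∈ H := hsub (ZFSet.mem_singleton.2 rfl)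
  refine Inj.trans hZ hRM hZ.infinity (Inj.of_subset hZ hRM hHM fun R hR => ?_) hinj
  rw [Rels, ZFSet.mem_range] at hR
  obtain ⟨⟨n, φ⟩, rfl⟩ := hR
  exact rel_mem h0 hcl φ

end PA3

section

variable {M : Set ZFSet.{0}} (hM : IsZF M) {K : ZFSet.{0} → ZFSet.{0} → Prop}
  (hK : Dfn M M fun w : Fin 2 → ZFSet.{0} => K (w 0) (w 1))

include hM hK

omit hM in
/-- In `M`, the set of the definable relations is countable. -/
theorem rels_countable (hM : IsZFC M) {a X : ZFSet.{0}} (ha : a ∈ M) (hX : X ∈ M) :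
    ∃ f ∈ M, (∀ i ∈ ZFSet.omega, ∃ R ∈ Rels (K a) X, pair i R ∈ f) ∧
      (∀ i R R', pair i R ∈ f → pair i R' ∈ f → R = R') ∧
      ∀ R ∈ Rels (K a) X, ∃ i ∈ ZFSet.omega, pair i R ∈ f := by
  have hZ := hM.toIsZF
  have hB := hZ.base
  have hRM : Rels (K a) X ∈ M := PA3.rels_mem hZ hK ha hX
  obtain ⟨g, hgM, hg⟩ := PA3.rels_inj hK hM ha hX
  set R0 : ZFSet.{0} := pair (pw X 0) (rl (K a) X (.ex (.eq 0 0))) with hR0
  have hR0m : R0 ∈ Rels (K a) X := PA3.mem_Rels (.ex (.eq 0 0))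
  have hR0M : R0 ∈ M := hZ.trans _ hRM _ hR0m
  obtain ⟨f, hfM, -, hf⟩ := hZ.rel_mem hZ.infinity hRM
    (Q := fun i R => pair R i ∈ g ∨ ((∀ R' ∈ Rels (K a) X, pair R' i ∉ g) ∧ R = R0)) (by
    refine (Dfn.mem (hB.pair' (DfnF.proj 1) (DfnF.proj 0)) (DfnF.const hgM)).or
      (Dfn.and ?_ (Dfn.eq (DfnF.proj 1) (DfnF.const hR0M)))
    refine hB.ball (Q := fun R' w => pair R' (w 0) ∉ g) (DfnF.const hRM) ?_
    exact (Dfn.mem (hB.pair' (DfnF.proj 0) (DfnF.proj 1)) (DfnF.const hgM)).not)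
  refine ⟨f, hfM, fun i hi => ?_, fun i R R' h1 h2 => ?_, fun R hR => ?_⟩
  · by_cases hc : ∃ R ∈ Rels (K a) X, pair R i ∈ g
    · obtain ⟨R, hR, h1⟩ := hc
      exact ⟨R, hR, (hf i R).2 ⟨hi, hR, Or.inl h1⟩⟩
    · refine ⟨R0, hR0m, (hf i R0).2 ⟨hi, hR0m, Or.inr ⟨fun R' hR' h1 => hc ⟨R', hR', h1⟩, rfl⟩⟩⟩
  · obtain ⟨-, hR, h3⟩ := (hf i R).1 h1
    obtain ⟨-, hR', h4⟩ := (hf i R').1 h2
    rcases h3 with h3 | ⟨h3, h5⟩
    · rcases h4 with h4 | ⟨h4, -⟩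
      · exact hg.2 _ _ _ h3 h4
      · exact absurd h3 (h4 R hR)
    · rcases h4 with h4 | ⟨-, h6⟩
      · exact absurd h4 (h3 R' hR')
      · rw [h5, h6]
  · obtain ⟨i, hi, h1⟩ := fun_exists hg.1 hR
    exact ⟨i, hi, (hf i R).2 ⟨hi, hR, Or.inl h1⟩⟩

end

/-- The size of `Def(X)` in `M`. -/
theorem defQ_small {M : Set ZFSet.{0}} (hM : IsZFC M) {K : ZFSet.{0} → Prop}
    (hK : Dfn M M fun w : Fin 1 → ZFSet.{0} => K (w 0)) {X κ : ZFSet.{0}} (hX : X ∈ M) (hκ : κ ∈ M)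
    (hκo : κ.IsOrdinal) (hω : ZFSet.omega ⊆ κ) (h : Inj M X κ) : Inj M (DefQ K X) κ := by
  have hZ := hM.toIsZF
  have hB := hZ.base
  have hK' : Dfn M M fun w : Fin 2 → ZFSet.{0} => (fun _ x => K x) (w 0) (w 1) :=
    Dfn.comp1 (Q := K) hK (DfnF.proj 1)
  have hRM : Rels K X ∈ M := PA3.rels_mem (K := fun _ x => K x) hZ hK' hZ.empty_mem hX
  have hDM : DefQ K X ∈ M := by
    have h1 := (dfn_DefQ (K := fun _ x => K x) hZ hK').1 ![∅, X] (by
      intro i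
      fin_cases i
      · exact hZ.empty_mem
      · exact hX)
    exact h1
  have hRi : Inj M (Rels K X) κ :=
    Inj.trans hZ hRM hκ (PA3.rels_inj (K := fun _ x => K x) hK' hM hZ.empty_mem hX)
      (Inj.of_subset hZ hZ.infinity hκ hω)
  -- the tuples
  have hfs : DfnF M M fun w : Fin 1 → ZFSet.{0} => fs (w 0) := hZ.fs' (DfnF.proj 0)
  set Q : ZFSet.{0} := ZFSet.sUnion (im fs (Rels K X)) with hQ
  have hQM : Q ∈ M := hZ.union _ (hZ.im_mem hRM hfs)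
  have hQi : Inj M Q κ := by
    refine PA3.iUnion hM hκ hκo hω hRM hRi hfs fun u hu => ?_
    rw [Rels, ZFSet.mem_range] at hu
    obtain ⟨⟨n, φ⟩, rfl⟩ := hu
    rw [fs_pair]
    exact PA3.ipw hM hκ hκo hω hX h n
  have hQm : ∀ (n : ℕ) (v : Fin n → ZFSet.{0}), (∀ i, v i ∈ X) → tup v ∈ Q := by
    intro n v hv
    refine ZFSet.mem_sUnion.2 ⟨pw X n, mem_im.2 ⟨pair (pw X n) (rl K X (.ex (.eq 0 0) : FmQ n)),
      PA3.mem_Rels (.ex (.eq 0 0)), (fs_pair _ _).symm⟩, mem_pw.2 ⟨v, hv, rfl⟩⟩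
  -- the sections
  set G : ZFSet.{0} → ZFSet.{0} := fun u => ZFSet.sep (fun a => pair a (sn u) ∈ sn (fs u)) X with hG
  have hGd : DfnF M M fun w : Fin 1 → ZFSet.{0} => G (w 0) := by
    refine hZ.sep' (Q := fun a w => pair a (sn (w 0)) ∈ sn (fs (w 0))) (DfnF.const hX) ?_
    exact Dfn.mem (hB.pair' (DfnF.proj 0) (hZ.sn' (DfnF.proj 1)))
      (hZ.sn' (hZ.fs' (DfnF.proj 1)))
  have hP := hZ.prod_mem hRM hQM
  have hPi : Inj M (ZFSet.prod (Rels K X) Q) κ :=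
    Inj.trans hZ hP hκ (Inj.prod hZ hRM hQM hκ hκ hRi hQi) (sq_inj hZ hκ hκo hω)
  have hI := Inj.image hZ hP hκ hκo hPi hGd
  refine Inj.trans hZ hDM hκ (Inj.of_subset hZ hDM (hZ.im_mem hP hGd) fun Y hY => ?_) hI
  obtain ⟨n, φ, v, hv, rfl⟩ := mem_defQ_iff.1 hY
  refine mem_im.2 ⟨pair (pair (pw X (n + 1)) (rl K X φ)) (tup v),
    ZFSet.pair_mem_prod.2 ⟨PA3.mem_Rels φ, hQm n v hv⟩, ?_⟩
  simp only [hG, fs_pair, sn_pair]

end Pool.Agent.helper797_it
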