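import Pool.Agent.helper797_it.PA2

/-! # A4: the hierarchy `L'` in a model -/

set_option autoImplicit false
set_option linter.unreachableTactic false
set_option linter.unusedTactic false

namespace Pool.Agent.helper797_it
open Pool.Agent.W868 Pool.Agent.R587 Pool.Agent.helper797_cs
open ZFSet (pair)

namespace PA4

theorem mem_sqSet {g : ℕ → ZFSet.{0}} {p : ZFSet.{0}} :
    p ∈ sqSet g ↔ ∃ n, p = pair (nat n) (g n) := by
  unfold sqSet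
  rw [ZFSet.mem_range]
  exact ⟨fun ⟨n, h⟩ => ⟨n, h.symm⟩, fun ⟨n, h⟩ => ⟨n, h.symm⟩⟩

theorem pair_mem_sqSet {g : ℕ → ZFSet.{0}} {n : ℕ} {b : ZFSet.{0}} :
    pair (nat n) b ∈ sqSet g ↔ b = g n := by
  rw [mem_sqSet]
  constructor
  · rintro ⟨m, h⟩
    obtain ⟨h1, h2⟩ := ZFSet.pair_inj.1 h
    rw [nat_injective h1]
    exact h2
  · rintro rfl
    exact ⟨n, rfl⟩

/-- `s` is a sequence of length `ω`. -/
def SqP (M : Set ZFSet.{0}) (s : ZFSet.{0}) : Prop :=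
  (∀ p ∈ s, ∃ i ∈ ZFSet.omega, ∃ b ∈ M, p = pair i b) ∧
    (∀ i ∈ ZFSet.omega, ∃ b ∈ M, pair i b ∈ s) ∧
    ∀ i ∈ ZFSet.omega, ∀ b ∈ M, ∀ b' ∈ M, pair i b ∈ s → pair i b' ∈ s → b = b'

theorem sqP_iff {M : Set ZFSet.{0}} {s : ZFSet.{0}} :
    SqP M s ↔ ∃ g : ℕ → ZFSet.{0}, s = sqSet g ∧ ∀ n, g n ∈ M := by
  constructor
  · rintro ⟨h1, h2, h3⟩
    have h4 : ∀ n : ℕ, ∃ b, b ∈ M ∧ pair (nat n) b ∈ s := fun n => by
      obtain ⟨b, hb, h⟩ := h2 _ (mem_omega_iff.2 ⟨n, rfl⟩)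
      exact ⟨b, hb, h⟩
    choose g hg using h4
    refine ⟨g, ?_, fun n => (hg n).1⟩
    ext p
    rw [mem_sqSet]
    constructor
    · intro hp
      obtain ⟨i, hi, b, hb, rfl⟩ := h1 p hp
      have hi' := hi
      obtain ⟨n, rfl⟩ := mem_omega_iff.1 hi'
      exact ⟨n, by rw [h3 _ hi _ hb _ (hg n).1 hp (hg n).2]⟩
    · rintro ⟨n, rfl⟩
      exact (hg n).2
  · rintro ⟨g, rfl, hg⟩
    refine ⟨?_, ?_, ?_⟩
    · intro p hp
      obtain ⟨n, rfl⟩ := mem_sqSet.1 hp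
      exact ⟨_, mem_omega_iff.2 ⟨n, rfl⟩, _, hg n, rfl⟩
    · intro i hi
      obtain ⟨n, rfl⟩ := mem_omega_iff.1 hi
      exact ⟨_, hg n, pair_mem_sqSet.2 rfl⟩
    · intro i hi b _ b' _ h h'
      obtain ⟨n, rfl⟩ := mem_omega_iff.1 hi
      rw [pair_mem_sqSet.1 h, pair_mem_sqSet.1 h']

theorem sqSet_vals {M : Set ZFSet.{0}} (hM : IsZF M) {g : ℕ → ZFSet.{0}} (h : sqSet g ∈ M)
    (n : ℕ) : g n ∈ M :=
  (hM.of_pair_mem (hM.trans _ h _ (pair_mem_sqSet (n := n).2 rfl))).2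

/-- `s` is a strictly increasing cofinal sequence in `R`. -/
def CofQ (M : Set ZFSet.{0}) (R s : ZFSet.{0}) : Prop :=
  SqP M s ∧ (∀ i ∈ ZFSet.omega, ∀ j ∈ ZFSet.omega, i ∈ j → ∀ b ∈ M, ∀ b' ∈ M,
      pair i b ∈ s → pair j b' ∈ s → b ≠ b' ∧ pair b b' ∈ R) ∧
    ∀ a ∈ M, (∃ b ∈ M, pair a b ∈ R ∨ pair b a ∈ R) →
      ∃ i ∈ ZFSet.omega, ∃ b ∈ M, pair i b ∈ s ∧ pair a b ∈ R

theorem fld_iff {M : Set ZFSet.{0}} (hM : IsZF M) {R a : ZFSet.{0}} (hR : R ∈ M) :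
    (∃ b ∈ M, pair a b ∈ R ∨ pair b a ∈ R) ↔ Fld R a := by
  constructor
  · rintro ⟨b, -, h⟩
    exact ⟨b, h⟩
  · rintro ⟨b, h⟩
    refine ⟨b, ?_, h⟩
    rcases h with h | h
    · exact (hM.of_pair_mem (hM.trans _ hR _ h)).2
    · exact (hM.of_pair_mem (hM.trans _ hR _ h)).1

theorem fld_mem {M : Set ZFSet.{0}} (hM : IsZF M) {R a : ZFSet.{0}} (hR : R ∈ M)
    (h : Fld R a) : a ∈ M := by
  obtain ⟨b, h | h⟩ := h
  · exact (hM.of_pair_mem (hM.trans _ hR _ h)).1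
  · exact (hM.of_pair_mem (hM.trans _ hR _ h)).2

theorem nat_mem_nat {m n : ℕ} : nat m ∈ nat n ↔ m < n := by
  rw [nat_eq, nat_eq, Ordinal.toZFSet_mem_toZFSet_iff]
  exact Nat.cast_lt

theorem cofQ_iff {M : Set ZFSet.{0}} (hM : IsZF M) {R s : ZFSet.{0}} (hR : R ∈ M) (hs : s ∈ M) :
    CofQ M R s ↔ ∃ g : ℕ → ZFSet.{0}, s = sqSet g ∧
      (∀ m n, m < n → g m ≠ g n ∧ pair (g m) (g n) ∈ R) ∧
      ∀ a, Fld R a → ∃ n, pair a (g n) ∈ R := by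
  constructor
  · rintro ⟨h1, h2, h3⟩
    obtain ⟨g, rfl, hg⟩ := sqP_iff.1 h1
    refine ⟨g, rfl, fun m n hmn => ?_, fun a ha => ?_⟩
    · exact h2 _ (mem_omega_iff.2 ⟨m, rfl⟩) _ (mem_omega_iff.2 ⟨n, rfl⟩) (nat_mem_nat.2 hmn)
        _ (hg m) _ (hg n) (pair_mem_sqSet.2 rfl) (pair_mem_sqSet.2 rfl)
    · obtain ⟨i, hi, b, hb, h4, h5⟩ := h3 a (fld_mem hM hR ha) ((fld_iff hM hR).2 ha)
      obtain ⟨n, rfl⟩ := mem_omega_iff.1 hi
      rw [pair_mem_sqSet.1 h4] at h5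
      exact ⟨n, h5⟩
  · rintro ⟨g, rfl, h2, h3⟩
    have hg := sqSet_vals hM hs
    refine ⟨sqP_iff.2 ⟨g, rfl, hg⟩, ?_, ?_⟩
    · intro i hi j hj hij b _ b' _ h h'
      obtain ⟨m, rfl⟩ := mem_omega_iff.1 hi
      obtain ⟨n, rfl⟩ := mem_omega_iff.1 hj
      rw [pair_mem_sqSet.1 h, pair_mem_sqSet.1 h']
      exact h2 m n (nat_mem_nat.1 hij)
    · intro a _ h
      obtain ⟨n, hn⟩ := h3 a ((fld_iff hM hR).1 h)
      exact ⟨_, mem_omega_iff.2 ⟨n, rfl⟩, _, hg n, pair_mem_sqSet.2 rfl, hn⟩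

/-- `R` is linear, with bounded quantifiers. -/
def LinQ (M : Set ZFSet.{0}) (R : ZFSet.{0}) : Prop :=
  (∀ a ∈ M, ∀ b ∈ M, ∀ c ∈ M, pair a b ∈ R → pair b c ∈ R → pair a c ∈ R) ∧
  (∀ a ∈ M, ∀ b ∈ M, (∃ c ∈ M, pair a c ∈ R ∨ pair c a ∈ R) →
    (∃ c ∈ M, pair b c ∈ R ∨ pair c b ∈ R) → a ≠ b → pair a b ∈ R ∨ pair b a ∈ R) ∧
  (∀ a ∈ M, ∀ b ∈ M, pair a b ∈ R → pair b a ∈ R → a = b) ∧
  ((∀ a ∈ M, pair a a ∉ R) ∨ ∀ a ∈ M, (∃ c ∈ M, pair a c ∈ R ∨ pair c a ∈ R) → pair a a ∈ R)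

theorem linQ_iff {M : Set ZFSet.{0}} (hM : IsZF M) {R : ZFSet.{0}} (hR : R ∈ M) :
    LinQ M R ↔ IsLin R := by
  have hp : ∀ {a b : ZFSet.{0}}, pair a b ∈ R → a ∈ M ∧ b ∈ M := fun h =>
    hM.of_pair_mem (hM.trans _ hR _ h)
  constructor
  · rintro ⟨h1, h2, h3, h4⟩
    refine ⟨fun a b c h h' => h1 a (hp h).1 b (hp h).2 c (hp h').2 h h', fun a b h h' hab => ?_,
      fun a b h h' => h3 a (hp h).1 b (hp h).2 h h', ?_⟩
    · exact h2 a (fld_mem hM hR h) b (fld_mem hM hR h') ((fld_iff hM hR).2 h)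
        ((fld_iff hM hR).2 h') hab
    · rcases h4 with h4 | h4
      · exact Or.inl fun a h => h4 a (hp h).1 h
      · exact Or.inr fun a h => h4 a (fld_mem hM hR h) ((fld_iff hM hR).2 h)
  · rintro ⟨h1, h2, h3, h4⟩
    refine ⟨fun a _ b _ c _ => h1 a b c, fun a _ b _ h h' hab => ?_, fun a _ b _ => h3 a b, ?_⟩
    · exact h2 a b ((fld_iff hM hR).1 h) ((fld_iff hM hR).1 h') hab
    · rcases h4 with h4 | h4
      · exact Or.inl fun a _ => h4 a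
      · exact Or.inr fun a _ h => h4 a ((fld_iff hM hR).1 h)

theorem dfn_SqP {M : Set ZFSet.{0}} (hM : IsZF M) :
    Dfn M M fun w : Fin 1 → ZFSet.{0} => SqP M (w 0) := by
  have hB := hM.base
  have hom := hM.infinity
  unfold SqP
  (repeat' first
      | assumption
      | exact DfnF.proj _
      | exact DfnF.const (by assumption)
      | apply Dfn.not | apply Dfn.and | apply Dfn.or | apply Dfn.imp | apply Dfn.iff
      | apply hB.bex | apply hB.ball | apply Dfn.ex | apply Dfn.all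
      | apply Dfn.eq | apply Dfn.mem | apply hB.pair')

theorem dfn_LinQ {M : Set ZFSet.{0}} (hM : IsZF M) :
    Dfn M M fun w : Fin 1 → ZFSet.{0} => LinQ M (w 0) := by
  have hB := hM.base
  have hom := hM.infinity
  unfold LinQ
  (repeat' first
      | assumption
      | exact DfnF.proj _
      | exact DfnF.const (by assumption)
      | apply Dfn.not | apply Dfn.and | apply Dfn.or | apply Dfn.imp | apply Dfn.iff
      | apply hB.bex | apply hB.ball | apply Dfn.ex | apply Dfn.all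
      | apply Dfn.eq | apply Dfn.mem | apply hB.pair')

theorem dfn_CofQ {M : Set ZFSet.{0}} (hM : IsZF M) :
    Dfn M M fun w : Fin 2 → ZFSet.{0} => CofQ M (w 0) (w 1) := by
  have hB := hM.base
  have hom := hM.infinity
  unfold CofQ
  apply Dfn.and
  · exact Dfn.comp1 (Q := fun s => SqP M s) (dfn_SqP hM) (DfnF.proj 1)
  (repeat' first
      | assumption
      | exact DfnF.proj _
      | exact DfnF.const (by assumption)
      | apply Dfn.not | apply Dfn.and | apply Dfn.or | apply Dfn.imp | apply Dfn.iff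
      | apply hB.bex | apply hB.ball | apply Dfn.ex | apply Dfn.all
      | apply Dfn.eq | apply Dfn.mem | apply hB.pair')

end PA4

section

variable {M : Set ZFSet.{0}} (hM : IsZF M)

include hM

theorem dfn_LpS {K : ZFSet.{0} → ZFSet.{0} → Prop}
    (hK : Dfn M M fun w : Fin 2 → ZFSet.{0} => K (w 0) (w 1)) :
    DfnF M M fun w : Fin 2 → ZFSet.{0} => LpS (K (w 0)) (w 1) := by
  have hB := hM.base
  refine memrec2 hM (F := fun x z => LpS (K x) z)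
    (G := fun x _ g => ZFSet.sUnion (im (fun p => DefQ (K x) (sn p)) g)) ?_ ?_
  · apply hB.sUnion'
    refine hM.im' (h := fun p v => DefQ (K (v 0)) (sn p)) (DfnF.proj 2) ?_
    exact DfnF.comp2 (f := fun a b => DefQ (K a) b) (dfn_DefQ hM hK) (DfnF.proj 1)
      (hM.sn' (DfnF.proj 0))
  · intro x z
    exact wfF_eq (fun z => z) ZFSet.mem_wf
      (fun _ g => ZFSet.sUnion (im (fun p => DefQ (K x) (sn p)) g)) z

theorem dfn_LpS1 {K : ZFSet.{0} → Prop} (hK : Dfn M M fun w : Fin 1 → ZFSet.{0} => K (w 0)) :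
    DfnF M M fun w : Fin 1 → ZFSet.{0} => LpS K (w 0) := by
  have h1 : Dfn M M fun w : Fin 2 → ZFSet.{0} => K (w 1) :=
    Dfn.comp1 (Q := fun R => K R) hK (DfnF.proj 1)
  have h2 : DfnF M M fun w : Fin 2 → ZFSet.{0} => LpS K (w 1) :=
    dfn_LpS hM (K := fun _ R => K R) h1
  have h3 : DfnF M M fun _ : Fin 1 → ZFSet.{0} => (∅ : ZFSet.{0}) := DfnF.const hM.empty_mem
  have h4 : DfnF M M fun w : Fin 1 → ZFSet.{0} => w 0 := DfnF.proj 0
  exact DfnF.comp2 (f := fun _ z => LpS K z) h2 h3 h4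

theorem dfn_isLin : Dfn M M fun w : Fin 1 → ZFSet.{0} => IsLin (w 0) :=
  (PA4.dfn_LinQ hM).congr fun _ hv => PA4.linQ_iff hM (hv 0)

theorem dfn_CofW : Dfn M M fun w : Fin 1 → ZFSet.{0} => CofW M (w 0) := by
  have h1 : Dfn M M fun w : Fin 1 → ZFSet.{0} => ∃ s ∈ M, PA4.CofQ M (w 0) s :=
    Dfn.ex (Q := fun s w => PA4.CofQ M (w 0) s)
      (Dfn.comp2 (Q := fun R s => PA4.CofQ M R s) (PA4.dfn_CofQ hM) (DfnF.proj 1) (DfnF.proj 0))
  refine ((dfn_isLin hM).and h1).congr fun v hv => ?_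
  unfold CofW
  refine and_congr_right fun _ => ?_
  constructor
  · rintro ⟨s, hs, h⟩
    obtain ⟨g, rfl, h2, h3⟩ := (PA4.cofQ_iff hM (hv 0) hs).1 h
    exact ⟨g, hs, h2, h3⟩
  · rintro ⟨g, hs, h2, h3⟩
    exact ⟨_, hs, (PA4.cofQ_iff hM (hv 0) hs).2 ⟨g, rfl, h2, h3⟩⟩

theorem dfn_CofA : Dfn M M fun w : Fin 2 → ZFSet.{0} => CofW {x | x ∈ w 0} (w 1) := by
  have hB := hM.base
  have h1 : Dfn M M fun w : Fin 2 → ZFSet.{0} => ∃ s ∈ w 0, PA4.CofQ M (w 1) s :=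
    hB.bex (Q := fun s w => PA4.CofQ M (w 1) s) (DfnF.proj 0)
      (Dfn.comp2 (Q := fun R s => PA4.CofQ M R s) (PA4.dfn_CofQ hM) (DfnF.proj 2) (DfnF.proj 0))
  have h0 : Dfn M M fun w : Fin 2 → ZFSet.{0} => IsLin (w 1) :=
    Dfn.comp1 (Q := fun R => IsLin R) (dfn_isLin hM) (DfnF.proj 1)
  refine (h0.and h1).congr fun v hv => ?_
  unfold CofW
  refine and_congr_right fun _ => ?_
  constructor
  · rintro ⟨s, hs, h⟩
    obtain ⟨g, rfl, h2, h3⟩ := (PA4.cofQ_iff hM (hv 1) (hM.trans _ (hv 0) _ hs)).1 h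
    exact ⟨g, hs, h2, h3⟩
  · rintro ⟨g, hs, h2, h3⟩
    exact ⟨_, hs, (PA4.cofQ_iff hM (hv 1) (hM.trans _ (hv 0) _ hs)).2 ⟨g, rfl, h2, h3⟩⟩

theorem dfn_Cf0 : Dfn M M fun w : Fin 1 → ZFSet.{0} => Cf0 M (w 0) := by
  have hB := hM.base
  have hom := hM.infinity
  have h1 : Dfn M M fun w : Fin 1 → ZFSet.{0} => ∃ s ∈ M, PA4.SqP M s ∧
      (∀ i ∈ ZFSet.omega, ∀ b ∈ M, pair i b ∈ s → b ∈ w 0) ∧
      ∀ x ∈ w 0, ∃ i ∈ ZFSet.omega, ∃ b ∈ M, pair i b ∈ s ∧ x ∈ b := by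
    apply Dfn.ex
    apply Dfn.and
    · exact Dfn.comp1 (Q := fun s => PA4.SqP M s) (PA4.dfn_SqP hM) (DfnF.proj 0)
    (repeat' first
      | assumption
      | exact DfnF.proj _
      | exact DfnF.const (by assumption)
      | apply Dfn.not | apply Dfn.and | apply Dfn.or | apply Dfn.imp | apply Dfn.iff
      | apply hB.bex | apply hB.ball | apply Dfn.ex | apply Dfn.all
      | apply Dfn.eq | apply Dfn.mem | apply hB.pair')
  refine h1.congr fun v hv => ?_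
  unfold Cf0
  constructor
  · rintro ⟨s, hs, h2, h3, h4⟩
    obtain ⟨g, rfl, hg⟩ := PA4.sqP_iff.1 h2
    refine ⟨g, hs, fun n => ?_, fun x hx => ?_⟩
    · exact h3 _ (mem_omega_iff.2 ⟨n, rfl⟩) _ (hg n) (PA4.pair_mem_sqSet.2 rfl)
    · obtain ⟨i, hi, b, hb, h5, h6⟩ := h4 x hx
      obtain ⟨n, rfl⟩ := mem_omega_iff.1 hi
      rw [PA4.pair_mem_sqSet.1 h5] at h6
      exact ⟨n, h6⟩
  · rintro ⟨g, hs, h3, h4⟩
    have hg := PA4.sqSet_vals hM hs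
    refine ⟨_, hs, PA4.sqP_iff.2 ⟨g, rfl, hg⟩, ?_, ?_⟩
    · intro i hi b _ h
      obtain ⟨n, rfl⟩ := mem_omega_iff.1 hi
      rw [PA4.pair_mem_sqSet.1 h]
      exact h3 n
    · intro x hx
      obtain ⟨n, hn⟩ := h4 x hx
      exact ⟨_, mem_omega_iff.2 ⟨n, rfl⟩, _, hg n, PA4.pair_mem_sqSet.2 rfl, hn⟩

/-- If the two quantifiers agree on the sets in `M` that are relations on `X`, for all `X` of
size less than ..., then the hierarchies agree. -/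
theorem Lp_congr {K K' : ZFSet.{0} → Prop} (hK : Dfn M M fun w : Fin 1 → ZFSet.{0} => K (w 0))
    {α : Ordinal.{0}} (hα : α.toZFSet ∈ M)
    (h : ∀ β < α, ∀ R ∈ M, R ⊆ ZFSet.prod (Lp K β) (Lp K β) → (K R ↔ K' R)) :
    ∀ β ≤ α, Lp K β = Lp K' β := by
  intro β
  induction β using WellFoundedLT.induction with
  | ind β ih =>
    intro hβ
    have key : ∀ γ < β, DefQ K (Lp K γ) = DefQ K' (Lp K' γ) := by
      intro γ hγ
      have hγα : γ < α := lt_of_lt_of_le hγ hβ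
      have hγM : γ.toZFSet ∈ M := hM.trans _ hα _ (Ordinal.toZFSet_mem_toZFSet_iff.2 hγα)
      have hL : Lp K γ ∈ M := by
        rw [← LpS_eq]
        exact (dfn_LpS1 hM hK).1 (fun _ => γ.toZFSet) fun _ => hγM
      rw [← ih γ hγ hγα.le]
      exact defQ_congr hM hK hL (h γ hγα)
    ext x
    rw [mem_Lp, mem_Lp]
    exact exists_congr fun γ => and_congr_right fun hγ => by rw [key γ hγ]

end

end Pool.Agent.helper797_it
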