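import Pool.Agent.helper797_cs.PW1
import Pool.Agent.W868.LZF

/-! # B1: unions of hierarchies that are definable in a model of ZF are models of ZF -/

set_option autoImplicit false
namespace Pool.Agent.helper797_it
open Pool.Agent.W868 Pool.Agent.R587 Pool.Agent.helper797_cs
open ZFSet (pair)

namespace PB1

/-- The union of the hierarchy. -/
def CH (M : Set ZFSet.{0}) (H : ZFSet.{0} → ZFSet.{0}) : Set ZFSet.{0} :=
  {x | ∃ α : Ordinal.{0}, α.toZFSet ∈ M ∧ x ∈ H α.toZFSet}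

/-- The hypotheses on the hierarchy. -/
structure Hy (M : Set ZFSet.{0}) (H : ZFSet.{0} → ZFSet.{0}) : Prop where
  hM : IsZF M
  hH : DfnF M M fun w : Fin 1 → ZFSet.{0} => H (w 0)
  mono : ∀ α β : Ordinal.{0}, α ≤ β → β.toZFSet ∈ M → H α.toZFSet ⊆ H β.toZFSet
  tr : ∀ α : Ordinal.{0}, α.toZFSet ∈ M → ∀ x ∈ H α.toZFSet, ∀ y ∈ x, y ∈ H α.toZFSet
  lim : ∀ α : Ordinal.{0}, α.toZFSet ∈ M → Order.IsSuccLimit α → ∀ x ∈ H α.toZFSet,
    ∃ β < α, x ∈ H β.toZFSet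
  df : ∀ α : Ordinal.{0}, α.toZFSet ∈ M → ∀ (n : ℕ) (φ : Fml Empty (n + 1))
    (v : Fin n → ZFSet.{0}), (∀ i, v i ∈ H α.toZFSet) →
    ∃ β : Ordinal.{0}, β.toZFSet ∈ M ∧
      ZFSet.sep (fun y => Sat {x | x ∈ H α.toZFSet} Empty.elim φ (Fin.cons y v)) (H α.toZFSet) ∈
        H β.toZFSet

variable {M : Set ZFSet.{0}} {H : ZFSet.{0} → ZFSet.{0}}

theorem mem_CH {x : ZFSet.{0}} : x ∈ CH M H ↔ ∃ ξ ∈ M, ξ.IsOrdinal ∧ x ∈ H ξ := by
  constructor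
  · rintro ⟨α, h1, h2⟩
    exact ⟨_, h1, ZFSet.isOrdinal_toZFSet α, h2⟩
  · rintro ⟨ξ, h1, h2, h3⟩
    refine ⟨ξ.rank, ?_, ?_⟩
    · rwa [h2.toZFSet_rank_eq]
    · rwa [h2.toZFSet_rank_eq]

section basic

variable (h : Hy M H)

include h

theorem mono' {ξ η : ZFSet.{0}} (h1 : ξ.IsOrdinal) (h2 : η.IsOrdinal) (h3 : η ∈ M) (h4 : ξ ⊆ η) :
    H ξ ⊆ H η := by
  rw [← h1.toZFSet_rank_eq, ← h2.toZFSet_rank_eq] at h4 ⊢
  rw [← h2.toZFSet_rank_eq] at h3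
  exact h.mono _ _ (Ordinal.toZFSet_subset_toZFSet_iff.1 h4) h3

theorem tr' {ξ : ZFSet.{0}} (h1 : ξ.IsOrdinal) (h2 : ξ ∈ M) : ∀ x ∈ H ξ, ∀ y ∈ x, y ∈ H ξ := by
  rw [← h1.toZFSet_rank_eq] at h2 ⊢
  exact h.tr _ h2

theorem level_mem_M {ξ : ZFSet.{0}} (h2 : ξ ∈ M) : H ξ ∈ M := h.hH.1 (fun _ => ξ) fun _ => h2

theorem CH_subset : CH M H ⊆ M := by
  rintro x ⟨α, h1, h2⟩
  exact h.hM.trans _ (level_mem_M h h1) _ h2

theorem dfn_CH : Dfn M M fun w : Fin 1 → ZFSet.{0} => w 0 ∈ CH M H := by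
  have hB := h.hM.base
  have h1 : Dfn M M fun w : Fin 1 → ZFSet.{0} => ∃ ξ ∈ M, ξ.IsOrdinal ∧ w 0 ∈ H ξ := by
    apply Dfn.ex
    apply Dfn.and (hB.isOrdinal' (DfnF.proj _))
    exact Dfn.mem (DfnF.proj 1) (DfnF.comp1 (f := H) h.hH (DfnF.proj 0))
  exact h1.congr fun v _ => mem_CH.symm

/-- Levels that contain the values of a function. -/
theorem exists_level {x : ZFSet.{0}} (hx : x ∈ M) {Q : ZFSet.{0} → ZFSet.{0} → Prop}
    (hQ : Dfn M M fun w : Fin 2 → ZFSet.{0} => Q (w 0) (w 1)) :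
    ∃ δ ∈ M, δ.IsOrdinal ∧ ∀ z ∈ x, (∃ w ∈ CH M H, Q w z) → ∃ w ∈ H δ, Q w z := by
  have hM := h.hM
  have hB := hM.base
  have h1 : Dfn M M fun w : Fin 2 → ZFSet.{0} => ∃ y ∈ H (w 0), Q y (w 1) := by
    apply hB.bex (DfnF.comp1 (f := H) h.hH (DfnF.proj 0))
    exact Dfn.comp2 (Q := Q) hQ (DfnF.proj 0) (DfnF.proj 2)
  have h2 : DfnF M M fun w : Fin 1 → ZFSet.{0} => lo M fun η => ∃ y ∈ H η, Q y (w 0) :=
    hM.lo' (Q := fun η w => ∃ y ∈ H η, Q y (w 0)) h1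
  have h9 := hM.union _ (hM.im_mem (h := fun z => lo M fun η => ∃ y ∈ H η, Q y z) hx h2)
  have h10 : (ZFSet.sUnion (im (fun z => lo M fun η => ∃ y ∈ H η, Q y z) x) : ZFSet.{0}).IsOrdinal :=
    isOrdinal_sUnion fun y hy => by
      obtain ⟨z, -, rfl⟩ := mem_im.1 hy
      exact lo_isOrdinal
  refine ⟨_, h9, h10, ?_⟩
  rintro z hz ⟨w, hw, h6⟩
  obtain ⟨ξ, h3, h4, h5⟩ := mem_CH.1 hw
  obtain ⟨-, h11, w', h7, h8⟩ := lo_spec (M := M) (P := fun η => ∃ y ∈ H η, Q y z)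
    ⟨ξ, h3, h4, w, h5, h6⟩
  exact ⟨w', mono' h h11 h10 h9 (fun u hu => ZFSet.mem_sUnion.2 ⟨_, mem_im.2 ⟨z, hz, rfl⟩, hu⟩) h7,
    h8⟩

/-- Definable subsets of the levels. -/
theorem sepD {ξ : ZFSet.{0}} (hξ : ξ ∈ M) (hξo : ξ.IsOrdinal) {Q : ZFSet.{0} → Prop}
    (hQ : Dfn {x | x ∈ H ξ} {x | x ∈ H ξ} fun w : Fin 1 → ZFSet.{0} => Q (w 0)) :
    ZFSet.sep Q (H ξ) ∈ CH M H := by
  obtain ⟨φ, h1, h2⟩ := hQ
  obtain ⟨L, h3, h4⟩ := PW1.exists_list φ h1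
  obtain ⟨φ', rfl⟩ := PW1.exists_map L φ h4
  have hd := h.df ξ.rank (by rwa [hξo.toZFSet_rank_eq])
  rw [hξo.toZFSet_rank_eq] at hd
  obtain ⟨β, hβ, h5⟩ := hd L.length (PW1.toE L.length φ') L.get fun i => h3 _ (List.get_mem _ _)
  have h6 : ZFSet.sep (fun y => Sat {x | x ∈ H ξ} Empty.elim (PW1.toE L.length φ')
      (Fin.cons y L.get)) (H ξ) = ZFSet.sep Q (H ξ) := by
    ext y
    rw [ZFSet.mem_sep, ZFSet.mem_sep]
    refine and_congr_right fun hy => ?_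
    have h7 : (Fin.cons y L.get : Fin (L.length + 1) → ZFSet.{0}) =
        PW1.vl (n := 1) ![y] L.get := by
      have h8 := PW1.vl_cons (m := L.length) (n := 0) ![] L.get y
      have h9 : (PW1.vl (n := 0) ![] L.get : Fin (L.length + 0) → ZFSet.{0}) = L.get := by
        funext k
        simp [PW1.vl]
      rw [h9] at h8
      exact h8
    rw [h7]
    refine (PW1.sat_toE _ L.get φ' ![y]).trans ?_
    have h10 := h2 ![y] (by
      intro i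
      fin_cases i
      exact hy)
    rw [sat_map] at h10
    exact h10
  exact ⟨β, hβ, h6 ▸ h5⟩

theorem level_mem {ξ : ZFSet.{0}} (hξ : ξ ∈ M) (hξo : ξ.IsOrdinal) : H ξ ∈ CH M H := by
  have h1 := sepD h hξ hξo (Q := fun _ => True) Dfn.tt
  have h2 : ZFSet.sep (fun _ => True) (H ξ) = H ξ := by
    ext y
    rw [ZFSet.mem_sep]
    simp
  rwa [h2] at h1

theorem CH_trans : ∀ x ∈ CH M H, ∀ y ∈ x, y ∈ CH M H := by
  rintro x ⟨α, hα, hx⟩ y hy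
  exact ⟨α, hα, h.tr α hα x hx y hy⟩

/-- All ordinals of `M` are in the union. -/
theorem ord_CH {β : ZFSet.{0}} (hβ : β ∈ M) (hβo : β.IsOrdinal) : β ∈ CH M H := by
  have hM := h.hM
  induction β using ZFSet.inductionOn with
  | _ β ih =>
  obtain ⟨δ, hδ, hδo, h1⟩ := exists_level h hβ (Q := fun w z => w = z)
    (Dfn.eq (DfnF.proj 0) (DfnF.proj 1))
  have h2 : β ⊆ H δ := by
    intro z hz
    obtain ⟨w, hw, rfl⟩ := h1 z hz ⟨z, ih z hz (hM.trans _ hβ _ hz) (hβo.mem hz), rfl⟩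
    exact hw
  by_cases h3 : β ∈ H δ
  · exact mem_CH.2 ⟨δ, hδ, hδo, h3⟩
  · have h4 : ZFSet.sep (fun z => z.IsOrdinal) (H δ) = β := by
      ext z
      rw [ZFSet.mem_sep]
      constructor
      · rintro ⟨h5, h6⟩
        rcases h6.mem_trichotomous hβo with h7 | rfl | h7
        · exact h7
        · exact absurd h5 h3
        · exact absurd (tr' h hδo hδ _ h5 _ h7) h3
      · exact fun hz => ⟨h2 hz, hβo.mem hz⟩
    have h5 := sepD h hδ hδo (Q := fun z => z.IsOrdinal)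
      ((D0.isOrdinal (D0v.proj 0)).dfn (tr' h hδo hδ))
    rwa [h4] at h5

omit h in
theorem max_ord {ξ η : ZFSet.{0}} (h1 : ξ ∈ M) (h2 : ξ.IsOrdinal) (h3 : η ∈ M)
    (h4 : η.IsOrdinal) : ∃ ζ ∈ M, ζ.IsOrdinal ∧ ξ ⊆ ζ ∧ η ⊆ ζ := by
  rcases h2.subset_total h4 with h5 | h5
  · exact ⟨η, h3, h4, h5, fun _ h => h⟩
  · exact ⟨ξ, h1, h2, fun _ h => h, h5⟩

theorem max_level {ξ η : ZFSet.{0}} (h1 : ξ ∈ M) (h2 : ξ.IsOrdinal) (h3 : η ∈ M)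
    (h4 : η.IsOrdinal) : ∃ ζ ∈ M, ζ.IsOrdinal ∧ H ξ ⊆ H ζ ∧ H η ⊆ H ζ := by
  obtain ⟨ζ, h5, h6, h7, h8⟩ := max_ord h1 h2 h3 h4
  exact ⟨ζ, h5, h6, mono' h h2 h6 h5 h7, mono' h h4 h6 h5 h8⟩

theorem pair_CH {x y : ZFSet.{0}} (hx : x ∈ CH M H) (hy : y ∈ CH M H) :
    ({x, y} : ZFSet.{0}) ∈ CH M H := by
  obtain ⟨α, hα, hαo, hx⟩ := mem_CH.1 hx
  obtain ⟨β, hβ, hβo, hy⟩ := mem_CH.1 hy
  obtain ⟨ζ, hζ, hζo, h1, h2⟩ := max_level h hα hαo hβ hβo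
  have hx' := h1 hx
  have hy' := h2 hy
  have h3 := sepD h hζ hζo (Q := fun z => z = x ∨ z = y)
    ((Dfn.eq (DfnF.proj 0) (DfnF.const' hx' hx')).or (Dfn.eq (DfnF.proj 0) (DfnF.const' hy' hy')))
  have h4 : ZFSet.sep (fun z => z = x ∨ z = y) (H ζ) = {x, y} := by
    ext z
    rw [ZFSet.mem_sep, ZFSet.mem_pair]
    constructor
    · exact fun h => h.2
    · rintro (rfl | rfl)
      · exact ⟨hx', Or.inl rfl⟩
      · exact ⟨hy', Or.inr rfl⟩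
  rwa [h4] at h3

theorem union_CH {x : ZFSet.{0}} (hx : x ∈ CH M H) : ZFSet.sUnion x ∈ CH M H := by
  obtain ⟨α, hα, hαo, hx⟩ := mem_CH.1 hx
  have tr := tr' h hαo hα
  have hQ : Dfn {x | x ∈ H α} {x | x ∈ H α} fun w : Fin 1 → ZFSet.{0} =>
      ∃ a ∈ {x | x ∈ H α}, a ∈ x ∧ w 0 ∈ a := by
    refine Dfn.ex (Q := fun a w => a ∈ x ∧ w 0 ∈ a) ?_
    exact (Dfn.mem (DfnF.proj 0) (DfnF.const' hx hx)).and (Dfn.mem (DfnF.proj 1) (DfnF.proj 0))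
  have h1 := sepD h hα hαo (Q := fun z => ∃ a ∈ {x | x ∈ H α}, a ∈ x ∧ z ∈ a) hQ
  have h2 : ZFSet.sep (fun z => ∃ a ∈ {x | x ∈ H α}, a ∈ x ∧ z ∈ a) (H α) = ZFSet.sUnion x := by
    ext z
    rw [ZFSet.mem_sep, ZFSet.mem_sUnion]
    constructor
    · rintro ⟨-, a, -, h3, h4⟩
      exact ⟨a, h3, h4⟩
    · rintro ⟨a, h3, h4⟩
      exact ⟨tr _ (tr _ hx _ h3) _ h4, a, tr _ hx _ h3, h3, h4⟩
  rwa [h2] at h1

end basic

/-! ### Reflection -/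

/-- A bound for the levels of witnesses. -/
noncomputable def bd (M : Set ZFSet.{0}) (H : ZFSet.{0} → ZFSet.{0}) :
    {n : ℕ} → Fml ZFSet.{0} n → ZFSet.{0} → ZFSet.{0}
  | _, .mem _ _, _ => ∅
  | _, .eq _ _, _ => ∅
  | _, .neg φ, ξ => bd M H φ ξ
  | _, .and φ ψ, ξ => bd M H φ ξ ∪ bd M H ψ ξ
  | n, .ex φ, ξ => bd M H φ ξ ∪ ZFSet.sUnion (im (fun p => lo M fun η => ∃ a ∈ H η,
      Sat (CH M H) id φ (Fin.cons a (ut n p))) (pw (H ξ) n))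

theorem isOrdinal_bd (ξ : ZFSet.{0}) : {n : ℕ} → (φ : Fml ZFSet.{0} n) →
    (bd M H φ ξ).IsOrdinal
  | _, .mem _ _ => ZFSet.isOrdinal_empty
  | _, .eq _ _ => ZFSet.isOrdinal_empty
  | _, .neg φ => isOrdinal_bd ξ φ
  | _, .and φ ψ => isOrdinal_union (isOrdinal_bd ξ φ) (isOrdinal_bd ξ ψ)
  | n, .ex φ => isOrdinal_union (isOrdinal_bd ξ φ) (isOrdinal_sUnion fun y hy => by
      obtain ⟨p, -, rfl⟩ := mem_im.1 hy
      exact lo_isOrdinal)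

theorem dfn_bd (h : Hy M H) : {n : ℕ} → (φ : Fml ZFSet.{0} n) → φ.Over M →
    DfnF M M fun w : Fin 1 → ZFSet.{0} => bd M H φ (w 0)
  | _, .mem _ _, _ => DfnF.const h.hM.empty_mem
  | _, .eq _ _, _ => DfnF.const h.hM.empty_mem
  | _, .neg φ, h1 => dfn_bd h φ h1
  | _, .and φ ψ, h1 => h.hM.base.union' (dfn_bd h φ h1.1) (dfn_bd h ψ h1.2)
  | n, .ex φ, h1 => by
    have hM := h.hM
    have hB := hM.base
    refine hB.union' (dfn_bd h φ h1) (hB.sUnion' ?_)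
    refine hM.im' (h := fun p _ => lo M fun η => ∃ a ∈ H η,
      Sat (CH M H) id φ (Fin.cons a (ut n p)))
      (dfn_pw hM n (DfnF.comp1 (f := H) h.hH (DfnF.proj 0))) ?_
    refine hM.lo' (Q := fun η w => ∃ a ∈ H η,
      Sat (CH M H) id φ (Fin.cons a (ut n (w 0)))) ?_
    refine hB.bex (Q := fun a w => Sat (CH M H) id φ (Fin.cons a (ut n (w 1))))
      (DfnF.comp1 (f := H) h.hH (DfnF.proj 0)) ?_
    have h2 := dfn_sat (dfn_CH h) (CH_subset h) φ h1 (m := 4)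
      (Fin.cons (fun w => w 0) fun i w => ut n (w 2) i) (by
        intro i
        refine Fin.cases ?_ (fun i => ?_) i
        · exact DfnF.proj 0
        · exact dfn_ut hM (DfnF.proj 2) n i)
    refine h2.congr fun w _ => ?_
    have h3 : (fun i => (Fin.cons (fun w => w 0) (fun i w => ut n (w 2) i) :
        Fin (n + 1) → (Fin 4 → ZFSet.{0}) → ZFSet.{0}) i w) = Fin.cons (w 0) (ut n (w 2)) := by
      funext i
      refine Fin.cases ?_ (fun i => ?_) i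
      · rfl
      · rfl
    rw [h3]
    rfl

theorem CL_of_bd (h : Hy M H) {Y : ℕ → ZFSet.{0}} {δ : ZFSet.{0}} (hY : ∀ k, Y k ⊆ δ)
    (hYo : ∀ k, (Y k).IsOrdinal) (hYM : ∀ k, Y k ∈ M) (hδo : δ.IsOrdinal) (hδM : δ ∈ M)
    (hmono : ∀ k l, k ≤ l → Y k ⊆ Y l)
    (hδ : ∀ y ∈ H δ, ∃ k, y ∈ H (Y k)) : {n : ℕ} → (φ : Fml ZFSet.{0} n) →
    (∀ k, bd M H φ (Y k) ⊆ δ) → CL (CH M H) {x | x ∈ H δ} φ
  | _, .mem _ _, _ => trivial
  | _, .eq _ _, _ => trivial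
  | _, .neg φ, h1 => CL_of_bd h hY hYo hYM hδo hδM hmono hδ φ h1
  | _, .and φ ψ, h1 =>
    ⟨CL_of_bd h hY hYo hYM hδo hδM hmono hδ φ fun k x hx => h1 k (ZFSet.mem_union.2 (Or.inl hx)),
      CL_of_bd h hY hYo hYM hδo hδM hmono hδ ψ fun k x hx => h1 k (ZFSet.mem_union.2 (Or.inr hx))⟩
  | n, .ex φ, h1 => by
    refine ⟨CL_of_bd h hY hYo hYM hδo hδM hmono hδ φ fun k x hx =>
      h1 k (ZFSet.mem_union.2 (Or.inl hx)), ?_⟩
    rintro v hv ⟨a, ha, h4⟩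
    obtain ⟨ξ, h2, h3, h5⟩ := mem_CH.1 ha
    obtain ⟨k, hk⟩ := exists_common (P := fun k y => y ∈ H (Y k))
      (fun x k l hkl hx => mono' h (hYo k) (hYo l) (hYM l) (hmono k l hkl) hx) v
      fun i => hδ _ (hv i)
    have h6 : tup v ∈ pw (H (Y k)) n := mem_pw.2 ⟨v, hk, rfl⟩
    obtain ⟨-, h9, b, h7, h8⟩ := lo_spec (M := M) (P := fun η => ∃ a ∈ H η,
      Sat (CH M H) id φ (Fin.cons a (ut n (tup v))))
      ⟨ξ, h2, h3, a, h5, by rwa [ut_tup]⟩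
    rw [ut_tup] at h8
    exact ⟨b, mono' h h9 hδo hδM (fun u hu => h1 k (ZFSet.mem_union.2 (Or.inr
      (ZFSet.mem_sUnion.2 ⟨_, mem_im.2 ⟨_, h6, rfl⟩, hu⟩)))) h7, h8⟩

/-- The reflection principle. -/
theorem reflection (h : Hy M H) {n : ℕ} (φ : Fml ZFSet.{0} n) (hφ : φ.Over M) {ξ : ZFSet.{0}}
    (hξ : ξ ∈ M) (hξo : ξ.IsOrdinal) :
    ∃ δ ∈ M, δ.IsOrdinal ∧ ξ ⊆ δ ∧ CL (CH M H) {x | x ∈ H δ} φ := by
  have hM := h.hM
  have hB := hM.base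
  set T : ZFSet.{0} → ZFSet.{0} := fun η => sc (η ∪ bd M H φ η) with hT
  have hTd : DfnF M M fun w : Fin 1 → ZFSet.{0} => T (w 0) := by
    have h1 : DfnF M M fun w : Fin 1 → ZFSet.{0} => w 0 ∪ bd M H φ (w 0) :=
      hB.union' (DfnF.proj 0) (dfn_bd h φ hφ)
    exact hB.insert' h1 h1
  have hTo : ∀ x : ZFSet.{0}, x.IsOrdinal → (T x).IsOrdinal := fun x hx =>
    isOrdinal_sc (isOrdinal_union hx (isOrdinal_bd x φ))
  have hTsub : ∀ x : ZFSet.{0}, x.IsOrdinal → x ∪ bd M H φ x ⊆ T x := fun x hx z hz =>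
    ZFSet.mem_insert_of_mem _ hz
  have hno : ∀ z, (itr T ξ z).IsOrdinal := isOrdinal_itr hξo hTo
  have hnM : ∀ z ∈ M, itr T ξ z ∈ M := fun z hz => itr_mem_M hM hξ hz hTd
  have hmono : ∀ k l : ℕ, k ≤ l → itr T ξ (nat k) ⊆ itr T ξ (nat l) :=
    fun k l hkl => itr_mono (nat_subset hkl)
  refine ⟨itr T ξ ZFSet.omega, hnM _ hM.infinity, hno _, itr_base, ?_⟩
  refine CL_of_bd h (Y := fun k => itr T ξ (nat k)) (fun k => itr_mono nat_subset_omega)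
    (fun k => hno _) (fun k => hnM _ (hM.nat_mem k)) (hno _) (hnM _ hM.infinity)
    hmono ?_ φ ?_
  · intro y hy
    -- the ordinal is a limit
    have hsucc : ∀ u ∈ itr T ξ ZFSet.omega, sc u ∈ itr T ξ ZFSet.omega := by
      intro u hu
      obtain ⟨k, hk⟩ := mem_itr_omega hu
      have h1 : sc u ⊆ itr T ξ (nat k) := by
        intro z hz
        rcases ZFSet.mem_insert_iff.1 hz with rfl | hz
        · exact hk
        · exact (hno (nat k)).mem_trans hz hk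
      have h2 : sc u ⊆ itr T ξ (nat k) ∪ bd M H φ (itr T ξ (nat k)) := fun z hz =>
        ZFSet.mem_union.2 (Or.inl (h1 hz))
      have h3 : (itr T ξ (nat k) ∪ bd M H φ (itr T ξ (nat k))).IsOrdinal :=
        isOrdinal_union (hno _) (isOrdinal_bd _ φ)
      have huo : (sc u).IsOrdinal := isOrdinal_sc ((hno _).mem hk)
      have h4 : sc u ∈ T (itr T ξ (nat k)) := by
        rcases (huo.subset_iff_eq_or_mem h3).1 h2 with h5 | h5
        · rw [hT]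
          exact ZFSet.mem_insert_iff.2 (Or.inl h5)
        · exact ZFSet.mem_insert_iff.2 (Or.inr h5)
      exact itr_step (nat_mem_omega k) h4
    have hne : ∃ u, u ∈ itr T ξ ZFSet.omega :=
      ⟨_, itr_step (nat_mem_omega 0) (ZFSet.mem_insert _ _)⟩
    set δ := itr T ξ ZFSet.omega with hδ
    have hδo : δ.IsOrdinal := hno _
    have hδM : δ ∈ M := hnM _ hM.infinity
    have hlim : Order.IsSuccLimit δ.rank := by
      refine ⟨?_, Order.isSuccPrelimit_of_succ_lt fun a ha => ?_⟩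
      · obtain ⟨u, hu⟩ := hne
        exact not_isMin_of_lt (ZFSet.rank_lt_of_mem hu)
      · rw [← Ordinal.toZFSet_mem_toZFSet_iff, hδo.toZFSet_rank_eq] at ha ⊢
        rw [Order.succ_eq_add_one, Ordinal.toZFSet_add_one]
        exact hsucc _ ha
    obtain ⟨β, hβ, h1⟩ := h.lim δ.rank (by rwa [hδo.toZFSet_rank_eq]) hlim y
      (by rwa [hδo.toZFSet_rank_eq])
    rw [← Ordinal.toZFSet_mem_toZFSet_iff, hδo.toZFSet_rank_eq] at hβ
    obtain ⟨k, hk⟩ := mem_itr_omega hβ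
    exact ⟨k, mono' h (ZFSet.isOrdinal_toZFSet β) (hno _) (hnM _ (hM.nat_mem k))
      ((hno (nat k)).subset_of_mem hk) h1⟩
  · intro k x hx
    exact itr_step (nat_mem_omega k) (hTsub _ (hno _) (ZFSet.mem_union.2 (Or.inr hx)))

theorem separation_CH (h : Hy M H) (φ : Fml ZFSet.{0} 1) (hφ : φ.Over (CH M H)) (x : ZFSet.{0})
    (hx : x ∈ CH M H) : ∃ y ∈ CH M H, ∀ z, z ∈ y ↔ z ∈ x ∧ Sat (CH M H) id φ ![z] := by
  obtain ⟨L, h1, h2⟩ := PW1.exists_list φ hφ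
  have hM := h.hM
  -- a level that contains the parameters
  have hL : ∀ L : List ZFSet.{0}, (∀ a ∈ L, a ∈ CH M H) →
      ∃ ξ ∈ M, ξ.IsOrdinal ∧ ∀ a ∈ L, a ∈ H ξ := by
    intro L
    induction L with
    | nil => exact fun _ => ⟨∅, hM.empty_mem, ZFSet.isOrdinal_empty, by simp⟩
    | cons a L ih =>
      intro h3
      obtain ⟨ξ, h4, h5, h6⟩ := ih fun b hb => h3 b (List.mem_cons_of_mem _ hb)
      obtain ⟨η, h7, h8, h9⟩ := mem_CH.1 (h3 a (List.mem_cons_self ..))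
      obtain ⟨ζ, h10, h11, h12, h13⟩ := max_level h h4 h5 h7 h8
      refine ⟨ζ, h10, h11, fun b hb => ?_⟩
      rcases List.mem_cons.1 hb with rfl | hb
      · exact h13 h9
      · exact h12 (h6 b hb)
  obtain ⟨ξ, h3, h4, h5⟩ := hL L h1
  obtain ⟨η, h6, h7, h8⟩ := mem_CH.1 hx
  obtain ⟨ζ, h9, h10, h11, h12⟩ := max_ord h3 h4 h6 h7
  obtain ⟨δ, h13, h14, h15, h16⟩ := reflection h φ
    (Fml.Over.mono (φ := φ) (CH_subset h) hφ) h9 h10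
  have hξ : H ξ ⊆ H δ := mono' h h4 h14 h13 fun u hu => h15 (h11 hu)
  have hη : H η ⊆ H δ := mono' h h7 h14 h13 fun u hu => h15 (h12 hu)
  have hxδ := hη h8
  have hov : φ.Over {x | x ∈ H δ} := Fml.Over.mono (φ := φ) (fun a ha => hξ (h5 a ha)) h2
  have hsub : {x | x ∈ H δ} ⊆ CH M H := fun a ha => mem_CH.2 ⟨δ, h13, h14, ha⟩
  have hQ : Dfn {x | x ∈ H δ} {x | x ∈ H δ} fun w : Fin 1 → ZFSet.{0} =>
      w 0 ∈ x ∧ Sat (CH M H) id φ ![w 0] := by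
    refine Dfn.and (Dfn.mem (DfnF.proj 0) (DfnF.const' hxδ hxδ)) ?_
    refine ⟨φ, hov, fun v hv => ?_⟩
    have h17 : ![v 0] = v := by
      funext i
      fin_cases i
      rfl
    beta_reduce
    rw [h17]
    exact CL_sat hsub φ h16 v hv
  refine ⟨_, sepD h h13 h14 (Q := fun z => z ∈ x ∧ Sat (CH M H) id φ ![z]) hQ, fun z => ?_⟩
  rw [ZFSet.mem_sep]
  constructor
  · rintro ⟨-, h18⟩
    exact h18
  · rintro ⟨h18, h19⟩
    exact ⟨tr' h h14 h13 _ hxδ _ h18, h18, h19⟩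

theorem main (h : Hy M H) : IsZF (CH M H) ∧
    ∀ α : Ordinal.{0}, α.toZFSet ∈ M → α.toZFSet ∈ CH M H := by
  have hM := h.hM
  have hT := CH_trans h
  have hsub := CH_subset h
  have hS := separation_CH h
  refine ⟨⟨hT, fun x hx y hy => pair_CH h hx hy, fun x hx => union_CH h hx,
    ord_CH h hM.infinity isOrdinal_omega, ?_, hS, ?_⟩,
    fun α hα => ord_CH h hα (ZFSet.isOrdinal_toZFSet α)⟩
  · intro x hx
    obtain ⟨p, hp, h1⟩ := hM.power x (hsub hx)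
    obtain ⟨δ, hδ, hδo, h2⟩ := exists_level h hp (Q := fun w z => w = z)
      (Dfn.eq (DfnF.proj 0) (DfnF.proj 1))
    obtain ⟨y, hy, h3⟩ := hS
      (.neg (.ex (.and (.mem (Sum.inl 0) (Sum.inl 1)) (.neg (.mem (Sum.inl 0) (Sum.inr x))))))
      ⟨⟨TOver.inl _, TOver.inl _⟩, TOver.inl _, tOver_inr.2 hx⟩ _ (level_mem h hδ hδo)
    refine ⟨y, hy, fun z => ?_⟩
    rw [h3]
    constructor
    · rintro ⟨h4, h5⟩
      have hzC := hT _ (level_mem h hδ hδo) _ h4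
      refine ⟨hzC, fun u hu => ?_⟩
      by_contra h6
      exact h5 ⟨u, hT _ hzC _ hu, hu, h6⟩
    · rintro ⟨h4, h5⟩
      obtain ⟨w, hw, rfl⟩ := h2 z ((h1 z).2 ⟨hsub h4, h5⟩) ⟨z, h4, rfl⟩
      refine ⟨hw, ?_⟩
      rintro ⟨u, -, hu, hu'⟩
      exact hu' (h5 hu)
  · intro φ hφ x hx h0
    have hQ : Dfn M M fun w : Fin 2 → ZFSet.{0} => Sat (CH M H) id φ ![w 1, w 0] := by
      refine (dfn_sat (dfn_CH h) hsub φ (Fml.Over.mono (φ := φ) hsub hφ)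
        ![fun w => w 1, fun w => w 0] ?_).congr fun w _ => ?_
      · intro i
        fin_cases i
        · exact DfnF.proj 1
        · exact DfnF.proj 0
      · have h1 : (fun i => (![fun w => w 1, fun w => w 0] :
            Fin 2 → (Fin 2 → ZFSet.{0}) → ZFSet.{0}) i w) = ![w 1, w 0] := by
          funext i
          fin_cases i <;> rfl
        rw [h1]
    obtain ⟨δ, hδ, hδo, h2⟩ := exists_level h (hsub hx)
      (Q := fun w z => Sat (CH M H) id φ ![z, w]) hQ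
    obtain ⟨y, hy, h3⟩ := hS
      (.ex (.and (.mem (Sum.inl 0) (Sum.inr x)) φ)) ⟨⟨TOver.inl _, tOver_inr.2 hx⟩, hφ⟩ _
      (level_mem h hδ hδo)
    have hv : ∀ z w : ZFSet.{0}, (Fin.cons z ![w] : Fin 2 → ZFSet.{0}) = ![z, w] := by
      intro z w
      funext i
      fin_cases i <;> rfl
    refine ⟨y, hy, fun w => ?_⟩
    rw [h3]
    constructor
    · rintro ⟨h4, z, hz, hzx, h5⟩
      rw [hv] at h5
      exact ⟨hT _ (level_mem h hδ hδo) _ h4, z, hzx, h5⟩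
    · rintro ⟨hw, z, hz, h4⟩
      obtain ⟨w', -, hw'⟩ := h0 z hz
      obtain ⟨w'', h5, h6⟩ := h2 z hz ⟨w, hw, h4⟩
      have h7 := hT _ (level_mem h hδ hδo) _ h5
      have h8 : w'' = w := (hw' w'' ⟨h7, h6⟩).trans (hw' w ⟨hw, h4⟩).symm
      refine ⟨h8 ▸ h5, z, hT _ hx _ hz, hz, ?_⟩
      rw [hv]
      exact h4

end PB1

theorem isZF_of_hierM {M : Set ZFSet.{0}} (hM : IsZF M) (H : ZFSet.{0} → ZFSet.{0})
    (hH : DfnF M M fun w : Fin 1 → ZFSet.{0} => H (w 0))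
    (mono : ∀ α β : Ordinal.{0}, α ≤ β → β.toZFSet ∈ M → H α.toZFSet ⊆ H β.toZFSet)
    (tr : ∀ α : Ordinal.{0}, α.toZFSet ∈ M → ∀ x ∈ H α.toZFSet, ∀ y ∈ x, y ∈ H α.toZFSet)
    (lim : ∀ α : Ordinal.{0}, α.toZFSet ∈ M → Order.IsSuccLimit α → ∀ x ∈ H α.toZFSet,
      ∃ β < α, x ∈ H β.toZFSet)
    (df : ∀ α : Ordinal.{0}, α.toZFSet ∈ M → ∀ (n : ℕ) (φ : Fml Empty (n + 1))
      (v : Fin n → ZFSet.{0}), (∀ i, v i ∈ H α.toZFSet) →
      ∃ β : Ordinal.{0}, β.toZFSet ∈ M ∧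
        ZFSet.sep (fun y => Sat {x | x ∈ H α.toZFSet} Empty.elim φ (Fin.cons y v)) (H α.toZFSet) ∈
          H β.toZFSet) :
    IsZF {x | ∃ α : Ordinal.{0}, α.toZFSet ∈ M ∧ x ∈ H α.toZFSet} ∧
      ∀ α : Ordinal.{0}, α.toZFSet ∈ M →
        α.toZFSet ∈ {x | ∃ α : Ordinal.{0}, α.toZFSet ∈ M ∧ x ∈ H α.toZFSet} :=
  PB1.main ⟨hM, hH, mono, tr, lim, df⟩

end Pool.Agent.helper797_it
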