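import Pool.Agent.helper797_it.PA4
import Pool.Agent.helper797_it.PB1
import Pool.Agent.helper797_cs.PW2a

/-! # C1: `C*` of a model of ZF is a model of ZF -/

set_option autoImplicit false
namespace Pool.Agent.helper797_it
open Pool.Agent.W868 Pool.Agent.R587 Pool.Agent.helper797_cs
open ZFSet (pair)

namespace PC1

/-- Successors of ordinals of a model of ZF are in the model. -/
theorem succ_mem {W : Set ZFSet.{0}} (hW : IsZF W) {α : Ordinal.{0}} (hα : α.toZFSet ∈ W) :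
    (α + 1).toZFSet ∈ W := by
  rw [Ordinal.toZFSet_add_one]
  exact hW.insert_mem hα hα

/-- The class `C*` with sets as indices. -/
theorem Cst_eq (W : Set ZFSet.{0}) : Cst W =
    {x | ∃ α : Ordinal.{0}, α.toZFSet ∈ W ∧ x ∈ LpS (CofW W) α.toZFSet} := by
  ext x
  constructor
  · rintro ⟨α, h1, h2⟩
    exact ⟨α, h1, by rwa [LpS_eq]⟩
  · rintro ⟨α, h1, h2⟩
    exact ⟨α, h1, by rwa [LpS_eq] at h2⟩

end PC1

section

variable {W : Set ZFSet.{0}} (hW : IsZF W)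

include hW

theorem isZF_Cst : IsZF (Cst W) := by
  rw [PC1.Cst_eq]
  refine (isZF_of_hierM hW (LpS (CofW W)) (dfn_LpS1 hW (dfn_CofW hW)) ?_ ?_ ?_ ?_).1
  · intro α β h _
    rw [LpS_eq, LpS_eq]
    exact lp_mono _ h
  · intro α _
    rw [LpS_eq]
    exact lp_trans _ α
  · intro α _ hα x hx
    rw [LpS_eq] at hx
    obtain ⟨β, hβ, h⟩ := (lp_limit _ hα).1 hx
    exact ⟨β, hβ, by rwa [LpS_eq]⟩
  · intro α hα n φ v hv
    refine ⟨α + 1, PC1.succ_mem hW hα, ?_⟩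
    rw [LpS_eq, LpS_eq, lp_succ]
    exact W2_sep_mem (W2_tr φ) v (fun i => by rw [← LpS_eq]; exact hv i) _
      fun a _ => (W2_tr_sat (CofW W) _ φ _).symm

theorem cst_sub : Cst W ⊆ W := by
  rintro x ⟨α, hα, hx⟩
  have h : LpS (CofW W) α.toZFSet ∈ W :=
    (dfn_LpS1 hW (dfn_CofW hW)).1 (fun _ => α.toZFSet) fun _ => hα
  rw [LpS_eq] at h
  exact hW.trans _ h x hx

theorem ord_Cst {α : Ordinal.{0}} : α.toZFSet ∈ Cst W ↔ α.toZFSet ∈ W := by
  constructor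
  · intro h
    exact cst_sub hW h
  · intro h
    exact ⟨α + 1, PC1.succ_mem hW h, (ord_mem_Lp _ _ _).2 (lt_add_one α)⟩

theorem dfn_Cst : Dfn W W fun w : Fin 1 → ZFSet.{0} => w 0 ∈ Cst W := by
  have hL := dfn_LpS1 hW (dfn_CofW hW)
  have h : Dfn W W fun w : Fin 1 → ZFSet.{0} => ∃ a ∈ W, a.IsOrdinal ∧
      w 0 ∈ LpS (CofW W) a := by
    refine Dfn.ex (Q := fun a w => a.IsOrdinal ∧ w 0 ∈ LpS (CofW W) a) ?_
    exact (hW.base.isOrdinal' (DfnF.proj 0)).and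
      (Dfn.mem (DfnF.proj 1) (DfnF.comp1 (f := LpS (CofW W)) hL (DfnF.proj 0)))
  refine h.congr fun v _ => ?_
  constructor
  · rintro ⟨a, ha, ho, hv⟩
    rw [← ho.toZFSet_rank_eq, LpS_eq] at hv
    exact ⟨a.rank, by rwa [ho.toZFSet_rank_eq], hv⟩
  · rintro ⟨α, hα, hv⟩
    exact ⟨α.toZFSet, hα, ZFSet.isOrdinal_toZFSet α, by rwa [LpS_eq]⟩

theorem lp_mem_Cst {α : Ordinal.{0}} (hα : α.toZFSet ∈ W) : Lp (CofW W) α ∈ Cst W :=
  ⟨α + 1, PC1.succ_mem hW hα, Lp_mem_succ _ α⟩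

end

end Pool.Agent.helper797_it
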