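import Pool.Agent.helper797_it.PC1
import Pool.Agent.helper797_cs.PW2a

/-! # C2: the ordinals of cofinality omega -/

set_option autoImplicit false
namespace Pool.Agent.helper797_it
open Pool.Agent.W868 Pool.Agent.R587 Pool.Agent.helper797_cs
open ZFSet (pair)

namespace PC2

theorem nat_inj {m n : ℕ} (h : nat m = nat n) : m = n := by
  rw [nat_eq, nat_eq] at h
  exact_mod_cast Ordinal.toZFSet_injective h

theorem mem_sqSet {g : ℕ → ZFSet.{0}} {p : ZFSet.{0}} : p ∈ sqSet g ↔ ∃ n, p = pair (nat n) (g n) := by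
  unfold sqSet
  rw [ZFSet.mem_range]
  constructor
  · rintro ⟨n, rfl⟩
    exact ⟨n, rfl⟩
  · rintro ⟨n, rfl⟩
    exact ⟨n, rfl⟩

/-- The value of the sequence `s` at `u`. -/
noncomputable def val (s u : ZFSet.{0}) : ZFSet.{0} :=
  ZFSet.sUnion (im sn (ZFSet.sep (fun p => fs p = u) s))

theorem val_sq (g : ℕ → ZFSet.{0}) (n : ℕ) : val (sqSet g) (nat n) = g n := by
  ext y
  unfold val
  rw [ZFSet.mem_sUnion]
  constructor
  · rintro ⟨z, hz, hy⟩
    obtain ⟨p, hp, rfl⟩ := mem_im.1 hz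
    obtain ⟨hp, h1⟩ := ZFSet.mem_sep.1 hp
    obtain ⟨m, rfl⟩ := mem_sqSet.1 hp
    rw [fs_pair] at h1
    rw [sn_pair, nat_inj h1] at hy
    exact hy
  · intro hy
    refine ⟨g n, mem_im.2 ⟨pair (nat n) (g n), ZFSet.mem_sep.2 ⟨mem_sqSet.2 ⟨n, rfl⟩, ?_⟩, ?_⟩, hy⟩
    · rw [fs_pair]
    · rw [sn_pair]

/-- The step of the recursion. -/
noncomputable def stp (s p : ZFSet.{0}) : ZFSet.{0} :=
  insert (sn p) (sn p) ∪ insert (val s (fs p)) (val s (fs p))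

/-- An increasing sequence above the sequence `s`. -/
noncomputable def Hq (s : ZFSet.{0}) : ZFSet.{0} → ZFSet.{0} :=
  wfF (fun z => z) ZFSet.mem_wf fun _ h => ZFSet.sUnion (im (stp s) h)

theorem Hq_eq (s z : ZFSet.{0}) : Hq s z = ZFSet.sUnion (im (stp s) (gr (Hq s) z)) := by
  rw [Hq, wfF_eq]

theorem mem_Hq {s z y : ZFSet.{0}} : y ∈ Hq s z ↔
    ∃ u ∈ z, y ∈ insert (Hq s u) (Hq s u) ∪ insert (val s u) (val s u) := by
  rw [Hq_eq, ZFSet.mem_sUnion]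
  constructor
  · rintro ⟨w, hw, h⟩
    obtain ⟨p, hp, rfl⟩ := mem_im.1 hw
    obtain ⟨u, hu, rfl⟩ := mem_gr.1 hp
    rw [stp, sn_pair, fs_pair] at h
    exact ⟨u, hu, h⟩
  · rintro ⟨u, hu, h⟩
    refine ⟨_, mem_im.2 ⟨_, mem_gr.2 ⟨u, hu, rfl⟩, rfl⟩, ?_⟩
    rw [stp, sn_pair, fs_pair]
    exact h

/-- The ordinals of the sequence. -/
noncomputable def cs (o : ℕ → Ordinal.{0}) : ℕ → Ordinal.{0}
  | 0 => 0
  | n + 1 => max (cs o n + 1) (o n + 1)

theorem Hq_nat {g : ℕ → ZFSet.{0}} {o : ℕ → Ordinal.{0}} (h : ∀ n, g n = (o n).toZFSet) (n : ℕ) :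
    Hq (sqSet g) (nat n) = (cs o n).toZFSet := by
  induction n with
  | zero =>
    ext y
    rw [mem_Hq, cs, Ordinal.toZFSet_zero]
    constructor
    · rintro ⟨u, hu, -⟩
      exact absurd hu (ZFSet.notMem_empty _)
    · intro hy
      exact absurd hy (ZFSet.notMem_empty _)
  | succ n ih =>
    have h1 : ∀ y, y ∈ Hq (sqSet g) (nat (n + 1)) ↔
        y ∈ insert (Hq (sqSet g) (nat n)) (Hq (sqSet g) (nat n)) ∪
          insert (val (sqSet g) (nat n)) (val (sqSet g) (nat n)) ∨ y ∈ Hq (sqSet g) (nat n) := by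
      intro y
      constructor
      · intro hy
        obtain ⟨u, hu, hy⟩ := mem_Hq.1 hy
        rcases ZFSet.mem_insert_iff.1 hu with rfl | hu
        · exact Or.inl hy
        · exact Or.inr (mem_Hq.2 ⟨u, hu, hy⟩)
      · rintro (hy | hy)
        · exact mem_Hq.2 ⟨nat n, ZFSet.mem_insert _ _, hy⟩
        · obtain ⟨u, hu, hy⟩ := mem_Hq.1 hy
          exact mem_Hq.2 ⟨u, ZFSet.mem_insert_of_mem _ hu, hy⟩
    ext y
    rw [h1, val_sq, ih, h n, ← Ordinal.toZFSet_add_one, ← Ordinal.toZFSet_add_one,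
      ZFSet.mem_union, cs]
    constructor
    · rintro ((hy | hy) | hy)
      · exact Ordinal.toZFSet_subset_toZFSet_iff.2 (le_max_left _ _) hy
      · exact Ordinal.toZFSet_subset_toZFSet_iff.2 (le_max_right _ _) hy
      · exact Ordinal.toZFSet_subset_toZFSet_iff.2
          ((lt_add_one _).le.trans (le_max_left _ _)) hy
    · intro hy
      rcases le_total (cs o n + 1) (o n + 1) with h2 | h2
      · rw [max_eq_right h2] at hy
        exact Or.inl (Or.inr hy)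
      · rw [max_eq_left h2] at hy
        exact Or.inl (Or.inl hy)

section

variable {W : Set ZFSet.{0}} (hW : IsZF W)

include hW

theorem dfn_val {s : ZFSet.{0}} (hs : s ∈ W) :
    DfnF W W fun w : Fin 1 → ZFSet.{0} => val s (w 0) := by
  have hB := hW.base
  refine hB.sUnion' (hW.im' (h := fun p _ => sn p)
    (hW.sep' (Q := fun p v => fs p = v 0) (DfnF.const hs) ?_) (hW.sn' (DfnF.proj 0)))
  exact Dfn.eq (hW.fs' (DfnF.proj 0)) (DfnF.proj (1 : Fin 2))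

theorem dfn_Hq {s : ZFSet.{0}} (hs : s ∈ W) :
    DfnF W W fun w : Fin 1 → ZFSet.{0} => Hq s (w 0) := by
  have hB := hW.base
  refine hW.memrec (G := fun _ h => ZFSet.sUnion (im (stp s) h)) ?_ fun z => Hq_eq s z
  refine hB.sUnion' (hW.im' (h := fun p _ => stp s p) (DfnF.proj 1) ?_)
  have h1 : DfnF W W fun v : Fin 3 → ZFSet.{0} => sn (v 0) := hW.sn' (DfnF.proj 0)
  have h2 : DfnF W W fun v : Fin 3 → ZFSet.{0} => val s (fs (v 0)) :=
    DfnF.comp1 (f := fun u => val s u) (dfn_val hW hs) (hW.fs' (DfnF.proj 0))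
  exact hB.union' (hB.insert' h1 h1) (hB.insert' h2 h2)

theorem sq_Hq_mem {s : ZFSet.{0}} (hs : s ∈ W) : sqSet (fun n => Hq s (nat n)) ∈ W := by
  have h1 := (im_mem' hW (dfn_Hq hW hs) hW.infinity).2
  have h2 : gr (Hq s) ZFSet.omega = sqSet (fun n => Hq s (nat n)) := by
    ext p
    rw [mem_gr, mem_sqSet]
    constructor
    · rintro ⟨u, hu, rfl⟩
      obtain ⟨n, rfl⟩ := mem_omega_iff.1 hu
      exact ⟨n, rfl⟩
    · rintro ⟨n, rfl⟩
      exact ⟨nat n, nat_mem_omega n, rfl⟩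
  rwa [h2] at h1

/-- The order of an ordinal has cofinality `ω` in `W` if and only if the ordinal has. -/
theorem cof_iff {X : ZFSet.{0}} (hX : ∀ x ∈ X, ∀ y ∈ x, y ∈ X) {α : Ordinal.{0}}
    (hα : α.toZFSet ∈ X) : CofW W (W2_R X α.toZFSet) ↔ Cf0 W α.toZFSet := by
  have hR : ∀ {ξ η : Ordinal.{0}}, pair ξ.toZFSet η.toZFSet ∈ W2_R X α.toZFSet ↔
      ξ < η ∧ η < α := by
    intro ξ η
    rw [W2_mem_R hX hα]
    constructor
    · rintro ⟨ξ', η', h1, h2, h3, h4⟩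
      rw [Ordinal.toZFSet_injective h3, Ordinal.toZFSet_injective h4]
      exact ⟨h1, h2⟩
    · rintro ⟨h1, h2⟩
      exact ⟨ξ, η, h1, h2, rfl, rfl⟩
  constructor
  · rintro ⟨-, g, hg, h1, h2⟩
    refine ⟨g, hg, fun n => ?_, fun x hx => ?_⟩
    · obtain ⟨ξ, η, h3, h4, h5, -⟩ := (W2_mem_R hX hα).1 (h1 n (n + 1) (Nat.lt_succ_self n)).2
      rw [h5]
      exact Ordinal.toZFSet_mem_toZFSet_iff.2 (h3.trans h4)
    · obtain ⟨ξ, hξ, rfl⟩ := Ordinal.mem_toZFSet_iff.1 hx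
      obtain ⟨γ, η, h3, h4, h5, h6⟩ := (W2_mem_R hX hα).1 (h1 0 1 Nat.zero_lt_one).2
      have key : Fld (W2_R X α.toZFSet) ξ.toZFSet → ∃ n, ξ.toZFSet ∈ g n := by
        intro hF
        obtain ⟨n, hn⟩ := h2 _ hF
        obtain ⟨ξ', ζ, h7, -, h8, h9⟩ := (W2_mem_R hX hα).1 hn
        refine ⟨n, ?_⟩
        rw [h9, h8]
        exact Ordinal.toZFSet_mem_toZFSet_iff.2 h7
      rcases lt_trichotomy ξ η with h7 | h7 | h7
      · refine ⟨1, ?_⟩
        rw [h6]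
        exact Ordinal.toZFSet_mem_toZFSet_iff.2 h7
      · rw [h7]
        rw [h7] at key
        exact key ⟨γ.toZFSet, Or.inr (hR.2 ⟨h3, h4⟩)⟩
      · exact key ⟨η.toZFSet, Or.inr (hR.2 ⟨h7, hξ⟩)⟩
  · rintro ⟨g, hg, h1, h2⟩
    have h3 : ∀ n, ∃ γ : Ordinal.{0}, γ < α ∧ g n = γ.toZFSet := by
      intro n
      obtain ⟨γ, hγ, h⟩ := Ordinal.mem_toZFSet_iff.1 (h1 n)
      exact ⟨γ, hγ, h.symm⟩
    choose o ho1 ho2 using h3
    have h4 : ∀ ξ < α, ∃ n, ξ < o n := by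
      intro ξ hξ
      obtain ⟨n, hn⟩ := h2 _ (Ordinal.toZFSet_mem_toZFSet_iff.2 hξ)
      rw [ho2 n] at hn
      exact ⟨n, Ordinal.toZFSet_mem_toZFSet_iff.1 hn⟩
    have h5 : ∀ ξ < α, ξ + 1 < α := by
      intro ξ hξ
      obtain ⟨n, hn⟩ := h4 ξ hξ
      exact (Order.add_one_le_of_lt hn).trans_lt (ho1 n)
    have h0 : 0 < α := pos_of_gt (ho1 0)
    have h6 : ∀ n, cs o n < α := by
      intro n
      induction n with
      | zero => exact h0
      | succ n ih => exact max_lt (h5 _ ih) (h5 _ (ho1 n))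
    have h7 : StrictMono (cs o) := strictMono_nat_of_lt_succ fun n =>
      (lt_add_one _).trans_le (le_max_left _ _)
    refine ⟨⟨?_, ?_, ?_, Or.inl ?_⟩, fun n => Hq (sqSet g) (nat n), sq_Hq_mem hW hg, ?_, ?_⟩
    · intro a b c hab hbc
      obtain ⟨ξ, η, h4, h5, rfl, rfl⟩ := (W2_mem_R hX hα).1 hab
      obtain ⟨η', ζ, h6, h7, h8, rfl⟩ := (W2_mem_R hX hα).1 hbc
      rw [← Ordinal.toZFSet_injective h8] at h6
      exact hR.2 ⟨h4.trans h6, h7⟩
    · intro a b ha hb hab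
      obtain ⟨ξ, hξ, rfl⟩ := W2_fld hX hα ha
      obtain ⟨η, hη, rfl⟩ := W2_fld hX hα hb
      rcases lt_trichotomy ξ η with h4 | h4 | h4
      · exact Or.inl (hR.2 ⟨h4, hη⟩)
      · exact absurd (congrArg _ h4) hab
      · exact Or.inr (hR.2 ⟨h4, hξ⟩)
    · intro a b hab hba
      obtain ⟨ξ, η, h4, h5, rfl, rfl⟩ := (W2_mem_R hX hα).1 hab
      exact absurd (h4.trans (hR.1 hba).1) (lt_irrefl _)
    · intro a ha
      obtain ⟨ξ, η, h4, h5, h6, h7⟩ := (W2_mem_R hX hα).1 ha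
      rw [h6] at h7
      exact h4.ne (Ordinal.toZFSet_injective h7)
    · intro m n hmn
      simp only [Hq_nat ho2]
      exact ⟨fun h => (h7 hmn).ne (Ordinal.toZFSet_injective h), hR.2 ⟨h7 hmn, h6 n⟩⟩
    · intro a ha
      obtain ⟨ξ, hξ, rfl⟩ := W2_fld hX hα ha
      obtain ⟨n, hn⟩ := h4 ξ hξ
      refine ⟨n + 1, ?_⟩
      simp only [Hq_nat ho2]
      exact hR.2 ⟨(hn.trans (lt_add_one _)).trans_le (le_max_right _ _), h6 _⟩

end

end PC2

section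

variable {W : Set ZFSet.{0}} (hW : IsZF W)

include hW

/-- The set of the ordinals below `ξ` of cofinality `ω` in `W` is in `C*`. -/
theorem sw_mem {ξ : Ordinal.{0}} (hξ : ξ.toZFSet ∈ W) : SW W ξ ∈ Cst W := by
  refine ⟨ξ + 1 + 1, ?_, ?_⟩
  · rw [Ordinal.toZFSet_add_one, Ordinal.toZFSet_add_one]
    exact hW.insert_mem (hW.insert_mem hξ hξ) (hW.insert_mem hξ hξ)
  rw [lp_succ]
  have hβ : ξ.toZFSet ∈ Lp (CofW W) (ξ + 1) := (ord_mem_Lp _ _ _).2 (lt_add_one ξ)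
  have hX := lp_trans (CofW W) (ξ + 1)
  have h := W2_sep_mem (K := CofW W) (X := Lp (CofW W) (ξ + 1)) (n := 1)
    (.and (.mem 0 1) (.qcf (.and (.mem 0 1) (.mem 1 2)))) (fun _ => ξ.toZFSet) (fun _ => hβ)
    (fun a => a ∈ ξ.toZFSet ∧ Cf0 W a) ?_
  · have h1 : ZFSet.sep (fun a => a ∈ ξ.toZFSet ∧ Cf0 W a) (Lp (CofW W) (ξ + 1)) = SW W ξ := by
      ext a
      unfold SW SWs
      rw [ZFSet.mem_sep, ZFSet.mem_sep]
      exact ⟨fun h => h.2, fun h => ⟨hX _ hβ _ h.1, h⟩⟩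
    rwa [h1] at h
  · intro a ha
    simp only [FmQ.Sat]
    refine and_congr_right fun haδ => ?_
    obtain ⟨α, hα, rfl⟩ := Ordinal.mem_toZFSet_iff.1 haδ
    rw [← PC2.cof_iff hW hX ha]
    rfl

theorem dfn_SWs {n : ℕ} {F : (Fin n → ZFSet.{0}) → ZFSet.{0}} (hF : DfnF W W F) :
    DfnF W W fun w => SWs W (F w) :=
  hW.sep' (Q := fun p _ => Cf0 W p) hF
    ((dfn_Cf0 hW).comp (fun _ => 0))

end

end Pool.Agent.helper797_it
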