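import Pool.Agent.helper797_it.PC2
import Pool.Agent.helper797_cs.PK1
import Pool.Agent.helper797_cs.PK2
import Pool.Agent.helper797_cs.PK3

/-! # E0: the class `L[S]` -/

set_option autoImplicit false
namespace Pool.Agent.helper797_it
open Pool.Agent.W868 Pool.Agent.R587 Pool.Agent.helper797_cs
open ZFSet (pair)

namespace PE0

theorem d_lmt {M : Set ZFSet.{0}} (hM : IsZF M) {n : ℕ} {F g : (Fin n → ZFSet.{0}) → ZFSet.{0}}
    (hF : DfnF M M F) (hg : DfnF M M g) : DfnF M M fun w => lmt (F w) (g w) := by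
  have hB := hM.base
  have h1 : DfnF M M fun w => ZFSet.sUnion (im (fun p => eS (sn p)) (g w)) :=
    hB.sUnion' (hM.im' (h := fun p _ => eS (sn p)) hg (hM.fs' (hM.sn' (DfnF.proj 0))))
  have h2 : DfnF M M fun w => ZFSet.sUnion (im (fun p => eW (sn p)) (g w)) :=
    hB.sUnion' (hM.im' (h := fun p _ => eW (sn p)) hg (hM.fs' (hM.sn' (hM.sn' (DfnF.proj 0)))))
  have h3 : DfnF M M fun w => F w ∩ ZFSet.sUnion (im (fun p => eS (sn p)) (g w)) :=
    hM.sep' (Q := fun u w => u ∈ ZFSet.sUnion (im (fun p => eS (sn p)) (g w))) hF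
      (Dfn.mem (DfnF.proj 0) h1.tail)
  exact hB.pair' h1 (hB.pair' h2 (hB.pair' h3 h2))

theorem d_Eh {M : Set ZFSet.{0}} (hM : IsZF M) :
    DfnF M M fun w : Fin 2 → ZFSet.{0} => Eh (w 0) (w 1) := by
  classical
  have hB := hM.base
  refine memrec2 hM (G := fun x z g => if ∃ u ∈ z, z = insert u u then
      nxt (ZFSet.sUnion (im sn (ZFSet.sep (fun p => fs p = ZFSet.sUnion z) g)))
    else lmt x g) ?_ (fun x z => by rw [PK1_Eh_eq])
  refine DfnF.ite ?_ ?_ ?_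
  · refine hB.bex (Q := fun u w => w 1 = insert u u) (DfnF.proj 1) ?_
    exact Dfn.eq (DfnF.proj 1).tail (hB.insert' (DfnF.proj 0) (DfnF.proj 0))
  · refine PK1_d_nxt hM (hB.sUnion' (hM.im' (h := fun p _ => sn p) ?_ (hM.sn' (DfnF.proj 0))))
    refine hM.sep' (Q := fun p w => fs p = ZFSet.sUnion (w 1)) (DfnF.proj 2) ?_
    exact Dfn.eq (hM.fs' (DfnF.proj 0)) (hB.sUnion' (DfnF.proj 1).tail)
  · exact d_lmt hM (DfnF.proj 0) (DfnF.proj 2)

/-! ### Formulas with parameters -/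

theorem over_empty {S : Set Empty} : {n : ℕ} → (φ : Fml Empty n) → φ.Over S
  | _, .mem _ _ => ⟨fun a => a.elim, fun a => a.elim⟩
  | _, .eq _ _ => ⟨fun a => a.elim, fun a => a.elim⟩
  | _, .neg φ => over_empty φ
  | _, .and φ ψ => ⟨over_empty φ, over_empty ψ⟩
  | _, .ex φ => over_empty φ

theorem dfn_fml {X : Set ZFSet.{0}} {n : ℕ} (φ : Fml Empty (n + 1)) (v : Fin n → ZFSet.{0})
    (hv : ∀ i, v i ∈ X) :
    Dfn X X fun w : Fin 1 → ZFSet.{0} => Sat X Empty.elim φ (Fin.cons (w 0) v) := by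
  have h : Dfn X X fun w : Fin (n + 1) → ZFSet.{0} => Sat X Empty.elim φ w := by
    refine ⟨φ.map Empty.elim, (over_map _ φ).2 (over_empty φ), fun w _ => ?_⟩
    rw [sat_map]
    have h2 : (id ∘ Empty.elim : Empty → ZFSet.{0}) = Empty.elim := by
      funext a
      exact a.elim
    rw [h2]
  refine Dfn.spec (R := fun y v => Sat X Empty.elim φ (Fin.cons y v)) ?_ hv
  refine h.congr fun w _ => ?_
  rw [Fin.cons_self_tail]

/-! ### Addition of omega -/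

/-- Addition of ordinals. -/
noncomputable def ad (a : ZFSet.{0}) : ZFSet.{0} → ZFSet.{0} := itr (fun x => insert x x) a

theorem ad_eq (α β : Ordinal.{0}) : ad α.toZFSet β.toZFSet = (α + β).toZFSet := by
  induction β using WellFoundedLT.induction with
  | ind β ih =>
    ext y
    rw [ad, mem_itr, Ordinal.mem_toZFSet_iff, Ordinal.mem_toZFSet_iff]
    constructor
    · rintro (⟨a, ha, rfl⟩ | ⟨u, hu, hy⟩)
      · exact ⟨a, ha.trans_le (le_self_add), rfl⟩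
      · obtain ⟨b, hb, rfl⟩ := Ordinal.mem_toZFSet_iff.1 hu
        have h1 := ih b hb
        rw [ad] at h1
        rw [h1, ← Ordinal.toZFSet_add_one, Ordinal.mem_toZFSet_iff] at hy
        obtain ⟨c, hc, rfl⟩ := hy
        refine ⟨c, (Order.lt_add_one_iff.1 hc).trans_lt ?_, rfl⟩
        gcongr
    · rintro ⟨c, hc, rfl⟩
      rcases lt_or_ge c α with h | h
      · exact Or.inl ⟨c, h, rfl⟩
      · obtain ⟨b, rfl⟩ := exists_add_of_le h
        have hb : b < β := lt_of_add_lt_add_left hc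
        refine Or.inr ⟨b.toZFSet, Ordinal.toZFSet_mem_toZFSet_iff.2 hb, ?_⟩
        have h1 := ih b hb
        rw [ad] at h1
        rw [h1]
        exact ZFSet.mem_insert _ _

theorem add_omega_mem {W : Set ZFSet.{0}} (hW : IsZF W) {ξ : Ordinal.{0}} (hξ : ξ.toZFSet ∈ W) :
    (ξ + Ordinal.omega0).toZFSet ∈ W := by
  have hB := hW.base
  rw [← ad_eq]
  refine itr_mem_M hW hξ ?_ (hB.insert' (DfnF.proj 0) (DfnF.proj 0))
  rw [← omega_eq]
  exact hW.infinity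

theorem lim_omega (ξ : Ordinal.{0}) : Order.IsSuccLimit (ξ + Ordinal.omega0.{0}) :=
  Ordinal.isSuccLimit_add ξ Ordinal.isSuccLimit_omega0

theorem mem_SW {W : Set ZFSet.{0}} {ξ : Ordinal.{0}} {x : ZFSet.{0}} :
    x ∈ SW W ξ ↔ x ∈ ξ.toZFSet ∧ Cf0 W x := by
  rw [SW, SWs, ZFSet.mem_sep]

end PE0

/-- The hierarchy `Eh F z` is definable in both variables. -/
theorem dfn_Eh2 {M : Set ZFSet.{0}} (hM : IsZF M) {n : ℕ} {F G : (Fin n → ZFSet.{0}) → ZFSet.{0}}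
    (hF : DfnF M M F) (hG : DfnF M M G) : DfnF M M fun w => Eh (F w) (G w) :=
  DfnF.comp2 (f := fun a b => Eh a b) (PE0.d_Eh hM) hF hG

/-- Agreement. -/
theorem kc_agree (W : Set ZFSet.{0}) {ξ η : Ordinal.{0}} (h : ξ ≤ η) :
    KS (SW W ξ) ξ = KS (SW W η) ξ ∧ KW (SW W ξ) ξ = KW (SW W η) ξ := by
  have h1 := ks_congr (F := SW W ξ) (F' := SW W η) (ξ := ξ) (by
    intro ζ hζ _ x hx
    rw [PE0.mem_SW, PE0.mem_SW]
    refine and_congr_left fun _ => ?_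
    constructor
    · intro h2
      obtain ⟨α, hα, rfl⟩ := Ordinal.mem_toZFSet_iff.1 h2
      exact Ordinal.toZFSet_mem_toZFSet_iff.2 (hα.trans_le h)
    · intro h2
      obtain ⟨α, hα, rfl⟩ := Ordinal.mem_toZFSet_iff.1 h2
      exact Ordinal.toZFSet_mem_toZFSet_iff.2 ((ks_ord_le hx).trans hζ))
  exact ⟨h1.1, h1.2.1⟩

theorem kc_mono (W : Set ZFSet.{0}) {ξ η : Ordinal.{0}} (h : ξ ≤ η) :
    KS (SW W ξ) ξ ⊆ KS (SW W η) η := by
  rw [(kc_agree W h).1]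
  exact ks_mono h

section

variable {W : Set ZFSet.{0}} (hW : IsZF W)

include hW

theorem kc_sub : KC W ⊆ W := by
  rintro x ⟨ξ, hξ, hx⟩
  have h1 : SW W ξ ∈ W :=
    (dfn_SWs hW (n := 1) (F := fun w => w 0) (DfnF.proj 0)).1 (fun _ => ξ.toZFSet) fun _ => hξ
  exact hW.trans _ (eh_mem_ZF hW h1 hξ).2.1 _ hx

theorem PE0.zf : IsZF (KC W) ∧ ∀ α : Ordinal.{0}, α.toZFSet ∈ W → α.toZFSet ∈ KC W := by
  refine isZF_of_hierM hW (fun z => eS (Eh (SWs W z) z)) ?_ ?_ ?_ ?_ ?_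
  · exact hW.fs' (dfn_Eh2 hW (dfn_SWs hW (DfnF.proj 0)) (DfnF.proj 0))
  · intro α β h _
    exact kc_mono W h
  · intro α _ x hx y hy
    exact ks_trans α x hx y hy
  · intro α _ hl x hx
    obtain ⟨β, hβ, h1⟩ := (ks_limit hl).1 hx
    refine ⟨β, hβ, ?_⟩
    have h2 : x ∈ KS (SW W α) β := h1
    rw [← (kc_agree W hβ.le).1] at h2
    exact h2
  · intro α hα n φ v hv
    refine ⟨α + Ordinal.omega0, PE0.add_omega_mem hW hα, ?_⟩
    have hlt : α < α + Ordinal.omega0 := by simp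
    have h1 : Gd ∅ {x | x ∈ KS (SW W (α + Ordinal.omega0)) (α + Ordinal.omega0)} :=
      ks_gd (PE0.lim_omega α)
    have h2 : KS (SW W α) α ∈ {x | x ∈ KS (SW W (α + Ordinal.omega0)) (α + Ordinal.omega0)} := by
      rw [(kc_agree W hlt.le).1]
      exact ks_mem hlt
    exact h1.sepD h2 (Q := fun y => Sat {x | x ∈ KS (SW W α) α} Empty.elim φ (Fin.cons y v))
      (PE0.dfn_fml φ v hv)

theorem isZF_KC : IsZF (KC W) := (PE0.zf hW).1

theorem ord_KC {α : Ordinal.{0}} : α.toZFSet ∈ KC W ↔ α.toZFSet ∈ W :=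
  ⟨fun h => kc_sub hW h, (PE0.zf hW).2 α⟩

theorem sw_mem_KC {ξ : Ordinal.{0}} (hξ : ξ.toZFSet ∈ W) : SW W ξ ∈ KC W := by
  have hK := isZF_KC hW
  set ζ : Ordinal.{0} := ξ + Ordinal.omega0 with hζ
  have hζW : ζ.toZFSet ∈ W := PE0.add_omega_mem hW hξ
  have hl : Order.IsSuccLimit ζ := PE0.lim_omega ξ
  have hlt : ξ < ζ := by simp [hζ]
  have h1 : (ζ + 1).toZFSet ∈ W := by
    rw [Ordinal.toZFSet_add_one]
    exact hW.insert_mem hζW hζW
  have h2 : SW W (ζ + 1) ∩ KS (SW W (ζ + 1)) ζ ∈ KC W := ⟨ζ + 1, h1, fks_mem hl⟩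
  have h3 : ξ.toZFSet ∈ KC W := (ord_KC hW).2 hξ
  have h4 := hK.sep_mem (Q := fun x => x ∈ SW W (ζ + 1) ∩ KS (SW W (ζ + 1)) ζ)
    (Dfn.mem (DfnF.proj 0) (DfnF.const h2)) h3
  have h5 : ZFSet.sep (fun x => x ∈ SW W (ζ + 1) ∩ KS (SW W (ζ + 1)) ζ) ξ.toZFSet = SW W ξ := by
    ext x
    rw [ZFSet.mem_sep, ZFSet.mem_inter, PE0.mem_SW, PE0.mem_SW]
    constructor
    · rintro ⟨h5, ⟨_, h6⟩, _⟩
      exact ⟨h5, h6⟩
    · rintro ⟨h5, h6⟩
      obtain ⟨α, hα, rfl⟩ := Ordinal.mem_toZFSet_iff.1 h5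
      refine ⟨h5, ⟨Ordinal.toZFSet_mem_toZFSet_iff.2 ?_, h6⟩, (ks_ord hl).2 (hα.trans hlt)⟩
      exact (hα.trans hlt).trans (Order.lt_succ ζ)
  rwa [h5] at h4

end

end Pool.Agent.helper797_it
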