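import Pool.Agent.helper797_it.PE0

/-! # E2: the class `L[S]` is a model of ZFC with canonical choices -/

set_option autoImplicit false
namespace Pool.Agent.helper797_it
open Pool.Agent.W868 Pool.Agent.R587 Pool.Agent.helper797_cs
open ZFSet (pair)

section

variable {W : Set ZFSet.{0}} (hW : IsZF W)

include hW

theorem isZFC_KC : IsZFC (KC W) := by
  have hZ := isZF_KC hW
  refine ⟨hZ, ?_⟩
  intro x hx hne hdis
  have hx' := hx
  obtain ⟨ξ, hξ, hxξ⟩ := hx'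
  have hK : KW (SW W ξ) ξ ∈ KC W :=
    (eh_mem_ZF hZ (sw_mem_KC hW hξ) ((ord_KC hW).2 hξ)).2.2
  obtain ⟨K, hKe⟩ : ∃ K, K = KW (SW W ξ) ξ := ⟨_, rfl⟩
  rw [← hKe] at hK
  have hB := hZ.base
  have h : Dfn (KC W) (KC W) fun w : Fin 1 → ZFSet.{0} =>
      ∃ y ∈ x, w 0 ∈ y ∧ ∀ z' ∈ y, w 0 = z' ∨ pair (w 0) z' ∈ K := by
    (repeat' first
      | assumption
      | exact DfnF.proj _
      | exact DfnF.const (by assumption)
      | exact DfnF.const' (by first | assumption | trivial) (by first | assumption | trivial)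
      | exact Dfn.prop _
      | apply Dfn.not | apply Dfn.and | apply Dfn.or | apply Dfn.imp | apply Dfn.iff
      | apply hB.bex | apply hB.ball | apply Dfn.ex | apply Dfn.all
      | apply Dfn.eq | apply Dfn.mem | apply hB.pair')
  refine ⟨_, hZ.sep_mem (Q := fun z => ∃ y ∈ x, z ∈ y ∧ ∀ z' ∈ y, z = z' ∨ pair z z' ∈ K) h
    (hZ.union _ hx), ?_⟩
  intro y hy
  have hyS := ks_trans ξ x hxξ y hy
  obtain ⟨z0, hz0⟩ := hne y hy
  obtain ⟨z, hz, hzy, hmin⟩ := kw_min (F := SW W ξ) ξ (fun z => z ∈ y)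
    ⟨z0, ks_trans ξ y hyS z0 hz0, hz0⟩
  refine ⟨z, ⟨hzy, ZFSet.mem_sep.2 ⟨ZFSet.mem_sUnion.2 ⟨y, hy, hzy⟩, y, hy, hzy,
    fun z' hz' => ?_⟩⟩, ?_⟩
  · rw [hKe]
    exact hmin z' (ks_trans ξ y hyS z' hz') hz'
  · rintro z1 ⟨hz1y, hz1c⟩
    obtain ⟨-, y1, hy1, hz1y1, hall⟩ := ZFSet.mem_sep.1 hz1c
    have hyy : y = y1 := hdis y hy y1 hy1 z1 hz1y hz1y1
    subst hyy
    rcases hall z hzy with h1 | h1
    · exact h1
    · rcases hmin z1 (ks_trans ξ y hyS z1 hz1y) hz1y with h2 | h2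
      · exact h2.symm
      · rw [hKe] at h1
        exact absurd (kw_trans ξ h1 h2) (kw_irrefl ξ z1)

theorem kc_sub_cst : KC W ⊆ Cst W := by
  rintro x ⟨ξ, hξ, hx⟩
  have hC := isZF_Cst hW
  exact hC.trans _ (eh_mem_ZF hC (sw_mem hW hξ) ((ord_Cst hW).2 hξ)).2.1 _ hx

/-- Each nonempty class has a canonical least element. -/
theorem ch_exists {P : ZFSet.{0} → Prop} (h : ∃ x ∈ KC W, P x) : ∃ x, IsCh W P x := by
  obtain ⟨x0, ⟨ξ0, hξ0, hx0⟩, hP0⟩ := h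
  have hne : {ξ : Ordinal.{0} | ξ.toZFSet ∈ W ∧ ∃ x ∈ KS (SW W ξ) ξ, P x}.Nonempty :=
    ⟨ξ0, hξ0, x0, hx0, hP0⟩
  obtain ⟨ξ, hξe⟩ : ∃ ξ : Ordinal.{0},
      ξ = sInf {ξ : Ordinal.{0} | ξ.toZFSet ∈ W ∧ ∃ x ∈ KS (SW W ξ) ξ, P x} := ⟨_, rfl⟩
  have hm := csInf_mem hne
  rw [← hξe] at hm
  obtain ⟨hξ, hex⟩ := hm
  obtain ⟨x, hx, hPx, hmin⟩ := kw_min (F := SW W ξ) ξ P hex
  refine ⟨x, ξ, hξ, hx, hPx, ?_, hmin⟩
  intro ζ hζ y hy hPy
  have hζW : ζ.toZFSet ∈ W := hW.trans _ hξ _ (Ordinal.toZFSet_mem_toZFSet_iff.2 hζ)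
  have hle : ξ ≤ ζ := by
    rw [hξe]
    exact csInf_le' ⟨hζW, y, hy, hPy⟩
  exact absurd hζ hle.not_gt

theorem ch_unique {P : ZFSet.{0} → Prop} {x y : ZFSet.{0}} (hx : IsCh W P x)
    (hy : IsCh W P y) : x = y := by
  have _ := hW
  obtain ⟨ξ, -, hx1, hPx, hx2, hx3⟩ := hx
  obtain ⟨η, -, hy1, hPy, hy2, hy3⟩ := hy
  have he : ξ = η := by
    rcases lt_trichotomy ξ η with h | h | h
    · exact absurd hPx (hy2 ξ h x hx1)
    · exact h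
    · exact absurd hPy (hx2 η h y hy1)
  subst he
  rcases hx3 y hy1 hPy with h | h
  · exact h
  · rcases hy3 x hx1 hPx with h' | h'
    · exact h'.symm
    · exact absurd (kw_trans ξ h h') (kw_irrefl ξ x)

end

end Pool.Agent.helper797_it
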