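import Pool.Agent.helper797_it.Defs
import Pool.Agent.W868.Small

/-! # E3: cofinal sequences in linear orders -/

set_option autoImplicit false
namespace Pool.Agent.helper797_it
open Pool.Agent.W868 Pool.Agent.R587 Pool.Agent.helper797_cs
open ZFSet (pair)

namespace PE3

/-- The strict upper bounds of the set `s` in the linear order `R` of a subset of `X`. -/
noncomputable def ub (R X s : ZFSet.{0}) : ZFSet.{0} :=
  ZFSet.sep (fun b => (∃ c ∈ X, pair b c ∈ R ∨ pair c b ∈ R) ∧ ∀ a ∈ s, pair a b ∈ R ∧ ¬ a = b) X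

theorem fld_iff {R X : ZFSet.{0}} (hRX : R ⊆ ZFSet.prod X X) {b : ZFSet.{0}} :
    Fld R b ↔ ∃ c ∈ X, pair b c ∈ R ∨ pair c b ∈ R := by
  constructor
  · rintro ⟨c, h⟩
    refine ⟨c, ?_, h⟩
    rcases h with h | h
    · exact (ZFSet.pair_mem_prod.1 (hRX h)).2
    · exact (ZFSet.pair_mem_prod.1 (hRX h)).1
  · rintro ⟨c, -, h⟩
    exact ⟨c, h⟩

theorem fld_mem {R X : ZFSet.{0}} (hRX : R ⊆ ZFSet.prod X X) {b : ZFSet.{0}} (h : Fld R b) :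
    b ∈ X := by
  obtain ⟨c, h⟩ := h
  rcases h with h | h
  · exact (ZFSet.pair_mem_prod.1 (hRX h)).1
  · exact (ZFSet.pair_mem_prod.1 (hRX h)).2

theorem mem_ub {R X s b : ZFSet.{0}} (hRX : R ⊆ ZFSet.prod X X) :
    b ∈ ub R X s ↔ Fld R b ∧ ∀ a ∈ s, pair a b ∈ R ∧ a ≠ b := by
  rw [ub, ZFSet.mem_sep, ← fld_iff hRX]
  exact ⟨fun h => h.2, fun h => ⟨fld_mem hRX h.1, h⟩⟩

theorem im_sn_gr {F : ZFSet.{0} → ZFSet.{0}} {z : ZFSet.{0}} : im sn (gr F z) = im F z := by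
  ext y
  rw [mem_im, mem_im]
  constructor
  · rintro ⟨p, hp, rfl⟩
    obtain ⟨u, hu, rfl⟩ := mem_gr.1 hp
    exact ⟨u, hu, sn_pair _ _⟩
  · rintro ⟨u, hu, rfl⟩
    exact ⟨_, mem_gr.2 ⟨u, hu, rfl⟩, (sn_pair _ _).symm⟩

/-- Choice functions. -/
theorem choice_fun {C : Set ZFSet.{0}} (hC : IsZFC C) {P : ZFSet.{0}} (hP : P ∈ C) :
    ∃ c ∈ C, ∀ z ∈ P, z = ∅ ∨ ap c z ∈ z := by
  have hZ := hC.toIsZF
  have hB := hZ.base
  set P' := ZFSet.sep (fun z => ¬ z = ∅) P with hP'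
  have hP'C : P' ∈ C := hZ.sep_mem (Q := fun z => ¬ z = ∅)
    (Dfn.eq (DfnF.proj 0) (DfnF.const hZ.empty_mem)).not hP
  set T : ZFSet.{0} → ZFSet.{0} := fun z => ZFSet.prod {z} z with hT
  have hTd : DfnF C C fun w : Fin 1 → ZFSet.{0} => T (w 0) :=
    hZ.prod' (hB.single' (DfnF.proj 0)) (DfnF.proj 0)
  have hmem : ∀ z p, p ∈ T z ↔ ∃ w ∈ z, p = pair z w := by
    intro z p
    simp only [hT, ZFSet.mem_prod, ZFSet.mem_singleton]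
    constructor
    · rintro ⟨a, rfl, b, hb, rfl⟩
      exact ⟨b, hb, rfl⟩
    · rintro ⟨b, hb, rfl⟩
      exact ⟨z, rfl, b, hb, rfl⟩
  have hfam : im T P' ∈ C := hZ.im_mem hP'C hTd
  obtain ⟨c, hc, hc1⟩ := hC.choice _ hfam (by
    intro y hy
    obtain ⟨z, hz, rfl⟩ := mem_im.1 hy
    obtain ⟨w, hw⟩ := (ZFSet.nonempty_def z).1 ((ZFSet.eq_empty_or_nonempty z).resolve_left
      (ZFSet.mem_sep.1 hz).2)
    exact ⟨pair z w, (hmem _ _).2 ⟨w, hw, rfl⟩⟩) (by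
    intro y hy y' hy' p hp hp'
    obtain ⟨z, hz, rfl⟩ := mem_im.1 hy
    obtain ⟨z', hz', rfl⟩ := mem_im.1 hy'
    obtain ⟨w, -, h2⟩ := (hmem _ _).1 hp
    obtain ⟨w', -, h3⟩ := (hmem _ _).1 hp'
    rw [h2] at h3
    rw [(ZFSet.pair_inj.1 h3).1])
  set f := ZFSet.sep (fun p => p ∈ c) (ZFSet.sUnion (im T P')) with hf
  have hfM : f ∈ C := hZ.sep_mem (Q := fun p => p ∈ c)
    (Dfn.mem (DfnF.proj 0) (DfnF.const hc)) (hZ.union _ hfam)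
  have hval : ∀ z ∈ P', ∃ w ∈ z, pair z w ∈ f ∧ ∀ w', pair z w' ∈ f → w' = w := by
    intro z hz
    obtain ⟨p, ⟨hp1, hp2⟩, hp3⟩ := hc1 (T z) (mem_im.2 ⟨z, hz, rfl⟩)
    obtain ⟨w, hw, rfl⟩ := (hmem _ _).1 hp1
    refine ⟨w, hw, ZFSet.mem_sep.2 ⟨ZFSet.mem_sUnion.2 ⟨_, mem_im.2 ⟨z, hz, rfl⟩, hp1⟩, hp2⟩,
      fun w' hw' => ?_⟩
    obtain ⟨h3, h4⟩ := ZFSet.mem_sep.1 hw'
    obtain ⟨y, hy, h5⟩ := ZFSet.mem_sUnion.1 h3
    obtain ⟨z', hz', rfl⟩ := mem_im.1 hy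
    obtain ⟨w'', -, h7⟩ := (hmem _ _).1 h5
    obtain ⟨rfl, rfl⟩ := ZFSet.pair_inj.1 h7
    exact (ZFSet.pair_inj.1 (hp3 _ ⟨h5, h4⟩)).2
  have hfun : ZFSet.IsFunc P' (ZFSet.sUnion P') f := by
    refine ⟨fun p hp => ?_, fun z hz => ?_⟩
    · obtain ⟨h3, -⟩ := ZFSet.mem_sep.1 hp
      obtain ⟨y, hy, h5⟩ := ZFSet.mem_sUnion.1 h3
      obtain ⟨z', hz', rfl⟩ := mem_im.1 hy
      obtain ⟨w, hw, rfl⟩ := (hmem _ _).1 h5
      exact ZFSet.mem_prod.2 ⟨_, hz', _, ZFSet.mem_sUnion.2 ⟨_, hz', hw⟩, rfl⟩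
    · obtain ⟨w, -, h2, h3⟩ := hval z hz
      exact ⟨w, h2, h3⟩
  refine ⟨f, hfM, fun z hz => ?_⟩
  by_cases h : z = ∅
  · exact Or.inl h
  · obtain ⟨w, h1, h2, -⟩ := hval z (ZFSet.mem_sep.2 ⟨hz, h⟩)
    rw [ap_func hfun h2]
    exact Or.inr h1

end PE3

open PE3

/-- In a model `C` of ZFC, a linear order `R` without a largest element (a strict one or a reflexive
one) has a cofinal sequence indexed by a limit ordinal `ρ`. -/
theorem exists_cof_seq {C : Set ZFSet.{0}} (hC : IsZFC C) {R X : ZFSet.{0}} (hR : R ∈ C)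
    (hX : X ∈ C) (hRX : R ⊆ ZFSet.prod X X) (hl : IsLin R) (hne : ∃ a, Fld R a)
    (hmax : ∀ a, Fld R a → ∃ b, pair a b ∈ R ∧ a ≠ b) :
    ∃ ρ : Ordinal.{0}, Order.IsSuccLimit ρ ∧ ρ.toZFSet ∈ C ∧ Inj C ρ.toZFSet X ∧ ∃ f ∈ C,
      (∀ p ∈ f, ∃ i < ρ, ∃ x, Fld R x ∧ p = pair i.toZFSet x) ∧
      (∀ i < ρ, ∃! x, pair i.toZFSet x ∈ f) ∧
      (∀ (i j : Ordinal.{0}) x y, i < j → pair i.toZFSet x ∈ f → pair j.toZFSet y ∈ f →
        pair x y ∈ R ∧ x ≠ y) ∧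
      ∀ a, Fld R a → ∃ (i : Ordinal.{0}) (x : ZFSet.{0}), pair i.toZFSet x ∈ f ∧ pair a x ∈ R := by
  have hZ := hC.toIsZF
  have hB := hZ.base
  obtain ⟨P, hP, hP'⟩ := hZ.exists_pow hX
  obtain ⟨c, hc, hc1⟩ := choice_fun hC hP
  -- the recursion
  set F : ZFSet.{0} → ZFSet.{0} := wfF (fun z => z) ZFSet.mem_wf
    fun _ g => ap c (ub R X (im sn g)) with hFdef
  have hF : ∀ z, F z = ap c (ub R X (im F z)) := by
    intro z
    rw [hFdef, wfF_eq, ← hFdef, im_sn_gr]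
  have hubd : ∀ {m : ℕ} {H : (Fin m → ZFSet.{0}) → ZFSet.{0}}, DfnF C C H →
      DfnF C C fun w => ub R X (H w) := by
    intro m H hH
    unfold ub
    refine hZ.sep' (Q := fun b w => (∃ c ∈ X, pair b c ∈ R ∨ pair c b ∈ R) ∧
      ∀ a ∈ H w, pair a b ∈ R ∧ ¬ a = b) (DfnF.const hX) ?_
    have hH1 := hH.tail
    (repeat' first
      | assumption
      | exact DfnF.proj _
      | exact DfnF.const (by assumption)
      | apply Dfn.not | apply Dfn.and | apply Dfn.or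
      | apply hB.bex | apply hB.ball
      | apply Dfn.eq | apply Dfn.mem | apply hB.pair')
  have hFd : DfnF C C fun w : Fin 1 → ZFSet.{0} => F (w 0) := by
    refine hZ.memrec (G := fun _ g => ap c (ub R X (im sn g))) ?_ fun z => ?_
    · refine hZ.ap' (DfnF.const hc) (hubd ?_)
      exact hZ.im' (h := fun p _ => sn p) (DfnF.proj 1) (hZ.sn' (DfnF.proj 0))
    · rw [hFdef, wfF_eq]
  have himd : DfnF C C fun w : Fin 1 → ZFSet.{0} => im F (w 0) :=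
    hZ.im' (h := fun p _ => F p) (DfnF.proj 0) (DfnF.comp1 (f := F) hFd (DfnF.proj 0))
  have hubP : ∀ z ∈ C, ub R X (im F z) ∈ P := by
    intro z hz
    refine (hP' _).2 ⟨?_, fun b hb => (ZFSet.mem_sep.1 hb).1⟩
    exact (hubd himd).1 (fun _ => z) fun _ => hz
  -- the values of F
  have hval : ∀ z ∈ C, ub R X (im F z) ≠ ∅ → Fld R (F z) ∧ ∀ u ∈ z, pair (F u) (F z) ∈ R ∧
      F u ≠ F z := by
    intro z hz h
    rcases hc1 _ (hubP z hz) with h1 | h1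
    · exact absurd h1 h
    · rw [← hF] at h1
      obtain ⟨h2, h3⟩ := (mem_ub hRX).1 h1
      exact ⟨h2, fun u hu => h3 _ (mem_im.2 ⟨u, hu, rfl⟩)⟩
  have hinj : ∀ S ∈ C, S.IsOrdinal → (∀ z ∈ S, ub R X (im F z) ≠ ∅) → Inj C S X := by
    intro S hS hSo h
    refine Inj.of_fun hZ hS hX (h := F) hFd (fun a ha => ?_) fun a ha a' ha' haa => ?_
    · exact fld_mem hRX (hval a (hZ.trans _ hS _ ha) (h a ha)).1
    · rcases (hSo.mem ha).mem_trichotomous (hSo.mem ha') with h1 | h1 | h1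
      · exact absurd haa ((hval a' (hZ.trans _ hS _ ha') (h a' ha')).2 a h1).2
      · exact h1
      · exact absurd haa.symm ((hval a (hZ.trans _ hS _ ha) (h a ha)).2 a' h1).2
  obtain ⟨S, hS, hSo, hSn⟩ := hartogs hZ hX
  have hex : ∃ z ∈ C, z.IsOrdinal ∧ ub R X (im F z) = ∅ := by
    by_contra hcon
    push Not at hcon
    exact hSn (hinj S hS hSo fun z hz => hcon z (hZ.trans _ hS _ hz) (hSo.mem hz))
  obtain ⟨h1, h2, h3⟩ := lo_spec hex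
  have h4 : ∀ z ∈ lo C fun z => ub R X (im F z) = ∅, ub R X (im F z) ≠ ∅ := fun z hz h =>
    lo_min (P := fun z => ub R X (im F z) = ∅) (hZ.trans _ h1 _ hz) (h2.mem hz) h hz
  generalize (lo C fun z => ub R X (im F z) = ∅) = r at h1 h2 h3 h4
  obtain ⟨ρ, rfl⟩ := ZFSet.isOrdinal_iff_mem_range_toZFSet.1 h2
  have h5 : ∀ i < ρ, Fld R (F i.toZFSet) ∧ ∀ u ∈ i.toZFSet, pair (F u) (F i.toZFSet) ∈ R ∧
      F u ≠ F i.toZFSet := by
    intro i hi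
    have hi' : i.toZFSet ∈ ρ.toZFSet := Ordinal.toZFSet_mem_toZFSet_iff.2 hi
    exact hval _ (hZ.trans _ h1 _ hi') (h4 _ hi')
  have h6 : ∀ b, Fld R b → ∃ i < ρ, ¬ (pair (F i.toZFSet) b ∈ R ∧ F i.toZFSet ≠ b) := by
    intro b hb
    by_contra hcon
    push Not at hcon
    have h7 : b ∈ ub R X (im F ρ.toZFSet) := by
      refine (mem_ub hRX).2 ⟨hb, fun a ha => ?_⟩
      obtain ⟨u, hu, rfl⟩ := mem_im.1 ha
      obtain ⟨i, hi, rfl⟩ := Ordinal.mem_toZFSet_iff.1 hu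
      exact hcon i hi
    rw [h3] at h7
    exact ZFSet.notMem_empty _ h7
  obtain ⟨hl1, hl2, hl3, -⟩ := hl
  refine ⟨ρ, ?_, h1, hinj _ h1 h2 h4, gr F ρ.toZFSet,
    hZ.im_mem h1 (hB.pair' (DfnF.proj 0) hFd), ?_, ?_, ?_, ?_⟩
  · rw [Ordinal.isSuccLimit_iff, Order.isSuccPrelimit_iff_succ_ne]
    refine ⟨?_, fun i hi => ?_⟩
    · rintro rfl
      obtain ⟨a, ha⟩ := hne
      obtain ⟨i, hi, -⟩ := h6 a ha
      exact absurd hi (not_lt_bot)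
    · have hiρ : i < ρ := hi ▸ Order.lt_succ i
      obtain ⟨h7, h8⟩ := h5 i hiρ
      obtain ⟨b, h9, h10⟩ := hmax _ h7
      obtain ⟨j, hj, h11⟩ := h6 b ⟨_, Or.inr h9⟩
      rw [← hi, Order.lt_succ_iff] at hj
      rcases hj.lt_or_eq with hj | rfl
      · obtain ⟨h12, h13⟩ := h8 _ (Ordinal.toZFSet_mem_toZFSet_iff.2 hj)
        refine h11 ⟨hl1 _ _ _ h12 h9, ?_⟩
        rintro rfl
        exact h13 (hl3 _ _ h12 h9)
      · exact h11 ⟨h9, h10⟩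
  · intro p hp
    obtain ⟨u, hu, rfl⟩ := mem_gr.1 hp
    obtain ⟨i, hi, rfl⟩ := Ordinal.mem_toZFSet_iff.1 hu
    exact ⟨i, hi, _, (h5 i hi).1, rfl⟩
  · intro i hi
    refine ⟨F i.toZFSet, pair_mem_gr.2 ⟨Ordinal.toZFSet_mem_toZFSet_iff.2 hi, rfl⟩,
      fun x hx => (pair_mem_gr.1 hx).2⟩
  · intro i j x y hij hx hy
    obtain ⟨-, rfl⟩ := pair_mem_gr.1 hx
    obtain ⟨hj, rfl⟩ := pair_mem_gr.1 hy
    exact (h5 j (Ordinal.toZFSet_mem_toZFSet_iff.1 hj)).2 _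
      (Ordinal.toZFSet_mem_toZFSet_iff.2 hij)
  · intro a ha
    obtain ⟨b, hab, -⟩ := hmax a ha
    have hb : Fld R b := ⟨_, Or.inr hab⟩
    obtain ⟨i, hi, h7⟩ := h6 b hb
    refine ⟨i, F i.toZFSet, pair_mem_gr.2 ⟨Ordinal.toZFSet_mem_toZFSet_iff.2 hi, rfl⟩, ?_⟩
    by_cases h8 : F i.toZFSet = b
    · rw [h8]
      exact hab
    · rcases hl2 _ _ (h5 i hi).1 hb h8 with h9 | h9
      · exact absurd ⟨h9, h8⟩ h7
      · exact hl1 _ _ _ hab h9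

end Pool.Agent.helper797_it
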