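import Pool.Agent.helper797_it.PU1

/-! # E4: cofinality omega -/

set_option autoImplicit false
namespace Pool.Agent.helper797_it
open Pool.Agent.W868 Pool.Agent.R587 Pool.Agent.helper797_cs
open ZFSet (pair)

namespace PE4

theorem ap_eq {f a b : ZFSet.{0}} (hf : ∀ q ∈ f, ∃ c d, q = pair c d) (h : pair a b ∈ f)
    (hu : ∀ b', pair a b' ∈ f → b' = b) : ap f a = b := by
  have h1 : im sn (ZFSet.sep (fun q => fs q = a) f) = {b} := by
    ext z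
    rw [mem_im, ZFSet.mem_singleton]
    constructor
    · rintro ⟨p, hp, rfl⟩
      obtain ⟨h2, h3⟩ := ZFSet.mem_sep.1 hp
      obtain ⟨c, d, rfl⟩ := hf p h2
      rw [fs_pair] at h3
      subst h3
      rw [sn_pair]
      exact hu d h2
    · rintro rfl
      exact ⟨pair a z, ZFSet.mem_sep.2 ⟨h, fs_pair _ _⟩, (sn_pair _ _).symm⟩
  rw [ap, h1, ZFSet.sUnion_singleton]

theorem ap_sqSet (g : ℕ → ZFSet.{0}) (n : ℕ) : ap (sqSet g) (nat n) = g n := by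
  refine ap_eq ?_ (ZFSet.mem_range.2 ⟨n, rfl⟩) ?_
  · intro q hq
    obtain ⟨m, rfl⟩ := ZFSet.mem_range.1 hq
    exact ⟨_, _, rfl⟩
  · intro b hb
    obtain ⟨m, hm⟩ := ZFSet.mem_range.1 hb
    obtain ⟨h1, h2⟩ := ZFSet.pair_inj.1 hm
    rw [← h2, nat_injective h1]

theorem sqSet_dfn {W : Set ZFSet.{0}} (hW : IsZF W) {F : ZFSet.{0} → ZFSet.{0}}
    (hF : DfnF W W fun w : Fin 1 → ZFSet.{0} => F (w 0)) : sqSet (fun n => F (nat n)) ∈ W := by
  have h1 : sqSet (fun n => F (nat n)) = im (fun u => pair u (F u)) ZFSet.omega := by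
    ext p
    rw [sqSet, ZFSet.mem_range, mem_im]
    constructor
    · rintro ⟨n, rfl⟩
      exact ⟨nat n, nat_mem_omega n, rfl⟩
    · rintro ⟨u, hu, rfl⟩
      obtain ⟨n, rfl⟩ := mem_omega_iff.1 hu
      exact ⟨n, rfl⟩
  rw [h1]
  exact hW.im_mem hW.infinity (hW.base.pair' (DfnF.proj 0) hF)

/-- Make a sequence increasing. -/
noncomputable def Inc (H : ZFSet.{0}) : ZFSet.{0} → ZFSet.{0} :=
  wfF (fun z => z) ZFSet.mem_wf fun z g => ZFSet.sUnion (im (fun p => sc (sn p)) g) ∪ ap H z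

theorem Inc_eq (H z : ZFSet.{0}) : Inc H z =
    ZFSet.sUnion (im (fun p => sc (sn p)) (gr (Inc H) z)) ∪ ap H z := by
  rw [Inc, wfF_eq]

theorem mem_Inc {H z y : ZFSet.{0}} :
    y ∈ Inc H z ↔ (∃ u ∈ z, y ∈ sc (Inc H u)) ∨ y ∈ ap H z := by
  rw [Inc_eq, ZFSet.mem_union, ZFSet.mem_sUnion]
  refine or_congr ?_ Iff.rfl
  constructor
  · rintro ⟨w, hw, h⟩
    obtain ⟨p, hp, rfl⟩ := mem_im.1 hw
    obtain ⟨u, hu, rfl⟩ := mem_gr.1 hp
    rw [sn_pair] at h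
    exact ⟨u, hu, h⟩
  · rintro ⟨u, hu, h⟩
    exact ⟨_, mem_im.2 ⟨_, mem_gr.2 ⟨u, hu, rfl⟩, rfl⟩, by rwa [sn_pair]⟩

theorem dfn_Inc {W : Set ZFSet.{0}} (hW : IsZF W) {H : ZFSet.{0}} (hH : H ∈ W) :
    DfnF W W fun w : Fin 1 → ZFSet.{0} => Inc H (w 0) := by
  have hB := hW.base
  refine hW.memrec (G := fun z g => ZFSet.sUnion (im (fun p => sc (sn p)) g) ∪ ap H z) ?_
    fun z => Inc_eq H z
  refine hB.union' (hB.sUnion' (hW.im' (h := fun p _ => sc (sn p)) (DfnF.proj 1) ?_))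
    (hW.ap' (DfnF.const hH) (DfnF.proj 0))
  exact hB.insert' (hW.sn' (DfnF.proj 0)) (hW.sn' (DfnF.proj 0))

theorem Inc_zero {H : ZFSet.{0}} : Inc H (nat 0) = ap H (nat 0) := by
  ext y
  rw [mem_Inc]
  constructor
  · rintro (⟨u, hu, -⟩ | h)
    · exact absurd hu (ZFSet.notMem_empty _)
    · exact h
  · exact Or.inr

theorem Inc_succ {H : ZFSet.{0}} {n : ℕ} :
    Inc H (nat (n + 1)) = sc (Inc H (nat n)) ∪ ap H (nat (n + 1)) := by
  ext y
  rw [mem_Inc, ZFSet.mem_union]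
  refine or_congr ?_ Iff.rfl
  constructor
  · rintro ⟨u, hu, hy⟩
    rcases ZFSet.mem_insert_iff.1 hu with rfl | hu
    · exact hy
    · exact ZFSet.mem_insert_of_mem _ (mem_Inc.2 (Or.inl ⟨u, hu, hy⟩))
  · intro hy
    exact ⟨nat n, ZFSet.mem_insert _ _, hy⟩

theorem Inc_lt {H : ZFSet.{0}} {m n : ℕ} (h : m < n) : Inc H (nat m) ∈ Inc H (nat n) := by
  refine mem_Inc.2 (Or.inl ⟨nat m, ?_, ZFSet.mem_insert _ _⟩)
  rw [nat_eq, nat_eq]
  exact Ordinal.toZFSet_mem_toZFSet_iff.2 (by exact_mod_cast h)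

theorem union_mem {o x y : ZFSet.{0}} (ho : o.IsOrdinal) (hx : x ∈ o) (hy : y ∈ o) :
    x ∪ y ∈ o := by
  rcases (ho.mem hx).subset_total (ho.mem hy) with h | h
  · have h1 : x ∪ y = y := by
      ext z
      rw [ZFSet.mem_union]
      exact ⟨fun h2 => h2.elim (fun h3 => h h3) id, Or.inr⟩
    rwa [h1]
  · have h1 : x ∪ y = x := by
      ext z
      rw [ZFSet.mem_union]
      exact ⟨fun h2 => h2.elim id (fun h3 => h h3), Or.inl⟩
    rwa [h1]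

theorem sc_mem {ρ : Ordinal.{0}} (hρ : Order.IsSuccLimit ρ) {x : ZFSet.{0}}
    (hx : x ∈ ρ.toZFSet) : sc x ∈ ρ.toZFSet := by
  obtain ⟨i, hi, rfl⟩ := Ordinal.mem_toZFSet_iff.1 hx
  rw [sc, ← Ordinal.toZFSet_add_one]
  exact Ordinal.toZFSet_mem_toZFSet_iff.2 (hρ.add_one_lt hi)

end PE4

open PE4 in
/-- If `f` is an increasing cofinal sequence of length `ρ` in the linear order `R`, then `R` has
cofinality `ω` in `W` if and only if `ρ` has. -/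
theorem cofW_iff_cf0 {W : Set ZFSet.{0}} (hW : IsZF W) {R f : ZFSet.{0}} {ρ : Ordinal.{0}}
    (hρ : Order.IsSuccLimit ρ) (hρW : ρ.toZFSet ∈ W) (hR : R ∈ W) (hl : IsLin R) (hf : f ∈ W)
    (h1 : ∀ p ∈ f, ∃ i < ρ, ∃ x, Fld R x ∧ p = pair i.toZFSet x)
    (h2 : ∀ i < ρ, ∃! x, pair i.toZFSet x ∈ f)
    (h3 : ∀ (i j : Ordinal.{0}) x y, i < j → pair i.toZFSet x ∈ f → pair j.toZFSet y ∈ f →
      pair x y ∈ R ∧ x ≠ y)
    (h4 : ∀ a, Fld R a → ∃ (i : Ordinal.{0}) (x : ZFSet.{0}), pair i.toZFSet x ∈ f ∧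
      pair a x ∈ R) :
    CofW W R ↔ Cf0 W ρ.toZFSet := by
  have hB := hW.base
  have hord : (ρ.toZFSet).IsOrdinal := ZFSet.isOrdinal_toZFSet ρ
  -- the value of `f` at `i`
  have hfp : ∀ q ∈ f, ∃ c d, q = pair c d := by
    intro q hq
    obtain ⟨i, -, x, -, rfl⟩ := h1 q hq
    exact ⟨_, _, rfl⟩
  have hap : ∀ i < ρ, pair i.toZFSet (ap f i.toZFSet) ∈ f := by
    intro i hi
    obtain ⟨x, hx, hu⟩ := h2 i hi
    rw [ap_eq hfp hx hu]
    exact hx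
  have hap' : ∀ x ∈ ρ.toZFSet, pair x (ap f x) ∈ f := by
    intro x hx
    obtain ⟨i, hi, rfl⟩ := Ordinal.mem_toZFSet_iff.1 hx
    exact hap i hi
  have hlt : ∀ x y, x ∈ y → y ∈ ρ.toZFSet → pair (ap f x) (ap f y) ∈ R ∧ ap f x ≠ ap f y := by
    intro x y hxy hy
    have hx := hord.mem_trans hxy hy
    have e1 := hap' x hx
    have e2 := hap' y hy
    obtain ⟨i, hi, rfl⟩ := Ordinal.mem_toZFSet_iff.1 hx
    obtain ⟨j, hj, rfl⟩ := Ordinal.mem_toZFSet_iff.1 hy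
    exact h3 i j _ _ (Ordinal.toZFSet_mem_toZFSet_iff.1 hxy) e1 e2
  have hbd : ∀ a, Fld R a → ∃ x ∈ ρ.toZFSet, pair a (ap f x) ∈ R := by
    intro a ha
    obtain ⟨i, x, hx, hax⟩ := h4 a ha
    obtain ⟨i', hi', x', -, he⟩ := h1 _ hx
    obtain ⟨he1, -⟩ := ZFSet.pair_inj.1 he
    obtain ⟨x'', hx'', hu⟩ := h2 i' hi'
    refine ⟨i'.toZFSet, Ordinal.toZFSet_mem_toZFSet_iff.2 hi', ?_⟩
    rw [he1] at hx
    rw [ap_eq hfp hx fun b hb => (hu b hb).trans (hu x hx).symm]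
    exact hax
  constructor
  · rintro ⟨-, g, hg, hinc, hcof⟩
    have hfld : ∀ n, Fld R (g n) := fun n => ⟨_, Or.inl (hinc n (n + 1) (by omega)).2⟩
    have h0 : ∀ n, ∃ ζ ∈ W, ζ.IsOrdinal ∧ (ζ ∈ ρ.toZFSet ∧
        pair (ap (sqSet g) (nat n)) (ap f ζ) ∈ R) := by
      intro n
      obtain ⟨x, hx, h⟩ := hbd _ (hfld n)
      refine ⟨x, hW.trans _ hρW _ hx, hord.mem hx, hx, ?_⟩
      rw [ap_sqSet]
      exact h
    refine ⟨fun n => lo W fun ζ => ζ ∈ ρ.toZFSet ∧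
      pair (ap (sqSet g) (nat n)) (ap f ζ) ∈ R, ?_, fun n => (lo_spec (h0 n)).2.2.1, ?_⟩
    · refine sqSet_dfn hW (F := fun u => lo W fun ζ => ζ ∈ ρ.toZFSet ∧
        pair (ap (sqSet g) u) (ap f ζ) ∈ R) ?_
      refine hW.lo' (Q := fun ζ w => ζ ∈ ρ.toZFSet ∧
        pair (ap (sqSet g) (w 0)) (ap f ζ) ∈ R) ?_
      apply Dfn.and
      · exact Dfn.mem (DfnF.proj 0) (DfnF.const hρW)
      · refine Dfn.mem (hB.pair' (hW.ap' (DfnF.const hg) ?_) (hW.ap' (DfnF.const hf)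
          (DfnF.proj 0))) (DfnF.const hR)
        exact DfnF.proj 1
    · intro x hx
      have h5 : Fld R (ap f x) := ⟨_, Or.inl (hlt x (sc x) (ZFSet.mem_insert _ _)
        (sc_mem hρ hx)).1⟩
      obtain ⟨n, hn⟩ := hcof _ h5
      refine ⟨n + 1, ?_⟩
      obtain ⟨-, h6, h7, h8⟩ := lo_spec (h0 (n + 1))
      beta_reduce
      set y := lo W fun ζ => ζ ∈ ρ.toZFSet ∧
        pair (ap (sqSet g) (nat (n + 1))) (ap f ζ) ∈ R with hy
      rw [ap_sqSet] at h8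
      obtain ⟨h9, h10⟩ := hinc n (n + 1) (by omega)
      rcases (hord.mem hx).mem_or_subset h6 with h11 | h11
      · exact h11
      · exfalso
        have h12 : pair (g (n + 1)) (ap f x) ∈ R := by
          rcases (ZFSet.IsOrdinal.subset_iff_eq_or_mem h6 (hord.mem hx)).1 h11 with h12 | h12
          · rw [← h12]
            exact h8
          · exact hl.1 _ _ _ h8 (hlt _ _ h12 hx).1
        have h13 := hl.1 _ _ _ h12 hn
        exact h9 (hl.2.2.1 _ _ h10 h13)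
  · rintro ⟨g, hg, hmem, hcof⟩
    have hs : ∀ n, Inc (sqSet g) (nat n) ∈ ρ.toZFSet := by
      intro n
      induction n with
      | zero =>
        rw [Inc_zero, ap_sqSet]
        exact hmem 0
      | succ n ih =>
        rw [Inc_succ, ap_sqSet]
        exact union_mem hord (sc_mem hρ ih) (hmem _)
    refine ⟨hl, fun n => ap f (Inc (sqSet g) (nat n)), ?_, ?_, ?_⟩
    · exact sqSet_dfn hW (F := fun u => ap f (Inc (sqSet g) u))
        (hW.ap' (DfnF.const hf) (dfn_Inc hW hg))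
    · intro m n hmn
      have h5 := hlt _ _ (Inc_lt hmn) (hs n)
      exact ⟨h5.2, h5.1⟩
    · intro a ha
      obtain ⟨x, hx, h5⟩ := hbd a ha
      obtain ⟨n, hn⟩ := hcof x hx
      have h6 : x ∈ Inc (sqSet g) (nat n) := by
        refine mem_Inc.2 (Or.inr ?_)
        rw [ap_sqSet]
        exact hn
      exact ⟨n, hl.1 _ _ _ h5 (hlt _ _ h6 (hs n)).1⟩

end Pool.Agent.helper797_it
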