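import Pool.Agent.helper797_it.PE2
import Pool.Agent.helper797_it.PE3
import Pool.Agent.helper797_it.PE4
import Pool.Agent.helper797_it.PA3

/-! # E5: `C*` is `L[S]` -/

set_option autoImplicit false
namespace Pool.Agent.helper797_it
open Pool.Agent.W868 Pool.Agent.R587 Pool.Agent.helper797_cs
open ZFSet (pair)

namespace PE5

/-- Elements of an ordinal. -/
theorem mem_ord {ρ : Ordinal.{0}} {x : ZFSet.{0}} :
    x ∈ ρ.toZFSet ↔ ∃ i < ρ, i.toZFSet = x := by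
  rw [Ordinal.mem_toZFSet_iff]

theorem mem_ord' {i ρ : Ordinal.{0}} : i.toZFSet ∈ ρ.toZFSet ↔ i < ρ := by
  rw [Ordinal.toZFSet_mem_toZFSet_iff]

/-- `f` is an increasing cofinal sequence of length `r` in `R`. -/
def Cd (C : Set ZFSet.{0}) (R r f : ZFSet.{0}) : Prop :=
  (∀ p ∈ f, p = pair (fs p) (sn p) ∧ fs p ∈ r ∧ Fld R (sn p)) ∧
  (∀ i ∈ r, ∃ p ∈ f, fs p = i) ∧
  (∀ p ∈ f, ∀ q ∈ f, fs p = fs q → p = q) ∧
  (∀ p ∈ f, ∀ q ∈ f, fs p ∈ fs q → pair (sn p) (sn q) ∈ R ∧ sn p ≠ sn q) ∧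
  ∀ a ∈ C, Fld R a → ∃ p ∈ f, pair a (sn p) ∈ R

/-- The quantifier computed from the set `A`. -/
def KA (C : Set ZFSet.{0}) (A R : ZFSet.{0}) : Prop :=
  IsLin R ∧ ∃ r ∈ A, ∃ f ∈ C, Cd C R r f

theorem fld_mem {C : Set ZFSet.{0}} (hC : IsZF C) {R a : ZFSet.{0}} (hR : R ∈ C) (h : Fld R a) :
    a ∈ C := by
  obtain ⟨b, h | h⟩ := h
  · exact (hC.of_pair_mem (hC.trans _ hR _ h)).1
  · exact (hC.of_pair_mem (hC.trans _ hR _ h)).2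

theorem dfn_Fld {C : Set ZFSet.{0}} (hC : IsZF C) :
    Dfn C C fun w : Fin 2 → ZFSet.{0} => Fld (w 0) (w 1) := by
  have h1 : Dfn C C fun w : Fin 2 → ZFSet.{0} =>
      ∃ b ∈ C, pair (w 1) b ∈ w 0 ∨ pair b (w 1) ∈ w 0 := by
    refine Dfn.ex (Q := fun b w => pair (w 1) b ∈ w 0 ∨ pair b (w 1) ∈ w 0) ?_
    exact (Dfn.mem (hC.base.pair' (DfnF.proj 2) (DfnF.proj 0)) (DfnF.proj 1)).or
      (Dfn.mem (hC.base.pair' (DfnF.proj 0) (DfnF.proj 2)) (DfnF.proj 1))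
  refine h1.congr fun v hv => ?_
  constructor
  · rintro ⟨b, -, hb⟩
    exact ⟨b, hb⟩
  · rintro ⟨b, hb⟩
    refine ⟨b, ?_, hb⟩
    rcases hb with hb | hb
    · exact (hC.of_pair_mem (hC.trans _ (hv 0) _ hb)).2
    · exact (hC.of_pair_mem (hC.trans _ (hv 0) _ hb)).1

theorem dfn_Cd {C : Set ZFSet.{0}} (hC : IsZF C) :
    Dfn C C fun w : Fin 3 → ZFSet.{0} => Cd C (w 0) (w 1) (w 2) := by
  have hB := hC.base
  refine Dfn.and ?_ (Dfn.and ?_ (Dfn.and ?_ (Dfn.and ?_ ?_)))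
  · refine hB.ball (Q := fun p w => p = pair (fs p) (sn p) ∧ fs p ∈ w 1 ∧ Fld (w 0) (sn p))
      (DfnF.proj 2) ?_
    refine (Dfn.eq (DfnF.proj 0) (hB.pair' (hC.fs' (DfnF.proj 0)) (hC.sn' (DfnF.proj 0)))).and
      ((Dfn.mem (hC.fs' (DfnF.proj 0)) (DfnF.proj 2)).and ?_)
    exact Dfn.comp2 (Q := Fld) (dfn_Fld hC) (DfnF.proj 1) (hC.sn' (DfnF.proj 0))
  · refine hB.ball (Q := fun i w => ∃ p ∈ w 2, fs p = i) (DfnF.proj 1) ?_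
    refine hB.bex (Q := fun p w => fs p = w 0) (DfnF.proj 3) ?_
    exact Dfn.eq (hC.fs' (DfnF.proj 0)) (DfnF.proj 1)
  · refine hB.ball (Q := fun p w => ∀ q ∈ w 2, fs p = fs q → p = q) (DfnF.proj 2) ?_
    refine hB.ball (Q := fun q w => fs (w 0) = fs q → w 0 = q) (DfnF.proj 3) ?_
    exact (Dfn.eq (hC.fs' (DfnF.proj 1)) (hC.fs' (DfnF.proj 0))).imp
      (Dfn.eq (DfnF.proj 1) (DfnF.proj 0))
  · refine hB.ball (Q := fun p w => ∀ q ∈ w 2, fs p ∈ fs q → pair (sn p) (sn q) ∈ w 0 ∧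
      sn p ≠ sn q) (DfnF.proj 2) ?_
    refine hB.ball (Q := fun q w => fs (w 0) ∈ fs q → pair (sn (w 0)) (sn q) ∈ w 1 ∧
      sn (w 0) ≠ sn q) (DfnF.proj 3) ?_
    exact (Dfn.mem (hC.fs' (DfnF.proj 1)) (hC.fs' (DfnF.proj 0))).imp
      ((Dfn.mem (hB.pair' (hC.sn' (DfnF.proj 1)) (hC.sn' (DfnF.proj 0))) (DfnF.proj 2)).and
        (Dfn.eq (hC.sn' (DfnF.proj 1)) (hC.sn' (DfnF.proj 0))).not)
  · refine Dfn.all (Q := fun a w => Fld (w 0) a → ∃ p ∈ w 2, pair a (sn p) ∈ w 0) ?_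
    refine (Dfn.comp2 (Q := Fld) (dfn_Fld hC) (DfnF.proj 1) (DfnF.proj 0)).imp ?_
    refine hB.bex (Q := fun p w => pair (w 0) (sn p) ∈ w 1) (DfnF.proj 3) ?_
    exact Dfn.mem (hB.pair' (DfnF.proj 1) (hC.sn' (DfnF.proj 0))) (DfnF.proj 2)

theorem dfn_KA {C : Set ZFSet.{0}} (hC : IsZF C) {A : ZFSet.{0}} (hA : A ∈ C) :
    Dfn C C fun w : Fin 1 → ZFSet.{0} => KA C A (w 0) := by
  have hB := hC.base
  refine (dfn_isLin hC).and ?_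
  refine hB.bex (Q := fun r w => ∃ f ∈ C, Cd C (w 0) r f) (DfnF.const hA) ?_
  refine Dfn.ex (Q := fun f w => Cd C (w 1) (w 0) f) ?_
  exact Dfn.comp3 (Q := fun a b c => Cd C a b c) (dfn_Cd hC) (DfnF.proj 2) (DfnF.proj 1)
    (DfnF.proj 0)

/-- From a cofinal sequence to `Cd`. -/
theorem cd_of {C : Set ZFSet.{0}} {R f : ZFSet.{0}} {ρ : Ordinal.{0}}
    (h1 : ∀ p ∈ f, ∃ i < ρ, ∃ x, Fld R x ∧ p = pair i.toZFSet x)
    (h2 : ∀ i < ρ, ∃! x, pair i.toZFSet x ∈ f)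
    (h3 : ∀ (i j : Ordinal.{0}) x y, i < j → pair i.toZFSet x ∈ f → pair j.toZFSet y ∈ f →
      pair x y ∈ R ∧ x ≠ y)
    (h4 : ∀ a, Fld R a → ∃ (i : Ordinal.{0}) (x : ZFSet.{0}), pair i.toZFSet x ∈ f ∧
      pair a x ∈ R) : Cd C R ρ.toZFSet f := by
  refine ⟨?_, ?_, ?_, ?_, ?_⟩
  · intro p hp
    obtain ⟨i, hi, x, hx, rfl⟩ := h1 p hp
    simp only [fs_pair, sn_pair]
    exact ⟨trivial, mem_ord'.2 hi, hx⟩
  · intro i hi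
    obtain ⟨j, hj, rfl⟩ := mem_ord.1 hi
    obtain ⟨x, hx, -⟩ := h2 j hj
    exact ⟨_, hx, fs_pair _ _⟩
  · intro p hp q hq hpq
    obtain ⟨i, hi, x, hx, rfl⟩ := h1 p hp
    obtain ⟨j, hj, y, hy, rfl⟩ := h1 q hq
    simp only [fs_pair] at hpq
    rw [← hpq] at hq ⊢
    rw [(h2 i hi).unique hp hq]
  · intro p hp q hq hpq
    obtain ⟨i, hi, x, hx, rfl⟩ := h1 p hp
    obtain ⟨j, hj, y, hy, rfl⟩ := h1 q hq
    simp only [fs_pair, sn_pair] at hpq ⊢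
    exact h3 i j x y (mem_ord'.1 hpq) hp hq
  · intro a _ ha
    obtain ⟨i, x, hx, hax⟩ := h4 a ha
    exact ⟨_, hx, by rw [sn_pair]; exact hax⟩

/-- From `Cd` to a cofinal sequence. -/
theorem of_cd {C : Set ZFSet.{0}} (hC : IsZF C) {R f : ZFSet.{0}} (hR : R ∈ C) {ρ : Ordinal.{0}}
    (h : Cd C R ρ.toZFSet f) :
    (∀ p ∈ f, ∃ i < ρ, ∃ x, Fld R x ∧ p = pair i.toZFSet x) ∧
    (∀ i < ρ, ∃! x, pair i.toZFSet x ∈ f) ∧
    (∀ (i j : Ordinal.{0}) x y, i < j → pair i.toZFSet x ∈ f → pair j.toZFSet y ∈ f →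
      pair x y ∈ R ∧ x ≠ y) ∧
    (∀ a, Fld R a → ∃ (i : Ordinal.{0}) (x : ZFSet.{0}), pair i.toZFSet x ∈ f ∧
      pair a x ∈ R) := by
  obtain ⟨h1, h2, h3, h4, h5⟩ := h
  refine ⟨?_, ?_, ?_, ?_⟩
  · intro p hp
    obtain ⟨e, hi, hx⟩ := h1 p hp
    obtain ⟨i, hi', hi''⟩ := mem_ord.1 hi
    exact ⟨i, hi', sn p, hx, by rw [hi'']; exact e⟩
  · intro i hi
    obtain ⟨p, hp, hpi⟩ := h2 _ (mem_ord'.2 hi)
    obtain ⟨e, -, -⟩ := h1 p hp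
    refine ⟨sn p, ?_, ?_⟩
    · show pair i.toZFSet (sn p) ∈ f
      rw [← hpi, ← e]; exact hp
    · intro y hy
      have h6 := h3 _ hy _ hp (by rw [fs_pair, hpi])
      rw [← h6, sn_pair]
  · intro i j x y hij hx hy
    have h6 := h4 _ hx _ hy (by rw [fs_pair, fs_pair]; exact mem_ord'.2 hij)
    rwa [sn_pair, sn_pair] at h6
  · intro a ha
    obtain ⟨p, hp, hap⟩ := h5 a (fld_mem hC hR ha) ha
    obtain ⟨e, hi, -⟩ := h1 p hp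
    obtain ⟨i, -, hi'⟩ := mem_ord.1 hi
    exact ⟨i, sn p, by rw [hi', ← e]; exact hp, hap⟩

/-- An ordinal of cofinality `ω` is a limit. -/
theorem limit_of_cf0 {W : Set ZFSet.{0}} {ρ : Ordinal.{0}} (h : Cf0 W ρ.toZFSet) :
    Order.IsSuccLimit ρ := by
  obtain ⟨g, -, h1, h2⟩ := h
  rw [Ordinal.isSuccLimit_iff, Order.isSuccPrelimit_iff_succ_lt]
  constructor
  · rintro rfl
    obtain ⟨i, hi, -⟩ := mem_ord.1 (h1 0)
    exact absurd hi (by simp)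
  · intro i hi
    obtain ⟨n, hn⟩ := h2 _ (mem_ord'.2 hi)
    obtain ⟨j, hj, hj'⟩ := mem_ord.1 (h1 n)
    rw [← hj'] at hn
    exact lt_of_le_of_lt (Order.succ_le_of_lt (mem_ord'.1 hn)) hj

/-- An order of cofinality `ω` has no largest element. -/
theorem cofW_max {W : Set ZFSet.{0}} {R : ZFSet.{0}} (h : CofW W R) :
    (∃ a, Fld R a) ∧ ∀ a, Fld R a → ∃ b, pair a b ∈ R ∧ a ≠ b := by
  obtain ⟨hl, g, -, h1, h2⟩ := h
  refine ⟨⟨g 0, g 1, Or.inl (h1 0 1 (by norm_num)).2⟩, ?_⟩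
  intro a ha
  obtain ⟨n, hn⟩ := h2 a ha
  obtain ⟨h3, h4⟩ := h1 n (n + 1) (by omega)
  refine ⟨g (n + 1), hl.1 _ _ _ hn h4, ?_⟩
  rintro rfl
  exact h3 (hl.2.2.1 _ _ h4 hn)

theorem lp_mono {K : ZFSet.{0} → Prop} {α β : Ordinal.{0}} (h : α ≤ β) : Lp K α ⊆ Lp K β := by
  intro x hx
  obtain ⟨γ, hγ, hx⟩ := mem_Lp.1 hx
  exact mem_Lp.2 ⟨γ, lt_of_lt_of_le hγ h, hx⟩

/-- The levels are in the model. -/
theorem lp_mem {M : Set ZFSet.{0}} (hM : IsZF M) {K : ZFSet.{0} → Prop}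
    (hK : Dfn M M fun w : Fin 1 → ZFSet.{0} => K (w 0)) {α : Ordinal.{0}} (hα : α.toZFSet ∈ M) :
    Lp K α ∈ M := by
  rw [← LpS_eq]
  exact (dfn_LpS1 hM hK).1 (fun _ => α.toZFSet) fun _ => hα

end PE5

/-- `L'_α` is in each model `C ⊆ W` of ZFC that contains all sets `SW W δ`. -/
theorem lp_mem_of_sw {W C : Set ZFSet.{0}} (hW : IsZFC W) (hC : IsZFC C) (hCW : C ⊆ W)
    (hord : ∀ α : Ordinal.{0}, α.toZFSet ∈ W → α.toZFSet ∈ C)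
    (hS : ∀ ξ : Ordinal.{0}, ξ.toZFSet ∈ W → SW W ξ ∈ C) {α : Ordinal.{0}} (hα : α.toZFSet ∈ W) :
    Lp (CofW W) α ∈ C := by
  have hWZ := hW.toIsZF
  have hCZ := hC.toIsZF
  have hLW : ∀ β : Ordinal.{0}, β.toZFSet ∈ W → Lp (CofW W) β ∈ W :=
    fun β hβ => PE5.lp_mem hWZ (dfn_CofW hWZ) hβ
  -- a large ordinal
  obtain ⟨D, hD, hDo, hDn⟩ := hartogs hWZ (hLW α hα)
  obtain ⟨δ, rfl⟩ : ∃ δ : Ordinal.{0}, D = δ.toZFSet := ⟨D.rank, hDo.toZFSet_rank_eq.symm⟩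
  have hδ : ∀ ρ : Ordinal.{0}, ρ.toZFSet ∈ W → Inj W ρ.toZFSet (Lp (CofW W) α) → ρ < δ := by
    intro ρ hρ hi
    by_contra hlt
    push Not at hlt
    refine hDn (inj_mono hWZ hD hρ (hLW α hα) ?_ hi)
    intro x hx
    obtain ⟨i, hi', rfl⟩ := PE5.mem_ord.1 hx
    exact PE5.mem_ord'.2 (lt_of_lt_of_le hi' hlt)
  set A := SW W δ with hA
  have hAC : A ∈ C := hS δ hD
  have hKd := PE5.dfn_KA hCZ hAC
  -- the two quantifiers agree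
  have hkey : ∀ β ≤ α, β.toZFSet ∈ W → Lp (CofW W) β ∈ C → ∀ R ∈ C,
      R ⊆ ZFSet.prod (Lp (CofW W) β) (Lp (CofW W) β) → (PE5.KA C A R ↔ CofW W R) := by
    intro β hβ hβW hβC R hR hRX
    constructor
    · rintro ⟨hl, r, hr, f, hf, hcd⟩
      rw [hA, SW, SWs, ZFSet.mem_sep] at hr
      obtain ⟨ρ, hρ, rfl⟩ := PE5.mem_ord.1 hr.1
      obtain ⟨h1, h2, h3, h4⟩ := PE5.of_cd hCZ hR hcd
      exact (cofW_iff_cf0 hWZ (PE5.limit_of_cf0 hr.2) (hWZ.trans _ hD _ hr.1) (hCW hR) hl (hCW hf)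
        h1 h2 h3 h4).2 hr.2
    · intro hc
      obtain ⟨hne, hmax⟩ := PE5.cofW_max hc
      obtain ⟨ρ, hρl, hρC, hi, f, hf, h1, h2, h3, h4⟩ :=
        exists_cof_seq hC hR hβC hRX hc.1 hne hmax
      have hρW := hCW hρC
      have hcf : Cf0 W ρ.toZFSet :=
        (cofW_iff_cf0 hWZ hρl hρW (hCW hR) hc.1 (hCW hf) h1 h2 h3 h4).1 hc
      have hiW : Inj W ρ.toZFSet (Lp (CofW W) β) := by
        obtain ⟨g, hg, hg'⟩ := hi
        exact ⟨g, hCW hg, hg'⟩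
      have hlt : ρ < δ := hδ ρ hρW (Inj.trans hWZ hρW (hLW α hα) hiW
        (Inj.of_subset hWZ (hLW β hβW) (hLW α hα) (PE5.lp_mono hβ)))
      refine ⟨hc.1, ρ.toZFSet, ?_, f, hf, PE5.cd_of h1 h2 h3 h4⟩
      rw [hA, SW, SWs, ZFSet.mem_sep]
      exact ⟨PE5.mem_ord'.2 hlt, hcf⟩
  -- the hierarchies agree
  have hβW : ∀ β ≤ α, β.toZFSet ∈ W := by
    intro β hβ
    rcases hβ.lt_or_eq with h | h
    · exact hWZ.trans _ hα _ (PE5.mem_ord'.2 h)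
    · rw [h]; exact hα
  have hmain : ∀ β : Ordinal.{0}, β ≤ α → Lp (PE5.KA C A) β = Lp (CofW W) β := by
    intro β
    induction β using WellFoundedLT.induction with
    | ind β ih =>
      intro hβ
      refine Lp_congr hCZ hKd (hord β (hβW β hβ)) ?_ β le_rfl
      intro γ hγ R hR hRX
      have hγα : γ ≤ α := hγ.le.trans hβ
      have e := ih γ hγ hγα
      have hγC : Lp (PE5.KA C A) γ ∈ C := PE5.lp_mem hCZ hKd (hord γ (hβW γ hγα))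
      rw [e] at hRX hγC
      exact hkey γ hγα (hβW γ hγα) hγC R hR hRX
  rw [← hmain α le_rfl]
  exact PE5.lp_mem hCZ hKd (hord α hα)

theorem kc_eq {W : Set ZFSet.{0}} (hW : IsZFC W) : Cst W = KC W := by
  have hWZ := hW.toIsZF
  apply Set.Subset.antisymm
  · rintro x ⟨α, hα, hx⟩
    have h := lp_mem_of_sw hW (isZFC_KC hWZ) (kc_sub hWZ) (fun α hα => (ord_KC hWZ).2 hα)
      (fun ξ hξ => sw_mem_KC hWZ hξ) hα
    exact (isZFC_KC hWZ).toIsZF.trans _ h _ hx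
  · exact kc_sub_cst hWZ

theorem isZFC_Cst {W : Set ZFSet.{0}} (hW : IsZFC W) : IsZFC (Cst W) := by
  rw [kc_eq hW]
  exact isZFC_KC hW.toIsZF

/-- If the same ordinals have cofinality `ω` in `W` and `W'`, then `C*` is the same. -/
theorem cst_congr {W W' : Set ZFSet.{0}} (hW : IsZFC W) (hW' : IsZFC W')
    (hord : ∀ α : Ordinal.{0}, α.toZFSet ∈ W ↔ α.toZFSet ∈ W')
    (h : ∀ α : Ordinal.{0}, α.toZFSet ∈ W → (Cf0 W α.toZFSet ↔ Cf0 W' α.toZFSet)) :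
    Cst W = Cst W' := by
  have hS : ∀ ξ : Ordinal.{0}, ξ.toZFSet ∈ W → SW W ξ = SW W' ξ := by
    intro ξ hξ
    ext a
    rw [SW, SWs, SW, SWs, ZFSet.mem_sep, ZFSet.mem_sep]
    constructor
    · rintro ⟨h1, h2⟩
      obtain ⟨i, hi, rfl⟩ := PE5.mem_ord.1 h1
      exact ⟨h1, (h i (hW.toIsZF.trans _ hξ _ h1)).1 h2⟩
    · rintro ⟨h1, h2⟩
      obtain ⟨i, hi, rfl⟩ := PE5.mem_ord.1 h1
      exact ⟨h1, (h i (hW.toIsZF.trans _ hξ _ h1)).2 h2⟩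
  rw [kc_eq hW, kc_eq hW']
  ext x
  constructor
  · rintro ⟨ξ, hξ, hx⟩
    rw [hS ξ hξ] at hx
    exact ⟨ξ, (hord ξ).1 hξ, hx⟩
  · rintro ⟨ξ, hξ, hx⟩
    have hξ' := (hord ξ).2 hξ
    rw [← hS ξ hξ'] at hx
    exact ⟨ξ, hξ', hx⟩

end Pool.Agent.helper797_it
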