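import Pool.Agent.helper797_it.PU0

/-! # F1: unions, closed sets -/

set_option autoImplicit false
set_option linter.unreachableTactic false
set_option linter.unusedTactic false
namespace Pool.Agent.helper797_it
open Pool.Agent.W868 Pool.Agent.R587 Pool.Agent.helper797_cs
open ZFSet (pair)

namespace PF1

theorem vh_mem {M : Set ZFSet.{0}} (hM : IsZF M) {z : ZFSet.{0}} (hz : z ∈ M) : Vh M z ∈ M :=
  (dfn_Vh hM (DfnF.const hz)).1 Fin.elim0 fun i => i.elim0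

theorem exists_vh {M : Set ZFSet.{0}} (hM : IsZF M) {y : ZFSet.{0}} (hy : y ∈ M) :
    ∃ ξ ∈ M, ξ.IsOrdinal ∧ y ∈ Vh M ξ := by
  obtain ⟨h1, h2⟩ := rank_mem hM hy
  refine ⟨_, ?_, ZFSet.isOrdinal_toZFSet _, h2⟩
  rw [Ordinal.toZFSet_succ]
  exact hM.insert_mem h1 h1

/-- Choice functions for definable relations. -/
theorem choose {M : Set ZFSet.{0}} (hM : IsZFC M) {x : ZFSet.{0}} (hx : x ∈ M)
    {Q : ZFSet.{0} → ZFSet.{0} → Prop}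
    (hQ : Dfn M M fun w : Fin 2 → ZFSet.{0} => Q (w 0) (w 1))
    (h : ∀ z ∈ x, ∃ w ∈ M, Q w z) : ∃ f ∈ M, (∀ p ∈ f, ∃ z ∈ x, p = pair z (ap f z)) ∧
      (∀ z ∈ x, pair z (ap f z) ∈ f) ∧ ∀ z ∈ x, Q (ap f z) z := by
  have hZ := hM.toIsZF
  have hB := hZ.base
  obtain ⟨α, hα, hα1⟩ := collect hZ hQ hx
  obtain ⟨Y, hY, h1⟩ : ∃ Y ∈ M, ∀ z ∈ x, ∃ w ∈ Y, Q w z :=
    ⟨Vh M α.toZFSet, vh_mem hZ hα, fun z hz => hα1 z hz (h z hz)⟩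
  set S : ZFSet.{0} → ZFSet.{0} := fun z => ZFSet.sep (fun p => fs p = z ∧ Q (sn p) z)
    (ZFSet.prod x Y) with hS
  have hSd : DfnF M M fun w : Fin 1 → ZFSet.{0} => S (w 0) := by
    refine hZ.sep' (Q := fun p w => fs p = w 0 ∧ Q (sn p) (w 0)) (DfnF.const
      (hZ.prod_mem hx hY)) ?_
    apply Dfn.and
    · exact Dfn.eq (hZ.fs' (DfnF.proj 0)) (DfnF.proj 1)
    · exact Dfn.comp2 (Q := Q) hQ (hZ.sn' (DfnF.proj 0)) (DfnF.proj 1)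
  have hmem : ∀ z p, p ∈ S z ↔ ∃ w ∈ Y, z ∈ x ∧ p = pair z w ∧ Q w z := by
    intro z p
    simp only [hS, ZFSet.mem_sep, ZFSet.mem_prod]
    constructor
    · rintro ⟨⟨a, ha, b, hb, rfl⟩, h2, h3⟩
      rw [fs_pair] at h2
      rw [sn_pair] at h3
      subst h2
      exact ⟨b, hb, ha, rfl, h3⟩
    · rintro ⟨w, hw, hz, rfl, h2⟩
      refine ⟨⟨z, hz, w, hw, rfl⟩, fs_pair _ _, ?_⟩
      rwa [sn_pair]
  have hfam : im S x ∈ M := hZ.im_mem hx hSd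
  obtain ⟨c, hc, hc1⟩ := hM.choice _ hfam (by
    intro y hy
    obtain ⟨z, hz, rfl⟩ := mem_im.1 hy
    obtain ⟨w, hw, h2⟩ := h1 z hz
    exact ⟨pair z w, (hmem _ _).2 ⟨w, hw, hz, rfl, h2⟩⟩) (by
    intro y hy y' hy' p hp hp'
    obtain ⟨z, hz, rfl⟩ := mem_im.1 hy
    obtain ⟨z', hz', rfl⟩ := mem_im.1 hy'
    obtain ⟨w, -, -, h2, -⟩ := (hmem _ _).1 hp
    obtain ⟨w', -, -, h3, -⟩ := (hmem _ _).1 hp'
    rw [h2] at h3
    rw [(ZFSet.pair_inj.1 h3).1])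
  set f := ZFSet.sep (fun p => p ∈ c) (ZFSet.sUnion (im S x)) with hf
  have hfM : f ∈ M := by
    refine hZ.sep_mem (Q := fun p => p ∈ c) ?_ (hZ.union _ hfam)
    exact Dfn.mem (DfnF.proj 0) (DfnF.const hc)
  have hval : ∀ z ∈ x, ∃ w, pair z w ∈ f ∧ Q w z ∧ ∀ w', pair z w' ∈ f → w' = w := by
    intro z hz
    obtain ⟨p, ⟨hp1, hp2⟩, hp3⟩ := hc1 (S z) (mem_im.2 ⟨z, hz, rfl⟩)
    obtain ⟨w, hw, -, rfl, h2⟩ := (hmem _ _).1 hp1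
    refine ⟨w, ZFSet.mem_sep.2 ⟨ZFSet.mem_sUnion.2 ⟨_, mem_im.2 ⟨z, hz, rfl⟩, hp1⟩, hp2⟩, h2,
      fun w' hw' => ?_⟩
    obtain ⟨h3, h4⟩ := ZFSet.mem_sep.1 hw'
    obtain ⟨y, hy, h5⟩ := ZFSet.mem_sUnion.1 h3
    obtain ⟨z', hz', rfl⟩ := mem_im.1 hy
    have h6 := (hmem _ _).1 h5
    obtain ⟨w'', -, -, h7, -⟩ := h6
    obtain ⟨rfl, rfl⟩ := ZFSet.pair_inj.1 h7
    exact (ZFSet.pair_inj.1 (hp3 _ ⟨h5, h4⟩)).2
  have hfun : ZFSet.IsFunc x Y f := by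
    refine ⟨fun p hp => ?_, fun z hz => ?_⟩
    · obtain ⟨h3, -⟩ := ZFSet.mem_sep.1 hp
      obtain ⟨y, hy, h5⟩ := ZFSet.mem_sUnion.1 h3
      obtain ⟨z', hz', rfl⟩ := mem_im.1 hy
      obtain ⟨w, hw, hz, rfl, -⟩ := (hmem _ _).1 h5
      exact ZFSet.mem_prod.2 ⟨_, hz, _, hw, rfl⟩
    · obtain ⟨w, h2, -, h3⟩ := hval z hz
      exact ⟨w, h2, h3⟩
  have hap : ∀ z ∈ x, pair z (ap f z) ∈ f ∧ Q (ap f z) z := by
    intro z hz
    obtain ⟨w, h2, h3, -⟩ := hval z hz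
    rw [ap_func hfun h2]
    exact ⟨h2, h3⟩
  refine ⟨f, hfM, fun p hp => ?_, fun z hz => (hap z hz).1, fun z hz => (hap z hz).2⟩
  obtain ⟨z, hz, w, -, rfl⟩ := ZFSet.mem_prod.1 (hfun.1 hp)
  exact ⟨z, hz, by rw [ap_func hfun hp]⟩

end PF1

/-- In `W`, unions of at most `κ` sets of size at most `κ`. -/
theorem inj_union {W : Set ZFSet.{0}} (hW : IsZFC W) {κ A : ZFSet.{0}} (hκ : κ ∈ W)
    (hκo : κ.IsOrdinal) (hω : ZFSet.omega ⊆ κ) (hA : A ∈ W) (h1 : Inj W A κ)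
    (h2 : ∀ a ∈ A, Inj W a κ) : Inj W (ZFSet.sUnion A) κ := by
  have hZ := hW.toIsZF
  have hB := hZ.base
  obtain ⟨e, he, hei⟩ := h1
  obtain ⟨F, hF, -, -, hFi⟩ := PF1.choose hW hA (Q := fun w z => IsInj z κ w)
    (hB.isInj' (DfnF.proj 1) (DfnF.const hκ) (DfnF.proj 0)) (by
      intro z hz
      obtain ⟨f, hf, hfi⟩ := h2 z hz
      exact ⟨f, hf, hfi⟩)
  refine Inj.trans hZ (hZ.union _ hA) hκ ?_ (sq_inj hZ hκ hκo hω)
  refine Inj.of_rel hZ (hZ.union _ hA) (hZ.prod_mem hκ hκ)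
    (R := fun x q => ∃ a ∈ A, x ∈ a ∧ pair a (fs q) ∈ e ∧ pair x (sn q) ∈ ap F a ∧
      ∀ a' ∈ A, x ∈ a' → ∀ i ∈ fs q, ¬ pair a' i ∈ e) ?_ ?_ ?_ ?_
  · apply hB.bex (DfnF.const hA)
    apply Dfn.and
    · exact Dfn.mem (DfnF.proj 1) (DfnF.proj 0)
    apply Dfn.and
    · exact Dfn.mem (hB.pair' (DfnF.proj 0) (hZ.fs' (DfnF.proj 2))) (DfnF.const he)
    apply Dfn.and
    · exact Dfn.mem (hB.pair' (DfnF.proj 1) (hZ.sn' (DfnF.proj 2)))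
        (hZ.ap' (DfnF.const hF) (DfnF.proj 0))
    apply hB.ball (DfnF.const hA)
    apply Dfn.imp
    · exact Dfn.mem (DfnF.proj 2) (DfnF.proj 0)
    apply hB.ball (hZ.fs' (DfnF.proj 3))
    apply Dfn.not
    exact Dfn.mem (hB.pair' (DfnF.proj 1) (DfnF.proj 0)) (DfnF.const he)
  · intro x hx
    obtain ⟨a0, ha0, hxa0⟩ := ZFSet.mem_sUnion.1 hx
    obtain ⟨i0, -, hi0⟩ := fun_exists hei.1 ha0
    have hne : {i : ZFSet.{0} | ∃ a ∈ A, x ∈ a ∧ pair a i ∈ e}.Nonempty := ⟨i0, a0, ha0, hxa0, hi0⟩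
    obtain ⟨a, ha, hxa, hae⟩ := ZFSet.mem_wf.min_mem _ hne
    obtain ⟨j, hj, hj'⟩ := fun_exists (hFi a ha).1 hxa
    refine ⟨pair (ZFSet.mem_wf.min _ hne) j, ZFSet.pair_mem_prod.2
      ⟨(ZFSet.pair_mem_prod.1 (hei.1.1 hae)).2, hj⟩, a, ha, hxa, ?_, ?_, ?_⟩
    · rw [fs_pair]
      exact hae
    · rw [sn_pair]
      exact hj'
    · intro a' ha' hxa' i hi hi'
      rw [fs_pair] at hi
      exact ZFSet.mem_wf.not_lt_min {i : ZFSet.{0} | ∃ a ∈ A, x ∈ a ∧ pair a i ∈ e}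
        ⟨a', ha', hxa', hi'⟩ hi
  · rintro x - q hq q' hq' ⟨a, ha, hxa, h3, h4, h5⟩ ⟨a', ha', hxa', h6, h7, h8⟩
    obtain ⟨i, hi, j, hj, rfl⟩ := ZFSet.mem_prod.1 hq
    obtain ⟨i', hi', j', hj', rfl⟩ := ZFSet.mem_prod.1 hq'
    rw [fs_pair] at h3 h5 h6 h8
    rw [sn_pair] at h4 h7
    have h9 : i = i' := by
      rcases (hκo.mem hi).mem_trichotomous (hκo.mem hi') with h9 | h9 | h9
      · exact absurd h3 (h8 a ha hxa i h9)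
      · exact h9
      · exact absurd h6 (h5 a' ha' hxa' i' h9)
    subst h9
    have h10 : a = a' := hei.2 _ _ _ h3 h6
    subst h10
    rw [fun_unique (hFi a ha).1 h4 h7]
  · rintro x - x' - q - ⟨a, ha, hxa, h3, h4, h5⟩ ⟨a', ha', hxa', h6, h7, h8⟩
    have h10 : a = a' := hei.2 _ _ _ h3 h6
    subst h10
    exact (hFi a ha).2 _ _ _ h4 h7

/-- The next step: finitely many witness functions at once. -/
theorem exists_step {W : Set ZFSet.{0}} (hZ : IsZF W) : ∀ {k : ℕ}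
    (Q : Fin k → ZFSet.{0} → ZFSet.{0} → Prop)
    (_ : ∀ i, Dfn W W fun w : Fin 2 → ZFSet.{0} => Q i (w 0) (w 1)),
    ∃ T : ZFSet.{0} → ZFSet.{0}, (DfnF W W fun w : Fin 1 → ZFSet.{0} => T (w 0)) ∧
      (∀ ξ, ξ.IsOrdinal → (T ξ).IsOrdinal) ∧ (∀ ξ, ξ ∈ T ξ) ∧
      ∀ i, ∀ ξ, ∀ a ∈ Vh W ξ, (∃ b ∈ W, Q i b a) → ∃ b ∈ Vh W (T ξ), Q i b a
  | 0, Q, hQ => by
    have hB := hZ.base
    refine ⟨fun ξ => sc ξ, hB.insert' (DfnF.proj 0) (DfnF.proj 0), fun ξ h => isOrdinal_sc h,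
      fun ξ => ZFSet.mem_insert _ _, fun i => i.elim0⟩
  | k + 1, Q, hQ => by
    have hB := hZ.base
    obtain ⟨T, hT, hTo, hTs, hTw⟩ := exists_step hZ (fun i => Q i.castSucc) fun i => hQ _
    set lw : ZFSet.{0} → ZFSet.{0} := fun a => lo W fun η => ∃ y ∈ Vh W η, Q (Fin.last k) y a
      with hlw
    have h1 : Dfn W W fun w : Fin 2 → ZFSet.{0} => ∃ y ∈ Vh W (w 0), Q (Fin.last k) y (w 1) := by
      apply hB.bex (dfn_Vh hZ (DfnF.proj 0))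
      exact Dfn.comp2 (Q := Q (Fin.last k)) (hQ _) (DfnF.proj 0) (DfnF.proj 2)
    have h2 : DfnF W W fun w : Fin 1 → ZFSet.{0} => lw (w 0) :=
      hZ.lo' (Q := fun η w => ∃ y ∈ Vh W η, Q (Fin.last k) y (w 0)) h1
    set S : ZFSet.{0} → ZFSet.{0} := fun ξ => ZFSet.sUnion (im lw (Vh W ξ)) with hS
    have hSd : DfnF W W fun w : Fin 1 → ZFSet.{0} => S (w 0) := by
      refine hB.sUnion' (hZ.im' (h := fun a _ => lw a) ?_ ?_)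
      · exact dfn_Vh hZ (DfnF.proj 0)
      · exact DfnF.comp1 (f := lw) h2 (DfnF.proj 0)
    have hSo : ∀ ξ, (S ξ).IsOrdinal := by
      intro ξ
      apply isOrdinal_sUnion
      intro y hy
      obtain ⟨a, -, rfl⟩ := mem_im.1 hy
      exact lo_isOrdinal
    refine ⟨fun ξ => T ξ ∪ S ξ, hB.union' hT hSd, fun ξ h => isOrdinal_union (hTo ξ h) (hSo ξ),
      fun ξ => ZFSet.mem_union.2 (Or.inl (hTs ξ)), ?_⟩
    intro i
    refine Fin.lastCases ?_ (fun i => ?_) i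
    · rintro ξ a ha ⟨b, hb, hQb⟩
      obtain ⟨η, hη, hηo, hbη⟩ := PF1.exists_vh hZ hb
      obtain ⟨-, -, w, h7, h8⟩ := lo_spec (M := W) (P := fun η => ∃ y ∈ Vh W η,
        Q (Fin.last k) y a) ⟨η, hη, hηo, b, hbη, hQb⟩
      refine ⟨w, vh_mono (fun u hu => ?_) h7, h8⟩
      exact ZFSet.mem_union.2 (Or.inr (ZFSet.mem_sUnion.2 ⟨_, mem_im.2 ⟨a, ha, rfl⟩, hu⟩))
    · rintro ξ a ha hb
      obtain ⟨w, hw, hQw⟩ := hTw i ξ a ha hb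
      exact ⟨w, vh_mono (fun u hu => ZFSet.mem_union.2 (Or.inl hu)) hw, hQw⟩

/-- A set `D` with many closure properties. -/
theorem exists_closed {W : Set ZFSet.{0}} (hW : IsZFC W) {k : ℕ}
    (Q : Fin k → ZFSet.{0} → ZFSet.{0} → Prop)
    (hQ : ∀ i, Dfn W W fun w : Fin 2 → ZFSet.{0} => Q i (w 0) (w 1)) {κ B : ZFSet.{0}}
    (hκ : κ ∈ W) (hκo : κ.IsOrdinal) (hω : ZFSet.omega ⊆ κ) (hB : B ∈ W) :
    ∃ D ∈ W, B ⊆ D ∧ κ ⊆ D ∧ (∀ a ∈ D, ∀ b ∈ D, pair a b ∈ D) ∧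
      (∀ i, ∀ a ∈ D, (∃ b ∈ W, Q i b a) → ∃ b ∈ D, Q i b a) ∧
      ∀ N ∈ W, N ⊆ D → Inj W N κ → N ∈ D := by
  have hZ := hW.toIsZF
  have hBs := hZ.base
  obtain ⟨T, hT, hTo, hTs, hTw⟩ := exists_step hZ Q hQ
  obtain ⟨μ, hμc, hκμ, hμi⟩ := exists_next hZ hκ hκo
  have hμ : μ ∈ W := hμc.1
  have hμo : μ.IsOrdinal := hμc.2.1
  have hμn : ¬ Inj W μ κ := hμc.2.2 κ hκμ
  -- the ordinal `μ` is a limit
  have hlim : ∀ ν ∈ μ, sc ν ∈ μ := by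
    intro ν hν
    have hνo := hμo.mem hν
    have hνW := hZ.trans _ hμ _ hν
    rcases (isOrdinal_sc hνo).mem_trichotomous hμo with h1 | h1 | h1
    · exact h1
    · exfalso
      have h2 : κ ∈ sc ν := h1.symm ▸ hκμ
      have h3 : κ ⊆ ν := by
        rcases ZFSet.mem_insert_iff.1 h2 with h3 | h3
        · rw [h3]
        · exact hνo.subset_of_mem h3
      have h4 : Inj W (sc ν) ν := Inj.sc hZ hνW hνo fun z hz => h3 (hω hz)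
      have h5 : Inj W (sc ν) κ := Inj.trans hZ (hZ.sc_mem hνW) hκ h4 (hμi ν hν)
      exact hμn (h1 ▸ h5)
    · exfalso
      rcases ZFSet.mem_insert_iff.1 h1 with h1 | h1
      · rw [h1] at hν
        exact ZFSet.mem_irrefl _ hν
      · exact ZFSet.mem_asymm h1 hν
  have hun : ∀ ν ∈ μ, ∀ ν' ∈ μ, ν ∪ ν' ∈ μ := by
    intro ν hν ν' hν'
    rcases (hμo.mem hν).subset_total (hμo.mem hν') with h1 | h1
    · have h2 : ν ∪ ν' = ν' := by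
        ext z
        rw [ZFSet.mem_union]
        exact ⟨fun h => h.elim (fun h => h1 h) id, Or.inr⟩
      rw [h2]
      exact hν'
    · have h2 : ν ∪ ν' = ν := by
        ext z
        rw [ZFSet.mem_union]
        exact ⟨fun h => h.elim id (fun h => h1 h), Or.inl⟩
      rw [h2]
      exact hν
  obtain ⟨ξ0, hξ0, hξ0o, hBξ⟩ := PF1.exists_vh hZ hB
  obtain ⟨ξ1, hξ1, hξ1o, hκξ⟩ := PF1.exists_vh hZ hκ
  set a0 := ξ0 ∪ ξ1 with ha0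
  have ha0W : a0 ∈ W := hZ.union_mem hξ0 hξ1
  have ha0o : a0.IsOrdinal := isOrdinal_union hξ0o hξ1o
  set J : ZFSet.{0} → ZFSet.{0} := itr T a0 with hJ
  have hJd : DfnF W W fun w : Fin 1 → ZFSet.{0} => J (w 0) := dfn_itr hZ ha0W hT
  have hJo : ∀ z, (J z).IsOrdinal := by
    intro z
    induction z using ZFSet.inductionOn with
    | _ z ih =>
    rw [hJ, itr_eq]
    refine isOrdinal_union ha0o (isOrdinal_sUnion ?_)
    intro y hy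
    obtain ⟨p, hp, rfl⟩ := mem_im.1 hy
    obtain ⟨u, hu, rfl⟩ := mem_gr.1 hp
    rw [sn_pair]
    exact hTo _ (ih u hu)
  have hJW : ∀ z ∈ W, J z ∈ W := fun z hz => hJd.1 (fun _ => z) fun _ => hz
  set δ := J μ with hδ
  have hδW : δ ∈ W := hJW μ hμ
  have hVsub : ∀ {u v : ZFSet.{0}}, u ⊆ v → Vh W u ⊆ Vh W v := fun h => vh_mono h
  have hVelt : ∀ {x u v : ZFSet.{0}}, x ∈ Vh W u → v.IsOrdinal → u ⊆ v → x ⊆ Vh W v := by
    intro x u v hx hv huv y hy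
    obtain ⟨t, ht, -, hxt⟩ := mem_Vh.1 hx
    exact hVsub (hv.subset_of_mem (huv ht)) (hxt hy)
  have hstep : ∀ ν ∈ μ, J ν ∈ δ := fun ν hν => itr_step hν (hTs _)
  have hsub : ∀ ν ∈ μ, J ν ⊆ δ := fun ν hν => (hJo μ).subset_of_mem (hstep ν hν)
  have hTsub : ∀ ν ∈ μ, T (J ν) ⊆ δ := fun ν hν => itr_step hν
  -- each element of `Vh W δ` is in an earlier level
  have hlev : ∀ x ∈ Vh W δ, ∃ ν ∈ μ, x ∈ Vh W (J ν) := by
    intro x hx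
    obtain ⟨u, hu, hxW, hxu⟩ := mem_Vh.1 hx
    rcases mem_itr.1 hu with hu | ⟨ν, hν, hu⟩
    · exact ⟨κ, hκμ, mem_Vh.2 ⟨u, itr_base hu, hxW, hxu⟩⟩
    · exact ⟨sc ν, hlim ν hν, mem_Vh.2 ⟨u, itr_step (ZFSet.mem_insert _ _) hu, hxW, hxu⟩⟩
  have hJmono : ∀ {ν ν' : ZFSet.{0}}, ν ⊆ ν' → J ν ⊆ J ν' := fun h => itr_mono h
  refine ⟨Vh W δ, PF1.vh_mem hZ hδW, ?_, ?_, ?_, ?_, ?_⟩
  · exact hVelt hBξ (hJo μ) fun z hz => itr_base (ZFSet.mem_union.2 (Or.inl hz))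
  · exact hVelt hκξ (hJo μ) fun z hz => itr_base (ZFSet.mem_union.2 (Or.inr hz))
  · intro a ha b hb
    obtain ⟨ν, hν, h1⟩ := hlev a ha
    obtain ⟨ν', hν', h2⟩ := hlev b hb
    have h3 := hun ν hν ν' hν'
    have haW : a ∈ W := hZ.trans _ (PF1.vh_mem hZ hδW) _ ha
    have hbW : b ∈ W := hZ.trans _ (PF1.vh_mem hZ hδW) _ hb
    have h4 : a ∈ Vh W (J (ν ∪ ν')) :=
      hVsub (hJmono fun z hz => ZFSet.mem_union.2 (Or.inl hz)) h1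
    have h5 : b ∈ Vh W (J (ν ∪ ν')) :=
      hVsub (hJmono fun z hz => ZFSet.mem_union.2 (Or.inr hz)) h2
    have h6 : J (ν ∪ ν') ∈ J (sc (ν ∪ ν')) := itr_step (ZFSet.mem_insert _ _) (hTs _)
    refine mem_Vh.2 ⟨J (sc (ν ∪ ν')), hstep _ (hlim _ h3), hZ.pair_mem haW hbW, ?_⟩
    intro z hz
    rw [ZFSet.pair, ZFSet.mem_pair] at hz
    rcases hz with rfl | rfl
    · refine mem_Vh.2 ⟨J (ν ∪ ν'), h6, hZ.single_mem haW, ?_⟩
      intro y hy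
      rw [ZFSet.mem_singleton] at hy
      rw [hy]
      exact h4
    · refine mem_Vh.2 ⟨J (ν ∪ ν'), h6, hZ.pairing _ haW _ hbW, ?_⟩
      intro y hy
      rw [ZFSet.mem_pair] at hy
      rcases hy with rfl | rfl
      · exact h4
      · exact h5
  · intro i a ha hb
    obtain ⟨ν, hν, h1⟩ := hlev a ha
    obtain ⟨b, hb, hQb⟩ := hTw i (J ν) a h1 hb
    exact ⟨b, hVsub (hTsub ν hν) hb, hQb⟩
  · intro N hN hND hNκ
    set ρ : ZFSet.{0} → ZFSet.{0} := fun n => lo W fun ν => n ∈ Vh W (J ν) with hρ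
    have hρd : DfnF W W fun w : Fin 1 → ZFSet.{0} => ρ (w 0) := by
      refine hZ.lo' (Q := fun ν w => w 0 ∈ Vh W (J ν)) ?_
      exact Dfn.mem (DfnF.proj 1) (dfn_Vh hZ
        (DfnF.comp1 (f := J) hJd (DfnF.proj 0)))
    have hρ1 : ∀ n ∈ N, ρ n ∈ μ ∧ n ∈ Vh W (J (ρ n)) := by
      intro n hn
      obtain ⟨ν, hν, h1⟩ := hlev n (hND hn)
      have hνW := hZ.trans _ hμ _ hν
      have hνo := hμo.mem hν
      obtain ⟨h2, h3, h4⟩ := lo_spec (M := W) (P := fun ν => n ∈ Vh W (J ν)) ⟨ν, hνW, hνo, h1⟩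
      refine ⟨?_, h4⟩
      exact h3.mem_of_subset_of_mem hμo (lo_subset hνW hνo h1) hν
    have himW : im ρ N ∈ W := hZ.im_mem hN hρd
    have h1 : Inj W (ZFSet.sUnion (im ρ N)) κ := by
      refine inj_union hW hκ hκo hω himW (Inj.image hZ hN hκ hκo hNκ hρd) ?_
      intro a ha
      obtain ⟨n, hn, rfl⟩ := mem_im.1 ha
      exact hμi _ (hρ1 n hn).1
    set s := ZFSet.sUnion (im ρ N) with hs
    have hso : s.IsOrdinal := by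
      apply isOrdinal_sUnion
      intro y hy
      obtain ⟨n, -, rfl⟩ := mem_im.1 hy
      exact lo_isOrdinal
    have hsμ : s ∈ μ := by
      have h2 : s ⊆ μ := by
        intro z hz
        obtain ⟨y, hy, hzy⟩ := ZFSet.mem_sUnion.1 hz
        obtain ⟨n, hn, rfl⟩ := mem_im.1 hy
        exact hμo.mem_trans hzy (hρ1 n hn).1
      rcases (ZFSet.IsOrdinal.subset_iff_eq_or_mem hso hμo).1 h2 with h3 | h3
      · exact absurd (h3 ▸ h1) hμn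
      · exact h3
    refine mem_Vh.2 ⟨J s, hstep s hsμ, hN, ?_⟩
    intro n hn
    refine hVsub (hJmono ?_) (hρ1 n hn).2
    intro z hz
    exact ZFSet.mem_sUnion.2 ⟨_, mem_im.2 ⟨n, hn, rfl⟩, hz⟩

end Pool.Agent.helper797_it
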