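import Pool.Agent.helper797_it.PF1
import Pool.Agent.W868.Small
import Pool.Agent.W868.Hart

/-! # F4: hulls inside a model of ZFC -/

set_option autoImplicit false
namespace Pool.Agent.helper797_it
open Pool.Agent.W868 Pool.Agent.R587 Pool.Agent.helper797_cs
open ZFSet (pair)

namespace PF4

theorem inj_upair {W : Set ZFSet.{0}} (hW : IsZF W) {κ x y : ZFSet.{0}} (hκ : κ ∈ W)
    (hκo : κ.IsOrdinal) (hω : ZFSet.omega ⊆ κ) (hx : x ∈ W) (hy : y ∈ W) :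
    Inj W ({x, y} : ZFSet.{0}) κ := by
  classical
  have h2 : Inj W (nat 2) κ :=
    Inj.of_subset hW (hW.nat_mem 2) hκ fun z hz => hω (nat_subset_omega hz)
  have h02 : (∅ : ZFSet.{0}) ∈ nat 2 := by
    simp [nat]
  have h12 : nat 1 ∈ nat 2 := by
    rw [show nat 2 = insert (nat 1) (nat 1) from rfl]
    exact ZFSet.mem_insert _ _
  have h1 : nat 1 ≠ ∅ := by
    intro h
    have h3 : nat 1 = nat 0 := h
    exact absurd (nat_injective h3) (by norm_num)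
  have e : im (fun a => if a = ∅ then x else y) (nat 2) = ({x, y} : ZFSet.{0}) := by
    ext z
    rw [mem_im, ZFSet.mem_pair]
    constructor
    · rintro ⟨a, -, rfl⟩
      by_cases h : a = ∅
      · left; rw [if_pos h]
      · right; rw [if_neg h]
    · rintro (rfl | rfl)
      · exact ⟨∅, h02, by rw [if_pos rfl]⟩
      · exact ⟨nat 1, h12, by rw [if_neg h1]⟩
  rw [← e]
  exact Inj.image hW (hW.nat_mem 2) hκ hκo h2
    (DfnF.ite (Dfn.eq (DfnF.proj 0) (DfnF.const hW.empty_mem)) (DfnF.const hx) (DfnF.const hy))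

section

variable {W : Set ZFSet.{0}} (hW : IsZFC W) {κ : ZFSet.{0}} (hκ : κ ∈ W)
    (hκo : κ.IsOrdinal) (hω : ZFSet.omega ⊆ κ)

include hW hκ hκo hω

theorem inj_union2 {x y : ZFSet.{0}} (hx : x ∈ W) (hy : y ∈ W) (h1 : Inj W x κ)
    (h2 : Inj W y κ) : Inj W (x ∪ y) κ := by
  rw [← ZFSet.sUnion_pair]
  refine inj_union hW hκ hκo hω (hW.pairing _ hx _ hy)
    (inj_upair hW.toIsZF hκ hκo hω hx hy) fun a ha => ?_
  rcases ZFSet.mem_pair.1 ha with rfl | rfl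
  · exact h1
  · exact h2

theorem inj_single {x : ZFSet.{0}} (hx : x ∈ W) : Inj W ({x} : ZFSet.{0}) κ := by
  rw [← ZFSet.pair_eq_singleton]
  exact inj_upair hW.toIsZF hκ hκo hω hx hx

end

/-- The closure operation. -/
noncomputable def TT (g : ℕ → ZFSet.{0}) : ℕ → ZFSet.{0} → ZFSet.{0}
  | 0, Y => Y ∪ ({Y} ∪ ZFSet.prod Y Y)
  | j + 1, Y => TT g j Y ∪ im (ap (g j)) Y

theorem dfn_TT {W : Set ZFSet.{0}} (hW : IsZF W) {g : ℕ → ZFSet.{0}} (hg : ∀ j, g j ∈ W)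
    (j : ℕ) : DfnF W W fun w : Fin 1 → ZFSet.{0} => TT g j (w 0) := by
  have hB := hW.base
  induction j with
  | zero =>
    exact hB.union' (DfnF.proj 0) (hB.union' (hB.single' (DfnF.proj 0))
      (hW.prod' (DfnF.proj 0) (DfnF.proj 0)))
  | succ j ih =>
    exact hB.union' ih (hW.im' (h := fun a _ => ap (g j) a) (DfnF.proj 0)
      (hW.ap' (DfnF.const (hg j)) (DfnF.proj 0)))

theorem TT_base {g : ℕ → ZFSet.{0}} {Y z : ZFSet.{0}} (j : ℕ)
    (hz : z ∈ Y ∪ ({Y} ∪ ZFSet.prod Y Y)) : z ∈ TT g j Y := by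
  induction j with
  | zero => exact hz
  | succ j ih => exact ZFSet.mem_union.2 (Or.inl ih)

theorem TT_im {g : ℕ → ZFSet.{0}} {Y a : ZFSet.{0}} {i j : ℕ} (hij : i < j) (ha : a ∈ Y) :
    ap (g i) a ∈ TT g j Y := by
  induction j with
  | zero => omega
  | succ j ih =>
    rcases Nat.lt_succ_iff_lt_or_eq.1 hij with h | rfl
    · exact ZFSet.mem_union.2 (Or.inl (ih h))
    · exact ZFSet.mem_union.2 (Or.inr (mem_im.2 ⟨a, ha, rfl⟩))

theorem TT_sub {g : ℕ → ZFSet.{0}} {Y D : ZFSet.{0}} (hYD : Y ⊆ D) (hY : Y ∈ D)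
    (hp : ∀ a ∈ D, ∀ b ∈ D, pair a b ∈ D) (j : ℕ) (hg : ∀ i < j, ∀ a ∈ D, ap (g i) a ∈ D) :
    TT g j Y ⊆ D := by
  induction j with
  | zero =>
    intro z hz
    rcases ZFSet.mem_union.1 hz with h | h
    · exact hYD h
    rcases ZFSet.mem_union.1 h with h | h
    · rw [ZFSet.mem_singleton.1 h]; exact hY
    · obtain ⟨a, ha, b, hb, rfl⟩ := ZFSet.mem_prod.1 h
      exact hp a (hYD ha) b (hYD hb)
  | succ j ih =>
    intro z hz
    rcases ZFSet.mem_union.1 hz with h | h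
    · exact ih (fun i hi => hg i (by omega)) h
    · obtain ⟨a, ha, rfl⟩ := mem_im.1 h
      exact hg j (by omega) a (hYD ha)

theorem inj_TT {W : Set ZFSet.{0}} (hW : IsZFC W) {κ : ZFSet.{0}} (hκ : κ ∈ W)
    (hκo : κ.IsOrdinal) (hω : ZFSet.omega ⊆ κ) {g : ℕ → ZFSet.{0}} (hg : ∀ j, g j ∈ W)
    {Y : ZFSet.{0}} (hY : Y ∈ W) (h : Inj W Y κ) (j : ℕ) : Inj W (TT g j Y) κ := by
  have hZ := hW.toIsZF
  induction j with
  | zero =>
    have h1 : ({Y} : ZFSet.{0}) ∈ W := hZ.single_mem hY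
    have h2 : ZFSet.prod Y Y ∈ W := hZ.prod_mem hY hY
    exact inj_union2 hW hκ hκo hω hY (hZ.union_mem h1 h2) h
      (inj_union2 hW hκ hκo hω h1 h2 (inj_single hW hκ hκo hω hY)
        (Inj.pair_into hZ hκ hκo hω hY h))
  | succ j ih =>
    have hd : DfnF W W fun w : Fin 1 → ZFSet.{0} => ap (g j) (w 0) :=
      hZ.ap' (DfnF.const (hg j)) (DfnF.proj 0)
    exact inj_union2 hW hκ hκo hω ((dfn_TT hZ hg j).1 (fun _ => Y) fun _ => hY)
      (hZ.im_mem hY hd) ih (Inj.image hZ hY hκ hκo h hd)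

/-- Choice functions for definable relations. -/
theorem choose_in {M : Set ZFSet.{0}} (hM : IsZFC M) {x Y : ZFSet.{0}} (hx : x ∈ M) (hY : Y ∈ M)
    {Q : ZFSet.{0} → ZFSet.{0} → Prop}
    (hQ : Dfn M M fun w : Fin 2 → ZFSet.{0} => Q (w 0) (w 1))
    (h1 : ∀ z ∈ x, ∃ w ∈ Y, Q w z) : ∃ f ∈ M, ∀ z ∈ x, Q (ap f z) z := by
  have hZ := hM.toIsZF
  have hB := hZ.base
  set S : ZFSet.{0} → ZFSet.{0} := fun z => ZFSet.sep (fun p => fs p = z ∧ Q (sn p) z)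
    (ZFSet.prod x Y) with hS
  have hSd : DfnF M M fun w : Fin 1 → ZFSet.{0} => S (w 0) := by
    refine hZ.sep' (Q := fun p w => fs p = w 0 ∧ Q (sn p) (w 0)) (DfnF.const
      (hZ.prod_mem hx hY)) ?_
    apply Dfn.and
    · exact Dfn.eq (hZ.fs' (DfnF.proj 0)) (DfnF.proj 1)
    · exact Dfn.comp2 (Q := Q) hQ (hZ.sn' (DfnF.proj 0)) (DfnF.proj 1)
  have hmem : ∀ z p, p ∈ S z ↔ ∃ w ∈ Y, z ∈ x ∧ p = pair z w ∧ Q w z := by
    intro z p
    simp only [hS, ZFSet.mem_sep, ZFSet.mem_prod]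
    constructor
    · rintro ⟨⟨a, ha, b, hb, rfl⟩, h2, h3⟩
      rw [fs_pair] at h2
      rw [sn_pair] at h3
      subst h2
      exact ⟨b, hb, ha, rfl, h3⟩
    · rintro ⟨w, hw, hz, rfl, h2⟩
      refine ⟨⟨z, hz, w, hw, rfl⟩, fs_pair _ _, ?_⟩
      rwa [sn_pair]
  have hfam : im S x ∈ M := hZ.im_mem hx hSd
  obtain ⟨c, hc, hc1⟩ := hM.choice _ hfam (by
    intro y hy
    obtain ⟨z, hz, rfl⟩ := mem_im.1 hy
    obtain ⟨w, hw, h2⟩ := h1 z hz
    exact ⟨pair z w, (hmem _ _).2 ⟨w, hw, hz, rfl, h2⟩⟩) (by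
    intro y hy y' hy' p hp hp'
    obtain ⟨z, hz, rfl⟩ := mem_im.1 hy
    obtain ⟨z', hz', rfl⟩ := mem_im.1 hy'
    obtain ⟨w, -, -, h2, -⟩ := (hmem _ _).1 hp
    obtain ⟨w', -, -, h3, -⟩ := (hmem _ _).1 hp'
    rw [h2] at h3
    rw [(ZFSet.pair_inj.1 h3).1])
  set f := ZFSet.sep (fun p => p ∈ c) (ZFSet.sUnion (im S x)) with hf
  have hfM : f ∈ M := by
    refine hZ.sep_mem (Q := fun p => p ∈ c) ?_ (hZ.union _ hfam)
    exact Dfn.mem (DfnF.proj 0) (DfnF.const hc)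
  have hval : ∀ z ∈ x, ∃ w, pair z w ∈ f ∧ Q w z ∧ ∀ w', pair z w' ∈ f → w' = w := by
    intro z hz
    obtain ⟨p, ⟨hp1, hp2⟩, hp3⟩ := hc1 (S z) (mem_im.2 ⟨z, hz, rfl⟩)
    obtain ⟨w, hw, -, rfl, h2⟩ := (hmem _ _).1 hp1
    refine ⟨w, ZFSet.mem_sep.2 ⟨ZFSet.mem_sUnion.2 ⟨_, mem_im.2 ⟨z, hz, rfl⟩, hp1⟩, hp2⟩, h2,
      fun w' hw' => ?_⟩
    obtain ⟨h3, h4⟩ := ZFSet.mem_sep.1 hw'
    obtain ⟨y, hy, h5⟩ := ZFSet.mem_sUnion.1 h3
    obtain ⟨z', hz', rfl⟩ := mem_im.1 hy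
    have h6 := (hmem _ _).1 h5
    obtain ⟨w'', -, -, h7, -⟩ := h6
    obtain ⟨rfl, rfl⟩ := ZFSet.pair_inj.1 h7
    exact (ZFSet.pair_inj.1 (hp3 _ ⟨h5, h4⟩)).2
  have hfun : ZFSet.IsFunc x Y f := by
    refine ⟨fun p hp => ?_, fun z hz => ?_⟩
    · obtain ⟨h3, -⟩ := ZFSet.mem_sep.1 hp
      obtain ⟨y, hy, h5⟩ := ZFSet.mem_sUnion.1 h3
      obtain ⟨z', hz', rfl⟩ := mem_im.1 hy
      obtain ⟨w, hw, hz, rfl, -⟩ := (hmem _ _).1 h5
      exact ZFSet.mem_prod.2 ⟨_, hz, _, hw, rfl⟩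
    · obtain ⟨w, h2, -, h3⟩ := hval z hz
      exact ⟨w, h2, h3⟩
  refine ⟨f, hfM, fun z hz => ?_⟩
  obtain ⟨w, h2, h3, -⟩ := hval z hz
  rw [ap_func hfun h2]
  exact h3

end PF4

open PF4 in
theorem exists_hull {W : Set ZFSet.{0}} (hW : IsZFC W) {k : ℕ}
    (Q : Fin k → ZFSet.{0} → ZFSet.{0} → Prop)
    (hQ : ∀ i, Dfn W W fun w : Fin 2 → ZFSet.{0} => Q i (w 0) (w 1)) {κ B : ZFSet.{0}}
    (hκ : κ ∈ W) (hκo : κ.IsOrdinal) (hκu : ¬ Inj W κ ZFSet.omega) (hB : B ∈ W)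
    (hBκ : Inj W B κ) :
    ∃ N ∈ W, B ⊆ N ∧ Inj W N κ ∧ (∀ a ∈ N, ∀ b ∈ N, pair a b ∈ N) ∧
      (∀ i, ∀ a ∈ N, (∃ b ∈ W, Q i b a) → ∃ b ∈ N, Q i b a) ∧
      ∀ c ∈ W, c ⊆ N → Inj W c ZFSet.omega → ∃ N' ∈ N, c ⊆ N' ∧ N' ⊆ N := by
  have hZ := hW.toIsZF
  have hBs := hZ.base
  have hωW : ZFSet.omega ∈ W := hZ.infinity
  have hωo : ZFSet.omega.{0}.IsOrdinal := isOrdinal_omega
  have hω : ZFSet.omega ⊆ κ := by
    rcases hκo.mem_or_subset hωo with h | h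
    · exact absurd (Inj.of_subset hZ hκ hωW (hωo.subset_of_mem h)) hκu
    · exact h
  obtain ⟨D, hD, hBD, -, hpD, hQD, hND⟩ := exists_closed hW Q hQ hκ hκo hω hB
  -- choice functions
  have hch : ∀ i : Fin k, ∃ f ∈ W, ∀ a ∈ D, ap f a ∈ D ∧
      ((∃ b ∈ W, Q i b a) → Q i (ap f a) a) := by
    intro i
    have hd : Dfn W W fun w : Fin 2 → ZFSet.{0} => w 0 ∈ D ∧ (Q i (w 0) (w 1) ∨
        (w 0 = w 1 ∧ ¬ ∃ b ∈ D, Q i b (w 1))) := by
      refine (Dfn.mem (DfnF.proj 0) (DfnF.const hD)).and ((hQ i).or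
        ((Dfn.eq (DfnF.proj 0) (DfnF.proj 1)).and (Dfn.not ?_)))
      refine hBs.bex (F := fun _ => D) (Q := fun b v => Q i b (v 1)) (DfnF.const hD) ?_
      exact Dfn.comp2 (Q := Q i) (hQ i) (DfnF.proj 0) (DfnF.proj 2)
    obtain ⟨f, hf, h1⟩ := choose_in hW hD hD (Q := fun b a => b ∈ D ∧ (Q i b a ∨
      (b = a ∧ ¬ ∃ b ∈ D, Q i b a))) hd (by
        intro a ha
        by_cases h : ∃ b ∈ D, Q i b a
        · obtain ⟨b, hb, h⟩ := h
          exact ⟨b, hb, hb, Or.inl h⟩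
        · exact ⟨a, ha, ha, Or.inr ⟨rfl, h⟩⟩)
    refine ⟨f, hf, fun a ha => ⟨(h1 a ha).1, fun h => ?_⟩⟩
    rcases (h1 a ha).2 with h2 | h2
    · exact h2
    · exact absurd (hQD i a ha h) h2.2
  choose f hfW hf using hch
  set g : ℕ → ZFSet.{0} := fun j => if h : j < k then f ⟨j, h⟩ else ∅ with hg
  have hgW : ∀ j, g j ∈ W := by
    intro j
    by_cases h : j < k
    · simp only [hg, dif_pos h]; exact hfW _
    · simp only [hg, dif_neg h]; exact hZ.empty_mem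
  have hgD : ∀ i < k, ∀ a ∈ D, ap (g i) a ∈ D := by
    intro i hi a ha
    simp only [hg, dif_pos hi]
    exact (hf ⟨i, hi⟩ a ha).1
  -- the first uncountable cardinal
  obtain ⟨o, ho, hωo1, ho1⟩ := exists_next hZ hωW hωo
  have hoW : o ∈ W := ho.1
  have hoo : o.IsOrdinal := ho.2.1
  have hlt : ∀ δ ∈ W, δ.IsOrdinal → Inj W δ ZFSet.omega → δ ∈ o := by
    intro δ hδ hδo h
    rcases hδo.mem_or_subset hoo with h1 | h1
    · exact h1
    · exact absurd (Inj.trans hZ hoW hωW (Inj.of_subset hZ hoW hδ h1) h) (ho.2.2 _ hωo1)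
  have hoκ : o ⊆ κ := by
    rcases hκo.mem_or_subset hoo with h | h
    · exact absurd (ho1 κ h) hκu
    · exact h
  have hωω : ZFSet.omega.{0} ⊆ ZFSet.omega := fun _ h => h
  have hsc : ∀ u ∈ o, insert u u ∈ o := by
    intro u hu
    have huW := hZ.trans _ hoW _ hu
    refine hlt _ (hZ.insert_mem huW huW) (ZFSet.isOrdinal_succ (hoo.mem hu)) ?_
    have e : (insert u u : ZFSet.{0}) = {u} ∪ u := by
      ext z; simp
    rw [e]
    exact inj_union2 hW hωW hωo hωω (hZ.single_mem huW) huW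
      (inj_single hW hωW hωo hωω huW) (ho1 u hu)
  -- the iteration
  have hT := dfn_TT hZ hgW k
  set T := TT g k with hTdef
  have hI : ∀ z ∈ W, itr T B z ∈ W := fun z hz => itr_mem_M hZ hB hz hT
  have hItr := dfn_itr hZ hB hT
  have hall : ∀ z : ZFSet.{0}, z ∈ W → z ⊆ o → itr T B z ⊆ D ∧ Inj W (itr T B z) κ := by
    intro z
    induction z using ZFSet.inductionOn with
    | _ z ih =>
    intro hz hzo
    have ih' : ∀ u ∈ z, itr T B u ⊆ D ∧ Inj W (itr T B u) κ := fun u hu =>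
      ih u hu (hZ.trans _ hz _ hu) (hoo.subset_of_mem (hzo hu))
    constructor
    · intro y hy
      rcases mem_itr.1 hy with h | ⟨u, hu, h⟩
      · exact hBD h
      · have huW := hZ.trans _ hz _ hu
        exact TT_sub (ih' u hu).1 (hND _ (hI u huW) (ih' u hu).1 (ih' u hu).2) hpD k hgD h
    · have hd : DfnF W W fun w : Fin 1 → ZFSet.{0} => T (itr T B (w 0)) :=
        DfnF.comp1 (f := T) hT hItr
      have e : itr T B z = B ∪ ZFSet.sUnion (im (fun u => T (itr T B u)) z) := by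
        ext y
        rw [mem_itr, ZFSet.mem_union, ZFSet.mem_sUnion]
        refine or_congr Iff.rfl ?_
        constructor
        · rintro ⟨u, hu, h⟩
          exact ⟨_, mem_im.2 ⟨u, hu, rfl⟩, h⟩
        · rintro ⟨w, hw, h⟩
          obtain ⟨u, hu, rfl⟩ := mem_im.1 hw
          exact ⟨u, hu, h⟩
      rw [e]
      have him : im (fun u => T (itr T B u)) z ∈ W := hZ.im_mem hz hd
      refine inj_union2 hW hκ hκo hω hB (hZ.union _ him) hBκ ?_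
      refine inj_union hW hκ hκo hω him (Inj.image hZ hz hκ hκo
        (Inj.of_subset hZ hz hκ fun y hy => hoκ (hzo hy)) hd) ?_
      intro a ha
      obtain ⟨u, hu, rfl⟩ := mem_im.1 ha
      exact inj_TT hW hκ hκo hω hgW (hI u (hZ.trans _ hz _ hu)) (ih' u hu).2 k
  have hoo' : o ⊆ o := fun _ h => h
  have hlev : ∀ y ∈ itr T B o, ∃ u ∈ o, y ∈ itr T B u := by
    intro y hy
    rcases mem_itr.1 hy with h | ⟨u, hu, h⟩
    · exact ⟨_, hωo1, itr_base h⟩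
    · exact ⟨_, hsc u hu, itr_step (ZFSet.mem_insert _ _) h⟩
  have hTo : ∀ u ∈ o, ∀ z ∈ T (itr T B u), z ∈ itr T B o := fun u hu z hz => itr_step hu hz
  refine ⟨itr T B o, hI o hoW, itr_base, (hall o hoW hoo').2, ?_, ?_, ?_⟩
  · intro a ha b hb
    obtain ⟨u, hu, ha⟩ := hlev a ha
    obtain ⟨v, hv, hb⟩ := hlev b hb
    have key : ∀ u ∈ o, a ∈ itr T B u → b ∈ itr T B u → pair a b ∈ itr T B o := by
      intro u hu ha hb
      refine hTo u hu _ (TT_base k ?_)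
      exact ZFSet.mem_union.2 (Or.inr (ZFSet.mem_union.2 (Or.inr
        (ZFSet.mem_prod.2 ⟨a, ha, b, hb, rfl⟩))))
    rcases (hoo.mem hu).mem_or_subset (hoo.mem hv) with h | h
    · exact key v hv (itr_mono ((hoo.mem hv).subset_of_mem h) ha) hb
    · exact key u hu ha (itr_mono h hb)
  · intro i a ha hb
    obtain ⟨u, hu, ha'⟩ := hlev a ha
    have haD : a ∈ D := (hall o hoW hoo').1 ha
    refine ⟨ap (f i) a, ?_, (hf i a haD).2 hb⟩
    have h1 : ap (g i) a ∈ T (itr T B u) := TT_im i.2 ha'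
    have h2 : g (i : ℕ) = f i := by simp only [hg, dif_pos i.2]
    rw [h2] at h1
    exact hTo u hu _ h1
  · intro c hc hcN hcω
    set ρ : ZFSet.{0} → ZFSet.{0} := fun y => lo W fun u => y ∈ itr T B u with hρ
    have hρd : DfnF W W fun w : Fin 1 → ZFSet.{0} => ρ (w 0) := by
      refine hZ.lo' (Q := fun u w => w 0 ∈ itr T B u) ?_
      exact Dfn.mem (DfnF.proj 1) (DfnF.comp1 (f := itr T B) hItr (DfnF.proj 0))
    have hρ1 : ∀ y ∈ c, ρ y ∈ o ∧ y ∈ itr T B (ρ y) := by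
      intro y hy
      obtain ⟨u, hu, h⟩ := hlev y (hcN hy)
      have huW := hZ.trans _ hoW _ hu
      have h1 := lo_spec (M := W) (P := fun u => y ∈ itr T B u) ⟨u, huW, hoo.mem hu, h⟩
      have h2 := lo_subset (M := W) (P := fun u => y ∈ itr T B u) huW (hoo.mem hu) h
      refine ⟨?_, h1.2.2⟩
      rcases h1.2.1.mem_or_subset hoo with h3 | h3
      · exact h3
      · exact absurd (h2 (h3 hu)) (ZFSet.mem_irrefl _)
    have him : im ρ c ∈ W := hZ.im_mem hc hρd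
    have hδo : (ZFSet.sUnion (im ρ c)).IsOrdinal := isOrdinal_sUnion fun y hy => by
      obtain ⟨z, hz, rfl⟩ := mem_im.1 hy
      exact hoo.mem (hρ1 z hz).1
    have hδ : ZFSet.sUnion (im ρ c) ∈ o := by
      refine hlt _ (hZ.union _ him) hδo ?_
      refine inj_union hW hωW hωo hωω him (Inj.image hZ hc hωW hωo hcω hρd) ?_
      intro a ha
      obtain ⟨z, hz, rfl⟩ := mem_im.1 ha
      exact ho1 _ (hρ1 z hz).1
    refine ⟨itr T B (ZFSet.sUnion (im ρ c)), ?_, ?_, itr_mono (hoo.subset_of_mem hδ)⟩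
    · refine hTo _ hδ _ (TT_base k ?_)
      exact ZFSet.mem_union.2 (Or.inr (ZFSet.mem_union.2 (Or.inl (ZFSet.mem_singleton.2 rfl))))
    · intro y hy
      refine itr_mono ?_ (hρ1 y hy).2
      intro x hx
      exact ZFSet.mem_sUnion.2 ⟨_, mem_im.2 ⟨y, hy, rfl⟩, hx⟩

end Pool.Agent.helper797_it
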