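import Pool.Agent.helper797_it.PC1
import Pool.Agent.helper797_it.PF4
import Pool.Agent.helper797_it.PA3

/-! # F2: the hull for the hierarchy -/

set_option autoImplicit false
set_option linter.unreachableTactic false
set_option linter.unusedTactic false

namespace Pool.Agent.helper797_it
open Pool.Agent.W868 Pool.Agent.R587 Pool.Agent.helper797_cs
open ZFSet (pair)

namespace PF2

/-! ### Definability of some operations -/

section

variable {W : Set ZFSet.{0}} (hM : IsZF W) {n : ℕ} {F G : (Fin n → ZFSet.{0}) → ZFSet.{0}}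

include hM

theorem fld' (hF : DfnF W W F) (hG : DfnF W W G) : Dfn W W fun v => Fld (F v) (G v) := by
  have hB := hM.base
  refine Dfn.comp2 (Q := fun R a => Fld R a) ?_ hF hG
  have h : Dfn W W fun w : Fin 2 → ZFSet.{0} =>
      ∃ b ∈ W, pair (w 1) b ∈ w 0 ∨ pair b (w 1) ∈ w 0 := by
    (repeat' first
      | exact DfnF.proj _
      | apply Dfn.or
      | apply Dfn.ex
      | apply Dfn.mem | apply hB.pair')
  refine h.congr fun v hv => ?_
  constructor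
  · rintro ⟨b, -, h1⟩
    exact ⟨b, h1⟩
  · rintro ⟨b, h1 | h1⟩
    · exact ⟨b, (hM.of_pair_mem (hM.trans _ (hv 0) _ h1)).2, Or.inl h1⟩
    · exact ⟨b, (hM.of_pair_mem (hM.trans _ (hv 0) _ h1)).1, Or.inr h1⟩

theorem dfnK2 : Dfn W W fun w : Fin 2 → ZFSet.{0} => (fun _ : ZFSet.{0} => CofW W) (w 0) (w 1) :=
  Dfn.comp1 (Q := CofW W) (dfn_CofW hM) (DfnF.proj 1)

theorem defQ' (hF : DfnF W W F) : DfnF W W fun v => DefQ (CofW W) (F v) :=
  DfnF.comp2 (f := fun _ x => DefQ (CofW W) x)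
    (dfn_DefQ hM (K := fun _ => CofW W) (dfnK2 hM)) hF hF

theorem rels' (hF : DfnF W W F) : DfnF W W fun v => Rels (CofW W) (F v) :=
  DfnF.comp2 (f := fun _ x => Rels (CofW W) x)
    (dfn_Rels hM (K := fun _ => CofW W) (dfnK2 hM)) hF hF

theorem lpS' (hF : DfnF W W F) : DfnF W W fun v => LpS (CofW W) (F v) :=
  DfnF.comp1 (f := fun x => LpS (CofW W) x) (dfn_LpS1 hM (dfn_CofW hM)) hF

end

/-! ### The relations -/

/-- The first component. -/
def q0 (b a : ZFSet.{0}) : Prop := b = fs a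

/-- The second component. -/
def q1 (b a : ZFSet.{0}) : Prop := b = sn a

/-- The symmetric difference. -/
def q2 (b a : ZFSet.{0}) : Prop := (b ∈ fs a ∧ b ∉ sn a) ∨ (b ∉ fs a ∧ b ∈ sn a)

/-- The level. -/
def q3 (W : Set ZFSet.{0}) (b a : ZFSet.{0}) : Prop := b = LpS (CofW W) a

/-- The section. -/
def q4 (b a : ZFSet.{0}) : Prop :=
  b = ZFSet.sep (fun z => pair z (fs (sn a)) ∈ fs a) (sn (sn a))

/-- The binary section. -/
def q5 (b a : ZFSet.{0}) : Prop :=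
  b = ZFSet.sep (fun p => ∃ z z', p = pair z z' ∧ pair z (pair z' (fs (sn a))) ∈ fs a)
    (ZFSet.prod (sn (sn a)) (sn (sn a)))

/-- Membership. -/
def q6 (b a : ZFSet.{0}) : Prop := b ∈ a

/-- The level where a set is defined. -/
def q7 (W : Set ZFSet.{0}) (b a : ZFSet.{0}) : Prop :=
  b ∈ sn a ∧ fs a ∈ DefQ (CofW W) (LpS (CofW W) b)

/-- The parameters. -/
def q8 (W : Set ZFSet.{0}) (b a : ZFSet.{0}) : Prop :=
  ∃ P ∈ W, pair (ZFSet.prod (LpS (CofW W) (sn a)) P) (fs b) ∈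
      Rels (CofW W) (LpS (CofW W) (sn a)) ∧ sn b ∈ P ∧
    fs a = ZFSet.sep (fun z => pair z (sn b) ∈ fs b) (LpS (CofW W) (sn a))

/-- The enumeration of the relations. -/
def q9 (W : Set ZFSet.{0}) (b a : ZFSet.{0}) : Prop :=
  (∀ i ∈ W, ∀ R ∈ W, ∀ R' ∈ W, pair i R ∈ b → pair i R' ∈ b → R = R') ∧
    ∀ R ∈ Rels (CofW W) (LpS (CofW W) a), ∃ i ∈ ZFSet.omega, pair i R ∈ b

/-- The value of a function. -/
def q10 (b a : ZFSet.{0}) : Prop := pair (sn a) b ∈ fs a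

/-- A counterexample to transitivity. -/
def q11 (b a : ZFSet.{0}) : Prop :=
  pair (fs b) (fs (sn b)) ∈ a ∧ pair (fs (sn b)) (sn (sn b)) ∈ a ∧ pair (fs b) (sn (sn b)) ∉ a

/-- A witness for being in the field. -/
def q12 (b a : ZFSet.{0}) : Prop := pair (sn a) b ∈ fs a ∨ pair b (sn a) ∈ fs a

/-- A counterexample to totality. -/
def q13 (b a : ZFSet.{0}) : Prop :=
  Fld a (fs b) ∧ Fld a (sn b) ∧ ¬ fs b = sn b ∧ pair (fs b) (sn b) ∉ a ∧ pair (sn b) (fs b) ∉ a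

/-- A counterexample to antisymmetry. -/
def q14 (b a : ZFSet.{0}) : Prop :=
  pair (fs b) (sn b) ∈ a ∧ pair (sn b) (fs b) ∈ a ∧ ¬ fs b = sn b

/-- A reflexive element. -/
def q15 (b a : ZFSet.{0}) : Prop := pair b b ∈ a

/-- An irreflexive element. -/
def q16 (b a : ZFSet.{0}) : Prop := Fld a b ∧ pair b b ∉ a

/-- A cofinal sequence. -/
def q17 (W : Set ZFSet.{0}) (b a : ZFSet.{0}) : Prop :=
  (∀ p ∈ b, ∃ i ∈ ZFSet.omega, ∃ y ∈ W, p = pair i y) ∧
  (∀ i ∈ ZFSet.omega, ∃ y ∈ W, pair i y ∈ b) ∧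
  (∀ i ∈ W, ∀ y ∈ W, ∀ y' ∈ W, pair i y ∈ b → pair i y' ∈ b → y = y') ∧
  (∀ i ∈ ZFSet.omega, ∀ j ∈ ZFSet.omega, i ∈ j → ∀ y ∈ W, ∀ z ∈ W, pair i y ∈ b → pair j z ∈ b →
    ¬ y = z ∧ pair y z ∈ a) ∧
  ∀ x ∈ W, Fld a x → ∃ i ∈ ZFSet.omega, ∃ y ∈ W, pair i y ∈ b ∧ pair x y ∈ a

/-- A strict upper bound. -/
def q18 (b a : ZFSet.{0}) : Prop :=
  Fld (fs a) b ∧ ∀ z ∈ sn a, Fld (fs a) z → pair z b ∈ fs a ∧ ¬ z = b

/-- The list of the relations. -/
def Qs (W : Set ZFSet.{0}) : Fin 19 → ZFSet.{0} → ZFSet.{0} → Prop :=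
  ![q0, q1, q2, q3 W, q4, q5, q6, q7 W, q8 W, q9 W, q10, q11, q12, q13, q14, q15, q16, q17 W, q18]

section

variable {W : Set ZFSet.{0}} (hM : IsZF W)

include hM

theorem d0 : Dfn W W fun w : Fin 2 → ZFSet.{0} => q0 (w 0) (w 1) :=
  Dfn.eq (DfnF.proj 0) (hM.fs' (DfnF.proj 1))

theorem d1 : Dfn W W fun w : Fin 2 → ZFSet.{0} => q1 (w 0) (w 1) :=
  Dfn.eq (DfnF.proj 0) (hM.sn' (DfnF.proj 1))

theorem d2 : Dfn W W fun w : Fin 2 → ZFSet.{0} => q2 (w 0) (w 1) := by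
  have hB := hM.base
  unfold q2
  (repeat' first
      | exact DfnF.proj _
      | apply Dfn.not | apply Dfn.and | apply Dfn.or
      | apply Dfn.mem | apply hM.fs' | apply hM.sn')

theorem d3 : Dfn W W fun w : Fin 2 → ZFSet.{0} => q3 W (w 0) (w 1) :=
  Dfn.eq (DfnF.proj 0) (lpS' hM (DfnF.proj 1))

theorem d4 : Dfn W W fun w : Fin 2 → ZFSet.{0} => q4 (w 0) (w 1) := by
  have hB := hM.base
  refine Dfn.eq (DfnF.proj 0) (hM.sep' (n := 2) (F := fun w => sn (sn (w 1)))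
    (Q := fun z w => pair z (fs (sn (w 1))) ∈ fs (w 1)) ?_ ?_)
  · exact hM.sn' (hM.sn' (DfnF.proj 1))
  · refine Dfn.mem (hB.pair' (DfnF.proj 0) ?_) ?_
    · exact hM.fs' (hM.sn' (DfnF.proj 2))
    · exact hM.fs' (DfnF.proj 2)

theorem d5 : Dfn W W fun w : Fin 2 → ZFSet.{0} => q5 (w 0) (w 1) := by
  have hB := hM.base
  refine Dfn.eq (DfnF.proj 0) (hM.sep' (n := 2)
    (F := fun w => ZFSet.prod (sn (sn (w 1))) (sn (sn (w 1))))
    (Q := fun p w => ∃ z z', p = pair z z' ∧ pair z (pair z' (fs (sn (w 1)))) ∈ fs (w 1)) ?_ ?_)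
  · exact hM.prod' (hM.sn' (hM.sn' (DfnF.proj 1))) (hM.sn' (hM.sn' (DfnF.proj 1)))
  · have h : Dfn W W fun w : Fin 3 → ZFSet.{0} => ∃ z ∈ W, ∃ z' ∈ W, w 0 = pair z z' ∧
        pair z (pair z' (fs (sn (w 2)))) ∈ fs (w 2) := by
      (repeat' first
      | exact DfnF.proj _
      | apply Dfn.ex | apply Dfn.and
      | apply Dfn.eq | apply Dfn.mem | apply hB.pair' | apply hM.fs' | apply hM.sn')
    refine h.congr fun v hv => ?_
    constructor
    · rintro ⟨z, -, z', -, h1, h2⟩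
      exact ⟨z, z', h1, h2⟩
    · rintro ⟨z, z', h1, h2⟩
      have h3 := hM.of_pair_mem (h1 ▸ hv 0)
      exact ⟨z, h3.1, z', h3.2, h1, h2⟩

omit hM in
theorem d6 : Dfn W W fun w : Fin 2 → ZFSet.{0} => q6 (w 0) (w 1) :=
  Dfn.mem (DfnF.proj 0) (DfnF.proj 1)

theorem d7 : Dfn W W fun w : Fin 2 → ZFSet.{0} => q7 W (w 0) (w 1) :=
  (Dfn.mem (DfnF.proj 0) (hM.sn' (DfnF.proj 1))).and
    (Dfn.mem (hM.fs' (DfnF.proj 1)) (defQ' hM (lpS' hM (DfnF.proj 0))))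

theorem d8 : Dfn W W fun w : Fin 2 → ZFSet.{0} => q8 W (w 0) (w 1) := by
  have hB := hM.base
  unfold q8
  apply Dfn.ex
  refine Dfn.and ?_ (Dfn.and ?_ ?_)
  · refine Dfn.mem (hB.pair' (hM.prod' (lpS' hM (hM.sn' (DfnF.proj 2))) (DfnF.proj 0))
      (hM.fs' (DfnF.proj 1))) (rels' hM (lpS' hM (hM.sn' (DfnF.proj 2))))
  · exact Dfn.mem (hM.sn' (DfnF.proj 1)) (DfnF.proj 0)
  · refine Dfn.eq (hM.fs' (DfnF.proj 2)) (hM.sep' (n := 3) (F := fun w => LpS (CofW W) (sn (w 2)))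
      (Q := fun z w => pair z (sn (w 1)) ∈ fs (w 1)) ?_ ?_)
    · exact lpS' hM (hM.sn' (DfnF.proj 2))
    · exact Dfn.mem (hB.pair' (DfnF.proj 0) (hM.sn' (DfnF.proj 2))) (hM.fs' (DfnF.proj 2))

theorem d9 : Dfn W W fun w : Fin 2 → ZFSet.{0} => q9 W (w 0) (w 1) := by
  have hB := hM.base
  have h0 := hM.infinity
  unfold q9
  apply Dfn.and
  · (repeat' first
      | exact DfnF.proj _
      | apply Dfn.imp | apply Dfn.all
      | apply Dfn.eq | apply Dfn.mem | apply hB.pair')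
  · apply hB.ball (rels' hM (lpS' hM (DfnF.proj 1)))
    apply hB.bex (DfnF.const h0)
    exact Dfn.mem (hB.pair' (DfnF.proj 0) (DfnF.proj 1)) (DfnF.proj 2)

theorem d10 : Dfn W W fun w : Fin 2 → ZFSet.{0} => q10 (w 0) (w 1) :=
  Dfn.mem (hM.base.pair' (hM.sn' (DfnF.proj 1)) (DfnF.proj 0)) (hM.fs' (DfnF.proj 1))

theorem d11 : Dfn W W fun w : Fin 2 → ZFSet.{0} => q11 (w 0) (w 1) := by
  have hB := hM.base
  unfold q11
  (repeat' first
      | exact DfnF.proj _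
      | apply Dfn.not | apply Dfn.and | apply Dfn.or
      | apply Dfn.mem | apply hB.pair' | apply hM.fs' | apply hM.sn')

theorem d12 : Dfn W W fun w : Fin 2 → ZFSet.{0} => q12 (w 0) (w 1) := by
  have hB := hM.base
  unfold q12
  (repeat' first
      | exact DfnF.proj _
      | apply Dfn.not | apply Dfn.and | apply Dfn.or
      | apply Dfn.mem | apply hB.pair' | apply hM.fs' | apply hM.sn')

theorem d13 : Dfn W W fun w : Fin 2 → ZFSet.{0} => q13 (w 0) (w 1) := by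
  have hB := hM.base
  unfold q13
  (repeat' first
      | exact DfnF.proj _
      | apply fld' hM
      | apply Dfn.not | apply Dfn.and | apply Dfn.or
      | apply Dfn.eq
      | apply Dfn.mem | apply hB.pair' | apply hM.fs' | apply hM.sn')

theorem d14 : Dfn W W fun w : Fin 2 → ZFSet.{0} => q14 (w 0) (w 1) := by
  have hB := hM.base
  unfold q14
  (repeat' first
      | exact DfnF.proj _
      | apply Dfn.not | apply Dfn.and | apply Dfn.or
      | apply Dfn.eq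
      | apply Dfn.mem | apply hB.pair' | apply hM.fs' | apply hM.sn')

theorem d15 : Dfn W W fun w : Fin 2 → ZFSet.{0} => q15 (w 0) (w 1) :=
  Dfn.mem (hM.base.pair' (DfnF.proj 0) (DfnF.proj 0)) (DfnF.proj 1)

theorem d16 : Dfn W W fun w : Fin 2 → ZFSet.{0} => q16 (w 0) (w 1) :=
  (fld' hM (DfnF.proj 1) (DfnF.proj 0)).and
    (Dfn.mem (hM.base.pair' (DfnF.proj 0) (DfnF.proj 0)) (DfnF.proj 1)).not

theorem d17 : Dfn W W fun w : Fin 2 → ZFSet.{0} => q17 W (w 0) (w 1) := by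
  have hB := hM.base
  have h0 := hM.infinity
  unfold q17
  (repeat' first
      | exact DfnF.proj _
      | exact DfnF.const h0
      | apply fld' hM
      | apply Dfn.not | apply Dfn.and | apply Dfn.or | apply Dfn.imp
      | apply hB.bex | apply hB.ball | apply Dfn.ex | apply Dfn.all
      | apply Dfn.eq
      | apply Dfn.mem | apply hB.pair')

theorem d18 : Dfn W W fun w : Fin 2 → ZFSet.{0} => q18 (w 0) (w 1) := by
  have hB := hM.base
  unfold q18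
  (repeat' first
      | exact DfnF.proj _
      | apply fld' hM
      | apply Dfn.not | apply Dfn.and | apply Dfn.or | apply Dfn.imp
      | apply hB.ball
      | apply Dfn.eq
      | apply Dfn.mem | apply hB.pair' | apply hM.fs' | apply hM.sn')

theorem dQs : ∀ i, Dfn W W fun w : Fin 2 → ZFSet.{0} => Qs W i (w 0) (w 1) := by
  intro i
  fin_cases i
  exacts [d0 hM, d1 hM, d2 hM, d3 hM, d4 hM, d5 hM, d6, d7 hM, d8 hM, d9 hM, d10 hM, d11 hM,
    d12 hM, d13 hM, d14 hM, d15 hM, d16 hM, d17 hM, d18 hM]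

end

/-! ### Sizes -/

theorem inj_un {W : Set ZFSet.{0}} (hW : IsZFC W) {κ x y : ZFSet.{0}} (hκ : κ ∈ W)
    (hκo : κ.IsOrdinal) (hω : ZFSet.omega ⊆ κ) (hx : x ∈ W) (hy : y ∈ W) (h1 : Inj W x κ)
    (h2 : Inj W y κ) : Inj W (x ∪ y) κ := by
  have hM := hW.toIsZF
  have h3 : Inj W {x, y} κ :=
    Inj.trans hM (hM.pairing _ hx _ hy) hκ (upair_countable hM hx hy)
      (Inj.of_subset hM hM.infinity hκ hω)
  have h4 := inj_union hW hκ hκo hω (hM.pairing _ hx _ hy) h3 (by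
      intro u hu
      rcases ZFSet.mem_pair.1 hu with rfl | rfl
      · exact h1
      · exact h2)
  rwa [ZFSet.sUnion_pair] at h4

theorem ne_empty_pair (a b : ZFSet.{0}) : pair a b ≠ ∅ := by
  intro h
  have h1 : ({a} : ZFSet.{0}) ∈ pair a b := by simp [pair]
  rw [h] at h1
  exact ZFSet.notMem_empty _ h1

end PF2

open PF2

/-- The hull exists. -/
theorem exists_HullC {W : Set ZFSet.{0}} (hW : IsZFC W) {κ T lam : ZFSet.{0}} (hκ : κ ∈ W)
    (hκo : κ.IsOrdinal) (hκu : ¬ Inj W κ ZFSet.omega) (hT : T ∈ W) (hTκ : Inj W T κ)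
    (hl : lam ∈ W) : ∃ N, HullC W lam N ∧ T ⊆ N ∧ κ ⊆ N ∧ Inj W N κ := by
  have hM := hW.toIsZF
  have hω : ZFSet.omega ⊆ κ := by
    rcases hκo.mem_or_subset isOrdinal_omega with h2 | h2
    · exact absurd (Inj.of_subset hM hκ hM.infinity (isOrdinal_omega.subset_of_mem h2)) hκu
    · exact h2
  -- the set that is to be included
  have hsl : ({lam} : ZFSet.{0}) ∈ W := hM.single_mem hl
  have hBW : (T ∪ κ) ∪ {lam} ∈ W := hM.union_mem (hM.union_mem hT hκ) hsl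
  have hκκ : Inj W κ κ := Inj.of_subset hM hκ hκ fun _ h => h
  have hlκ : Inj W {lam} κ := by
    have h := upair_countable hM hl hl
    rw [ZFSet.pair_eq_singleton] at h
    exact Inj.trans hM hsl hκ h (Inj.of_subset hM hM.infinity hκ hω)
  have hBκ : Inj W ((T ∪ κ) ∪ {lam}) κ :=
    inj_un hW hκ hκo hω (hM.union_mem hT hκ) hsl (inj_un hW hκ hκo hω hT hκ hTκ hκκ) hlκ
  obtain ⟨N, hN, hBN, hNκ, hpr, hcl, hcv⟩ :=
    exists_hull hW (Qs W) (dQs hM) hκ hκo hκu hBW hBκ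
  have hTN : T ⊆ N := fun x hx =>
    hBN (ZFSet.mem_union.2 (Or.inl (ZFSet.mem_union.2 (Or.inl hx))))
  have hκN : κ ⊆ N := fun x hx =>
    hBN (ZFSet.mem_union.2 (Or.inl (ZFSet.mem_union.2 (Or.inr hx))))
  have hlN : lam ∈ N := hBN (ZFSet.mem_union.2 (Or.inr (ZFSet.mem_singleton.2 rfl)))
  have hωN : ZFSet.omega ⊆ N := fun x hx => hκN (hω hx)
  have hNW : ∀ a ∈ N, a ∈ W := fun a ha => hM.trans _ hN _ ha
  have hfs : ∀ a ∈ N, fs a ∈ N := by
    intro a ha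
    obtain ⟨b, hb, h1⟩ := hcl 0 a ha ⟨fs a, hM.fs_mem (hNW a ha), (rfl : q0 _ _)⟩
    exact (show b = fs a from h1) ▸ hb
  have hsn : ∀ a ∈ N, sn a ∈ N := by
    intro a ha
    obtain ⟨b, hb, h1⟩ := hcl 1 a ha ⟨sn a, hM.sn_mem (hNW a ha), (rfl : q1 _ _)⟩
    exact (show b = sn a from h1) ▸ hb
  have hwit : ∀ Y ∈ N, (∃ a, a ∈ Y) → ∃ a ∈ N, a ∈ Y := by
    intro Y hY ⟨a, ha⟩
    exact hcl 6 Y hY ⟨a, hM.trans _ (hNW Y hY) _ ha, (ha : q6 _ _)⟩
  have hap : ∀ f ∈ N, ∀ i ∈ N, ∀ y, pair i y ∈ f → ∃ y' ∈ N, pair i y' ∈ f := by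
    intro f hf i hi y hy
    obtain ⟨y', hy', h1⟩ := hcl 10 (pair f i) (hpr f hf i hi)
      ⟨y, (hM.of_pair_mem (hM.trans _ (hNW f hf) _ hy)).2, by
        show pair (sn (pair f i)) y ∈ fs (pair f i)
        rwa [fs_pair, sn_pair]⟩
    refine ⟨y', hy', ?_⟩
    have h2 : pair (sn (pair f i)) y' ∈ fs (pair f i) := h1
    rwa [fs_pair, sn_pair] at h2
  have hlp : ∀ z ∈ N, LpS (CofW W) z ∈ N := by
    intro z hz
    have h0 : LpS (CofW W) z ∈ W :=
      (lpS' hM (DfnF.proj (0 : Fin 1))).1 (fun _ => z) fun _ => hNW z hz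
    obtain ⟨b, hb, h1⟩ := hcl 3 z hz ⟨_, h0, (rfl : q3 W _ _)⟩
    exact (show b = LpS (CofW W) z from h1) ▸ hb
  have hfld : ∀ R ∈ N, ∀ x ∈ N, Fld R x → Fld (R ∩ ZFSet.prod N N) x := by
    intro R hR x hx ⟨y, hy⟩
    have hyW : y ∈ W := by
      rcases hy with hy | hy
      · exact (hM.of_pair_mem (hM.trans _ (hNW R hR) _ hy)).2
      · exact (hM.of_pair_mem (hM.trans _ (hNW R hR) _ hy)).1
    obtain ⟨y', hy', h1⟩ := hcl 12 (pair R x) (hpr R hR x hx) ⟨y, hyW, by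
      show pair (sn (pair R x)) y ∈ fs (pair R x) ∨ pair y (sn (pair R x)) ∈ fs (pair R x)
      rwa [fs_pair, sn_pair]⟩
    have h2 : pair (sn (pair R x)) y' ∈ fs (pair R x) ∨ pair y' (sn (pair R x)) ∈ fs (pair R x) :=
      h1
    rw [fs_pair, sn_pair] at h2
    rcases h2 with h2 | h2
    · exact ⟨y', Or.inl (ZFSet.mem_inter.2 ⟨h2, ZFSet.pair_mem_prod.2 ⟨hx, hy'⟩⟩)⟩
    · exact ⟨y', Or.inr (ZFSet.mem_inter.2 ⟨h2, ZFSet.pair_mem_prod.2 ⟨hy', hx⟩⟩)⟩
  have hut : ∀ {n : ℕ} (v : Fin n → ZFSet.{0}), tup v ∈ N → ∀ i, v i ∈ N := by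
    intro n
    induction n with
    | zero => exact fun _ _ i => i.elim0
    | succ n ih =>
      intro v hv i
      have h1 := hfs _ hv
      have h2 := hsn _ hv
      rw [tup, fs_pair] at h1
      rw [tup, sn_pair] at h2
      refine Fin.cases ?_ (fun i => ?_) i
      · exact h1
      · exact ih (Fin.tail v) h2 i
  have htr : ∀ R ∈ N, ∀ {p : ZFSet.{0}}, p ∈ R → p ∈ W := fun R hR p hp =>
    hM.trans _ (hNW R hR) _ hp
  refine ⟨N, ⟨hN, hωN, hlN, hpr, hfs, hsn, ?_, ?_, ?_, ?_, ?_, hwit, ?_, ?_, ?_, ?_, ?_, hcv⟩,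
    hTN, hκN, hNκ⟩
  · -- diff
    intro x hx y hy hxy
    have hex : ∃ z, (z ∈ x ∧ z ∉ y) ∨ (z ∉ x ∧ z ∈ y) := by
      by_contra hno
      push Not at hno
      apply hxy
      ext z
      constructor
      · exact (hno z).1
      · intro hz
        by_contra hz'
        exact (hno z).2 hz' hz
    obtain ⟨z, hz⟩ := hex
    have hzW : z ∈ W := by
      rcases hz with hz | hz
      · exact htr x hx hz.1
      · exact htr y hy hz.2
    obtain ⟨b, hb, h1⟩ := hcl 2 (pair x y) (hpr x hx y hy) ⟨z, hzW, by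
      show (z ∈ fs (pair x y) ∧ z ∉ sn (pair x y)) ∨ (z ∉ fs (pair x y) ∧ z ∈ sn (pair x y))
      rwa [fs_pair, sn_pair]⟩
    refine ⟨b, hb, ?_⟩
    have h2 : (b ∈ fs (pair x y) ∧ b ∉ sn (pair x y)) ∨
      (b ∉ fs (pair x y) ∧ b ∈ sn (pair x y)) := h1
    rwa [fs_pair, sn_pair] at h2
  · -- lp
    intro β hβ
    rw [← LpS_eq]
    exact hlp _ hβ
  · -- rel
    intro β hβ n φ
    have h0 : Lp (CofW W) β ∈ W := by
      rw [← LpS_eq]
      exact hNW _ (hlp _ hβ)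
    obtain ⟨f, hf, h1, h2, h3⟩ := rels_countable (K := fun _ => CofW W) (dfnK2 hM) hW
      hM.empty_mem h0
    obtain ⟨g, hg, h4⟩ := hcl 9 β.toZFSet hβ ⟨f, hf, by
      refine (⟨fun i _ R _ R' _ h5 h6 => h2 i R R' h5 h6, ?_⟩ : q9 W f β.toZFSet)
      rw [LpS_eq]
      exact h3⟩
    have h4' : q9 W g β.toZFSet := h4
    obtain ⟨h5, h6⟩ := h4'
    rw [LpS_eq] at h6
    have h7 : pair (pw (Lp (CofW W) β) n) (rl (CofW W) (Lp (CofW W) β) φ) ∈
        Rels (CofW W) (Lp (CofW W) β) := by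
      rw [Rels, ZFSet.mem_range]
      exact ⟨⟨n, φ⟩, rfl⟩
    obtain ⟨i, hi, h8⟩ := h6 _ h7
    obtain ⟨y, hy, h9⟩ := hap g hg i (hωN hi) _ h8
    have h10 := h5 i (hNW _ (hωN hi)) _ (hM.of_pair_mem (htr g hg h8)).2 y (hNW y hy) h8 h9
    rw [← h10] at hy
    have h11 := hsn _ hy
    rwa [sn_pair] at h11
  · -- sct
    intro R hR q hq X hX
    have h0 : ZFSet.sep (fun a => pair a q ∈ R) X ∈ W := by
      refine hM.sep_mem (Q := fun a => pair a q ∈ R) ?_ (hNW X hX)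
      exact Dfn.mem (hM.base.pair' (DfnF.proj 0) (DfnF.const (hNW q hq))) (DfnF.const (hNW R hR))
    obtain ⟨b, hb, h1⟩ := hcl 4 (pair R (pair q X)) (hpr _ hR _ (hpr _ hq _ hX)) ⟨_, h0, by
      show _ = ZFSet.sep (fun z => pair z (fs (sn (pair R (pair q X)))) ∈ fs (pair R (pair q X)))
        (sn (sn (pair R (pair q X))))
      rw [sn_pair, sn_pair, fs_pair, fs_pair]⟩
    have h2 : b = ZFSet.sep (fun z => pair z (fs (sn (pair R (pair q X)))) ∈
      fs (pair R (pair q X))) (sn (sn (pair R (pair q X)))) := h1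
    rw [sn_pair, sn_pair, fs_pair, fs_pair] at h2
    rwa [← h2]
  · -- sct2
    intro R hR q hq X hX
    have h0 : ZFSet.sep (fun p => ∃ a b, p = pair a b ∧ pair a (pair b q) ∈ R)
        (ZFSet.prod X X) ∈ W := by
      have hB := hM.base
      refine hM.sep_mem (Q := fun p => ∃ a b, p = pair a b ∧ pair a (pair b q) ∈ R) ?_
        (hM.prod_mem (hNW X hX) (hNW X hX))
      have hqW := hNW q hq
      have hRW := hNW R hR
      have h : Dfn W W fun w : Fin 1 → ZFSet.{0} => ∃ z ∈ W, ∃ z' ∈ W, w 0 = pair z z' ∧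
          pair z (pair z' q) ∈ R := by
        (repeat' first
        | exact DfnF.proj _
        | exact DfnF.const hqW
        | exact DfnF.const hRW
        | apply Dfn.ex | apply Dfn.and
        | apply Dfn.eq | apply Dfn.mem | apply hB.pair')
      refine h.congr fun v hv => ?_
      constructor
      · rintro ⟨z, -, z', -, h1, h2⟩
        exact ⟨z, z', h1, h2⟩
      · rintro ⟨z, z', h1, h2⟩
        have h3 := hM.of_pair_mem (h1 ▸ hv 0)
        exact ⟨z, h3.1, z', h3.2, h1, h2⟩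
    obtain ⟨b, hb, h1⟩ := hcl 5 (pair R (pair q X)) (hpr _ hR _ (hpr _ hq _ hX)) ⟨_, h0, by
      show _ = ZFSet.sep (fun p => ∃ z z', p = pair z z' ∧
        pair z (pair z' (fs (sn (pair R (pair q X))))) ∈ fs (pair R (pair q X)))
        (ZFSet.prod (sn (sn (pair R (pair q X)))) (sn (sn (pair R (pair q X)))))
      rw [sn_pair, sn_pair, fs_pair, fs_pair]⟩
    have h2 : b = ZFSet.sep (fun p => ∃ z z', p = pair z z' ∧
        pair z (pair z' (fs (sn (pair R (pair q X))))) ∈ fs (pair R (pair q X)))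
        (ZFSet.prod (sn (sn (pair R (pair q X)))) (sn (sn (pair R (pair q X))))) := h1
    rw [sn_pair, sn_pair, fs_pair, fs_pair] at h2
    rwa [← h2]
  · -- lev
    intro x hx β hβ hxβ
    obtain ⟨γ, hγ, h1⟩ := mem_Lp.1 hxβ
    have hγβ : γ.toZFSet ∈ β.toZFSet := Ordinal.mem_toZFSet_iff.2 ⟨γ, hγ, rfl⟩
    obtain ⟨b, hb, h2⟩ := hcl 7 (pair x β.toZFSet) (hpr _ hx _ hβ)
      ⟨γ.toZFSet, htr _ hβ hγβ, by
        show γ.toZFSet ∈ sn (pair x β.toZFSet) ∧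
          fs (pair x β.toZFSet) ∈ DefQ (CofW W) (LpS (CofW W) γ.toZFSet)
        rw [sn_pair, fs_pair, LpS_eq]
        exact ⟨hγβ, h1⟩⟩
    have h3 : b ∈ sn (pair x β.toZFSet) ∧
          fs (pair x β.toZFSet) ∈ DefQ (CofW W) (LpS (CofW W) b) := h2
    rw [sn_pair, fs_pair] at h3
    obtain ⟨γ', hγ', rfl⟩ := Ordinal.mem_toZFSet_iff.1 h3.1
    refine ⟨γ', hγ', hb, ?_⟩
    rw [← LpS_eq]
    exact h3.2
  · -- par
    intro x hx γ hγ hxγ
    obtain ⟨n, φ, v, hv, hxe⟩ := mem_defQ_iff.1 hxγ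
    have hXN : Lp (CofW W) γ ∈ N := by
      rw [← LpS_eq]
      exact hlp _ hγ
    have hXW := hNW _ hXN
    by_cases hne : ∃ z, z ∈ Lp (CofW W) γ
    · obtain ⟨z0, hz0⟩ := hne
      have hPW : pw (Lp (CofW W) γ) n ∈ W :=
        (dfn_pw hM n (DfnF.proj (0 : Fin 1))).1 (fun _ => Lp (CofW W) γ) fun _ => hXW
      have hRW : rl (CofW W) (Lp (CofW W) γ) φ ∈ W :=
        rl_mem hM (K := fun _ => CofW W) (dfnK2 hM) hM.empty_mem hXW φ
      have hvP : tup v ∈ pw (Lp (CofW W) γ) n := mem_pw.2 ⟨v, hv, rfl⟩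
      have hvW : tup v ∈ W := hM.trans _ hPW _ hvP
      obtain ⟨b, hb, h1⟩ := hcl 8 (pair x γ.toZFSet) (hpr _ hx _ hγ)
        ⟨pair (rl (CofW W) (Lp (CofW W) γ) φ) (tup v), hM.pair_mem hRW hvW, by
          refine (⟨pw (Lp (CofW W) γ) n, hPW, ?_⟩ :
            q8 W (pair (rl (CofW W) (Lp (CofW W) γ) φ) (tup v)) (pair x γ.toZFSet))
          rw [sn_pair, fs_pair, LpS_eq, sn_pair, fs_pair]
          refine ⟨?_, hvP, hxe⟩
          rw [Rels, ZFSet.mem_range]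
          exact ⟨⟨n + 1, φ⟩, rfl⟩⟩
      have h2 : q8 W b (pair x γ.toZFSet) := h1
      obtain ⟨P, hP, h3, h4, h5⟩ := h2
      rw [sn_pair, LpS_eq] at h3 h5
      rw [fs_pair] at h5
      rw [Rels, ZFSet.mem_range] at h3
      obtain ⟨⟨m, ψ⟩, h6⟩ := h3
      obtain ⟨h7, h8⟩ := ZFSet.pair_inj.1 h6
      cases m with
      | zero =>
        exfalso
        have h9 : (∅ : ZFSet.{0}) ∈ ZFSet.prod (Lp (CofW W) γ) P := by
          rw [← h7]
          exact ZFSet.mem_singleton.2 rfl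
        obtain ⟨a, -, c, -, h10⟩ := ZFSet.mem_prod.1 h9
        exact ne_empty_pair _ _ h10.symm
      | succ m =>
        have h9 : sn b ∈ pw (Lp (CofW W) γ) m := by
          have h10 : pair z0 (sn b) ∈ ZFSet.prod (Lp (CofW W) γ) P :=
            ZFSet.pair_mem_prod.2 ⟨hz0, h4⟩
          rw [← h7] at h10
          exact (ZFSet.pair_mem_prod.1 h10).2
        obtain ⟨u, hu, hu'⟩ := mem_pw.1 h9
        refine ⟨m, ψ, u, fun i => ⟨hut u (hu' ▸ hsn _ hb) i, hu i⟩, ?_⟩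
        rw [h5, ← hu']
        congr 1
        funext a
        exact congrArg (fun r => pair a (sn b) ∈ r) h8.symm
    · have h1 : ∀ z, z ∉ Lp (CofW W) γ := fun z hz => hne ⟨z, hz⟩
      refine ⟨0, .eq 0 0, Fin.elim0, fun i => i.elim0, ?_⟩
      rw [hxe]
      ext z
      rw [ZFSet.mem_sep, ZFSet.mem_sep]
      exact ⟨fun h => absurd h.1 (h1 z), fun h => absurd h.1 (h1 z)⟩
  · -- lin
    intro R hR hlin
    obtain ⟨l1, l2, l3, l4⟩ := hlin
    have hRW : ∀ {a b}, pair a b ∈ R → a ∈ W ∧ b ∈ W := fun h => hM.of_pair_mem (htr R hR h)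
    have hin : ∀ {a b}, a ∈ N → b ∈ N → (pair a b ∈ R ∩ ZFSet.prod N N ↔ pair a b ∈ R) := by
      intro a b ha hb
      rw [ZFSet.mem_inter, ZFSet.pair_mem_prod]
      exact ⟨fun h => h.1, fun h => ⟨h, ha, hb⟩⟩
    have hFW : ∀ {a}, Fld R a → a ∈ W := by
      rintro a ⟨b, h | h⟩
      · exact (hRW h).1
      · exact (hRW h).2
    refine ⟨?_, ?_, ?_, ?_⟩
    · intro a b c hab hbc
      by_contra hac
      obtain ⟨t, ht, h1⟩ := hcl 11 R hR ⟨pair a (pair b c),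
        hM.pair_mem (hRW hab).1 (hM.pair_mem (hRW hab).2 (hRW hbc).2), by
        show q11 (pair a (pair b c)) R
        rw [q11, sn_pair, sn_pair, fs_pair, fs_pair]
        exact ⟨hab, hbc, hac⟩⟩
      have h2 : q11 t R := h1
      obtain ⟨h3, h4, h5⟩ := h2
      have k1 := hfs t ht
      have k2 := hfs _ (hsn t ht)
      have k3 := hsn _ (hsn t ht)
      exact h5 ((hin k1 k3).1 (l1 _ _ _ ((hin k1 k2).2 h3) ((hin k2 k3).2 h4)))
    · intro a b ha hb hab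
      by_contra hno
      push Not at hno
      obtain ⟨t, ht, h1⟩ := hcl 13 R hR ⟨pair a b, hM.pair_mem (hFW ha) (hFW hb), by
        show q13 (pair a b) R
        rw [q13, sn_pair, fs_pair]
        exact ⟨ha, hb, hab, hno.1, hno.2⟩⟩
      have h2 : q13 t R := h1
      obtain ⟨h3, h4, h5, h6, h7⟩ := h2
      have k1 := hfs t ht
      have k2 := hsn t ht
      rcases l2 _ _ (hfld R hR _ k1 h3) (hfld R hR _ k2 h4) h5 with h8 | h8
      · exact h6 ((hin k1 k2).1 h8)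
      · exact h7 ((hin k2 k1).1 h8)
    · intro a b hab hba
      by_contra hno
      obtain ⟨t, ht, h1⟩ := hcl 14 R hR ⟨pair a b, hM.pair_mem (hRW hab).1 (hRW hab).2, by
        show q14 (pair a b) R
        rw [q14, sn_pair, fs_pair]
        exact ⟨hab, hba, hno⟩⟩
      have h2 : q14 t R := h1
      obtain ⟨h3, h4, h5⟩ := h2
      have k1 := hfs t ht
      have k2 := hsn t ht
      exact h5 (l3 _ _ ((hin k1 k2).2 h3) ((hin k2 k1).2 h4))
    · by_contra hno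
      push Not at hno
      obtain ⟨⟨a, ha⟩, b, hb, hb'⟩ := hno
      obtain ⟨t, ht, h1⟩ := hcl 15 R hR ⟨a, (hRW ha).1, (ha : q15 a R)⟩
      obtain ⟨s, hs, h2⟩ := hcl 16 R hR ⟨b, hFW hb, (⟨hb, hb'⟩ : q16 b R)⟩
      have h3 : pair t t ∈ R := h1
      have h4 : Fld R s ∧ pair s s ∉ R := h2
      rcases l4 with h5 | h5
      · exact h5 t ((hin ht ht).2 h3)
      · exact h4.2 ((hin hs hs).1 (h5 s (hfld R hR s hs h4.1)))
  · -- cof
    rintro R hR ⟨-, g, hg, h1, h2⟩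
    have hgm : ∀ {i y}, pair i y ∈ sqSet g ↔ ∃ n : ℕ, i = nat n ∧ y = g n := by
      intro i y
      rw [sqSet, ZFSet.mem_range]
      constructor
      · rintro ⟨n, hn⟩
        obtain ⟨h3, h4⟩ := ZFSet.pair_inj.1 hn
        exact ⟨n, h3.symm, h4.symm⟩
      · rintro ⟨n, rfl, rfl⟩
        exact ⟨n, rfl⟩
    have hgW : ∀ n, g n ∈ W := fun n =>
      (hM.of_pair_mem (hM.trans _ hg _ (hgm.2 ⟨n, rfl, rfl⟩))).2
    obtain ⟨t, ht, h3⟩ := hcl 17 R hR ⟨sqSet g, hg, by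
      refine (⟨?_, ?_, ?_, ?_, ?_⟩ : q17 W (sqSet g) R)
      · intro p hp
        rw [sqSet, ZFSet.mem_range] at hp
        obtain ⟨n, rfl⟩ := hp
        exact ⟨nat n, mem_omega_iff.2 ⟨n, rfl⟩, g n, hgW n, rfl⟩
      · intro i hi
        obtain ⟨n, rfl⟩ := mem_omega_iff.1 hi
        exact ⟨g n, hgW n, hgm.2 ⟨n, rfl, rfl⟩⟩
      · intro i _ y _ y' _ h4 h5
        obtain ⟨n, h6, rfl⟩ := hgm.1 h4
        obtain ⟨m, h7, rfl⟩ := hgm.1 h5
        rw [nat_injective (h6.symm.trans h7)]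
      · intro i _ j _ hij y _ z _ h4 h5
        obtain ⟨n, rfl, rfl⟩ := hgm.1 h4
        obtain ⟨m, rfl, rfl⟩ := hgm.1 h5
        have h6 : n < m := by
          rw [nat_eq, nat_eq, Ordinal.mem_toZFSet_iff] at hij
          obtain ⟨a, ha, ha'⟩ := hij
          rw [Ordinal.toZFSet_injective ha'] at ha
          exact_mod_cast ha
        exact h1 n m h6
      · intro x _ hx
        obtain ⟨n, hn⟩ := h2 x hx
        exact ⟨nat n, mem_omega_iff.2 ⟨n, rfl⟩, g n, hgW n, hgm.2 ⟨n, rfl, rfl⟩, hn⟩⟩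
    have h4 : q17 W t R := h3
    obtain ⟨e1, e2, e3, e4, e5⟩ := h4
    have e6 : ∀ n : ℕ, ∃ y ∈ N, pair (nat n) y ∈ t := by
      intro n
      obtain ⟨y, -, hy⟩ := e2 (nat n) (mem_omega_iff.2 ⟨n, rfl⟩)
      exact hap t ht (nat n) (hωN (mem_omega_iff.2 ⟨n, rfl⟩)) y hy
    choose u hu hu' using e6
    have e7 : ∀ {n : ℕ} {y : ZFSet.{0}}, pair (nat n) y ∈ t → y = u n := by
      intro n y hy
      exact e3 (nat n) (hM.nat_mem n) y (hM.of_pair_mem (htr t ht hy)).2 (u n) (hNW _ (hu n)) hy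
        (hu' n)
    have e8 : sqSet u = t := by
      ext p
      rw [sqSet, ZFSet.mem_range]
      constructor
      · rintro ⟨n, rfl⟩
        exact hu' n
      · intro hp
        obtain ⟨i, hi, y, -, rfl⟩ := e1 p hp
        obtain ⟨n, rfl⟩ := mem_omega_iff.1 hi
        exact ⟨n, by rw [e7 hp]⟩
    refine ⟨u, e8 ▸ ht, hu, ?_, ?_⟩
    · intro m n hmn
      have h5 : nat m ∈ nat n := by
        rw [nat_eq, nat_eq, Ordinal.mem_toZFSet_iff]
        exact ⟨m, by exact_mod_cast hmn, rfl⟩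
      exact e4 (nat m) (mem_omega_iff.2 ⟨m, rfl⟩) (nat n) (mem_omega_iff.2 ⟨n, rfl⟩) h5 (u m)
        (hNW _ (hu m)) (u n) (hNW _ (hu n)) (hu' m) (hu' n)
    · intro a ha
      have haW : a ∈ W := by
        obtain ⟨b, h | h⟩ := ha
        · exact (hM.of_pair_mem (htr R hR h)).1
        · exact (hM.of_pair_mem (htr R hR h)).2
      obtain ⟨i, hi, y, -, h5, h6⟩ := e5 a haW ha
      obtain ⟨n, rfl⟩ := mem_omega_iff.1 hi
      refine ⟨n, ?_⟩
      rwa [← e7 h5]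
  · -- bd
    rintro R hR N' hN' ⟨b, hb, h1⟩
    have hbW : b ∈ W := by
      obtain ⟨c, h | h⟩ := hb
      · exact (hM.of_pair_mem (htr R hR h)).1
      · exact (hM.of_pair_mem (htr R hR h)).2
    obtain ⟨t, ht, h2⟩ := hcl 18 (pair R N') (hpr _ hR _ hN') ⟨b, hbW, by
      show q18 b (pair R N')
      rw [q18, fs_pair, sn_pair]
      exact ⟨hb, h1⟩⟩
    have h3 : q18 t (pair R N') := h2
    rw [q18, fs_pair, sn_pair] at h3
    exact ⟨t, ht, h3⟩

end Pool.Agent.helper797_it
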