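import Pool.Agent.helper797_it.PA4

/-! # F5: the cofinality quantifier and the collapse -/

set_option autoImplicit false
namespace Pool.Agent.helper797_it
open Pool.Agent.W868 Pool.Agent.R587 Pool.Agent.helper797_cs
open ZFSet (pair)

namespace PF5

/-- The collapsed relation. -/
noncomputable def rb (N R X : ZFSet.{0}) : ZFSet.{0} :=
  ZFSet.sep (fun p => ∃ a ∈ N, ∃ b ∈ N, pair a b ∈ R ∧
      p = pair (col N a) (col N b)) (ZFSet.prod (im (col N) X) (im (col N) X))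

theorem xt_of {W : Set ZFSet.{0}} {lam N : ZFSet.{0}} (hN : HullC W lam N) : Xt N := by
  intro x hx y hy h
  by_contra hne
  obtain ⟨z, hz, h1⟩ := hN.diff x hx y hy hne
  rcases h1 with h1 | h1
  · exact h1.2 ((h z hz).1 h1.1)
  · exact h1.1 ((h z hz).2 h1.2)

theorem pair_mem_rb {N R X : ZFSet.{0}} (hRX : R ⊆ ZFSet.prod X X) {x y : ZFSet.{0}} :
    pair x y ∈ rb N R X ↔ ∃ a ∈ N, ∃ b ∈ N, pair a b ∈ R ∧ x = col N a ∧ y = col N b := by
  rw [rb, ZFSet.mem_sep]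
  constructor
  · rintro ⟨-, a, ha, b, hb, h1, h2⟩
    obtain ⟨rfl, rfl⟩ := ZFSet.pair_inj.1 h2
    exact ⟨a, ha, b, hb, h1, rfl, rfl⟩
  · rintro ⟨a, ha, b, hb, h1, rfl, rfl⟩
    have h2 := ZFSet.pair_mem_prod.1 (hRX h1)
    exact ⟨ZFSet.pair_mem_prod.2 ⟨mem_im.2 ⟨a, h2.1, rfl⟩, mem_im.2 ⟨b, h2.2, rfl⟩⟩,
      a, ha, b, hb, h1, rfl⟩

theorem col_pair_iff {N R X : ZFSet.{0}} (hXt : Xt N) (hRX : R ⊆ ZFSet.prod X X) {a b : ZFSet.{0}}
    (ha : a ∈ N) (hb : b ∈ N) : pair (col N a) (col N b) ∈ rb N R X ↔ pair a b ∈ R := by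
  rw [pair_mem_rb hRX]
  constructor
  · rintro ⟨a', ha', b', hb', h1, h2, h3⟩
    obtain rfl := col_inj hXt a ha a' ha' h2
    obtain rfl := col_inj hXt b hb b' hb' h3
    exact h1
  · intro h1
    exact ⟨a, ha, b, hb, h1, rfl, rfl⟩

theorem fld_rb {N R X : ZFSet.{0}} (hRX : R ⊆ ZFSet.prod X X) {x : ZFSet.{0}} :
    Fld (rb N R X) x ↔ ∃ a ∈ N, x = col N a ∧ ∃ b ∈ N, pair a b ∈ R ∨ pair b a ∈ R := by
  constructor
  · rintro ⟨y, h | h⟩
    · obtain ⟨a, ha, b, hb, h1, rfl, rfl⟩ := (pair_mem_rb hRX).1 h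
      exact ⟨a, ha, rfl, b, hb, Or.inl h1⟩
    · obtain ⟨b, hb, a, ha, h1, rfl, rfl⟩ := (pair_mem_rb hRX).1 h
      exact ⟨a, ha, rfl, b, hb, Or.inr h1⟩
  · rintro ⟨a, ha, rfl, b, hb, h | h⟩
    · exact ⟨col N b, Or.inl ((pair_mem_rb hRX).2 ⟨a, ha, b, hb, h, rfl, rfl⟩)⟩
    · exact ⟨col N b, Or.inr ((pair_mem_rb hRX).2 ⟨b, hb, a, ha, h, rfl, rfl⟩)⟩

theorem isLin_rb {N R X : ZFSet.{0}} (hXt : Xt N) (hRX : R ⊆ ZFSet.prod X X) (h : IsLin R) :
    IsLin (rb N R X) := by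
  obtain ⟨h1, h2, h3, h4⟩ := h
  refine ⟨?_, ?_, ?_, ?_⟩
  · intro x y z hxy hyz
    obtain ⟨a, ha, b, hb, hab, rfl, rfl⟩ := (pair_mem_rb hRX).1 hxy
    obtain ⟨b', hb', c, hc, hbc, e, rfl⟩ := (pair_mem_rb hRX).1 hyz
    obtain rfl := col_inj hXt b hb b' hb' e
    exact (col_pair_iff hXt hRX ha hc).2 (h1 a b c hab hbc)
  · intro x y hx hy hne
    obtain ⟨a, ha, rfl, b, -, hab⟩ := (fld_rb hRX).1 hx
    obtain ⟨a', ha', rfl, b', -, hab'⟩ := (fld_rb hRX).1 hy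
    have hne' : a ≠ a' := fun e => hne (by rw [e])
    rcases h2 a a' ⟨b, hab⟩ ⟨b', hab'⟩ hne' with h5 | h5
    · exact Or.inl ((col_pair_iff hXt hRX ha ha').2 h5)
    · exact Or.inr ((col_pair_iff hXt hRX ha' ha).2 h5)
  · intro x y hxy hyx
    obtain ⟨a, ha, b, hb, hab, rfl, rfl⟩ := (pair_mem_rb hRX).1 hxy
    rw [col_pair_iff hXt hRX hb ha] at hyx
    rw [h3 a b hab hyx]
  · rcases h4 with h4 | h4
    · left
      intro x hx
      obtain ⟨a, ha, b, hb, hab, e1, e2⟩ := (pair_mem_rb hRX).1 hx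
      obtain rfl := col_inj hXt a ha b hb (e1.symm.trans e2)
      exact h4 a hab
    · right
      intro x hx
      obtain ⟨a, ha, rfl, b, -, hab⟩ := (fld_rb hRX).1 hx
      exact (col_pair_iff hXt hRX ha ha).2 (h4 a ⟨b, hab⟩)

theorem mem_restr {N R a b : ZFSet.{0}} :
    pair a b ∈ R ∩ ZFSet.prod N N ↔ pair a b ∈ R ∧ a ∈ N ∧ b ∈ N := by
  rw [ZFSet.mem_inter, ZFSet.pair_mem_prod]

theorem isLin_restr {N R X : ZFSet.{0}} (hXt : Xt N) (hRX : R ⊆ ZFSet.prod X X)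
    (h : IsLin (rb N R X)) : IsLin (R ∩ ZFSet.prod N N) := by
  obtain ⟨h1, h2, h3, h4⟩ := h
  have hf : ∀ a, Fld (R ∩ ZFSet.prod N N) a → a ∈ N ∧ Fld (rb N R X) (col N a) := by
    rintro a ⟨b, hb | hb⟩
    · rw [mem_restr] at hb
      exact ⟨hb.2.1, col N b, Or.inl ((col_pair_iff hXt hRX hb.2.1 hb.2.2).2 hb.1)⟩
    · rw [mem_restr] at hb
      exact ⟨hb.2.2, col N b, Or.inr ((col_pair_iff hXt hRX hb.2.1 hb.2.2).2 hb.1)⟩
  refine ⟨?_, ?_, ?_, ?_⟩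
  · intro a b c hab hbc
    rw [mem_restr] at hab hbc ⊢
    exact ⟨(col_pair_iff hXt hRX hab.2.1 hbc.2.2).1 (h1 _ _ _
      ((col_pair_iff hXt hRX hab.2.1 hab.2.2).2 hab.1)
      ((col_pair_iff hXt hRX hbc.2.1 hbc.2.2).2 hbc.1)), hab.2.1, hbc.2.2⟩
  · intro a b ha hb hne
    obtain ⟨ha, ha'⟩ := hf a ha
    obtain ⟨hb, hb'⟩ := hf b hb
    have hne' : col N a ≠ col N b := fun e => hne (col_inj hXt a ha b hb e)
    rcases h2 _ _ ha' hb' hne' with h5 | h5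
    · exact Or.inl (mem_restr.2 ⟨(col_pair_iff hXt hRX ha hb).1 h5, ha, hb⟩)
    · exact Or.inr (mem_restr.2 ⟨(col_pair_iff hXt hRX hb ha).1 h5, hb, ha⟩)
  · intro a b hab hba
    rw [mem_restr] at hab hba
    exact col_inj hXt a hab.2.1 b hab.2.2 (h3 _ _ ((col_pair_iff hXt hRX hab.2.1 hab.2.2).2 hab.1)
      ((col_pair_iff hXt hRX hba.2.1 hba.2.2).2 hba.1))
  · rcases h4 with h4 | h4
    · left
      intro a ha
      rw [mem_restr] at ha
      exact h4 _ ((col_pair_iff hXt hRX ha.2.1 ha.2.1).2 ha.1)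
    · right
      intro a ha
      obtain ⟨ha, ha'⟩ := hf a ha
      exact mem_restr.2 ⟨(col_pair_iff hXt hRX ha ha).1 (h4 _ ha'), ha, ha⟩

theorem mem_sqSet {g : ℕ → ZFSet.{0}} {p : ZFSet.{0}} :
    p ∈ sqSet g ↔ ∃ n, p = pair (nat n) (g n) := by
  unfold sqSet
  rw [ZFSet.mem_range]
  exact ⟨fun ⟨n, h⟩ => ⟨n, h.symm⟩, fun ⟨n, h⟩ => ⟨n, h.symm⟩⟩

theorem pair_mem_sqSet {g : ℕ → ZFSet.{0}} {n : ℕ} {y : ZFSet.{0}} :
    pair (nat n) y ∈ sqSet g ↔ y = g n := by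
  rw [mem_sqSet]
  constructor
  · rintro ⟨m, h⟩
    obtain ⟨h1, rfl⟩ := ZFSet.pair_inj.1 h
    rw [nat_injective h1]
  · rintro rfl
    exact ⟨n, rfl⟩

end PF5

open PF5 in
/-- The cofinality quantifier and the collapse. -/
theorem cof_col {W : Set ZFSet.{0}} (hW : IsZFC W) {lam N : ZFSet.{0}} (hN : HullC W lam N)
    {R : ZFSet.{0}} (hR : R ∈ N) {X : ZFSet.{0}} (hX : X ∈ W) (hXt : ∀ x ∈ X, ∀ y ∈ x, y ∈ X)
    (hRX : R ⊆ ZFSet.prod X X) :
    CofW W R ↔ CofW W (ZFSet.sep (fun p => ∃ a ∈ N, ∃ b ∈ N, pair a b ∈ R ∧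
      p = pair (col N a) (col N b)) (ZFSet.prod (im (col N) X) (im (col N) X))) := by
  have hM : IsZF W := hW.toIsZF
  have hB := hM.base
  have hx := xt_of hN
  have hc := dfn_col hM hN.mem
  change CofW W R ↔ CofW W (rb N R X)
  constructor
  · intro h
    obtain ⟨g, hg1, hg2, hg3, hg4⟩ := hN.cof R hR h
    refine ⟨isLin_rb hx hRX h.1, fun n => col N (g n), ?_, ?_, ?_⟩
    · have h1 : sqSet (fun n => col N (g n)) = im (fun p => pair (fs p) (col N (sn p))) (sqSet g) := by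
        ext p
        rw [mem_sqSet, mem_im]
        constructor
        · rintro ⟨n, rfl⟩
          refine ⟨pair (nat n) (g n), mem_sqSet.2 ⟨n, rfl⟩, ?_⟩
          rw [fs_pair, sn_pair]
        · rintro ⟨q, hq, rfl⟩
          obtain ⟨n, rfl⟩ := mem_sqSet.1 hq
          exact ⟨n, by rw [fs_pair, sn_pair]⟩
      rw [h1]
      refine hM.im_mem (hM.trans _ hN.mem _ hg1) (h := fun p => pair (fs p) (col N (sn p))) ?_
      exact hB.pair' (hM.fs' (DfnF.proj 0)) (DfnF.comp1 (f := col N) hc (hM.sn' (DfnF.proj 0)))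
    · intro m n hmn
      obtain ⟨h1, h2⟩ := hg3 m n hmn
      exact ⟨fun e => h1 (col_inj hx _ (hg2 m) _ (hg2 n) e), (col_pair_iff hx hRX (hg2 m) (hg2 n)).2 h2⟩
    · intro x hx'
      obtain ⟨a, ha, rfl, b, -, hab⟩ := (fld_rb hRX).1 hx'
      obtain ⟨n, hn⟩ := hg4 a ⟨b, hab⟩
      exact ⟨n, (col_pair_iff hx hRX ha (hg2 n)).2 hn⟩
  · rintro ⟨hlin, g, hg1, hg2, hg3⟩
    have hL : IsLin R := hN.lin R hR (isLin_restr hx hRX hlin)
    obtain ⟨hL1, hL2, hL3, hL4⟩ := hL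
    -- pull the sequence back
    have h1 : ∀ n, ∃ a ∈ N, g n = col N a ∧ ∃ b ∈ N, pair a b ∈ R ∨ pair b a ∈ R := by
      intro n
      exact (fld_rb hRX).1 ⟨g (n + 1), Or.inl (hg2 n (n + 1) (Nat.lt_succ_self n)).2⟩
    choose f hf1 hf2 hf3 using h1
    have hfld : ∀ n, Fld R (f n) := fun n => by
      obtain ⟨b, -, hb⟩ := hf3 n
      exact ⟨b, hb⟩
    have hinc : ∀ m n, m < n → f m ≠ f n ∧ pair (f m) (f n) ∈ R := by
      intro m n hmn
      obtain ⟨h2, h3⟩ := hg2 m n hmn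
      rw [hf2 m, hf2 n] at h2 h3
      exact ⟨fun e => h2 (by rw [e]), (col_pair_iff hx hRX (hf1 m) (hf1 n)).1 h3⟩
    have hinj : Function.Injective f := by
      intro m n e
      rcases Nat.lt_trichotomy m n with h2 | h2 | h2
      · exact absurd e (hinc m n h2).1
      · exact h2
      · exact absurd e.symm (hinc n m h2).1
    have hfW : sqSet f ∈ W := by
      have h2 : sqSet f = ZFSet.sep (fun p => pair (fs p) (col N (sn p)) ∈ sqSet g)
          (ZFSet.prod ZFSet.omega N) := by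
        ext p
        rw [mem_sqSet, ZFSet.mem_sep]
        constructor
        · rintro ⟨n, rfl⟩
          refine ⟨ZFSet.pair_mem_prod.2 ⟨mem_omega_iff.2 ⟨n, rfl⟩, hf1 n⟩, ?_⟩
          rw [fs_pair, sn_pair, pair_mem_sqSet, hf2 n]
        · rintro ⟨h3, h4⟩
          obtain ⟨a, ha, b, hb, rfl⟩ := ZFSet.mem_prod.1 h3
          obtain ⟨n, rfl⟩ := mem_omega_iff.1 ha
          rw [fs_pair, sn_pair, pair_mem_sqSet, hf2 n] at h4
          exact ⟨n, by rw [col_inj hx b hb (f n) (hf1 n) h4]⟩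
      rw [h2]
      refine hM.sep_mem (Q := fun p => pair (fs p) (col N (sn p)) ∈ sqSet g) ?_
        (hM.prod_mem hM.infinity hN.mem)
      exact Dfn.mem (hB.pair' (hM.fs' (DfnF.proj 0)) (DfnF.comp1 (f := col N) hc (hM.sn' (DfnF.proj 0))))
        (DfnF.const hg1)
    -- the range
    have hcW : im sn (sqSet f) ∈ W := hM.im_mem hfW (h := sn) (hM.sn' (DfnF.proj 0))
    have hmc : ∀ y, y ∈ im sn (sqSet f) ↔ ∃ n, y = f n := by
      intro y
      rw [mem_im]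
      constructor
      · rintro ⟨p, hp, rfl⟩
        obtain ⟨n, rfl⟩ := mem_sqSet.1 hp
        exact ⟨n, sn_pair _ _⟩
      · rintro ⟨n, rfl⟩
        exact ⟨pair (nat n) (f n), mem_sqSet.2 ⟨n, rfl⟩, (sn_pair _ _).symm⟩
    have hcN : im sn (sqSet f) ⊆ N := by
      intro y hy
      obtain ⟨n, rfl⟩ := (hmc y).1 hy
      exact hf1 n
    have hcc : Inj W (im sn (sqSet f)) ZFSet.omega := by
      refine Inj.of_rel hM hcW hM.infinity (R := fun a b => pair b a ∈ sqSet f) ?_ ?_ ?_ ?_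
      · exact Dfn.mem (hB.pair' (DfnF.proj 1) (DfnF.proj 0)) (DfnF.const hfW)
      · intro a ha
        obtain ⟨n, rfl⟩ := (hmc a).1 ha
        exact ⟨nat n, mem_omega_iff.2 ⟨n, rfl⟩, pair_mem_sqSet.2 rfl⟩
      · intro a _ b hb b' hb' h3 h4
        obtain ⟨n, rfl⟩ := mem_omega_iff.1 hb
        obtain ⟨m, rfl⟩ := mem_omega_iff.1 hb'
        rw [pair_mem_sqSet] at h3 h4
        rw [hinj (h3.symm.trans h4)]
      · intro a _ a' _ b hb h3 h4
        obtain ⟨n, rfl⟩ := mem_omega_iff.1 hb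
        rw [pair_mem_sqSet] at h3 h4
        rw [h3, h4]
    obtain ⟨N', hN', h5, h6⟩ := hN.cvr _ hcW hcN hcc
    -- elements of `N` in the field of `R` are below some `f n`
    have hbelow : ∀ a ∈ N, Fld R a → ∃ n, pair a (f n) ∈ R := by
      intro a ha hfa
      have h7 : Fld (rb N R X) (col N a) := by
        rw [fld_rb hRX]
        by_cases he : a = f 0
        · subst he
          exact ⟨f 0, hf1 0, rfl, hf3 0⟩
        · exact ⟨a, ha, rfl, f 0, hf1 0, hL2 a (f 0) hfa (hfld 0) he⟩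
      obtain ⟨n, hn⟩ := hg3 _ h7
      rw [hf2 n] at hn
      exact ⟨n, (col_pair_iff hx hRX ha (hf1 n)).1 hn⟩
    refine ⟨⟨hL1, hL2, hL3, hL4⟩, f, hfW, hinc, ?_⟩
    intro a ha
    by_contra hcon
    push Not at hcon
    have hne : ∀ n, a ≠ f n := by
      rintro n rfl
      exact hcon (n + 1) (hinc n (n + 1) (Nat.lt_succ_self n)).2
    have hlt : ∀ n, pair (f n) a ∈ R := by
      intro n
      rcases hL2 a (f n) ha (hfld n) (hne n) with h7 | h7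
      · exact absurd h7 (hcon n)
      · exact h7
    obtain ⟨b, hb, hfb, h8⟩ := hN.bd R hR N' hN' ⟨a, ha, fun a' ha' hfa' => by
      obtain ⟨n, hn⟩ := hbelow a' (h6 ha') hfa'
      refine ⟨hL1 _ _ _ hn (hlt n), ?_⟩
      rintro rfl
      exact hcon n hn⟩
    obtain ⟨n, hn⟩ := hbelow b hb hfb
    obtain ⟨h9, h10⟩ := h8 (f n) (h5 ((hmc _).2 ⟨n, rfl⟩)) (hfld n)
    exact h10 (hL3 _ _ h9 hn)

end Pool.Agent.helper797_it
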