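import Pool.Agent.helper797_it.PF2
import Pool.Agent.helper797_it.PF5
import Pool.Agent.helper797_cs.PW2a

/-! # F6: condensation -/

set_option autoImplicit false
namespace Pool.Agent.helper797_it
open Pool.Agent.W868 Pool.Agent.R587 Pool.Agent.helper797_cs
open ZFSet (pair)

namespace PF6

/-- The collapse of an ordinal is an ordinal. -/
theorem col_isOrdinal (N : ZFSet.{0}) : ∀ x : ZFSet.{0}, x.IsOrdinal → (col N x).IsOrdinal := by
  intro x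
  induction x using ZFSet.inductionOn with
  | _ x ih =>
  intro hx
  rw [ZFSet.isOrdinal_iff_forall_mem_isOrdinal]
  constructor
  · intro y hy z hz
    obtain ⟨u, hu, hu', rfl⟩ := mem_col.1 hy
    obtain ⟨w, hw, hw', rfl⟩ := mem_col.1 hz
    exact mem_col.2 ⟨w, hx.mem_trans hw hu, hw', rfl⟩
  · intro y hy
    obtain ⟨u, hu, hu', rfl⟩ := mem_col.1 hy
    exact ih u hu (hx.mem hu)

/-- The ordinal that is the collapse of `β`. -/
noncomputable def cr (N : ZFSet.{0}) (β : Ordinal.{0}) : Ordinal.{0} := (col N β.toZFSet).rank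

theorem cr_to (N : ZFSet.{0}) (β : Ordinal.{0}) : (cr N β).toZFSet = col N β.toZFSet :=
  (col_isOrdinal N _ (ZFSet.isOrdinal_toZFSet β)).toZFSet_rank_eq

theorem lt_cr {N : ZFSet.{0}} {β δ : Ordinal.{0}} :
    δ < cr N β ↔ ∃ γ < β, γ.toZFSet ∈ N ∧ δ = cr N γ := by
  rw [← Ordinal.toZFSet_mem_toZFSet_iff, cr_to, mem_col]
  constructor
  · rintro ⟨u, hu, huN, h⟩
    obtain ⟨γ, hγ, rfl⟩ := Ordinal.mem_toZFSet_iff.1 hu
    exact ⟨γ, hγ, huN, Ordinal.toZFSet_injective (by rw [cr_to, h])⟩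
  · rintro ⟨γ, hγ, hN, rfl⟩
    exact ⟨γ.toZFSet, Ordinal.toZFSet_mem_toZFSet_iff.2 hγ, hN, cr_to N γ⟩

theorem pair_tup_mem_rl {K : ZFSet.{0} → Prop} {X a : ZFSet.{0}} {n : ℕ} {φ : FmQ (n + 1)}
    {v : Fin n → ZFSet.{0}} (ha : a ∈ X) (hv : ∀ i, v i ∈ X) :
    pair a (tup v) ∈ rl K X φ ↔ φ.Sat K X (Fin.cons a v) := by
  rw [rl, ZFSet.mem_sep, ← tup_cons]
  constructor
  · rintro ⟨-, w, hw, h⟩
    rw [tup_inj hw]
    exact h
  · intro h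
    refine ⟨mem_pw.2 ⟨_, fun i => ?_, rfl⟩, _, rfl, h⟩
    refine Fin.cases ?_ (fun i => ?_) i
    · exact ha
    · exact hv i

section

variable {W : Set ZFSet.{0}} {lam N : ZFSet.{0}} (hN : HullC W lam N)

include hN

theorem xt : Xt N := by
  intro x hx y hy h
  by_contra hne
  obtain ⟨z, hz, h1⟩ := hN.diff x hx y hy hne
  have h2 := h z hz
  tauto

theorem empty_mem : (∅ : ZFSet.{0}) ∈ N :=
  hN.om ZFSet.omega_zero

theorem tup_mem : {n : ℕ} → {v : Fin n → ZFSet.{0}} → (∀ i, v i ∈ N) → tup v ∈ N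
  | 0, _, _ => empty_mem hN
  | _ + 1, _, hv => hN.pr _ (hv 0) _ (tup_mem fun _ => hv _)

/-- The section is in `N`. -/
theorem sec_mem {β : Ordinal.{0}} (hβ : β.toZFSet ∈ N) {n : ℕ} (φ : FmQ (n + 1))
    {v : Fin n → ZFSet.{0}} (hv : ∀ i, v i ∈ N) :
    ZFSet.sep (fun a => pair a (tup v) ∈ rl (CofW W) (Lp (CofW W) β) φ) (Lp (CofW W) β) ∈ N :=
  hN.sct _ (hN.rel β hβ φ) _ (tup_mem hN hv) _ (hN.lp β hβ)

end

/-- The first part of the main claim. -/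
def P1 (W : Set ZFSet.{0}) (N : ZFSet.{0}) (β : Ordinal.{0}) : Prop :=
  ∀ y, y ∈ Lp (CofW W) (cr N β) ↔ ∃ x ∈ N, x ∈ Lp (CofW W) β ∧ y = col N x

/-- The second part of the main claim. -/
def P2 (W : Set ZFSet.{0}) (N : ZFSet.{0}) (β : Ordinal.{0}) : Prop :=
  ∀ {n : ℕ} (φ : FmQ n) (v : Fin n → ZFSet.{0}), (∀ i, v i ∈ N ∧ v i ∈ Lp (CofW W) β) →
    (φ.Sat (CofW W) (Lp (CofW W) β) v ↔
      φ.Sat (CofW W) (Lp (CofW W) (cr N β)) fun i => col N (v i))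

theorem cons_col (N a : ZFSet.{0}) {n : ℕ} (v : Fin n → ZFSet.{0}) :
    (Fin.cons (col N a) (fun i => col N (v i)) : Fin (n + 1) → ZFSet.{0}) =
      fun i => col N ((Fin.cons a v : Fin (n + 1) → ZFSet.{0}) i) := by
  funext i
  refine Fin.cases ?_ (fun i => ?_) i
  · rfl
  · rfl

theorem cons_all {Q : ZFSet.{0} → Prop} {a : ZFSet.{0}} {n : ℕ} {v : Fin n → ZFSet.{0}}
    (ha : Q a) (hv : ∀ i, Q (v i)) : ∀ i, Q ((Fin.cons a v : Fin (n + 1) → ZFSet.{0}) i) := by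
  intro i
  refine Fin.cases ?_ (fun i => ?_) i
  · exact ha
  · exact hv i

/-- The second part follows from the first part. -/
theorem p2_of_p1 {W : Set ZFSet.{0}} (hW : IsZFC W) {lam N : ZFSet.{0}} (hN : HullC W lam N)
    {β : Ordinal.{0}} (hβ : β.toZFSet ∈ N) (h1 : P1 W N β) : P2 W N β := by
  intro n φ
  have hX : Lp (CofW W) β ∈ W := hW.trans _ hN.mem _ (hN.lp β hβ)
  induction φ with
  | mem i j => exact fun v hv => (col_mem_iff (xt hN) (hv i).1).symm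
  | eq i j =>
    intro v hv
    exact ⟨fun h => congrArg (col N) h, fun h => col_inj (xt hN) _ (hv i).1 _ (hv j).1 h⟩
  | neg φ ih => exact fun v hv => not_congr (ih v hv)
  | and φ ψ ih1 ih2 => exact fun v hv => and_congr (ih1 v hv) (ih2 v hv)
  | ex φ ih =>
    intro v hv
    have hc : ∀ a, a ∈ N → a ∈ Lp (CofW W) β →
        (φ.Sat (CofW W) (Lp (CofW W) β) (Fin.cons a v) ↔
          φ.Sat (CofW W) (Lp (CofW W) (cr N β)) (Fin.cons (col N a) fun i => col N (v i))) := by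
      intro a ha ha'
      rw [cons_col]
      exact ih _ (cons_all (Q := fun x => x ∈ N ∧ x ∈ Lp (CofW W) β) ⟨ha, ha'⟩ hv)
    constructor
    · rintro ⟨a, ha, h⟩
      have h2 := sec_mem hN hβ φ (v := v) fun i => (hv i).1
      obtain ⟨b, hb, hb'⟩ := hN.wit _ h2 ⟨a, ZFSet.mem_sep.2
        ⟨ha, (pair_tup_mem_rl ha fun i => (hv i).2).2 h⟩⟩
      rw [ZFSet.mem_sep] at hb'
      refine ⟨col N b, (h1 _).2 ⟨b, hb, hb'.1, rfl⟩, (hc b hb hb'.1).1 ?_⟩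
      exact (pair_tup_mem_rl hb'.1 fun i => (hv i).2).1 hb'.2
    · rintro ⟨b, hb, h⟩
      obtain ⟨a, ha, ha', rfl⟩ := (h1 _).1 hb
      exact ⟨a, ha', (hc a ha ha').2 h⟩
  | qcf φ ih =>
    intro v hv
    have hc : ∀ a b, a ∈ N → a ∈ Lp (CofW W) β → b ∈ N → b ∈ Lp (CofW W) β →
        (φ.Sat (CofW W) (Lp (CofW W) β) (Fin.cons a (Fin.cons b v)) ↔
          φ.Sat (CofW W) (Lp (CofW W) (cr N β))
            (Fin.cons (col N a) (Fin.cons (col N b) fun i => col N (v i)))) := by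
      intro a b ha ha' hb hb'
      rw [cons_col, cons_col]
      exact ih _ (cons_all (Q := fun x => x ∈ N ∧ x ∈ Lp (CofW W) β) ⟨ha, ha'⟩
        (cons_all (Q := fun x => x ∈ N ∧ x ∈ Lp (CofW W) β) ⟨hb, hb'⟩ hv))
    -- the relation
    have hR : ZFSet.sep (fun p => ∃ a ∈ Lp (CofW W) β, ∃ b ∈ Lp (CofW W) β, p = pair a b ∧
        φ.Sat (CofW W) (Lp (CofW W) β) (Fin.cons a (Fin.cons b v)))
          (ZFSet.prod (Lp (CofW W) β) (Lp (CofW W) β)) =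
        ZFSet.sep (fun p => ∃ a b, p = pair a b ∧
          pair a (pair b (tup v)) ∈ rl (CofW W) (Lp (CofW W) β) φ)
          (ZFSet.prod (Lp (CofW W) β) (Lp (CofW W) β)) := by
      ext p
      rw [ZFSet.mem_sep, ZFSet.mem_sep]
      refine and_congr_right fun hp => ?_
      constructor
      · rintro ⟨a, ha, b, hb, rfl, h⟩
        refine ⟨a, b, rfl, ?_⟩
        rw [← tup_cons]
        exact (pair_tup_mem_rl ha (cons_all (Q := fun x => x ∈ Lp (CofW W) β) hb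
          fun i => (hv i).2)).2 h
      · rintro ⟨a, b, rfl, h⟩
        obtain ⟨ha, hb⟩ := ZFSet.pair_mem_prod.1 hp
        refine ⟨a, ha, b, hb, rfl, ?_⟩
        rw [← tup_cons] at h
        exact (pair_tup_mem_rl ha (cons_all (Q := fun x => x ∈ Lp (CofW W) β) hb
          fun i => (hv i).2)).1 h
    have hRN : ZFSet.sep (fun p => ∃ a ∈ Lp (CofW W) β, ∃ b ∈ Lp (CofW W) β, p = pair a b ∧
        φ.Sat (CofW W) (Lp (CofW W) β) (Fin.cons a (Fin.cons b v)))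
          (ZFSet.prod (Lp (CofW W) β) (Lp (CofW W) β)) ∈ N := by
      rw [hR]
      exact hN.sct2 _ (hN.rel β hβ φ) _ (tup_mem hN fun i => (hv i).1) _ (hN.lp β hβ)
    have hk := cof_col hW hN hRN hX (lp_trans _ β)
      (fun p hp => (ZFSet.mem_sep.1 hp).1)
    refine hk.trans ?_
    show _ ↔ CofW W _
    have he : ∀ {A B : ZFSet.{0}}, A = B → (CofW W A ↔ CofW W B) := fun h => by rw [h]
    apply he
    ext p
    rw [ZFSet.mem_sep, ZFSet.mem_sep]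
    constructor
    · rintro ⟨-, a, ha, b, hb, h, rfl⟩
      obtain ⟨-, a', ha', b', hb', h2, h3⟩ := ZFSet.mem_sep.1 h
      obtain ⟨rfl, rfl⟩ := ZFSet.pair_inj.1 h2
      have hA := (h1 _).2 ⟨a, ha, ha', rfl⟩
      have hB := (h1 _).2 ⟨b, hb, hb', rfl⟩
      exact ⟨ZFSet.pair_mem_prod.2 ⟨hA, hB⟩, _, hA, _, hB, rfl, (hc a b ha ha' hb hb').1 h3⟩
    · rintro ⟨-, a, hA, b, hB, rfl, h⟩
      obtain ⟨a, ha, ha', rfl⟩ := (h1 _).1 hA
      obtain ⟨b, hb, hb', rfl⟩ := (h1 _).1 hB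
      refine ⟨ZFSet.pair_mem_prod.2 ⟨mem_im.2 ⟨a, ha', rfl⟩, mem_im.2 ⟨b, hb', rfl⟩⟩,
        a, ha, b, hb, ?_, rfl⟩
      exact ZFSet.mem_sep.2 ⟨ZFSet.pair_mem_prod.2 ⟨ha', hb'⟩, a, ha', b, hb', rfl,
        (hc a b ha ha' hb hb').2 h⟩

/-- The collapse of a section. -/
theorem col_sec {W : Set ZFSet.{0}} {N : ZFSet.{0}}
    {γ : Ordinal.{0}} (h1 : P1 W N γ) (h2 : P2 W N γ) {n : ℕ} (φ : FmQ (n + 1))
    {v : Fin n → ZFSet.{0}} (hv : ∀ i, v i ∈ N ∧ v i ∈ Lp (CofW W) γ) (y : ZFSet.{0}) :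
    y ∈ col N (ZFSet.sep (fun a => pair a (tup v) ∈ rl (CofW W) (Lp (CofW W) γ) φ)
      (Lp (CofW W) γ)) ↔ y ∈ Lp (CofW W) (cr N γ) ∧
        φ.Sat (CofW W) (Lp (CofW W) (cr N γ)) (Fin.cons y fun i => col N (v i)) := by
  have hc : ∀ a, a ∈ N → a ∈ Lp (CofW W) γ →
      (φ.Sat (CofW W) (Lp (CofW W) γ) (Fin.cons a v) ↔
        φ.Sat (CofW W) (Lp (CofW W) (cr N γ)) (Fin.cons (col N a) fun i => col N (v i))) := by
    intro a ha ha'
    rw [cons_col]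
    exact h2 _ _ (cons_all (Q := fun x => x ∈ N ∧ x ∈ Lp (CofW W) γ) ⟨ha, ha'⟩ hv)
  rw [mem_col]
  constructor
  · rintro ⟨a, ha, haN, rfl⟩
    rw [ZFSet.mem_sep] at ha
    exact ⟨(h1 _).2 ⟨a, haN, ha.1, rfl⟩,
      (hc a haN ha.1).1 ((pair_tup_mem_rl ha.1 fun i => (hv i).2).1 ha.2)⟩
  · rintro ⟨hy, h⟩
    obtain ⟨a, ha, ha', rfl⟩ := (h1 _).1 hy
    exact ⟨a, ZFSet.mem_sep.2 ⟨ha', (pair_tup_mem_rl ha' fun i => (hv i).2).2
      ((hc a ha ha').2 h)⟩, ha, rfl⟩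

/-- The induction step for the first part. -/
theorem p1_step {W : Set ZFSet.{0}} {lam N : ZFSet.{0}} (hN : HullC W lam N)
    {β : Ordinal.{0}} (hβ : β.toZFSet ∈ N)
    (ih : ∀ γ < β, γ.toZFSet ∈ N → P1 W N γ ∧ P2 W N γ) : P1 W N β := by
  intro y
  constructor
  · intro hy
    obtain ⟨δ, hδ, hy⟩ := mem_Lp.1 hy
    obtain ⟨γ, hγ, hγN, rfl⟩ := lt_cr.1 hδ
    obtain ⟨h1, h2⟩ := ih γ hγ hγN
    rw [DefQ, ZFSet.mem_sep] at hy
    obtain ⟨-, n, φ, w, hw, h3⟩ := hy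
    choose v hvN hvL hvw using fun i => (h1 (w i)).1 (hw i)
    obtain rfl : w = fun i => col N (v i) := funext hvw
    refine ⟨ZFSet.sep (fun a => pair a (tup v) ∈ rl (CofW W) (Lp (CofW W) γ) φ)
      (Lp (CofW W) γ), sec_mem hN hγN φ hvN, mem_Lp.2 ⟨γ, hγ, ?_⟩, ?_⟩
    · exact mem_defQ_iff.2 ⟨n, φ, v, hvL, rfl⟩
    · ext z
      rw [h3, col_sec h1 h2 φ fun i => ⟨hvN i, hvL i⟩]
  · rintro ⟨x, hx, hxL, rfl⟩
    obtain ⟨γ, hγ, hγN, hxD⟩ := hN.lev x hx β hβ hxL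
    obtain ⟨h1, h2⟩ := ih γ hγ hγN
    obtain ⟨n, φ, v, hv, hxe⟩ := hN.par x hx γ hγN hxD
    refine mem_Lp.2 ⟨cr N γ, lt_cr.2 ⟨γ, hγ, hγN, rfl⟩, ?_⟩
    rw [DefQ, ZFSet.mem_sep]
    have h3 := col_sec h1 h2 φ hv
    rw [← hxe] at h3
    refine ⟨ZFSet.mem_powerset.2 fun z hz => ((h3 z).1 hz).1, n, φ, fun i => col N (v i),
      fun i => (h1 _).2 ⟨v i, (hv i).1, (hv i).2, rfl⟩, h3⟩

theorem main {W : Set ZFSet.{0}} (hW : IsZFC W) {lam N : ZFSet.{0}} (hN : HullC W lam N)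
    (β : Ordinal.{0}) : β.toZFSet ∈ N → P1 W N β ∧ P2 W N β := by
  induction β using WellFoundedLT.induction with
  | _ β ih =>
  intro hβ
  have h1 := p1_step hN hβ ih
  exact ⟨h1, p2_of_p1 hW hN hβ h1⟩

end PF6

/-- The main claim. -/
theorem col_lp {W : Set ZFSet.{0}} (hW : IsZFC W) {lam : Ordinal.{0}} {N : ZFSet.{0}}
    (hN : HullC W lam.toZFSet N) (β : Ordinal.{0}) (hβ : β.toZFSet ∈ N) :
    (∀ y, y ∈ Lp (CofW W) (col N β.toZFSet).rank ↔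
      ∃ x ∈ N, x ∈ Lp (CofW W) β ∧ y = col N x) ∧
    ∀ {n : ℕ} (φ : FmQ n) (v : Fin n → ZFSet.{0}), (∀ i, v i ∈ N ∧ v i ∈ Lp (CofW W) β) →
      (φ.Sat (CofW W) (Lp (CofW W) β) v ↔
        φ.Sat (CofW W) (Lp (CofW W) (col N β.toZFSet).rank) fun i => col N (v i)) :=
  PF6.main hW hN β hβ

/-- Condensation. -/
theorem cond {W : Set ZFSet.{0}} (hW : IsZFC W) {κ T x : ZFSet.{0}} (hκ : κ ∈ W)
    (hκo : κ.IsOrdinal) (hκu : ¬ Inj W κ ZFSet.omega) (hT : T ∈ W)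
    (hTt : ∀ y ∈ T, ∀ z ∈ y, z ∈ T) (hTκ : Inj W T κ) (hx : x ∈ T) (hxC : x ∈ Cst W) :
    ∃ α : Ordinal.{0}, α.toZFSet ∈ W ∧ Inj W α.toZFSet κ ∧ x ∈ Lp (CofW W) α := by
  obtain ⟨lam, hl, hxl⟩ := hxC
  obtain ⟨N, hN, hTN, hκN, hNκ⟩ := exists_HullC hW hκ hκo hκu hT hTκ hl
  have hM : IsZF W := hW.toIsZF
  have h1 := (col_lp hW hN lam hN.top).1
  have hα : (col N lam.toZFSet).rank.toZFSet = col N lam.toZFSet := PF6.cr_to N lam
  have hαW : col N lam.toZFSet ∈ W := (dfn_col hM hN.mem).1 (fun _ => lam.toZFSet) fun _ => hl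
  refine ⟨(col N lam.toZFSet).rank, by rw [hα]; exact hαW, ?_, ?_⟩
  · rw [hα]
    refine Inj.trans hM hαW hκ (y := N) ?_ hNκ
    have hR : Dfn W W fun w : Fin 2 → ZFSet.{0} => w 0 = col N (w 1) :=
      Dfn.eq (DfnF.proj 0) (DfnF.comp1 (f := col N) (dfn_col hM hN.mem) (DfnF.proj 1))
    refine Inj.of_rel hM hαW hN.mem (R := fun a b => a = col N b) hR ?_ ?_ ?_
    · intro a ha
      obtain ⟨u, -, huN, rfl⟩ := mem_col.1 ha
      exact ⟨u, huN, rfl⟩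
    · intro a _ b hb b' hb' h h'
      exact col_inj (PF6.xt hN) b hb b' hb' (h.symm.trans h')
    · intro a _ a' _ b _ h h'
      exact h.trans h'.symm
  · rw [h1]
    exact ⟨x, hTN hx, hxl, (col_fix hTt hTN x hx).symm⟩

end Pool.Agent.helper797_it
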