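/-
F7 of project CITER (owner helper797, MP_2817f0_lc + MP_1d770b_lc: iterated C*, two full answers), proved by helper635.

PROOF.
lp_small: induction on beta. L'_beta is the union of the sets Def(L'_gamma) for gamma < beta; each of them injects into kappa
(induction hypothesis and defQ_small), the set of them is an image of beta, so it injects into kappa; the union step is inj_union
(which contains the use of the axiom of choice).
real_bound: let a = omega_1 be the witness of U2 W b. For x in E let D be the set of the unordered pairs {m, n}, m, n in omega,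
T = {x} ∪ (omega x omega ∪ (D ∪ omega)); T is transitive (x is a subset of omega x omega) and injects into a (the squares of
infinite ordinals: sq_inj; images: Inj.image; unions: inj_union). cond with kappa = a gives alpha with Inj W alpha a and x in
L'_alpha. As b does not inject into a, alpha is in b, so x is in L'_(rank b). So E is a subset of L'_(rank b), and this set
injects into b by lp_small with kappa = b.
-/
import Pool.Agent.helper797_it.PF6
import Pool.Agent.helper797_it.PE5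

/-! # F7: sizes of levels, number of the reals of `C*` -/

set_option autoImplicit false
namespace Pool.Agent.helper797_it
open Pool.Agent.W868 Pool.Agent.R587 Pool.Agent.helper797_cs
open ZFSet (pair)

namespace PF7

theorem lp_mono {K : ZFSet.{0} → Prop} {α β : Ordinal.{0}} (h : α ≤ β) : Lp K α ⊆ Lp K β := by
  intro x hx
  obtain ⟨γ, hγ, h1⟩ := mem_Lp.1 hx
  exact mem_Lp.2 ⟨γ, hγ.trans_le h, h1⟩

theorem lp_eq (K : ZFSet.{0} → Prop) (β : Ordinal.{0}) :
    Lp K β = ZFSet.sUnion (im (fun u => DefQ K (LpS K u)) β.toZFSet) := by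
  ext x
  rw [← LpS_eq, mem_LpS, ZFSet.mem_sUnion]
  constructor
  · rintro ⟨u, hu, h⟩
    exact ⟨_, mem_im.2 ⟨u, hu, rfl⟩, h⟩
  · rintro ⟨z, hz, h⟩
    obtain ⟨u, hu, rfl⟩ := mem_im.1 hz
    exact ⟨u, hu, h⟩

theorem dfn_step {M : Set ZFSet.{0}} (hM : IsZF M) {K : ZFSet.{0} → Prop}
    (hK : Dfn M M fun w : Fin 1 → ZFSet.{0} => K (w 0)) :
    DfnF M M fun w : Fin 1 → ZFSet.{0} => DefQ K (LpS K (w 0)) := by
  have hK' : Dfn M M fun w : Fin 2 → ZFSet.{0} => K (w 1) :=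
    Dfn.comp1 (Q := K) hK (DfnF.proj 1)
  have h1 := dfn_DefQ (K := fun _ => K) hM hK'
  exact DfnF.comp2 (f := fun _ b => DefQ K b) h1 (DfnF.proj 0) (dfn_LpS1 hM hK)

/-- An ordinal that is not a subset of `ω`, in the form that we need. -/
theorem omega_sub {W : Set ZFSet.{0}} (hW : IsZF W) {a c : ZFSet.{0}} (ha : a ∈ W)
    (hao : a.IsOrdinal) (hc : c ∈ W) (hω : ZFSet.omega ⊆ c) (h : ¬ Inj W a c) :
    ZFSet.omega ⊆ a := by
  rcases hao.mem_or_subset isOrdinal_omega with h1 | h1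
  · exfalso
    have h2 : a ⊆ ZFSet.omega := isOrdinal_omega.subset_of_mem h1
    exact h (Inj.of_subset hW ha hc fun z hz => hω (h2 hz))
  · exact h1

/-- The transitive set that is used for a set of pairs of natural numbers. -/
theorem exists_T {W : Set ZFSet.{0}} (hW : IsZFC W) {a x : ZFSet.{0}} (ha : a ∈ W)
    (hao : a.IsOrdinal) (hω : ZFSet.omega ⊆ a) (hx : x ∈ W)
    (hxs : x ⊆ ZFSet.prod ZFSet.omega ZFSet.omega) :
    ∃ T ∈ W, (∀ y ∈ T, ∀ z ∈ y, z ∈ T) ∧ Inj W T a ∧ x ∈ T := by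
  have hZ : IsZF W := hW.toIsZF
  have hB := hZ.base
  have hωW : ZFSet.omega ∈ W := hZ.infinity
  set P : ZFSet.{0} := ZFSet.prod ZFSet.omega ZFSet.omega with hP
  have hPW : P ∈ W := hZ.prod_mem hωW hωW
  have hf : DfnF W W fun w : Fin 1 → ZFSet.{0} => ({fs (w 0), sn (w 0)} : ZFSet.{0}) :=
    hB.upair' (hZ.fs' (DfnF.proj 0)) (hZ.sn' (DfnF.proj 0))
  set D : ZFSet.{0} := im (fun p => ({fs p, sn p} : ZFSet.{0})) P with hD
  have hDW : D ∈ W := hZ.im_mem hPW hf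
  have hωa : Inj W ZFSet.omega a := Inj.of_subset hZ hωW ha hω
  have hPa : Inj W P a :=
    Inj.trans hZ hPW ha (sq_inj hZ hωW isOrdinal_omega fun _ h => h) hωa
  have hDa : Inj W D a := Inj.image hZ hPW ha hao hPa hf
  -- the union
  set A : ZFSet.{0} := {({x} : ZFSet.{0}), P} with hA
  set A' : ZFSet.{0} := {D, ZFSet.omega} with hA'
  have hsx : ({x} : ZFSet.{0}) ∈ W := hZ.single_mem hx
  have hAW : A ∈ W := hZ.pairing _ hsx _ hPW
  have hA'W : A' ∈ W := hZ.pairing _ hDW _ hωW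
  have h0a : (∅ : ZFSet.{0}) ∈ a := hω ZFSet.omega_zero
  have h0W : (∅ : ZFSet.{0}) ∈ W := hZ.empty_mem
  have hsxa : Inj W ({x} : ZFSet.{0}) a := by
    refine Inj.of_fun hZ hsx ha (h := fun _ => ∅) (DfnF.const h0W) (fun _ _ => h0a) ?_
    intro u hu v hv _
    rw [ZFSet.mem_singleton] at hu hv
    rw [hu, hv]
  -- a pair of sets injects into `a`
  have h1ω : ({∅} : ZFSet.{0}) ∈ ZFSet.omega := by
    have h1 := ZFSet.omega_succ ZFSet.omega_zero
    have h2 : (insert ∅ ∅ : ZFSet.{0}) = {∅} := by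
      ext z
      simp
    rwa [h2] at h1
  have h1W : ({∅} : ZFSet.{0}) ∈ W := hZ.trans _ hωW _ h1ω
  have h01 : ({∅} : ZFSet.{0}) ≠ ∅ := by
    intro h
    have h2 : (∅ : ZFSet.{0}) ∈ ({∅} : ZFSet.{0}) := ZFSet.mem_singleton.2 rfl
    rw [h] at h2
    exact ZFSet.notMem_empty _ h2
  have hpair : ∀ u ∈ W, ∀ v ∈ W, Inj W ({u, v} : ZFSet.{0}) a := by
    intro u hu v hv
    refine Inj.of_rel hZ (hZ.pairing _ hu _ hv) ha
      (R := fun s t => (s = u ∧ t = ∅) ∨ (¬ s = u ∧ t = {∅})) ?_ ?_ ?_ ?_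
    · exact ((Dfn.eq (DfnF.proj 0) (DfnF.const hu)).and (Dfn.eq (DfnF.proj 1) (DfnF.const h0W))).or
        ((Dfn.eq (DfnF.proj 0) (DfnF.const hu)).not.and (Dfn.eq (DfnF.proj 1) (DfnF.const h1W)))
    · intro s _
      by_cases hs : s = u
      · exact ⟨∅, h0a, Or.inl ⟨hs, rfl⟩⟩
      · exact ⟨{∅}, hω h1ω, Or.inr ⟨hs, rfl⟩⟩
    · rintro s _ t _ t' _ (⟨h1, h2⟩ | ⟨h1, h2⟩) (⟨h3, h4⟩ | ⟨h3, h4⟩)
      · rw [h2, h4]
      · exact absurd h1 h3
      · exact absurd h3 h1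
      · rw [h2, h4]
    · rintro s hs s' hs' t _ (⟨h1, h2⟩ | ⟨h1, h2⟩) (⟨h3, h4⟩ | ⟨h3, h4⟩)
      · rw [h1, h3]
      · exact absurd (h4.symm.trans h2) h01
      · exact absurd (h2.symm.trans h4) h01
      · rw [ZFSet.mem_pair] at hs hs'
        rcases hs with hs | hs
        · exact absurd hs h1
        rcases hs' with hs' | hs'
        · exact absurd hs' h3
        rw [hs, hs']
  have hU : Inj W (ZFSet.sUnion A) a := by
    refine inj_union hW ha hao hω hAW (hpair _ hsx _ hPW) ?_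
    intro z hz
    rw [hA, ZFSet.mem_pair] at hz
    rcases hz with rfl | rfl
    · exact hsxa
    · exact hPa
  have hU' : Inj W (ZFSet.sUnion A') a := by
    refine inj_union hW ha hao hω hA'W (hpair _ hDW _ hωW) ?_
    intro z hz
    rw [hA', ZFSet.mem_pair] at hz
    rcases hz with rfl | rfl
    · exact hDa
    · exact hωa
  have hUW : ZFSet.sUnion A ∈ W := hZ.union _ hAW
  have hU'W : ZFSet.sUnion A' ∈ W := hZ.union _ hA'W
  set B : ZFSet.{0} := {ZFSet.sUnion A, ZFSet.sUnion A'} with hBd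
  have hBW : B ∈ W := hZ.pairing _ hUW _ hU'W
  have hT : Inj W (ZFSet.sUnion B) a := by
    refine inj_union hW ha hao hω hBW (hpair _ hUW _ hU'W) ?_
    intro z hz
    rw [hBd, ZFSet.mem_pair] at hz
    rcases hz with rfl | rfl
    · exact hU
    · exact hU'
  have hmem : ∀ z, z ∈ (ZFSet.sUnion B : ZFSet.{0}) ↔ (z = x ∨ z ∈ P) ∨ z ∈ D ∨ z ∈ ZFSet.omega := by
    intro z
    rw [hBd, ZFSet.sUnion_pair, ZFSet.mem_union, hA, hA', ZFSet.sUnion_pair, ZFSet.sUnion_pair,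
      ZFSet.mem_union, ZFSet.mem_union, ZFSet.mem_singleton]
  refine ⟨_, hZ.union _ hBW, ?_, hT, (hmem _).2 (Or.inl (Or.inl rfl))⟩
  intro y hy z hz
  rw [hmem] at hy ⊢
  rcases hy with (rfl | hy) | hy | hy
  · exact Or.inl (Or.inr (hxs hz))
  · obtain ⟨m, hm, n, hn, rfl⟩ := ZFSet.mem_prod.1 hy
    refine Or.inr (Or.inl ?_)
    rw [hD, mem_im]
    rw [pair, ZFSet.mem_pair] at hz
    rcases hz with rfl | rfl
    · refine ⟨pair m m, ZFSet.pair_mem_prod.2 ⟨hm, hm⟩, ?_⟩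
      rw [fs_pair, sn_pair, ZFSet.pair_eq_singleton]
    · refine ⟨pair m n, ZFSet.pair_mem_prod.2 ⟨hm, hn⟩, ?_⟩
      rw [fs_pair, sn_pair]
  · obtain ⟨p, hp, rfl⟩ := mem_im.1 hy
    obtain ⟨m, hm, n, hn, rfl⟩ := ZFSet.mem_prod.1 hp
    rw [fs_pair, sn_pair, ZFSet.mem_pair] at hz
    rcases hz with rfl | rfl
    · exact Or.inr (Or.inr hm)
    · exact Or.inr (Or.inr hn)
  · exact Or.inr (Or.inr (isOrdinal_omega.subset_of_mem hy hz))

end PF7

/-- The size of `L'_β`. -/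
theorem lp_small {W : Set ZFSet.{0}} (hW : IsZFC W) {β : Ordinal.{0}} (hβ : β.toZFSet ∈ W)
    {κ : ZFSet.{0}} (hκ : κ ∈ W) (hκo : κ.IsOrdinal) (hω : ZFSet.omega ⊆ κ)
    (h : Inj W β.toZFSet κ) : Inj W (Lp (CofW W) β) κ := by
  have hZ : IsZF W := hW.toIsZF
  have hK : Dfn W W fun w : Fin 1 → ZFSet.{0} => CofW W (w 0) := dfn_CofW hZ
  induction β using WellFoundedLT.induction with
  | _ β ih =>
  rw [PF7.lp_eq]
  have hAW : im (fun u => DefQ (CofW W) (LpS (CofW W) u)) β.toZFSet ∈ W :=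
    hZ.im_mem hβ (PF7.dfn_step hZ hK)
  refine inj_union hW hκ hκo hω hAW
    (Inj.image hZ hβ hκ hκo h (PF7.dfn_step hZ hK)) ?_
  intro z hz
  obtain ⟨u, hu, rfl⟩ := mem_im.1 hz
  obtain ⟨γ, hγ, rfl⟩ := Ordinal.mem_toZFSet_iff.1 hu
  have hγW : γ.toZFSet ∈ W := hZ.trans _ hβ _ hu
  have hsub : γ.toZFSet ⊆ β.toZFSet := (ZFSet.isOrdinal_toZFSet β).subset_of_mem hu
  have h1 : Inj W γ.toZFSet κ := inj_mono hZ hγW hβ hκ hsub h
  have h2 := ih γ hγ hγW h1
  have h3 : Lp (CofW W) γ ∈ W := by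
    rw [← LpS_eq]
    exact (dfn_LpS1 hZ hK).1 (fun _ => γ.toZFSet) fun _ => hγW
  rw [LpS_eq]
  exact defQ_small hW hK h3 hκ hκo hω h2

/-- The bound for the number of the functions from `ω` to `ω` in `C*` (Kennedy, Magidor,
Väänänen). -/
theorem real_bound {W : Set ZFSet.{0}} (hW : IsZFC W) {E b : ZFSet.{0}} (hE : E ∈ W)
    (hEC : ∀ x ∈ E, x ∈ Cst W ∧ x ⊆ ZFSet.prod ZFSet.omega ZFSet.omega) (hb : U2 W b) :
    Inj W E b := by
  have hZ : IsZF W := hW.toIsZF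
  have hK : Dfn W W fun w : Fin 1 → ZFSet.{0} => CofW W (w 0) := dfn_CofW hZ
  have hωW : ZFSet.omega ∈ W := hZ.infinity
  obtain ⟨hbW, hbo, a, ⟨haW, hao, hau, -⟩, hba, -⟩ := hb
  have hωa : ZFSet.omega ⊆ a := PF7.omega_sub hZ haW hao hωW (fun _ h => h) hau
  have hωb : ZFSet.omega ⊆ b := PF7.omega_sub hZ hbW hbo haW hωa hba
  obtain ⟨β, rfl⟩ : ∃ β : Ordinal.{0}, b = β.toZFSet := ⟨b.rank, hbo.toZFSet_rank_eq.symm⟩
  have hsub : E ⊆ Lp (CofW W) β := by
    intro x hx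
    obtain ⟨hxC, hxs⟩ := hEC x hx
    have hxW : x ∈ W := hZ.trans _ hE _ hx
    obtain ⟨T, hTW, hTt, hTa, hxT⟩ := PF7.exists_T hW haW hao hωa hxW hxs
    obtain ⟨α, hαW, hαa, hxα⟩ := cond hW haW hao hau hTW hTt hTa hxT hxC
    have hαβ : α < β := by
      by_contra hc
      have h1 : β ≤ α := not_lt.1 hc
      have h2 : β.toZFSet ⊆ α.toZFSet := by
        intro z hz
        obtain ⟨γ, hγ, rfl⟩ := Ordinal.mem_toZFSet_iff.1 hz
        exact Ordinal.mem_toZFSet_iff.2 ⟨γ, hγ.trans_le h1, rfl⟩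
      exact hba (inj_mono hZ hbW hαW haW h2 hαa)
    exact PF7.lp_mono hαβ.le hxα
  have hLW : Lp (CofW W) β ∈ W := by
    rw [← LpS_eq]
    exact (dfn_LpS1 hZ hK).1 (fun _ => β.toZFSet) fun _ => hbW
  have h1 : Inj W (Lp (CofW W) β) β.toZFSet :=
    lp_small hW hbW hbW hbo hωb (Inj.of_subset hZ hbW hbW fun _ h => h)
  exact inj_mono hZ hE hLW hbW hsub h1

end Pool.Agent.helper797_it
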