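import Pool.Agent.helper797_it.PF1

/-! # F8: the first two uncountable cardinals of a model -/

set_option autoImplicit false
namespace Pool.Agent.helper797_it
open Pool.Agent.W868 Pool.Agent.R587 Pool.Agent.helper797_cs
open ZFSet (pair)

namespace PF8

/-- The first uncountable ordinal is unique. -/
theorem U1_unique {W : Set ZFSet.{0}} {a a' : ZFSet.{0}} (ha : U1 W a)
    (ha' : U1 W a') : a = a' := by
  rcases ha.2.1.mem_trichotomous ha'.2.1 with h | h | h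
  · exact absurd (ha'.2.2.2 a h) ha.2.2.1
  · exact h
  · exact absurd (ha.2.2.2 a' h) ha'.2.2.1

theorem inj_up {V W : Set ZFSet.{0}} (h : V ⊆ W) {x y : ZFSet.{0}} (h1 : Inj V x y) :
    Inj W x y := by
  obtain ⟨f, hf, h2⟩ := h1
  exact ⟨f, h hf, h2⟩

theorem U2_ne {W : Set ZFSet.{0}} (hW : IsZFC W) {a b : ZFSet.{0}} (ha : U1 W a)
    (hb : U2 W b) : ¬ Inj W b a ∧ ∀ c ∈ b, Inj W c a := by
  obtain ⟨-, -, c, h1, h2, h3⟩ := hb
  rw [U1_unique ha h1]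
  exact ⟨h2, h3⟩

theorem om_sub {W : Set ZFSet.{0}} (hW : IsZFC W) {a : ZFSet.{0}} (ha : U1 W a) :
    ZFSet.omega ⊆ a := by
  rcases ha.2.1.mem_or_subset isOrdinal_omega with h | h
  · refine absurd ?_ ha.2.2.1
    exact Inj.of_subset hW.toIsZF ha.1 hW.infinity (isOrdinal_omega.subset_of_mem h)
  · exact h

/-- A regular ordinal has no injection into a smaller ordinal. -/
theorem not_inj {W : Set ZFSet.{0}} (hW : IsZFC W) {ρ σ : Ordinal.{0}} (hρ : RegM W ρ)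
    (hσ : σ < ρ) : ¬ Inj W ρ.toZFSet σ.toZFSet := by
  rintro ⟨f, hf, h1⟩
  have hM := hW.toIsZF
  have hB := hM.base
  have hρW := hρ.1
  have hσW : σ.toZFSet ∈ W := hM.trans _ hρ.1 _ (Ordinal.toZFSet_mem_toZFSet_iff.2 hσ)
  have hR : Dfn W W fun w : Fin 2 → ZFSet.{0} => pair (w 1) (w 0) ∈ f := by
    (repeat' first
      | assumption
      | exact DfnF.proj _
      | exact DfnF.const (by assumption)
      | apply Dfn.mem | apply hB.pair')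
  obtain ⟨g, hg, h2, h3⟩ := hM.rel_mem hσW hρW (Q := fun n x => pair x n ∈ f) hR
  obtain ⟨ξ, hξ, h4⟩ := hρ.2.2 σ hσ g hg (by
    intro p hp
    obtain ⟨a, ha, b, hb, rfl⟩ := ZFSet.mem_prod.1 (h2 hp)
    exact ⟨a, ha, b, hb, rfl⟩) (by
    intro a b b' hb hb'
    rw [h3] at hb hb'
    exact h1.2 _ _ _ hb.2.2 hb'.2.2)
  have h5 : ξ.toZFSet ∈ ρ.toZFSet := Ordinal.toZFSet_mem_toZFSet_iff.2 hξ
  obtain ⟨n, hn, h6⟩ := fun_exists h1.1 h5
  exact ZFSet.mem_irrefl _ (h4 n ξ.toZFSet ((h3 _ _).2 ⟨hn, h5, h6⟩))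

/-- The union of the range of a sequence of elements of an ordinal. -/
theorem cf0_inj {W : Set ZFSet.{0}} (hW : IsZFC W) {κ b : ZFSet.{0}} (hκ : κ ∈ W)
    (hκo : κ.IsOrdinal) (hω : ZFSet.omega ⊆ κ) (hb : b ∈ W) (hbo : b.IsOrdinal)
    (h1 : ∀ c ∈ b, Inj W c κ) (h2 : Cf0 W b) : Inj W b κ := by
  obtain ⟨g, hg, h3, h4⟩ := h2
  have hM := hW.toIsZF
  have hB := hM.base
  have hωW : ZFSet.omega ∈ W := hW.infinity
  have hmem : ∀ p, p ∈ sqSet g ↔ ∃ n : ℕ, p = pair (nat n) (g n) := by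
    intro p
    unfold sqSet
    rw [ZFSet.mem_range]
    constructor
    · rintro ⟨n, rfl⟩
      exact ⟨n, rfl⟩
    · rintro ⟨n, rfl⟩
      exact ⟨n, rfl⟩
  have hfs : DfnF W W fun w : Fin 1 → ZFSet.{0} => fs (w 0) := hM.fs' (DfnF.proj 0)
  have hsn : DfnF W W fun w : Fin 1 → ZFSet.{0} => sn (w 0) := hM.sn' (DfnF.proj 0)
  have h5 : Inj W (sqSet g) ZFSet.omega := by
    refine Inj.of_fun hM hg hωW (h := fs) hfs ?_ ?_
    · intro p hp
      obtain ⟨n, rfl⟩ := (hmem p).1 hp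
      rw [fs_pair]
      exact mem_omega_iff.2 ⟨n, rfl⟩
    · intro p hp q hq h
      obtain ⟨n, rfl⟩ := (hmem p).1 hp
      obtain ⟨m, rfl⟩ := (hmem q).1 hq
      rw [fs_pair, fs_pair] at h
      rw [nat_injective h]
  have h6 : Inj W (im sn (sqSet g)) ZFSet.omega :=
    Inj.image hM hg hωW isOrdinal_omega h5 hsn
  have h7 : im sn (sqSet g) ∈ W := hM.im_mem hg hsn
  have h8 : ∀ y, y ∈ im sn (sqSet g) ↔ ∃ n : ℕ, y = g n := by
    intro y
    rw [mem_im]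
    constructor
    · rintro ⟨p, hp, rfl⟩
      obtain ⟨n, rfl⟩ := (hmem p).1 hp
      exact ⟨n, by rw [sn_pair]⟩
    · rintro ⟨n, rfl⟩
      exact ⟨_, (hmem _).2 ⟨n, rfl⟩, by rw [sn_pair]⟩
  have h9 : Inj W (ZFSet.sUnion (im sn (sqSet g))) κ := by
    refine inj_union hW hκ hκo hω h7 ?_ ?_
    · exact Inj.trans hM h7 hκ h6 (Inj.of_subset hM hωW hκ hω)
    · intro y hy
      obtain ⟨n, rfl⟩ := (h8 y).1 hy
      exact h1 _ (h3 n)
  refine Inj.trans hM hb hκ (Inj.of_subset hM hb (hM.union _ h7) ?_) h9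
  intro x hx
  obtain ⟨n, hn⟩ := h4 x hx
  exact ZFSet.mem_sUnion.2 ⟨g n, (h8 _).2 ⟨n, rfl⟩, hn⟩

end PF8

theorem exists_U1 {W : Set ZFSet.{0}} (hW : IsZFC W) : ∃ a, U1 W a := by
  have hM := hW.toIsZF
  obtain ⟨κ, h1, h2, h3⟩ := exists_next hM hM.infinity isOrdinal_omega
  refine ⟨κ, h1.1, h1.2.1, ?_, h3⟩
  exact h1.2.2 _ h2

theorem exists_U2 {W : Set ZFSet.{0}} (hW : IsZFC W) : ∃ a, U2 W a := by
  have hM := hW.toIsZF
  obtain ⟨b, hb⟩ := exists_U1 hW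
  obtain ⟨κ, h1, h2, h3⟩ := exists_next hM hb.1 hb.2.1
  exact ⟨κ, h1.1, h1.2.1, b, hb, h1.2.2 _ h2, h3⟩

/-- The first and the second uncountable cardinal do not increase in submodels. -/
theorem U_mono {V W : Set ZFSet.{0}} (hV : IsZFC V) (hW : IsZFC W) (h : V ⊆ W) {a b a' b' : ZFSet.{0}}
    (ha : U1 V a) (hb : U2 V b) (ha' : U1 W a') (hb' : U2 W b') : a ⊆ a' ∧ b ⊆ b' := by
  have h1 : a ⊆ a' := by
    rcases ha'.2.1.mem_or_subset ha.2.1 with h2 | h2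
    · exact absurd (PF8.inj_up h (ha.2.2.2 _ h2)) ha'.2.2.1
    · exact h2
  refine ⟨h1, ?_⟩
  rcases hb'.2.1.mem_or_subset hb.2.1 with h2 | h2
  · refine absurd ?_ (PF8.U2_ne hW ha' hb').1
    have h3 : Inj W b' a := PF8.inj_up h ((PF8.U2_ne hV ha hb).2 _ h2)
    exact Inj.trans hW.toIsZF hb'.1 ha'.1 h3 (Inj.of_subset hW.toIsZF (h ha.1) ha'.1 h1)
  · exact h2

/-- An uncountable regular ordinal `≤ ω_2` is `ω_1` or `ω_2`. -/
theorem reg_cases {W : Set ZFSet.{0}} (hW : IsZFC W) {ρ : Ordinal.{0}} (hρ : RegM W ρ)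
    {a b : ZFSet.{0}} (ha : U1 W a) (hb : U2 W b) (h : ρ.toZFSet ⊆ b) :
    ρ.toZFSet = a ∨ ρ.toZFSet = b := by
  have hρo : ρ.toZFSet.IsOrdinal := ZFSet.isOrdinal_toZFSet ρ
  rcases (hρo.subset_iff_eq_or_mem hb.2.1).1 h with h1 | h1
  · exact Or.inr h1
  · refine Or.inl ?_
    have h2 : Inj W ρ.toZFSet a := (PF8.U2_ne hW ha hb).2 _ h1
    rcases hρo.mem_trichotomous ha.2.1 with h3 | h3 | h3
    · have h4 := ha.2.2.2 _ h3
      rw [omega_eq] at h4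
      exact absurd h4 (PF8.not_inj hW hρ hρ.2.1)
    · exact h3
    · have h4 : a.rank.toZFSet = a := ha.2.1.toZFSet_rank_eq
      rw [← h4] at h2 h3
      exact absurd h2 (PF8.not_inj hW hρ (Ordinal.toZFSet_mem_toZFSet_iff.1 h3))

/-- The first and the second uncountable cardinal do not have cofinality `ω`. -/
theorem U_not_cf {W : Set ZFSet.{0}} (hW : IsZFC W) {a b : ZFSet.{0}} (ha : U1 W a)
    (hb : U2 W b) : ¬ Cf0 W a ∧ ¬ Cf0 W b := by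
  constructor
  · intro h
    exact ha.2.2.1 (PF8.cf0_inj hW hW.infinity isOrdinal_omega (fun _ h => h) ha.1 ha.2.1
      ha.2.2.2 h)
  · intro h
    exact (PF8.U2_ne hW ha hb).1 (PF8.cf0_inj hW ha.1 ha.2.1 (PF8.om_sub hW ha) hb.1 hb.2.1
      (PF8.U2_ne hW ha hb).2 h)

/-- A cofinal function from a set `E` to the regular ordinal `ρ` shows that `ρ ≤ b` if `E` injects
into the ordinal `b`. -/
theorem reg_le {W : Set ZFSet.{0}} (hW : IsZFC W) {ρ : Ordinal.{0}} (hρ : RegM W ρ) {E b f : ZFSet.{0}}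
    (hE : E ∈ W) (hb : b ∈ W) (hbo : b.IsOrdinal) (hEb : Inj W E b) (hf : f ∈ W)
    (h1 : ∀ p ∈ f, ∃ x ∈ E, ∃ y ∈ ρ.toZFSet, p = pair x y)
    (h2 : ∀ x y y', pair x y ∈ f → pair x y' ∈ f → y = y')
    (h3 : ∀ ξ ∈ ρ.toZFSet, ∃ x y, pair x y ∈ f ∧ ξ ∈ insert y y) : ρ.toZFSet ⊆ b := by
  have hM := hW.toIsZF
  have hB := hM.base
  have hρW := hρ.1
  have hρo : ρ.toZFSet.IsOrdinal := ZFSet.isOrdinal_toZFSet ρ
  rcases hbo.mem_or_subset hρo with h4 | h4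
  swap
  · exact h4
  exfalso
  obtain ⟨e, he, h5⟩ := hEb
  have hR : Dfn W W fun w : Fin 2 → ZFSet.{0} => ∃ x ∈ E, pair x (w 0) ∈ e ∧ pair x (w 1) ∈ f := by
    (repeat' first
      | assumption
      | exact DfnF.proj _
      | exact DfnF.const (by assumption)
      | exact Dfn.prop _
      | apply Dfn.not | apply Dfn.and | apply Dfn.or | apply Dfn.imp | apply Dfn.iff
      | apply hB.bex | apply hB.ball | apply Dfn.ex | apply Dfn.all
      | apply Dfn.eq | apply Dfn.mem | apply hB.pair')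
  obtain ⟨g, hg, h6, h7⟩ := hM.rel_mem hb hρW
    (Q := fun n y => ∃ x ∈ E, pair x n ∈ e ∧ pair x y ∈ f) hR
  have hbr : b.rank.toZFSet = b := hbo.toZFSet_rank_eq
  have hσ : b.rank < ρ := by
    rw [← hbr] at h4
    exact Ordinal.toZFSet_mem_toZFSet_iff.1 h4
  obtain ⟨ξ, hξ, h8⟩ := hρ.2.2 b.rank hσ g hg (by
    intro p hp
    obtain ⟨a, ha, c, hc, rfl⟩ := ZFSet.mem_prod.1 (h6 hp)
    rw [hbr]
    exact ⟨a, ha, c, hc, rfl⟩) (by
    intro n y y' hy hy'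
    rw [h7] at hy hy'
    obtain ⟨-, -, x, -, h9, h10⟩ := hy
    obtain ⟨-, -, x', -, h11, h12⟩ := hy'
    obtain rfl := h5.2 _ _ _ h9 h11
    exact h2 _ _ _ h10 h12)
  have h9 : ξ.toZFSet ∈ ρ.toZFSet := Ordinal.toZFSet_mem_toZFSet_iff.2 hξ
  obtain ⟨x, y, h10, h11⟩ := h3 _ h9
  obtain ⟨x', hx, y', hy, h12⟩ := h1 _ h10
  obtain ⟨rfl, rfl⟩ := ZFSet.pair_inj.1 h12
  obtain ⟨n, hn, h13⟩ := fun_exists h5.1 hx
  have h14 : y ∈ ξ.toZFSet := h8 n y ((h7 _ _).2 ⟨hn, hy, x, hx, h13, h10⟩)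
  rcases ZFSet.mem_insert_iff.1 h11 with h15 | h15
  · rw [h15] at h14
    exact ZFSet.mem_irrefl _ h14
  · exact ZFSet.mem_asymm h14 h15

end Pool.Agent.helper797_it
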