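import Pool.Agent.helper797_it.PU0
import Pool.Agent.helper797_it.PU1
import Pool.Agent.helper797_it.PF1

/-! # G0: the sets `H_θ` -/

set_option autoImplicit false
set_option linter.unreachableTactic false
set_option linter.unusedTactic false
namespace Pool.Agent.helper797_it
open Pool.Agent.W868 Pool.Agent.R587 Pool.Agent.helper797_cs
open ZFSet (pair)

namespace PG0

/-! ### The rank -/

/-- The rank of a set, as a set. -/
noncomputable def rk (x : ZFSet.{0}) : ZFSet.{0} := x.rank.toZFSet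

theorem mem_rk {x y : ZFSet.{0}} : y ∈ rk x ↔ ∃ u ∈ x, y ∈ sc (rk u) := by
  unfold rk sc
  rw [Ordinal.mem_toZFSet_iff]
  constructor
  · rintro ⟨a, ha, rfl⟩
    obtain ⟨u, hu, h⟩ := ZFSet.lt_rank_iff.1 ha
    refine ⟨u, hu, ?_⟩
    rw [← Ordinal.toZFSet_succ]
    exact Ordinal.toZFSet_mem_toZFSet_iff.2 (Order.lt_succ_of_le h)
  · rintro ⟨u, hu, h⟩
    rw [← Ordinal.toZFSet_succ, Ordinal.mem_toZFSet_iff] at h
    obtain ⟨a, ha, rfl⟩ := h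
    exact ⟨a, ZFSet.lt_rank_iff.2 ⟨u, hu, Order.lt_succ_iff.1 ha⟩, rfl⟩

theorem rk_eq (x : ZFSet.{0}) : rk x = ZFSet.sUnion (im (fun p => sc (sn p)) (gr rk x)) := by
  ext y
  rw [mem_rk, ZFSet.mem_sUnion]
  constructor
  · rintro ⟨u, hu, h⟩
    exact ⟨_, mem_im.2 ⟨_, mem_gr.2 ⟨u, hu, rfl⟩, rfl⟩, by rwa [sn_pair]⟩
  · rintro ⟨w, hw, h⟩
    obtain ⟨p, hp, rfl⟩ := mem_im.1 hw
    obtain ⟨u, hu, rfl⟩ := mem_gr.1 hp
    rw [sn_pair] at h
    exact ⟨u, hu, h⟩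

theorem dfn_rk {M : Set ZFSet.{0}} (hM : IsZF M) :
    DfnF M M fun w : Fin 1 → ZFSet.{0} => rk (w 0) := by
  refine hM.memrec (G := fun _ g => ZFSet.sUnion (im (fun p => sc (sn p)) g)) ?_ rk_eq
  have hB := hM.base
  refine hB.sUnion' (hM.im' (h := fun p _ => sc (sn p)) (DfnF.proj 1) ?_)
  exact hB.insert' (hM.sn' (DfnF.proj 0)) (hM.sn' (DfnF.proj 0))

/-- The ranks of the elements of a transitive set form its rank. -/
theorem im_rk {t : ZFSet.{0}} (ht : ∀ y ∈ t, ∀ z ∈ y, z ∈ t) : im rk t = rk t := by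
  have key : ∀ y ∈ t, ∀ z ∈ rk y, z ∈ im rk t := by
    intro y
    induction y using ZFSet.inductionOn with
    | _ y ih =>
    intro hy z hz
    obtain ⟨u, hu, h⟩ := mem_rk.1 hz
    rcases ZFSet.mem_insert_iff.1 h with rfl | h
    · exact mem_im.2 ⟨u, ht y hy u hu, rfl⟩
    · exact ih u hu (ht y hy u hu) z h
  ext z
  constructor
  · intro h
    obtain ⟨y, hy, rfl⟩ := mem_im.1 h
    exact mem_rk.2 ⟨y, hy, ZFSet.mem_insert _ _⟩
  · intro h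
    obtain ⟨u, hu, h⟩ := mem_rk.1 h
    rcases ZFSet.mem_insert_iff.1 h with rfl | h
    · exact mem_im.2 ⟨u, hu, rfl⟩
    · exact key u hu z h

/-! ### The well-ordering theorem -/

/-- Choice functions in a model of ZFC. -/
theorem exists_choice {M : Set ZFSet.{0}} (hM : IsZFC M) {x : ZFSet.{0}} (hx : x ∈ M)
    {F : ZFSet.{0} → ZFSet.{0}} (hF : DfnF M M fun w : Fin 1 → ZFSet.{0} => F (w 0))
    (hne : ∀ y ∈ x, ∃ z, z ∈ F y) :
    ∃ c ∈ M, ZFSet.IsFunc x (ZFSet.sUnion (im F x)) c ∧ ∀ y ∈ x, ap c y ∈ F y := by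
  have hZ := hM.toIsZF
  have hB := hZ.base
  set fam : ZFSet.{0} := im (fun y => ZFSet.prod {y} (F y)) x with hfam
  have hfamM : fam ∈ M := by
    refine hZ.im_mem hx ?_
    exact hZ.prod' (DfnF.comp1 (f := fun a => ({a} : ZFSet.{0})) hB.dfn_single (DfnF.proj 0)) hF
  obtain ⟨c0, hc0, h1⟩ := hM.choice fam hfamM (by
    intro y hy
    obtain ⟨u, hu, rfl⟩ := mem_im.1 hy
    obtain ⟨z, hz⟩ := hne u hu
    exact ⟨pair u z, ZFSet.pair_mem_prod.2 ⟨by simp, hz⟩⟩) (by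
    intro y hy y' hy' z hz hz'
    obtain ⟨u, hu, rfl⟩ := mem_im.1 hy
    obtain ⟨u', hu', rfl⟩ := mem_im.1 hy'
    obtain ⟨a, ha, b, hb, rfl⟩ := ZFSet.mem_prod.1 hz
    rw [ZFSet.mem_singleton] at ha
    have h2 := (ZFSet.pair_mem_prod.1 hz').1
    rw [ZFSet.mem_singleton] at h2
    rw [← ha, h2])
  set c : ZFSet.{0} := ZFSet.sep (fun p => p ∈ c0) (ZFSet.sUnion fam) with hc
  have hcM : c ∈ M := hZ.sep_mem (Q := fun p => p ∈ c0)
    (Dfn.mem (DfnF.proj 0) (DfnF.const hc0)) (hZ.union _ hfamM)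
  have hmem : ∀ y z, pair y z ∈ c ↔ y ∈ x ∧ z ∈ F y ∧ pair y z ∈ c0 := by
    intro y z
    rw [hc, ZFSet.mem_sep, ZFSet.mem_sUnion]
    constructor
    · rintro ⟨⟨w, hw, hp⟩, h3⟩
      obtain ⟨u, hu, rfl⟩ := mem_im.1 hw
      obtain ⟨h4, h5⟩ := ZFSet.pair_mem_prod.1 hp
      rw [ZFSet.mem_singleton] at h4
      subst h4
      exact ⟨hu, h5, h3⟩
    · rintro ⟨h3, h4, h5⟩
      exact ⟨⟨_, mem_im.2 ⟨y, h3, rfl⟩, ZFSet.pair_mem_prod.2 ⟨by simp, h4⟩⟩, h5⟩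
  have hfun : ZFSet.IsFunc x (ZFSet.sUnion (im F x)) c := by
    constructor
    · intro p hp
      obtain ⟨⟨w, hw, hp'⟩, h3⟩ := (by
        rw [hc, ZFSet.mem_sep, ZFSet.mem_sUnion] at hp
        exact hp)
      obtain ⟨u, hu, rfl⟩ := mem_im.1 hw
      obtain ⟨a, ha, b, hb, rfl⟩ := ZFSet.mem_prod.1 hp'
      rw [ZFSet.mem_singleton] at ha
      subst ha
      exact ZFSet.pair_mem_prod.2 ⟨hu, ZFSet.mem_sUnion.2 ⟨_, mem_im.2 ⟨_, hu, rfl⟩, hb⟩⟩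
    · intro y hy
      obtain ⟨p, ⟨hp1, hp2⟩, hp3⟩ := h1 _ (mem_im.2 ⟨y, hy, rfl⟩)
      obtain ⟨a, ha, b, hb, rfl⟩ := ZFSet.mem_prod.1 hp1
      rw [ZFSet.mem_singleton] at ha
      subst ha
      refine ⟨b, (hmem _ _).2 ⟨hy, hb, hp2⟩, fun b' hb' => ?_⟩
      obtain ⟨-, h4, h5⟩ := (hmem _ _).1 hb'
      exact (ZFSet.pair_inj.1 (hp3 (pair a b') ⟨ZFSet.pair_mem_prod.2 ⟨by simp, h4⟩, h5⟩)).2
  refine ⟨c, hcM, hfun, fun y hy => ?_⟩
  obtain ⟨z, -, hz⟩ := fun_exists hfun hy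
  rw [ap_func hfun hz]
  exact ((hmem _ _).1 hz).2.1

/-- The enumeration of `D` that is given by the choice function `c`. -/
noncomputable def En (D c : ZFSet.{0}) : ZFSet.{0} → ZFSet.{0} :=
  wfF (fun z => z) ZFSet.mem_wf fun _ g =>
    open Classical in
    if ZFSet.sep (fun y => y ∉ im sn g) D = ∅ then D
      else ap c (ZFSet.sep (fun y => y ∉ im sn g) D)

theorem im_sn_gr (F : ZFSet.{0} → ZFSet.{0}) (z : ZFSet.{0}) : im sn (gr F z) = im F z := by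
  ext y
  rw [mem_im, mem_im]
  constructor
  · rintro ⟨p, hp, rfl⟩
    obtain ⟨u, hu, rfl⟩ := mem_gr.1 hp
    exact ⟨u, hu, by rw [sn_pair]⟩
  · rintro ⟨u, hu, rfl⟩
    exact ⟨_, mem_gr.2 ⟨u, hu, rfl⟩, by rw [sn_pair]⟩

theorem En_eq' (D c z : ZFSet.{0}) : En D c z =
    open Classical in
    if ZFSet.sep (fun y => y ∉ im sn (gr (En D c) z)) D = ∅ then D
      else ap c (ZFSet.sep (fun y => y ∉ im sn (gr (En D c) z)) D) := wfF_eq _ _ _ _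

theorem En_eq (D c z : ZFSet.{0}) : En D c z =
    open Classical in
    if ZFSet.sep (fun y => y ∉ im (En D c) z) D = ∅ then D
      else ap c (ZFSet.sep (fun y => y ∉ im (En D c) z) D) := by
  rw [En_eq', im_sn_gr]

theorem dfn_En {M : Set ZFSet.{0}} (hM : IsZF M) {D c : ZFSet.{0}} (hD : D ∈ M) (hc : c ∈ M) :
    DfnF M M fun w : Fin 1 → ZFSet.{0} => En D c (w 0) := by
  have hB := hM.base
  have h0 := hM.empty_mem
  refine hM.memrec (G := fun _ g => open Classical in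
    if ZFSet.sep (fun y => y ∉ im sn g) D = ∅ then D
      else ap c (ZFSet.sep (fun y => y ∉ im sn g) D)) ?_ (En_eq' D c)
  have h1 : DfnF M M fun w : Fin 2 → ZFSet.{0} =>
      ZFSet.sep (fun y => y ∉ im sn (w 1)) D := by
    refine hM.sep' (Q := fun y w => y ∉ im sn (w 1)) (DfnF.const hD) ?_
    refine (Dfn.mem (DfnF.proj 0) (hM.im' (h := fun p _ => sn p) (DfnF.proj 2) ?_)).not
    exact hM.sn' (DfnF.proj 0)
  exact DfnF.ite (Dfn.eq h1 (DfnF.const h0)) (DfnF.const hD) (hM.ap' (DfnF.const hc) h1)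

/-- The well-ordering theorem in a transitive model of ZFC. -/
theorem exists_wo {M : Set ZFSet.{0}} (hM : IsZFC M) {D : ZFSet.{0}} (hD : D ∈ M) :
    ∃ α ∈ M, α.IsOrdinal ∧ Inj M D α := by
  have hZ := hM.toIsZF
  have hB := hZ.base
  have h0 := hZ.empty_mem
  have hP : Pw M D ∈ M := (dfn_Pw hZ (F := fun _ : Fin 0 → ZFSet.{0} => D) (DfnF.const hD)).1
    Fin.elim0 fun i => i.elim0
  obtain ⟨c, hc, -, hc2⟩ := exists_choice hM (x := ZFSet.sep (fun y => ¬ y = ∅) (Pw M D))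
    (hZ.sep_mem (Q := fun y => ¬ y = ∅) (Dfn.eq (DfnF.proj 0) (DfnF.const h0)).not hP)
    (F := fun y => y) (DfnF.proj 0) (by
      intro y hy
      obtain ⟨-, h1⟩ := ZFSet.mem_sep.1 hy
      by_contra h2
      push Not at h2
      exact h1 (ZFSet.eq_empty y |>.2 h2))
  have hEn := dfn_En hZ hD hc
  obtain ⟨S, hS, hSo, hSi⟩ := hartogs hZ hD
  have hdiff : ∀ z ∈ M, ZFSet.sep (fun y => y ∉ im (En D c) z) D ∈ M := by
    intro z hz
    have h1 : im (En D c) z ∈ M := hZ.im_mem hz hEn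
    exact hZ.sep_mem (Q := fun y => y ∉ im (En D c) z)
      (Dfn.mem (DfnF.proj 0) (DfnF.const h1)).not hD
  have hval : ∀ z ∈ M, (ZFSet.sep (fun y => y ∉ im (En D c) z) D ≠ ∅) →
      En D c z ∈ D ∧ En D c z ∉ im (En D c) z := by
    intro z hz hne
    rw [En_eq, if_neg hne, ← ZFSet.mem_sep (p := fun y => y ∉ im (En D c) z)]
    refine hc2 _ (ZFSet.mem_sep.2 ⟨mem_Pw.2 ⟨hdiff z hz, fun y hy => (ZFSet.mem_sep.1 hy).1⟩, hne⟩)
  have hex : ∃ α ∈ S, ZFSet.sep (fun y => y ∉ im (En D c) α) D = ∅ := by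
    by_contra hcon
    push Not at hcon
    apply hSi
    refine Inj.of_fun hZ hS hD (h := En D c) hEn ?_ ?_
    · intro a ha
      exact (hval a (hZ.trans _ hS _ ha) (hcon a ha)).1
    · intro a ha a' ha' h
      rcases (hSo.mem ha).mem_trichotomous (hSo.mem ha') with h1 | h1 | h1
      · exact absurd (mem_im.2 ⟨a, h1, h.symm⟩) (hval a' (hZ.trans _ hS _ ha') (hcon a' ha')).2
      · exact h1
      · exact absurd (mem_im.2 ⟨a', h1, h⟩) (hval a (hZ.trans _ hS _ ha) (hcon a ha)).2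
  obtain ⟨α, hα, h1⟩ := hex
  have hαM := hZ.trans _ hS _ hα
  have hαo := hSo.mem hα
  have hd : DfnF M M fun w : Fin 1 → ZFSet.{0} => lo M fun ξ => En D c ξ = w 0 := by
    refine hZ.lo' (Q := fun ξ w => En D c ξ = w 0) ?_
    exact Dfn.eq (DfnF.comp1 (f := En D c) hEn (DfnF.proj 0)) (DfnF.proj 1)
  have hsurj : ∀ y ∈ D, ∃ ξ ∈ α, En D c ξ = y := by
    intro y hy
    by_contra hcon
    have h2 : y ∈ ZFSet.sep (fun y => y ∉ im (En D c) α) D := by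
      refine ZFSet.mem_sep.2 ⟨hy, fun h => hcon ?_⟩
      obtain ⟨ξ, hξ, h3⟩ := mem_im.1 h
      exact ⟨ξ, hξ, h3.symm⟩
    rw [h1] at h2
    exact ZFSet.notMem_empty _ h2
  refine ⟨α, hαM, hαo, Inj.of_fun hZ hD hαM (h := fun y => lo M fun ξ => En D c ξ = y) hd ?_ ?_⟩
  · intro y hy
    obtain ⟨ξ, hξ, h2⟩ := hsurj y hy
    have hξM := hZ.trans _ hαM _ hξ
    have hξo := hαo.mem hξ
    have h3 : lo M (fun ξ => En D c ξ = y) ⊆ ξ := lo_subset hξM hξo h2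
    exact (lo_isOrdinal).mem_of_subset_of_mem hαo h3 hξ
  · intro y hy y' hy' h
    obtain ⟨ξ, hξ, h2⟩ := hsurj y hy
    obtain ⟨ξ', hξ', h2'⟩ := hsurj y' hy'
    have h3 := (lo_spec (M := M) (P := fun ξ => En D c ξ = y)
      ⟨ξ, hZ.trans _ hαM _ hξ, hαo.mem hξ, h2⟩).2.2
    have h4 := (lo_spec (M := M) (P := fun ξ => En D c ξ = y')
      ⟨ξ', hZ.trans _ hαM _ hξ', hαo.mem hξ', h2'⟩).2.2
    rw [← h3, ← h4, h]

theorem dfn_Inj {M : Set ZFSet.{0}} (hM : IsZF M) {n : ℕ} {F G : (Fin n → ZFSet.{0}) → ZFSet.{0}}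
    (hF : DfnF M M F) (hG : DfnF M M G) : Dfn M M fun v => Inj M (F v) (G v) := by
  have hB := hM.base
  have h : Dfn M M fun w : Fin 2 → ZFSet.{0} => ∃ f ∈ M, IsInj (w 0) (w 1) f := by
    apply Dfn.ex
    exact hB.isInj' (DfnF.proj 1) (DfnF.proj 2) (DfnF.proj 0)
  exact Dfn.comp2 (Q := fun a b => ∃ f ∈ M, IsInj a b f) h hF hG

end PG0

open PG0 in
theorem mem_Hs {N : Set ZFSet.{0}} (hN : IsZFC N) {θ x : ZFSet.{0}} (hθ : BigC N θ) :
    x ∈ Hs N θ ↔ HH N θ x := by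
  have hZ := hN.toIsZF
  rw [Hs, ZFSet.mem_sep]
  refine ⟨fun h => h.2, fun h => ⟨?_, h⟩⟩
  obtain ⟨t, ht, htr, hxt, α, hα, hi⟩ := h
  obtain ⟨hθN, hθo, hθc, -⟩ := hθ
  have hαN : α ∈ N := hZ.trans _ hθN _ hα
  have hxN : x ∈ N := hZ.trans _ ht _ hxt
  have hrt : rk t ∈ N := (dfn_rk hZ).1 (fun _ => t) fun _ => ht
  have h1 : Inj N (rk t) α := by
    rw [← im_rk htr]
    exact Inj.image hZ ht hαN (hθo.mem hα) hi (dfn_rk hZ)
  -- the rank of `t` is less than `θ`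
  have h2 : rk t ∈ θ := by
    have hrto : (rk t).IsOrdinal := ZFSet.isOrdinal_toZFSet _
    rcases hrto.mem_or_subset hθo with h | h
    · exact h
    · exact absurd (inj_mono hZ hθN hrt hαN h h1) (hθc α hα)
  have h3 : (Order.succ x.rank).toZFSet ⊆ θ := by
    intro z hz
    have h4 : z ∈ rk t := by
      rw [Ordinal.mem_toZFSet_iff] at hz
      obtain ⟨a, ha, rfl⟩ := hz
      exact Ordinal.toZFSet_mem_toZFSet_iff.2
        ((Order.lt_succ_iff.1 ha).trans_lt (ZFSet.rank_lt_of_mem hxt))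
    exact hθo.mem_trans h4 h2
  exact vh_mono h3 (rank_mem hZ hxN).2

open PG0 in
/-- Each element of `N` is in some `H_θ`. -/
theorem exists_BigC {N : Set ZFSet.{0}} (hN : IsZFC N) {x : ZFSet.{0}} (hx : x ∈ N) :
    ∃ θ, BigC N θ ∧ HH N θ x := by
  have hZ := hN.toIsZF
  obtain ⟨h1, h2⟩ := rank_mem hZ hx
  have h3 : (Order.succ x.rank).toZFSet ∈ N := by
    rw [Ordinal.toZFSet_succ]
    exact hZ.insert_mem h1 h1
  have ht : Vh N (Order.succ x.rank).toZFSet ∈ N :=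
    (dfn_Vh hZ (F := fun _ : Fin 0 → ZFSet.{0} => (Order.succ x.rank).toZFSet)
      (DfnF.const h3)).1 Fin.elim0 fun i => i.elim0
  obtain ⟨β, hβ, hβo, hi⟩ := exists_wo hN ht
  obtain ⟨κ, hκ, hκω, -⟩ := exists_next hZ hZ.infinity isOrdinal_omega
  obtain ⟨μ, hμ, hμo, h4, h5⟩ : ∃ μ ∈ N, μ.IsOrdinal ∧ β ⊆ μ ∧ κ ⊆ μ := by
    rcases hβo.mem_or_subset hκ.2.1 with h | h
    · exact ⟨κ, hκ.1, hκ.2.1, hκ.2.1.subset_of_mem h, fun _ h => h⟩
    · exact ⟨β, hβ, hβo, fun _ h => h, h⟩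
  obtain ⟨θ, hθ, hμθ, -⟩ := exists_next hZ hμ hμo
  refine ⟨θ, ⟨hθ.1, hθ.2.1, hθ.2.2, κ, hκ.2.1.mem_of_subset_of_mem hθ.2.1 h5 hμθ,
    hκ.2.2 _ hκω⟩, Vh N (Order.succ x.rank).toZFSet, ht, vh_trans hZ _, h2, μ, hμθ, ?_⟩
  exact Inj.trans hZ ht hμ hi (Inj.of_subset hZ hβ hμ h4)

open PG0 in
theorem dfn_BigC {N : Set ZFSet.{0}} (hN : IsZF N) :
    Dfn N N fun w : Fin 1 → ZFSet.{0} => BigC N (w 0) := by
  have hB := hN.base
  have h : Dfn N N fun w : Fin 1 → ZFSet.{0} => (w 0).IsOrdinal ∧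
      (∀ α ∈ w 0, ¬ Inj N (w 0) α) ∧ ∃ κ ∈ w 0, ¬ Inj N κ ZFSet.omega := by
    apply Dfn.and
    · exact hB.isOrdinal' (DfnF.proj 0)
    apply Dfn.and
    · apply hB.ball (DfnF.proj 0)
      exact (dfn_Inj hN (DfnF.proj 1) (DfnF.proj 0)).not
    · apply hB.bex (DfnF.proj 0)
      exact (dfn_Inj hN (DfnF.proj 0) (DfnF.const hN.infinity)).not
  exact h.congr fun v hv => ⟨fun h => ⟨hv 0, h⟩, fun h => h.2⟩

open PG0 in
theorem dfn_HH {N : Set ZFSet.{0}} (hN : IsZF N) :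
    Dfn N N fun w : Fin 2 → ZFSet.{0} => HH N (w 0) (w 1) := by
  have hB := hN.base
  unfold HH
  apply Dfn.ex
  apply Dfn.and
  · apply hB.ball (DfnF.proj 0)
    apply hB.ball (DfnF.proj 0)
    exact Dfn.mem (DfnF.proj 0) (DfnF.proj 2)
  apply Dfn.and
  · exact Dfn.mem (DfnF.proj 2) (DfnF.proj 0)
  · apply hB.bex (DfnF.proj 1)
    exact dfn_Inj hN (DfnF.proj 1) (DfnF.proj 0)

end Pool.Agent.helper797_it
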