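import Pool.Agent.helper797_it.PG0
import Pool.Agent.helper797_it.PA4
import Pool.Agent.helper797_it.PE5

/-! # G2: the iteration -/

set_option autoImplicit false
namespace Pool.Agent.helper797_it
open Pool.Agent.W868 Pool.Agent.R587 Pool.Agent.helper797_cs
open ZFSet (pair)

namespace PG2

open Classical in
/-- The iteration, with sets as indices. -/
noncomputable def Fs (N : Set ZFSet.{0}) (θ : ZFSet.{0}) : ZFSet.{0} → ZFSet.{0} :=
  wfF (fun z => z) ZFSet.mem_wf fun z g =>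
    if z = ∅ then Hs N θ else LpS (CofW {x | x ∈ ap g (ZFSet.sUnion z)}) θ

open Classical in
theorem fs_eq (N : Set ZFSet.{0}) (θ z : ZFSet.{0}) : Fs N θ z =
    if z = ∅ then Hs N θ else LpS (CofW {x | x ∈ ap (gr (Fs N θ) z) (ZFSet.sUnion z)}) θ := by
  rw [Fs, wfF_eq]

theorem sUnion_nat_succ (n : ℕ) : ZFSet.sUnion (nat (n + 1)) = nat n := by
  have htr : ∀ m : ℕ, ∀ y ∈ nat m, ∀ x ∈ y, x ∈ nat m := by
    intro m y hy x hx
    have h1 : (nat m).IsOrdinal := by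
      rw [nat_eq]
      exact ZFSet.isOrdinal_toZFSet _
    exact h1.mem_trans hx hy
  ext x
  rw [ZFSet.mem_sUnion]
  constructor
  · rintro ⟨y, hy, hx⟩
    rcases ZFSet.mem_insert_iff.1 hy with rfl | hy
    · exact hx
    · exact htr n y hy x hx
  · intro hx
    exact ⟨nat n, ZFSet.mem_insert _ _, hx⟩

theorem fs_nat (N : Set ZFSet.{0}) (θ : ZFSet.{0}) (n : ℕ) : Fs N θ (nat n) = It N θ n := by
  induction n with
  | zero => rw [fs_eq, if_pos (show nat 0 = ∅ from rfl)]; rfl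
  | succ n ih =>
    have h0 : nat (n + 1) ≠ ∅ := by
      intro h
      have h1 : nat n ∈ nat (n + 1) := ZFSet.mem_insert _ _
      rw [h] at h1
      exact ZFSet.notMem_empty _ h1
    have h1 : nat n ∈ nat (n + 1) := ZFSet.mem_insert _ _
    rw [fs_eq, if_neg h0, sUnion_nat_succ, ap_gr h1, ih]
    rfl

theorem dfn_Hs {N : Set ZFSet.{0}} (hN : IsZF N) :
    DfnF N N fun w : Fin 1 → ZFSet.{0} => Hs N (w 0) := by
  refine hN.sep' (Q := fun x w => HH N (w 0) x) (dfn_Vh hN (DfnF.proj 0)) ?_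
  exact Dfn.comp2 (Q := fun a b => HH N a b) (dfn_HH hN) (DfnF.proj 1) (DfnF.proj 0)

theorem dfn_Fs {N : Set ZFSet.{0}} (hN : IsZF N) :
    DfnF N N fun w : Fin 2 → ZFSet.{0} => Fs N (w 0) (w 1) := by
  classical
  refine memrec2 hN (G := fun θ z g => if z = ∅ then Hs N θ else
    LpS (CofW {x | x ∈ ap g (ZFSet.sUnion z)}) θ) ?_ fun x z => ?_
  · refine DfnF.ite (Dfn.eq (DfnF.proj 1) (DfnF.const hN.empty_mem)) ?_ ?_
    · exact DfnF.comp1 (f := fun a => Hs N a) (dfn_Hs hN) (DfnF.proj 0)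
    · refine DfnF.comp2 (f := fun A θ => LpS (CofW {x | x ∈ A}) θ)
        (dfn_LpS hN (K := fun A R => CofW {x | x ∈ A} R) (dfn_CofA hN)) ?_ (DfnF.proj 0)
      exact hN.ap' (DfnF.proj 2) (hN.base.sUnion' (DfnF.proj 1))
  · rw [fs_eq]

end PG2

/-- The iteration is definable, uniformly in `n`. -/
theorem dfn_It {N : Set ZFSet.{0}} (hN : IsZF N) :
    Dfn N N fun w : Fin 3 → ZFSet.{0} => ∃ n : ℕ, w 1 = nat n ∧ w 2 ∈ It N (w 0) n := by
  have h1 : Dfn N N fun w : Fin 3 → ZFSet.{0} => w 1 ∈ ZFSet.omega ∧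
      w 2 ∈ PG2.Fs N (w 0) (w 1) := by
    refine (Dfn.mem (DfnF.proj 1) (DfnF.const hN.infinity)).and ?_
    refine Dfn.mem (DfnF.proj 2) ?_
    exact DfnF.comp2 (f := fun a b => PG2.Fs N a b) (PG2.dfn_Fs hN) (DfnF.proj 0) (DfnF.proj 1)
  refine h1.congr fun w _ => ?_
  constructor
  · rintro ⟨h2, h3⟩
    obtain ⟨n, hn⟩ := mem_omega_iff.1 h2
    refine ⟨n, hn, ?_⟩
    rwa [hn, PG2.fs_nat] at h3
  · rintro ⟨n, hn, h2⟩
    refine ⟨mem_omega_iff.2 ⟨n, hn⟩, ?_⟩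
    rwa [hn, PG2.fs_nat]

theorem it_mem {N : Set ZFSet.{0}} (hN : IsZF N) {θ : ZFSet.{0}} (hθ : θ ∈ N) (n : ℕ) :
    It N θ n ∈ N := by
  rw [← PG2.fs_nat]
  refine (PG2.dfn_Fs hN).1 ![θ, nat n] fun i => ?_
  fin_cases i
  · exact hθ
  · exact hN.nat_mem n

/-- All `C*n` are models of ZFC with the same ordinals. -/
theorem cn_spec {N : Set ZFSet.{0}} (hN : IsZFC N) (n : ℕ) : IsZFC (Cn N n) ∧ Cn N n ⊆ N ∧
    Cn N (n + 1) ⊆ Cn N n ∧ ∀ α : Ordinal.{0}, α.toZFSet ∈ Cn N n ↔ α.toZFSet ∈ N := by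
  induction n with
  | zero => exact ⟨hN, subset_rfl, cst_sub hN.toIsZF, fun α => Iff.rfl⟩
  | succ n ih =>
    obtain ⟨h1, h2, h3, h4⟩ := ih
    have h5 : IsZFC (Cn N (n + 1)) := isZFC_Cst h1
    refine ⟨h5, h3.trans h2, cst_sub h5.toIsZF, fun α => ?_⟩
    exact (ord_Cst h1.toIsZF).trans (h4 α)

theorem cn_add (N : Set ZFSet.{0}) (n k : ℕ) : Cn (Cn N n) k = Cn N (n + k) := by
  induction k with
  | zero => rfl
  | succ k ih =>
    show Cst (Cn (Cn N n) k) = Cst (Cn N (n + k))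
    rw [ih]

end Pool.Agent.helper797_it
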