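import Pool.Agent.helper797_it.PG2
import Pool.Agent.helper797_it.PF7

/-! # G3: one step of the iteration -/

set_option autoImplicit false
namespace Pool.Agent.helper797_it
open Pool.Agent.W868 Pool.Agent.R587 Pool.Agent.helper797_cs
open ZFSet (pair)

namespace PG3

/-! ### The well-ordering theorem in a transitive model of ZFC -/

/-- Choice functions in a model of ZFC. -/
theorem exists_choice {M : Set ZFSet.{0}} (hM : IsZFC M) {x : ZFSet.{0}} (hx : x ∈ M)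
    (hne : ∀ y ∈ x, ∃ z, z ∈ y) :
    ∃ c ∈ M, ∀ y ∈ x, ap c y ∈ y := by
  have hZ := hM.toIsZF
  have hB := hZ.base
  set fam : ZFSet.{0} := im (fun y => ZFSet.prod {y} y) x with hfam
  have hfamM : fam ∈ M := by
    refine hZ.im_mem hx ?_
    exact hZ.prod' (DfnF.comp1 (f := fun a => ({a} : ZFSet.{0})) hB.dfn_single (DfnF.proj 0))
      (DfnF.proj 0)
  obtain ⟨c0, hc0, h1⟩ := hM.choice fam hfamM (by
    intro y hy
    obtain ⟨u, hu, rfl⟩ := mem_im.1 hy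
    obtain ⟨z, hz⟩ := hne u hu
    exact ⟨pair u z, ZFSet.pair_mem_prod.2 ⟨by simp, hz⟩⟩) (by
    intro y hy y' hy' z hz hz'
    obtain ⟨u, hu, rfl⟩ := mem_im.1 hy
    obtain ⟨u', hu', rfl⟩ := mem_im.1 hy'
    obtain ⟨a, ha, b, hb, rfl⟩ := ZFSet.mem_prod.1 hz
    rw [ZFSet.mem_singleton] at ha
    have h2 := (ZFSet.pair_mem_prod.1 hz').1
    rw [ZFSet.mem_singleton] at h2
    rw [← ha, h2])
  set c : ZFSet.{0} := ZFSet.sep (fun p => p ∈ c0) (ZFSet.sUnion fam) with hc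
  have hcM : c ∈ M := hZ.sep_mem (Q := fun p => p ∈ c0)
    (Dfn.mem (DfnF.proj 0) (DfnF.const hc0)) (hZ.union _ hfamM)
  have hmem : ∀ y z, pair y z ∈ c ↔ y ∈ x ∧ z ∈ y ∧ pair y z ∈ c0 := by
    intro y z
    rw [hc, ZFSet.mem_sep, ZFSet.mem_sUnion]
    constructor
    · rintro ⟨⟨w, hw, hp⟩, h3⟩
      obtain ⟨u, hu, rfl⟩ := mem_im.1 hw
      obtain ⟨h4, h5⟩ := ZFSet.pair_mem_prod.1 hp
      rw [ZFSet.mem_singleton] at h4
      subst h4
      exact ⟨hu, h5, h3⟩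
    · rintro ⟨h3, h4, h5⟩
      exact ⟨⟨_, mem_im.2 ⟨y, h3, rfl⟩, ZFSet.pair_mem_prod.2 ⟨by simp, h4⟩⟩, h5⟩
  have hfun : ZFSet.IsFunc x (ZFSet.sUnion x) c := by
    constructor
    · intro p hp
      obtain ⟨⟨w, hw, hp'⟩, h3⟩ := (by
        rw [hc, ZFSet.mem_sep, ZFSet.mem_sUnion] at hp
        exact hp)
      obtain ⟨u, hu, rfl⟩ := mem_im.1 hw
      obtain ⟨a, ha, b, hb, rfl⟩ := ZFSet.mem_prod.1 hp'
      rw [ZFSet.mem_singleton] at ha
      subst ha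
      exact ZFSet.pair_mem_prod.2 ⟨hu, ZFSet.mem_sUnion.2 ⟨_, hu, hb⟩⟩
    · intro y hy
      obtain ⟨p, ⟨hp1, hp2⟩, hp3⟩ := h1 _ (mem_im.2 ⟨y, hy, rfl⟩)
      obtain ⟨a, ha, b, hb, rfl⟩ := ZFSet.mem_prod.1 hp1
      rw [ZFSet.mem_singleton] at ha
      subst ha
      refine ⟨b, (hmem _ _).2 ⟨hy, hb, hp2⟩, fun b' hb' => ?_⟩
      obtain ⟨-, h4, h5⟩ := (hmem _ _).1 hb'
      exact (ZFSet.pair_inj.1 (hp3 (pair a b') ⟨ZFSet.pair_mem_prod.2 ⟨by simp, h4⟩, h5⟩)).2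
  refine ⟨c, hcM, fun y hy => ?_⟩
  obtain ⟨z, -, hz⟩ := fun_exists hfun hy
  rw [ap_func hfun hz]
  exact ((hmem _ _).1 hz).2.1

/-- The enumeration of `D` that is given by the choice function `c`. -/
noncomputable def En (D c : ZFSet.{0}) : ZFSet.{0} → ZFSet.{0} :=
  wfF (fun z => z) ZFSet.mem_wf fun _ g =>
    open Classical in
    if ZFSet.sep (fun y => y ∉ im sn g) D = ∅ then D
      else ap c (ZFSet.sep (fun y => y ∉ im sn g) D)

theorem im_sn_gr (F : ZFSet.{0} → ZFSet.{0}) (z : ZFSet.{0}) : im sn (gr F z) = im F z := by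
  ext y
  rw [mem_im, mem_im]
  constructor
  · rintro ⟨p, hp, rfl⟩
    obtain ⟨u, hu, rfl⟩ := mem_gr.1 hp
    exact ⟨u, hu, by rw [sn_pair]⟩
  · rintro ⟨u, hu, rfl⟩
    exact ⟨_, mem_gr.2 ⟨u, hu, rfl⟩, by rw [sn_pair]⟩

theorem En_eq' (D c z : ZFSet.{0}) : En D c z =
    open Classical in
    if ZFSet.sep (fun y => y ∉ im sn (gr (En D c) z)) D = ∅ then D
      else ap c (ZFSet.sep (fun y => y ∉ im sn (gr (En D c) z)) D) := wfF_eq _ _ _ _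

theorem En_eq (D c z : ZFSet.{0}) : En D c z =
    open Classical in
    if ZFSet.sep (fun y => y ∉ im (En D c) z) D = ∅ then D
      else ap c (ZFSet.sep (fun y => y ∉ im (En D c) z) D) := by
  rw [En_eq', im_sn_gr]

theorem dfn_En {M : Set ZFSet.{0}} (hM : IsZF M) {D c : ZFSet.{0}} (hD : D ∈ M) (hc : c ∈ M) :
    DfnF M M fun w : Fin 1 → ZFSet.{0} => En D c (w 0) := by
  have hB := hM.base
  have h0 := hM.empty_mem
  refine hM.memrec (G := fun _ g => open Classical in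
    if ZFSet.sep (fun y => y ∉ im sn g) D = ∅ then D
      else ap c (ZFSet.sep (fun y => y ∉ im sn g) D)) ?_ (En_eq' D c)
  have h1 : DfnF M M fun w : Fin 2 → ZFSet.{0} =>
      ZFSet.sep (fun y => y ∉ im sn (w 1)) D := by
    refine hM.sep' (Q := fun y w => y ∉ im sn (w 1)) (DfnF.const hD) ?_
    refine (Dfn.mem (DfnF.proj 0) (hM.im' (h := fun p _ => sn p) (DfnF.proj 2) ?_)).not
    exact hM.sn' (DfnF.proj 0)
  exact DfnF.ite (Dfn.eq h1 (DfnF.const h0)) (DfnF.const hD) (hM.ap' (DfnF.const hc) h1)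

/-- The well-ordering theorem in a transitive model of ZFC. -/
theorem exists_wo {M : Set ZFSet.{0}} (hM : IsZFC M) {D : ZFSet.{0}} (hD : D ∈ M) :
    ∃ α ∈ M, α.IsOrdinal ∧ Inj M D α := by
  have hZ := hM.toIsZF
  have hB := hZ.base
  have h0 := hZ.empty_mem
  obtain ⟨P, hP, hP'⟩ := hZ.power D hD
  obtain ⟨c, hc, hc2⟩ := exists_choice hM (x := ZFSet.sep (fun y => ¬ y = ∅) P)
    (hZ.sep_mem (Q := fun y => ¬ y = ∅) (Dfn.eq (DfnF.proj 0) (DfnF.const h0)).not hP) (by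
      intro y hy
      obtain ⟨-, h1⟩ := ZFSet.mem_sep.1 hy
      by_contra h2
      push Not at h2
      exact h1 (ZFSet.eq_empty y |>.2 h2))
  have hEn := dfn_En hZ hD hc
  obtain ⟨S, hS, hSo, hSi⟩ := hartogs hZ hD
  have hdiff : ∀ z ∈ M, ZFSet.sep (fun y => y ∉ im (En D c) z) D ∈ M := by
    intro z hz
    have h1 : im (En D c) z ∈ M := hZ.im_mem hz hEn
    exact hZ.sep_mem (Q := fun y => y ∉ im (En D c) z)
      (Dfn.mem (DfnF.proj 0) (DfnF.const h1)).not hD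
  have hval : ∀ z ∈ M, (ZFSet.sep (fun y => y ∉ im (En D c) z) D ≠ ∅) →
      En D c z ∈ D ∧ En D c z ∉ im (En D c) z := by
    intro z hz hne
    rw [En_eq, if_neg hne, ← ZFSet.mem_sep (p := fun y => y ∉ im (En D c) z)]
    refine hc2 _ (ZFSet.mem_sep.2 ⟨(hP' _).2 ⟨hdiff z hz, fun y hy => (ZFSet.mem_sep.1 hy).1⟩, hne⟩)
  have hex : ∃ α ∈ S, ZFSet.sep (fun y => y ∉ im (En D c) α) D = ∅ := by
    by_contra hcon
    push Not at hcon
    apply hSi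
    refine Inj.of_fun hZ hS hD (h := En D c) hEn ?_ ?_
    · intro a ha
      exact (hval a (hZ.trans _ hS _ ha) (hcon a ha)).1
    · intro a ha a' ha' h
      rcases (hSo.mem ha).mem_trichotomous (hSo.mem ha') with h1 | h1 | h1
      · exact absurd (mem_im.2 ⟨a, h1, h.symm⟩) (hval a' (hZ.trans _ hS _ ha') (hcon a' ha')).2
      · exact h1
      · exact absurd (mem_im.2 ⟨a', h1, h⟩) (hval a (hZ.trans _ hS _ ha) (hcon a ha)).2
  obtain ⟨α, hα, h1⟩ := hex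
  have hαM := hZ.trans _ hS _ hα
  have hαo := hSo.mem hα
  have hd : DfnF M M fun w : Fin 1 → ZFSet.{0} => lo M fun ξ => En D c ξ = w 0 := by
    refine hZ.lo' (Q := fun ξ w => En D c ξ = w 0) ?_
    exact Dfn.eq (DfnF.comp1 (f := En D c) hEn (DfnF.proj 0)) (DfnF.proj 1)
  have hsurj : ∀ y ∈ D, ∃ ξ ∈ α, En D c ξ = y := by
    intro y hy
    by_contra hcon
    have h2 : y ∈ ZFSet.sep (fun y => y ∉ im (En D c) α) D := by
      refine ZFSet.mem_sep.2 ⟨hy, fun h => hcon ?_⟩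
      obtain ⟨ξ, hξ, h3⟩ := mem_im.1 h
      exact ⟨ξ, hξ, h3.symm⟩
    rw [h1] at h2
    exact ZFSet.notMem_empty _ h2
  refine ⟨α, hαM, hαo, Inj.of_fun hZ hD hαM (h := fun y => lo M fun ξ => En D c ξ = y) hd ?_ ?_⟩
  · intro y hy
    obtain ⟨ξ, hξ, h2⟩ := hsurj y hy
    have hξM := hZ.trans _ hαM _ hξ
    have hξo := hαo.mem hξ
    have h3 : lo M (fun ξ => En D c ξ = y) ⊆ ξ := lo_subset hξM hξo h2
    exact (lo_isOrdinal).mem_of_subset_of_mem hαo h3 hξ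
  · intro y hy y' hy' h
    obtain ⟨ξ, hξ, h2⟩ := hsurj y hy
    obtain ⟨ξ', hξ', h2'⟩ := hsurj y' hy'
    have h3 := (lo_spec (M := M) (P := fun ξ => En D c ξ = y)
      ⟨ξ, hZ.trans _ hαM _ hξ, hαo.mem hξ, h2⟩).2.2
    have h4 := (lo_spec (M := M) (P := fun ξ => En D c ξ = y')
      ⟨ξ', hZ.trans _ hαM _ hξ', hαo.mem hξ', h2'⟩).2.2
    rw [← h3, ← h4, h]

/-! ### Transitive closures -/

/-- The transitive closure of `x` in a transitive model. -/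
theorem exists_tc {M : Set ZFSet.{0}} (hM : IsZF M) {x : ZFSet.{0}} (hx : x ∈ M) :
    ∃ T ∈ M, (∀ y ∈ T, ∀ z ∈ y, z ∈ T) ∧ x ∈ T ∧
      ∀ t : ZFSet.{0}, (∀ y ∈ t, ∀ z ∈ y, z ∈ t) → x ∈ t → T ⊆ t := by
  have hB := hM.base
  refine ⟨itr (fun s => ZFSet.sUnion s) {x} ZFSet.omega,
    itr_mem_M hM (hM.single_mem hx) hM.infinity hB.dfn_sUnion, ?_, itr_base (by simp), ?_⟩
  · intro y hy z hz
    obtain ⟨k, hk⟩ := mem_itr_omega hy
    exact itr_step (nat_mem_omega k) (ZFSet.mem_sUnion.2 ⟨y, hk, hz⟩)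
  · intro t ht hxt
    have key : ∀ u : ZFSet.{0}, itr (fun s => ZFSet.sUnion s) {x} u ⊆ t := by
      intro u
      induction u using ZFSet.inductionOn with
      | _ u ih =>
      intro y hy
      rcases mem_itr.1 hy with h | ⟨v, hv, h⟩
      · rw [ZFSet.mem_singleton.1 h]
        exact hxt
      · obtain ⟨w, hw, hyw⟩ := ZFSet.mem_sUnion.1 h
        exact ht w (ih v hv hw) y hyw
    exact key _

/-! ### Sizes -/

/-- A union of two small sets. -/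
theorem inj_union2 {W : Set ZFSet.{0}} (hW : IsZFC W) {κ a b : ZFSet.{0}} (hκ : κ ∈ W)
    (hκo : κ.IsOrdinal) (hω : ZFSet.omega ⊆ κ) (ha : a ∈ W) (hb : b ∈ W) (h1 : Inj W a κ)
    (h2 : Inj W b κ) : Inj W (a ∪ b) κ := by
  have hZ := hW.toIsZF
  have h3 : Inj W {a, b} κ :=
    Inj.trans hZ (hZ.pairing _ ha _ hb) hκ (upair_countable hZ ha hb)
      (Inj.of_subset hZ hZ.infinity hκ hω)
  have h4 := inj_union hW hκ hκo hω (hZ.pairing _ ha _ hb) h3 (by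
    intro u hu
    rcases ZFSet.mem_pair.1 hu with rfl | rfl
    · exact h1
    · exact h2)
  rwa [ZFSet.sUnion_pair] at h4

theorem inj_insert {W : Set ZFSet.{0}} (hW : IsZFC W) {κ a b : ZFSet.{0}} (hκ : κ ∈ W)
    (hκo : κ.IsOrdinal) (hω : ZFSet.omega ⊆ κ) (ha : a ∈ W) (hb : b ∈ W)
    (h2 : Inj W b κ) : Inj W (insert a b) κ := by
  have hZ := hW.toIsZF
  have h := upair_countable hZ ha ha
  rw [ZFSet.pair_eq_singleton] at h
  have h0 : Inj W {a} κ := Inj.trans hZ (hZ.single_mem ha) hκ h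
    (Inj.of_subset hZ hZ.infinity hκ hω)
  have h3 := inj_union2 hW hκ hκo hω (hZ.single_mem ha) hb h0 h2
  have h1 : ({a} ∪ b : ZFSet.{0}) = insert a b := by
    ext z
    simp
  rwa [h1] at h3

theorem Inj.up {N W : Set ZFSet.{0}} (hWN : W ⊆ N) {x y : ZFSet.{0}} (h : Inj W x y) :
    Inj N x y := by
  obtain ⟨f, hf, h1⟩ := h
  exact ⟨f, hWN hf, h1⟩

/-- A relation on a small transitive set is in a small transitive set. -/
theorem small_rel {N : Set ZFSet.{0}} (hN : IsZFC N) {κ Y s : ZFSet.{0}} (hκ : κ ∈ N)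
    (hκo : κ.IsOrdinal) (hω : ZFSet.omega ⊆ κ) (hY : Y ∈ N) (hYt : ∀ y ∈ Y, ∀ z ∈ y, z ∈ Y)
    (hYκ : Inj N Y κ) (hs : s ∈ N) (hsY : s ⊆ ZFSet.prod Y Y) :
    ∃ t ∈ N, (∀ y ∈ t, ∀ z ∈ y, z ∈ t) ∧ s ∈ t ∧ Inj N t κ := by
  have hZ := hN.toIsZF
  have hsU := hZ.union _ hs
  have hp := hZ.prod_mem hY hY
  have h1 : Inj N s κ := inj_mono hZ hs hp hκ hsY
    (Inj.trans hZ hp hκ (Inj.prod hZ hY hY hκ hκ hYκ hYκ) (sq_inj hZ hκ hκo hω))
  have h2 : Inj N (ZFSet.sUnion s) κ := by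
    refine inj_union hN hκ hκo hω hs h1 ?_
    intro p hps
    obtain ⟨u, hu, w, hw, rfl⟩ := ZFSet.mem_prod.1 (hsY hps)
    have hu' := hZ.trans _ hY _ hu
    have hw' := hZ.trans _ hY _ hw
    exact Inj.trans hZ (hZ.pair_mem hu' hw') hκ
      (upair_countable hZ (hZ.single_mem hu') (hZ.pairing _ hu' _ hw'))
      (Inj.of_subset hZ hZ.infinity hκ hω)
  have h3 := inj_union2 hN hκ hκo hω hsU hY h2 hYκ
  have h3m := hZ.union_mem hsU hY
  have h4 := inj_union2 hN hκ hκo hω hs h3m h1 h3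
  have h4m := hZ.union_mem hs h3m
  refine ⟨insert s (s ∪ (ZFSet.sUnion s ∪ Y)), hZ.insert_mem hs h4m, ?_,
    ZFSet.mem_insert _ _, inj_insert hN hκ hκo hω hs h4m h4⟩
  intro x hx y hy
  rw [ZFSet.mem_insert_iff, ZFSet.mem_union, ZFSet.mem_union]
  rw [ZFSet.mem_insert_iff, ZFSet.mem_union, ZFSet.mem_union] at hx
  rcases hx with rfl | hx | hx | hx
  · exact Or.inr (Or.inl hy)
  · exact Or.inr (Or.inr (Or.inl (ZFSet.mem_sUnion.2 ⟨x, hx, hy⟩)))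
  · obtain ⟨p, hp, hxp⟩ := ZFSet.mem_sUnion.1 hx
    obtain ⟨u, hu, w, hw, rfl⟩ := ZFSet.mem_prod.1 (hsY hp)
    have hxp' : x ∈ ({{u}, {u, w}} : ZFSet.{0}) := hxp
    rcases ZFSet.mem_pair.1 hxp' with rfl | rfl
    · rw [ZFSet.mem_singleton.1 hy]
      exact Or.inr (Or.inr (Or.inr hu))
    · rcases ZFSet.mem_pair.1 hy with rfl | rfl
      · exact Or.inr (Or.inr (Or.inr hu))
      · exact Or.inr (Or.inr (Or.inr hw))
  · exact Or.inr (Or.inr (Or.inr (hYt x hx y hy)))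

/-! ### The levels -/

theorem Lp_mono {K : ZFSet.{0} → Prop} {α β : Ordinal.{0}} (h : α ≤ β) : Lp K α ⊆ Lp K β := by
  intro x hx
  obtain ⟨γ, hγ, h1⟩ := mem_Lp.1 hx
  exact mem_Lp.2 ⟨γ, lt_of_lt_of_le hγ h, h1⟩

theorem Lp_trans' {K : ZFSet.{0} → Prop} {α γ : Ordinal.{0}} {y z : ZFSet.{0}}
    (h : y ∈ DefQ K (Lp K γ)) (hz : z ∈ y) (hγ : γ < α) : z ∈ Lp K α := by
  have h1 : y ⊆ Lp K γ := by
    rw [DefQ, ZFSet.mem_sep] at h
    exact ZFSet.mem_powerset.1 h.1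
  exact Lp_mono hγ.le (h1 hz)

theorem Lp_trans {K : ZFSet.{0} → Prop} {α : Ordinal.{0}} :
    ∀ y ∈ Lp K α, ∀ z ∈ y, z ∈ Lp K α := by
  intro y hy z hz
  obtain ⟨γ, hγ, h1⟩ := mem_Lp.1 hy
  exact Lp_trans' h1 hz hγ

/-- In a cardinal `θ` of `N` as in `BigC`, the maximum of two elements. -/
theorem max_mem {θ a b : ZFSet.{0}} (hθ : θ.IsOrdinal) (ha : a ∈ θ) (hb : b ∈ θ) :
    a ∪ b ∈ θ := by
  rcases (hθ.mem ha).subset_total (hθ.mem hb) with h1 | h1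
  · have h2 : a ∪ b = b := by
      ext z
      rw [ZFSet.mem_union]
      exact ⟨fun h => h.elim (fun h => h1 h) id, Or.inr⟩
    rw [h2]
    exact hb
  · have h2 : a ∪ b = a := by
      ext z
      rw [ZFSet.mem_union]
      exact ⟨fun h => h.elim id (fun h => h1 h), Or.inl⟩
    rw [h2]
    exact ha

theorem BigC.omega_mem {N : Set ZFSet.{0}} (hN : IsZFC N) {θ : ZFSet.{0}} (hθ : BigC N θ) :
    ZFSet.omega ∈ θ := by
  have hZ := hN.toIsZF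
  obtain ⟨h1, h2, h3, κ, hκ, h4⟩ := hθ
  rcases isOrdinal_omega.mem_or_subset (h2.mem hκ) with h5 | h5
  · exact h2.mem_trans h5 hκ
  · exact absurd (Inj.of_subset hZ (hZ.trans _ h1 _ hκ) hZ.infinity h5) h4

/-- An ordinal that injects into an element of the cardinal `θ` is in `θ`. -/
theorem BigC.mem_of_inj {N : Set ZFSet.{0}} (hN : IsZFC N) {θ κ τ : ZFSet.{0}} (hθ : BigC N θ)
    (hκ : κ ∈ θ) (hτ : τ ∈ N) (hτo : τ.IsOrdinal) (h : Inj N τ κ) : τ ∈ θ := by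
  have hZ := hN.toIsZF
  rcases hτo.mem_or_subset hθ.2.1 with h1 | h1
  · exact h1
  · exact absurd (Inj.trans hZ hθ.1 (hZ.trans _ hθ.1 _ hκ)
      (Inj.of_subset hZ hθ.1 hτ h1) h) (hθ.2.2.1 κ hκ)

theorem ord_eq {θ : ZFSet.{0}} (hθ : θ.IsOrdinal) : θ = θ.rank.toZFSet :=
  hθ.toZFSet_rank_eq.symm

end PG3

open PG3 in
/-- One step: `W` is a submodel of `N`. The operation gives the part of `C*` of `W` in `H_θ`. -/
theorem it_step {N W : Set ZFSet.{0}} (hN : IsZFC N) (hW : IsZFC W) (hWN : W ⊆ N)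
    (hord : ∀ α : Ordinal.{0}, α.toZFSet ∈ N → α.toZFSet ∈ W) {θ A : ZFSet.{0}} (hθ : BigC N θ)
    (hA : ∀ x, x ∈ A ↔ x ∈ W ∧ HH N θ x) :
    ∀ x, x ∈ LpS (CofW {x | x ∈ A}) θ ↔ x ∈ Cst W ∧ HH N θ x := by
  have hZN := hN.toIsZF
  have hZW := hW.toIsZF
  have hθo := hθ.2.1
  obtain ⟨α, hα⟩ : ∃ α : Ordinal.{0}, θ = α.toZFSet := ⟨_, ord_eq hθo⟩
  subst hα
  have hαW : α.toZFSet ∈ W := hord α hθ.1
  have hωθ := BigC.omega_mem hN hθ
  have hβW : ∀ β < α, β.toZFSet ∈ W := fun β hβ =>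
    hZW.trans _ hαW _ (Ordinal.toZFSet_mem_toZFSet_iff.2 hβ)
  -- the sizes of the levels
  have hsz : ∀ β < α, ∃ κ ∈ α.toZFSet, ZFSet.omega ⊆ κ ∧ Inj W (Lp (CofW W) β) κ := by
    intro β hβ
    have hβθ : β.toZFSet ∈ α.toZFSet := Ordinal.toZFSet_mem_toZFSet_iff.2 hβ
    have hm := max_mem hθo hβθ hωθ
    have hmW : β.toZFSet ∪ ZFSet.omega ∈ W := hZW.trans _ hαW _ hm
    refine ⟨β.toZFSet ∪ ZFSet.omega, hm, fun z hz => ZFSet.mem_union.2 (Or.inr hz), ?_⟩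
    exact lp_small hW (hβW β hβ) hmW (hθo.mem hm) (fun z hz => ZFSet.mem_union.2 (Or.inr hz))
      (Inj.of_subset hZW (hβW β hβ) hmW fun z hz => ZFSet.mem_union.2 (Or.inl hz))
  have hLW : ∀ β : Ordinal.{0}, β.toZFSet ∈ W → Lp (CofW W) β ∈ W := fun β hβ =>
    cst_sub hZW (lp_mem_Cst hZW hβ)
  -- the levels agree
  have hagree : Lp (CofW W) α = Lp (CofW {x | x ∈ A}) α := by
    refine Lp_congr hZW (K := CofW W) (K' := CofW {x | x ∈ A}) (dfn_CofW hZW) hαW ?_ α le_rfl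
    intro β hβ R hR hRL
    obtain ⟨κ, hκθ, hωκ, hκi⟩ := hsz β hβ
    have hκN : κ ∈ N := hZN.trans _ hθ.1 _ hκθ
    have hκo : κ.IsOrdinal := hθo.mem hκθ
    constructor
    · rintro ⟨h1, g, h2, h3, h4⟩
      refine ⟨h1, g, (hA _).2 ⟨h2, ?_⟩, h3, h4⟩
      have hgL : ∀ n, g n ∈ Lp (CofW W) β := fun n =>
        (ZFSet.pair_mem_prod.1 (hRL (h3 n (n + 1) (Nat.lt_succ_self n)).2)).1
      have hLN : Lp (CofW W) β ∈ N := hWN (hLW β (hβW β hβ))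
      obtain ⟨t, ht, htt, hst, hti⟩ := small_rel hN hκN hκo hωκ
        (Y := ZFSet.omega ∪ Lp (CofW W) β) (s := sqSet g) (hZN.union_mem hZN.infinity hLN) (by
          intro y hy z hz
          rcases ZFSet.mem_union.1 hy with h | h
          · exact ZFSet.mem_union.2 (Or.inl (isOrdinal_omega.mem_trans hz h))
          · exact ZFSet.mem_union.2 (Or.inr (Lp_trans y h z hz)))
        (inj_union2 hN hκN hκo hωκ hZN.infinity hLN (Inj.of_subset hZN hZN.infinity hκN hωκ)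
          (Inj.up hWN hκi)) (hWN h2) (by
          intro p hp
          rw [sqSet, ZFSet.mem_range] at hp
          obtain ⟨n, rfl⟩ := hp
          exact ZFSet.pair_mem_prod.2 ⟨ZFSet.mem_union.2 (Or.inl (nat_mem_omega n)),
            ZFSet.mem_union.2 (Or.inr (hgL n))⟩)
      exact ⟨t, ht, htt, hst, κ, hκθ, hti⟩
    · rintro ⟨h1, g, h2, h3, h4⟩
      exact ⟨h1, g, ((hA _).1 h2).1, h3, h4⟩
  intro x
  rw [LpS_eq, ← hagree]
  constructor
  · intro hx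
    refine ⟨⟨α, hαW, hx⟩, ?_⟩
    obtain ⟨β, hβ, h1⟩ := mem_Lp.1 hx
    obtain ⟨κ, hκθ, hωκ, hκi⟩ := hsz β hβ
    have hκN : κ ∈ N := hZN.trans _ hθ.1 _ hκθ
    have hκo : κ.IsOrdinal := hθo.mem hκθ
    have hLN : Lp (CofW W) β ∈ N := hWN (hLW β (hβW β hβ))
    have hxN : x ∈ N := hZN.trans _ (hWN (hLW α hαW)) _ hx
    refine ⟨insert x (Lp (CofW W) β), hZN.insert_mem hxN hLN, ?_, ZFSet.mem_insert _ _, κ, hκθ,
      inj_insert hN hκN hκo hωκ hxN hLN (Inj.up hWN hκi)⟩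
    intro y hy z hz
    rcases ZFSet.mem_insert_iff.1 hy with rfl | hy
    · have h2 : y ⊆ Lp (CofW W) β := by
        rw [DefQ, ZFSet.mem_sep] at h1
        exact ZFSet.mem_powerset.1 h1.1
      exact ZFSet.mem_insert_of_mem _ (h2 hz)
    · exact ZFSet.mem_insert_of_mem _ (Lp_trans y hy z hz)
  · rintro ⟨hxC, t, ht, htt, hxt, δ, hδ, htδ⟩
    have hxW : x ∈ W := cst_sub hZW hxC
    obtain ⟨T, hT, hTt, hxT, hTmin⟩ := exists_tc hZW hxW
    have hTs : T ⊆ t := hTmin t htt hxt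
    obtain ⟨τ0, hτ0, hτ0o, hTτ0⟩ := exists_wo hW hT
    obtain ⟨τ, hτ, hτo, -, hbij⟩ := exists_ord hZW hT hτ0 hτ0o hTτ0
    have hτN := hWN hτ
    have hTN := hWN hT
    have hδN : δ ∈ N := hZN.trans _ hθ.1 _ hδ
    have hτδ : Inj N τ δ := Inj.trans hZN hτN hδN
      (Inj.up hWN (Bij.inj (Bij.symm hZW hT hτ hbij)))
      (Inj.trans hZN hTN hδN (Inj.of_subset hZN hTN ht hTs) htδ)
    have hτθ : τ ∈ α.toZFSet := BigC.mem_of_inj hN hθ hδ hτN hτo hτδ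
    obtain ⟨κ0, hκ0, hκ0u⟩ := hθ.2.2.2
    have hκθ := max_mem hθo hτθ hκ0
    have hκW : τ ∪ κ0 ∈ W := hZW.trans _ hαW _ hκθ
    have hκ0W : κ0 ∈ W := hZW.trans _ hαW _ hκ0
    obtain ⟨γ, hγW, hγi, hxγ⟩ := cond hW hκW (hθo.mem hκθ) (by
      intro h
      exact hκ0u (Inj.up hWN (Inj.trans hZW hκ0W hZW.infinity
        (Inj.of_subset hZW hκ0W hκW fun z hz => ZFSet.mem_union.2 (Or.inr hz)) h))) hT hTt
      (Inj.trans hZW hT hκW hbij.inj
        (Inj.of_subset hZW hτ hκW fun z hz => ZFSet.mem_union.2 (Or.inl hz))) hxT hxC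
    have hγθ : γ.toZFSet ∈ α.toZFSet := BigC.mem_of_inj hN hθ hκθ (hWN hγW)
      (ZFSet.isOrdinal_toZFSet γ) (Inj.up hWN hγi)
    exact Lp_mono (Ordinal.toZFSet_mem_toZFSet_iff.1 hγθ).le hxγ

end Pool.Agent.helper797_it
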