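import Pool.Agent.helper797_it.Defs
import Pool.Agent.helper797_it.PU1
import Pool.Agent.W868.Itr

/-! # G5: intersections of models of ZF -/

set_option autoImplicit false
namespace Pool.Agent.helper797_it
open Pool.Agent.W868 Pool.Agent.R587 Pool.Agent.helper797_cs
open ZFSet (pair)

/-- Truth in the intersection is definable, for formulas in one free variable. -/
theorem PG5.sat1 {M W : Set ZFSet.{0}} (hW : Dfn M M fun w : Fin 1 → ZFSet.{0} => w 0 ∈ W)
    (hWM : W ⊆ M) (φ : Fml ZFSet.{0} 1) (hφ : φ.Over W) :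
    Dfn M M fun w : Fin 1 → ZFSet.{0} => Sat W id φ ![w 0] := by
  have h := dfn_sat hW hWM φ (Fml.Over.mono hWM hφ) (m := 1) (fun _ w => w 0)
    (fun _ => DfnF.proj 0)
  refine h.congr fun w _ => ?_
  have h1 : (fun _ : Fin 1 => w 0) = ![w 0] := by
    funext i
    fin_cases i
    rfl
  rw [h1]

/-- Truth in the intersection is definable, for formulas in two free variables. -/
theorem PG5.sat2 {M W : Set ZFSet.{0}} (hW : Dfn M M fun w : Fin 1 → ZFSet.{0} => w 0 ∈ W)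
    (hWM : W ⊆ M) (φ : Fml ZFSet.{0} 2) (hφ : φ.Over W) :
    Dfn M M fun w : Fin 2 → ZFSet.{0} => Sat W id φ ![w 0, w 1] := by
  have h := dfn_sat hW hWM φ (Fml.Over.mono hWM hφ) (m := 2) (fun i w => w i)
    (fun i => DfnF.proj i)
  refine h.congr fun w _ => ?_
  have h1 : (fun i : Fin 2 => w i) = ![w 0, w 1] := by
    funext i
    fin_cases i <;> rfl
  rw [h1]

/-- A decreasing sequence of models of ZF such that the intersection is definable in each of them:
the intersection is a model of ZF. -/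
theorem isZF_inter {V : ℕ → Set ZFSet.{0}} (hV : ∀ n, IsZF (V n))
    (hd : ∀ n, Dfn (V n) (V n) fun w : Fin 1 → ZFSet.{0} => ∀ k, w 0 ∈ V k) :
    IsZF {x | ∀ k, x ∈ V k} := by
  set W : Set ZFSet.{0} := {x | ∀ k, x ∈ V k} with hWdef
  have hWV : ∀ n, W ⊆ V n := fun n x hx => hx n
  have hW : ∀ n, Dfn (V n) (V n) fun w : Fin 1 → ZFSet.{0} => w 0 ∈ W := fun n => hd n
  refine ⟨fun x hx y hy k => (hV k).trans x (hx k) y hy,
    fun x hx y hy k => (hV k).pairing x (hx k) y (hy k),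
    fun x hx k => (hV k).union x (hx k), fun k => (hV k).infinity, ?_, ?_, ?_⟩
  · intro x hx
    refine ⟨ZFSet.sep (fun z => z ∈ W) (ZFSet.powerset x), fun n => ?_, fun z => ?_⟩
    · obtain ⟨y, hy, hy'⟩ := (hV n).power x (hx n)
      have h1 := (hV n).sep_mem (Q := fun z => z ∈ W) (hW n) hy
      have h2 : ZFSet.sep (fun z => z ∈ W) y = ZFSet.sep (fun z => z ∈ W) (ZFSet.powerset x) := by
        ext z
        rw [ZFSet.mem_sep, ZFSet.mem_sep, hy', ZFSet.mem_powerset]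
        constructor
        · rintro ⟨⟨_, h3⟩, h4⟩
          exact ⟨h3, h4⟩
        · rintro ⟨h3, h4⟩
          exact ⟨⟨hWV n h4, h3⟩, h4⟩
      rw [← h2]
      exact h1
    · rw [ZFSet.mem_sep, ZFSet.mem_powerset]
      exact ⟨fun h => ⟨h.2, h.1⟩, fun h => ⟨h.2, h.1⟩⟩
  · intro φ hφ x hx
    refine ⟨ZFSet.sep (fun z => Sat W id φ ![z]) x, fun n => ?_, fun z => ZFSet.mem_sep⟩
    exact (hV n).sep_mem (Q := fun z => Sat W id φ ![z]) (PG5.sat1 (hW n) (hWV n) φ hφ)
      (hx n)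
  · intro φ hφ x hx hu
    have key : ∀ n, ∃ y ∈ V n, ∀ w, w ∈ y ↔ w ∈ W ∧ ∃ z ∈ x, Sat W id φ ![z, w] := by
      intro n
      have h1 : Dfn (V n) (V n) fun w : Fin 2 → ZFSet.{0} => w 1 ∈ W ∧ Sat W id φ ![w 0, w 1] := by
        refine Dfn.and ?_ (PG5.sat2 (hW n) (hWV n) φ hφ)
        exact Dfn.comp1 (Q := fun x => x ∈ W) (hW n) (DfnF.proj 1)
      obtain ⟨ψ, h2, h3⟩ := h1
      have h4 : ∀ z ∈ x, ∀ w ∈ V n, Sat (V n) id ψ ![z, w] ↔ w ∈ W ∧ Sat W id φ ![z, w] := by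
        intro z hz w hw
        refine (h3 ![z, w] ?_).trans ?_
        · intro i
          fin_cases i
          · exact (hV n).trans x (hx n) z hz
          · exact hw
        · rfl
      obtain ⟨y, hy, hy'⟩ := (hV n).replacement ψ h2 x (hx n) (by
        intro z hz
        obtain ⟨w, ⟨hw1, hw2⟩, hw3⟩ := hu z hz
        refine ⟨w, ⟨hWV n hw1, (h4 z hz w (hWV n hw1)).2 ⟨hw1, hw2⟩⟩, ?_⟩
        rintro w' ⟨h5, h6⟩
        exact hw3 w' ((h4 z hz w' h5).1 h6))
      refine ⟨y, hy, fun w => ?_⟩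
      rw [hy']
      constructor
      · rintro ⟨h5, z, hz, h6⟩
        obtain ⟨h7, h8⟩ := (h4 z hz w h5).1 h6
        exact ⟨h7, z, hz, h8⟩
      · rintro ⟨h5, z, hz, h6⟩
        exact ⟨hWV n h5, z, hz, (h4 z hz w (hWV n h5)).2 ⟨h5, h6⟩⟩
    obtain ⟨y, _, hy⟩ := key 0
    refine ⟨y, fun n => ?_, hy⟩
    obtain ⟨y', h1, h2⟩ := key n
    have h3 : y = y' := by
      ext w
      rw [hy, h2]
    rw [h3]
    exact h1

end Pool.Agent.helper797_it
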