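import Pool.Agent.helper797_it.PG3
import Pool.Agent.helper797_it.PG5

/-! # G4: `C*ω` is a model of ZF -/

set_option autoImplicit false
namespace Pool.Agent.helper797_it
open Pool.Agent.W868 Pool.Agent.R587 Pool.Agent.helper797_cs
open ZFSet (pair)

theorem mem_It {N : Set ZFSet.{0}} (hN : IsZFC N) {θ : ZFSet.{0}} (hθ : BigC N θ) (n : ℕ)
    (x : ZFSet.{0}) : x ∈ It N θ n ↔ x ∈ Cn N n ∧ HH N θ x := by
  induction n generalizing x with
  | zero =>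
    show x ∈ Hs N θ ↔ x ∈ N ∧ HH N θ x
    rw [mem_Hs hN hθ]
    refine ⟨fun h => ⟨?_, h⟩, fun h => h.2⟩
    obtain ⟨t, ht, -, hx, -⟩ := h
    exact hN.trans _ ht _ hx
  | succ n ih =>
    have h := cn_spec hN n
    show x ∈ LpS (CofW {x | x ∈ It N θ n}) θ ↔ x ∈ Cst (Cn N n) ∧ HH N θ x
    exact it_step hN h.1 h.2.1 (fun α hα => (h.2.2.2 α).2 hα) hθ ih x

/-- The sequence of the classes `C*n` is definable. -/
theorem dfn_Cn {N : Set ZFSet.{0}} (hN : IsZFC N) :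
    Dfn N N fun w : Fin 2 → ZFSet.{0} => ∃ n : ℕ, w 0 = nat n ∧ w 1 ∈ Cn N n := by
  have h1 : Dfn N N fun w : Fin 2 → ZFSet.{0} => ∃ θ ∈ N, BigC N θ ∧ HH N θ (w 1) ∧
      ∃ n : ℕ, w 0 = nat n ∧ w 1 ∈ It N θ n := by
    refine Dfn.ex (Q := fun θ w => BigC N θ ∧ HH N θ (w 1) ∧
      ∃ n : ℕ, w 0 = nat n ∧ w 1 ∈ It N θ n) ?_
    refine Dfn.and ?_ (Dfn.and ?_ ?_)
    · exact (dfn_BigC hN.toIsZF).comp1 (Q := fun a => BigC N a) (DfnF.proj 0)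
    · exact (dfn_HH hN.toIsZF).comp2 (Q := fun a b => HH N a b) (DfnF.proj 0) (DfnF.proj 2)
    · exact (dfn_It hN.toIsZF).comp3 (Q := fun a b c => ∃ n : ℕ, b = nat n ∧ c ∈ It N a n)
        (DfnF.proj 0) (DfnF.proj 1) (DfnF.proj 2)
  refine h1.congr fun v hv => ?_
  constructor
  · rintro ⟨θ, -, hθ, -, n, h2, h3⟩
    exact ⟨n, h2, ((mem_It hN hθ n _).1 h3).1⟩
  · rintro ⟨n, h2, h3⟩
    obtain ⟨θ, hθ, h4⟩ := exists_BigC hN (hv 1)
    exact ⟨θ, hθ.1, hθ, h4, n, h2, (mem_It hN hθ n _).2 ⟨h3, h4⟩⟩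

theorem cw_eq (N : Set ZFSet.{0}) (hN : IsZFC N) (n : ℕ) : Cw (Cn N n) = Cw N := by
  have hd : ∀ m k, Cn N (m + k) ⊆ Cn N m := by
    intro m k
    induction k with
    | zero => exact subset_rfl
    | succ k ih => exact fun x hx => ih ((cn_spec hN (m + k)).2.2.1 hx)
  ext x
  constructor
  · intro h k
    have h1 := h k
    rw [cn_add, Nat.add_comm] at h1
    exact hd k n h1
  · intro h k
    rw [cn_add]
    exact h (n + k)

theorem dfn_Cw {N : Set ZFSet.{0}} (hN : IsZFC N) (n : ℕ) :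
    Dfn (Cn N n) (Cn N n) fun w : Fin 1 → ZFSet.{0} => w 0 ∈ Cw N := by
  have hW : IsZFC (Cn N n) := (cn_spec hN n).1
  have h1 : Dfn (Cn N n) (Cn N n) fun w : Fin 1 → ZFSet.{0} => ∀ m ∈ ZFSet.omega,
      ∃ k : ℕ, m = nat k ∧ w 0 ∈ Cn (Cn N n) k := by
    refine hW.toIsZF.base.ball (F := fun _ => ZFSet.omega)
      (Q := fun m w => ∃ k : ℕ, m = nat k ∧ w 0 ∈ Cn (Cn N n) k)
      (DfnF.const hW.infinity) ?_
    exact (dfn_Cn hW).comp2 (Q := fun a b => ∃ k : ℕ, a = nat k ∧ b ∈ Cn (Cn N n) k)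
      (DfnF.proj 0) (DfnF.proj 1)
  refine h1.congr fun v _ => ?_
  rw [← cw_eq N hN n]
  constructor
  · intro h k
    obtain ⟨j, hj, h2⟩ := h (nat k) (mem_omega_iff.2 ⟨k, rfl⟩)
    have : k = j := nat_injective hj
    rw [this]
    exact h2
  · intro h m hm
    obtain ⟨k, rfl⟩ := mem_omega_iff.1 hm
    exact ⟨k, rfl, h k⟩

/-- **Theorem 1.** -/
theorem isZF_Cw {N : Set ZFSet.{0}} (hN : IsZFC N) : IsZF (Cw N) := by
  refine isZF_inter (V := Cn N) (fun n => (cn_spec hN n).1.toIsZF) fun n => ?_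
  exact dfn_Cw hN n

end Pool.Agent.helper797_it
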