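import Pool.Agent.helper797_it.PE5
import Pool.Agent.helper797_it.PF8

/-! # H1: the regular ordinals and the sequences -/

set_option autoImplicit false
namespace Pool.Agent.helper797_it
open Pool.Agent.W868 Pool.Agent.R587 Pool.Agent.helper797_cs
open ZFSet (pair)

namespace PH1

/-- `f` is a partial function from `R` to `A`. -/
def PF (R A f : ZFSet.{0}) : Prop :=
  (∀ p ∈ f, ∃ a ∈ R, ∃ b ∈ A, p = pair a b) ∧
    ∀ a b b', pair a b ∈ f → pair a b' ∈ f → b = b'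

/-- In `C`, some partial function from `R` to `A` is unbounded. -/
def Ub (C : Set ZFSet.{0}) (A R : ZFSet.{0}) : Prop :=
  ∃ f ∈ C, PF R A f ∧ ∀ x ∈ A, ∃ a b, pair a b ∈ f ∧ x ∈ b

theorem PF.mem {R A f a b : ZFSet.{0}} (h : PF R A f) (hab : pair a b ∈ f) : a ∈ R ∧ b ∈ A := by
  obtain ⟨a', ha, b', hb, h1⟩ := h.1 _ hab
  obtain ⟨rfl, rfl⟩ := ZFSet.pair_inj.1 h1
  exact ⟨ha, hb⟩

section
variable {C : Set ZFSet.{0}} (hC : IsZF C) {A f : ZFSet.{0}} {ρ : Ordinal.{0}}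
  (hρ : ρ.toZFSet ∈ C) (hA : A.IsOrdinal) (hAC : A ∈ C)
  (hmin : ∀ σ < ρ, ¬ Ub C A σ.toZFSet) (hf : f ∈ C) (hp : PF ρ.toZFSet A f)
include hC hρ hA hmin hf hp

/-- Initial parts of `f` are bounded. -/
theorem bound {y : ZFSet.{0}} (hy : y ∈ ρ.toZFSet) :
    ∃ x ∈ A, ∀ c ∈ (insert y y : ZFSet.{0}), ∀ b, pair c b ∈ f → b ⊆ x := by
  obtain ⟨σ, hσ, rfl⟩ := Ordinal.mem_toZFSet_iff.1 hy
  have hyC : σ.toZFSet ∈ C := hC.trans _ hρ _ hy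
  have h1 : ZFSet.sep (fun p => fs p ∈ σ.toZFSet) f ∈ C := by
    refine hC.sep_mem ?_ hf
    exact Dfn.mem (hC.fs' (DfnF.proj _)) (DfnF.const hyC)
  have h2 : PF σ.toZFSet A (ZFSet.sep (fun p => fs p ∈ σ.toZFSet) f) := by
    constructor
    · intro p hp'
      rw [ZFSet.mem_sep] at hp'
      obtain ⟨a, ha, b, hb, rfl⟩ := hp.1 p hp'.1
      rw [fs_pair] at hp'
      exact ⟨a, hp'.2, b, hb, rfl⟩
    · intro a b b' hb hb'
      exact hp.2 a b b' (ZFSet.mem_sep.1 hb).1 (ZFSet.mem_sep.1 hb').1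
  have h3 : ∃ x ∈ A, ∀ a b, pair a b ∈ ZFSet.sep (fun p => fs p ∈ σ.toZFSet) f → ¬ x ∈ b := by
    by_contra hcon
    push Not at hcon
    exact hmin σ hσ ⟨_, h1, h2, hcon⟩
  obtain ⟨x, hx, h3⟩ := h3
  have h4 : ∀ a ∈ σ.toZFSet, ∀ b, pair a b ∈ f → b ⊆ x := by
    intro a ha b hb
    have h5 := h3 a b (ZFSet.mem_sep.2 ⟨hb, by rw [fs_pair]; exact ha⟩)
    rcases (hA.mem hx).mem_or_subset (hA.mem (hp.mem hb).2) with h6 | h6
    · exact absurd h6 h5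
    · exact h6
  by_cases h5 : ∃ b1, pair σ.toZFSet b1 ∈ f
  · obtain ⟨b1, hb1⟩ := h5
    rcases (hA.mem hx).mem_or_subset (hA.mem (hp.mem hb1).2) with h6 | h6
    · refine ⟨b1, (hp.mem hb1).2, fun c hc b hb => ?_⟩
      rcases ZFSet.mem_insert_iff.1 hc with hc | hc
      · rw [hc] at hb
        rw [hp.2 _ _ _ hb hb1]
      · intro z hz
        exact (hA.mem (hp.mem hb1).2).subset_of_mem h6 (h4 c hc b hb hz)
    · refine ⟨x, hx, fun c hc b hb => ?_⟩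
      rcases ZFSet.mem_insert_iff.1 hc with hc | hc
      · rw [hc] at hb
        rw [hp.2 _ _ _ hb hb1]
        exact h6
      · exact h4 c hc b hb
  · refine ⟨x, hx, fun c hc b hb => ?_⟩
    rcases ZFSet.mem_insert_iff.1 hc with hc | hc
    · rw [hc] at hb
      exact absurd ⟨b, hb⟩ h5
    · exact h4 c hc b hb

/-- Minimality gives regularity. -/
theorem reg (hAC : A ∈ C) (hub : ∀ x ∈ A, ∃ a b, pair a b ∈ f ∧ x ∈ b) {σ : Ordinal.{0}} (hσ : σ < ρ)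
    {h : ZFSet.{0}} (hh : h ∈ C) (hph : PF σ.toZFSet ρ.toZFSet h) :
    ∃ ξ < ρ, ∀ a b, pair a b ∈ h → b ∈ ξ.toZFSet := by
  have hB := hC.base
  by_contra hcon
  push Not at hcon
  apply hmin σ hσ
  set T : ZFSet.{0} → ZFSet.{0} := fun u =>
    ZFSet.sUnion (ZFSet.sep (fun b => ∃ c ∈ (insert u u : ZFSet.{0}), pair c b ∈ f) A) with hTdef
  have hTD : DfnF C C fun w : Fin 1 → ZFSet.{0} => T (w 0) := by
    refine hB.sUnion' (hC.sep' (DfnF.const hAC)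
      (Q := fun b w => ∃ c ∈ (insert (w 0) (w 0) : ZFSet.{0}), pair c b ∈ f) ?_)
    refine hB.bex (Q := fun c w => pair c (w 0) ∈ f) (hB.insert' (DfnF.proj 1) (DfnF.proj 1)) ?_
    exact Dfn.mem (hB.pair' (DfnF.proj 0) (DfnF.proj 1)) (DfnF.const hf)
  have hTA : ∀ u ∈ ρ.toZFSet, T u ∈ A := by
    intro u hu
    obtain ⟨x, hx, h1⟩ := bound hC hρ hA hmin hf hp hu
    have h2 : (T u).IsOrdinal := by
      apply isOrdinal_sUnion
      intro y hy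
      exact hA.mem (ZFSet.mem_sep.1 hy).1
    have h3 : T u ⊆ x := by
      intro z hz
      obtain ⟨b, hb, hzb⟩ := ZFSet.mem_sUnion.1 hz
      obtain ⟨hbA, c, hc, hcb⟩ := ZFSet.mem_sep.1 hb
      exact h1 c hc b hcb hzb
    exact h2.mem_of_subset_of_mem hA h3 hx
  refine ⟨im (fun p => pair (fs p) (T (sn p))) h, hC.im_mem hh ?_, ⟨?_, ?_⟩, ?_⟩
  · exact hB.pair' (hC.fs' (DfnF.proj 0)) (DfnF.comp1 (f := T) hTD (hC.sn' (DfnF.proj 0)))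
  · intro q hq
    obtain ⟨p, hp', rfl⟩ := mem_im.1 hq
    obtain ⟨a, ha, b, hb, rfl⟩ := hph.1 p hp'
    rw [fs_pair, sn_pair]
    exact ⟨a, ha, T b, hTA b hb, rfl⟩
  · intro a b b' hb hb'
    obtain ⟨p, hp', h1⟩ := mem_im.1 hb
    obtain ⟨p', hp'', h2⟩ := mem_im.1 hb'
    obtain ⟨c, hc, d, hd, rfl⟩ := hph.1 p hp'
    obtain ⟨c', hc', d', hd', rfl⟩ := hph.1 p' hp''
    rw [fs_pair, sn_pair] at h1 h2
    obtain ⟨rfl, rfl⟩ := ZFSet.pair_inj.1 h1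
    obtain ⟨rfl, rfl⟩ := ZFSet.pair_inj.1 h2
    rw [hph.2 _ _ _ hp' hp'']
  · intro x hx
    obtain ⟨c, b, hcb, hxb⟩ := hub x hx
    obtain ⟨hc, hb⟩ := hp.mem hcb
    obtain ⟨ξ, hξ, rfl⟩ := Ordinal.mem_toZFSet_iff.1 hc
    obtain ⟨a, b', hab, hb'⟩ := hcon ξ hξ
    have hb'ρ := (hph.mem hab).2
    have h1 : ξ.toZFSet ∈ (insert b' b' : ZFSet.{0}) := by
      rcases (ZFSet.isOrdinal_toZFSet ξ).mem_trichotomous
        ((ZFSet.isOrdinal_toZFSet ρ).mem hb'ρ) with h2 | h2 | h2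
      · exact ZFSet.mem_insert_iff.2 (Or.inr h2)
      · exact ZFSet.mem_insert_iff.2 (Or.inl h2)
      · exact absurd h2 hb'
    refine ⟨a, T b', mem_im.2 ⟨pair a b', hab, by rw [fs_pair, sn_pair]⟩, ?_⟩
    exact ZFSet.mem_sUnion.2 ⟨b, ZFSet.mem_sep.2 ⟨hb, _, h1, hcb⟩, hxb⟩

end

/-- A cofinality witness in the larger model is transferred to `ρ`. -/
theorem cf0_of {C W : Set ZFSet.{0}} (hC : IsZF C) (hW : IsZF W) (hCW : C ⊆ W) {A f : ZFSet.{0}}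
    {ρ : Ordinal.{0}} (hρ : ρ.toZFSet ∈ C) (hA : A.IsOrdinal) (hAC : A ∈ C)
    (hmin : ∀ σ < ρ, ¬ Ub C A σ.toZFSet) (hf : f ∈ C) (hp : PF ρ.toZFSet A f)
    (hub : ∀ x ∈ A, ∃ a b, pair a b ∈ f ∧ x ∈ b) (hcf : Cf0 W A) : Cf0 W ρ.toZFSet := by
  have hB := hW.base
  obtain ⟨s, hs, hsA, hsc⟩ := hcf
  set H : ZFSet.{0} → ZFSet.{0} := fun u => lo W fun c => ∃ b ∈ A, pair c b ∈ f ∧ u ⊆ b with hH
  have hHD : DfnF W W fun w : Fin 1 → ZFSet.{0} => H (w 0) := by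
    refine hW.lo' (Q := fun c w => ∃ b ∈ A, pair c b ∈ f ∧ w 0 ⊆ b) ?_
    refine hB.bex (Q := fun b w => pair (w 0) b ∈ f ∧ w 1 ⊆ b) (DfnF.const (hCW hAC)) ?_
    exact (Dfn.mem (hB.pair' (DfnF.proj 1) (DfnF.proj 0)) (DfnF.const (hCW hf))).and
      (hB.subset' (DfnF.proj 2) (DfnF.proj 0))
  have hHs : ∀ u ∈ A, ∃ b ∈ A, pair (H u) b ∈ f ∧ u ⊆ b := by
    intro u hu
    obtain ⟨c, b, hcb, hub'⟩ := hub u hu
    obtain ⟨hc, hb⟩ := hp.mem hcb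
    exact (lo_spec (M := W) (P := fun c => ∃ b ∈ A, pair c b ∈ f ∧ u ⊆ b)
      ⟨c, hCW (hC.trans _ hρ _ hc), (ZFSet.isOrdinal_toZFSet ρ).mem hc, b, hb, hcb,
        (hA.mem hb).subset_of_mem hub'⟩).2.2
  refine ⟨fun n => H (s n), ?_, ?_, ?_⟩
  · have h1 : sqSet (fun n => H (s n)) = im (fun p => pair (fs p) (H (sn p))) (sqSet s) := by
      ext z
      rw [mem_im, sqSet, sqSet, ZFSet.mem_range]
      constructor
      · rintro ⟨n, rfl⟩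
        exact ⟨pair (nat n) (s n), ZFSet.mem_range.2 ⟨n, rfl⟩, by rw [fs_pair, sn_pair]⟩
      · rintro ⟨p, hp', rfl⟩
        obtain ⟨n, rfl⟩ := ZFSet.mem_range.1 hp'
        exact ⟨n, by rw [fs_pair, sn_pair]⟩
    rw [h1]
    exact hW.im_mem hs
      (hB.pair' (hW.fs' (DfnF.proj 0)) (DfnF.comp1 (f := H) hHD (hW.sn' (DfnF.proj 0))))
  · intro n
    obtain ⟨b, hb, hHb, -⟩ := hHs (s n) (hsA n)
    exact (hp.mem hHb).1
  · intro y hy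
    obtain ⟨x, hx, h1⟩ := bound hC hρ hA hmin hf hp hy
    obtain ⟨n, hn⟩ := hsc x hx
    refine ⟨n, ?_⟩
    obtain ⟨b, hb, hHb, hsb⟩ := hHs (s n) (hsA n)
    have h2 := (hp.mem hHb).1
    rcases ((ZFSet.isOrdinal_toZFSet ρ).mem hy).mem_or_subset
      ((ZFSet.isOrdinal_toZFSet ρ).mem h2) with h3 | h3
    · exact h3
    · exfalso
      have h4 : H (s n) ∈ (insert y y : ZFSet.{0}) := by
        rcases (((ZFSet.isOrdinal_toZFSet ρ).mem h2).subset_iff_eq_or_mem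
          ((ZFSet.isOrdinal_toZFSet ρ).mem hy)).1 h3 with h5 | h5
        · exact ZFSet.mem_insert_iff.2 (Or.inl h5)
        · exact ZFSet.mem_insert_iff.2 (Or.inr h5)
      exact ZFSet.mem_irrefl _ (h1 _ h4 b hHb (hsb hn))

/-- A short partial function gives a sequence. -/
theorem cf0_short {C : Set ZFSet.{0}} (hC : IsZF C) {A f : ZFSet.{0}}
    {ρ : Ordinal.{0}} (hρ : ρ ≤ Ordinal.omega0) (hA : A.IsOrdinal) (hAC : A ∈ C)
    (hne : ∃ x, x ∈ A) (hf : f ∈ C) (hp : PF ρ.toZFSet A f)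
    (hub : ∀ x ∈ A, ∃ a b, pair a b ∈ f ∧ x ∈ b) : Cf0 C A := by
  have hB := hC.base
  set G : ZFSet.{0} → ZFSet.{0} := fun a =>
    ZFSet.sUnion (ZFSet.sep (fun b => pair a b ∈ f) A) with hG
  have hGD : DfnF C C fun w : Fin 1 → ZFSet.{0} => G (w 0) := by
    refine hB.sUnion' (hC.sep' (DfnF.const hAC) (Q := fun b w => pair (w 0) b ∈ f) ?_)
    exact Dfn.mem (hB.pair' (DfnF.proj 1) (DfnF.proj 0)) (DfnF.const hf)
  have hG1 : ∀ a b, pair a b ∈ f → G a = b := by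
    intro a b hab
    ext z
    rw [hG, ZFSet.mem_sUnion]
    constructor
    · rintro ⟨b', hb', hz⟩
      rw [hp.2 a b b' hab (ZFSet.mem_sep.1 hb').2]
      exact hz
    · intro hz
      exact ⟨b, ZFSet.mem_sep.2 ⟨(hp.mem hab).2, hab⟩, hz⟩
  have hG2 : ∀ a, (¬ ∃ b, pair a b ∈ f) → G a = ∅ := by
    intro a ha
    rw [ZFSet.eq_empty]
    intro z hz
    obtain ⟨b, hb, -⟩ := ZFSet.mem_sUnion.1 hz
    exact ha ⟨b, (ZFSet.mem_sep.1 hb).2⟩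
  have hGA : ∀ a, G a ∈ A := by
    intro a
    by_cases h : ∃ b, pair a b ∈ f
    · obtain ⟨b, hb⟩ := h
      rw [hG1 a b hb]
      exact (hp.mem hb).2
    · rw [hG2 a h]
      obtain ⟨x, hx⟩ := hne
      exact ZFSet.isOrdinal_empty.mem_of_subset_of_mem hA (ZFSet.empty_subset x) hx
  refine ⟨fun n => G (nat n), ?_, fun n => hGA _, ?_⟩
  · have h1 : sqSet (fun n => G (nat n)) = gr G ZFSet.omega := by
      ext z
      rw [mem_gr, sqSet, ZFSet.mem_range]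
      constructor
      · rintro ⟨n, rfl⟩
        exact ⟨nat n, mem_omega_iff.2 ⟨n, rfl⟩, rfl⟩
      · rintro ⟨u, hu, rfl⟩
        obtain ⟨n, rfl⟩ := mem_omega_iff.1 hu
        exact ⟨n, rfl⟩
    rw [h1]
    exact (im_mem' hC hGD hC.infinity).2
  · intro x hx
    obtain ⟨a, b, hab, hxb⟩ := hub x hx
    have ha : a ∈ ZFSet.omega := by
      rw [omega_eq]
      exact Ordinal.toZFSet_subset_toZFSet_iff.2 hρ (hp.mem hab).1
    obtain ⟨n, rfl⟩ := mem_omega_iff.1 ha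
    refine ⟨n, ?_⟩
    show x ∈ G (nat n)
    rw [hG1 _ _ hab]
    exact hxb

end PH1

open PH1 in
theorem exists_K {W : Set ZFSet.{0}} (hW : IsZFC W) (h : Cst (Cst W) ≠ Cst W) :
    ∃ κ, IsK W κ := by
  have hC : IsZFC (Cst W) := isZFC_Cst hW
  have hCW : Cst W ⊆ W := cst_sub hW.toIsZF
  have h1 : ∃ α : Ordinal.{0}, α.toZFSet ∈ W ∧ Cf0 W α.toZFSet ∧ ¬ Cf0 (Cst W) α.toZFSet := by
    by_contra hcon
    push Not at hcon
    apply h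
    refine (cst_congr hW hC (fun α => (ord_Cst hW.toIsZF).symm) fun α hα => ⟨hcon α hα, ?_⟩).symm
    rintro ⟨g, hg, hg'⟩
    exact ⟨g, hCW hg, hg'⟩
  obtain ⟨α, hα, hcf, hncf⟩ := h1
  have hαC : α.toZFSet ∈ Cst W := (ord_Cst hW.toIsZF).2 hα
  have hαo := ZFSet.isOrdinal_toZFSet α
  have hne : ∃ x, x ∈ α.toZFSet := by
    obtain ⟨g, -, hg, -⟩ := hcf
    exact ⟨g 0, hg 0⟩
  have h2 : ∃ ρ : Ordinal.{0}, Ub (Cst W) α.toZFSet ρ.toZFSet := by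
    refine ⟨α, gr (fun u => u) α.toZFSet, (im_mem' hC.toIsZF (DfnF.proj 0) hαC).2, ⟨?_, ?_⟩, ?_⟩
    · intro p hp
      obtain ⟨u, hu, rfl⟩ := mem_gr.1 hp
      exact ⟨u, hu, u, hu, rfl⟩
    · intro a b b' hb hb'
      rw [(pair_mem_gr.1 hb).2, (pair_mem_gr.1 hb').2]
    · intro x hx
      obtain ⟨g, -, hg, hgc⟩ := hcf
      obtain ⟨n, hn⟩ := hgc x hx
      exact ⟨g n, g n, pair_mem_gr.2 ⟨hg n, rfl⟩, hn⟩
  set ρ := sInf {ρ : Ordinal.{0} | Ub (Cst W) α.toZFSet ρ.toZFSet} with hρdef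
  have hρ : Ub (Cst W) α.toZFSet ρ.toZFSet := 
    csInf_mem (s := {ρ : Ordinal.{0} | Ub (Cst W) α.toZFSet ρ.toZFSet}) h2
  have hmin : ∀ σ < ρ, ¬ Ub (Cst W) α.toZFSet σ.toZFSet := by
    intro σ hσ hcon
    exact absurd hσ (not_lt.2 (csInf_le' (s := {ρ : Ordinal.{0} | Ub (Cst W) α.toZFSet ρ.toZFSet})
      hcon))
  have hρα : ρ ≤ α := by
    apply csInf_le'
    refine ⟨gr (fun u => u) α.toZFSet, (im_mem' hC.toIsZF (DfnF.proj 0) hαC).2, ⟨?_, ?_⟩, ?_⟩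
    · intro p hp
      obtain ⟨u, hu, rfl⟩ := mem_gr.1 hp
      exact ⟨u, hu, u, hu, rfl⟩
    · intro a b b' hb hb'
      rw [(pair_mem_gr.1 hb).2, (pair_mem_gr.1 hb').2]
    · intro x hx
      obtain ⟨g, -, hg, hgc⟩ := hcf
      obtain ⟨n, hn⟩ := hgc x hx
      exact ⟨g n, g n, pair_mem_gr.2 ⟨hg n, rfl⟩, hn⟩
  have hρC : ρ.toZFSet ∈ Cst W := by
    rcases hρα.eq_or_lt with h3 | h3
    · rw [h3]
      exact hαC
    · exact hC.trans _ hαC _ (Ordinal.toZFSet_mem_toZFSet_iff.2 h3)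
  obtain ⟨f, hf, hp, hub⟩ := hρ
  refine ⟨ρ, ⟨hρC, ?_, ?_⟩, ?_⟩
  · by_contra hcon
    exact hncf (cf0_short hC.toIsZF (not_lt.1 hcon) hαo hαC hne hf hp hub)
  · intro σ hσ g hg hg1 hg2
    exact reg hC.toIsZF hρC hαo hmin hf hp hαC hub hσ hg ⟨hg1, hg2⟩
  · exact cf0_of hC.toIsZF hW.toIsZF hCW hρC hαo hαC hmin hf hp hub hcf

theorem isK_kp {W : Set ZFSet.{0}} (hW : IsZFC W) (h : Cst (Cst W) ≠ Cst W) : IsK W (kp W) :=
  csInf_mem (s := {κ | IsK W κ}) (exists_K hW h)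

theorem ts_spec {W : Set ZFSet.{0}} (hW : IsZFC W) (h : Cst (Cst (Cst W)) ≠ Cst (Cst W)) :
    IsK (Cst W) (kp (Cst W)) ∧ IsSq W (ts W) ∧ ts W ∈ Cst W := by
  have hC : IsZFC (Cst W) := isZFC_Cst hW
  have h1 := isK_kp hC h
  obtain ⟨g, hg, hg1, hg2⟩ := h1.2
  have h2 : IsSq W (sqSet g) := ⟨g, rfl, hg, hg1, hg2⟩
  have h3 : ∃ x, IsCh W (IsSq W) x := ch_exists hW.toIsZF ⟨sqSet g, by rw [← kc_eq hW]; exact hg, h2⟩
  have h4 : IsSq W (ts W) := by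
    rw [ts, dif_pos h3]
    obtain ⟨ξ, -, -, h5, -⟩ := h3.choose_spec
    exact h5
  refine ⟨h1, h4, ?_⟩
  obtain ⟨g', -, h5, -⟩ := h4
  exact h5

end Pool.Agent.helper797_it
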