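import Pool.Agent.helper797_it.PH1
import Pool.Agent.helper797_it.PG4

/-! # H2: the coherent sequence -/

set_option autoImplicit false
set_option linter.unreachableTactic false
set_option linter.unusedTactic false
namespace Pool.Agent.helper797_it
open Pool.Agent.W868 Pool.Agent.R587 Pool.Agent.helper797_cs
open ZFSet (pair)

namespace PH2

/-- Membership in the classes, with the index as a set. -/
def PC (N : Set ZFSet.{0}) (z x : ZFSet.{0}) : Prop := ∃ n : ℕ, z = nat n ∧ x ∈ Cn N n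

theorem PC_nat {N : Set ZFSet.{0}} {j : ℕ} {x : ZFSet.{0}} : PC N (nat j) x ↔ x ∈ Cn N j := by
  constructor
  · rintro ⟨n, h1, h2⟩
    rwa [nat_injective h1]
  · exact fun h => ⟨j, rfl, h⟩

/-- `s` is a sequence of length `ω`. -/
def Sq1 (s : ZFSet.{0}) : Prop :=
  (∀ p ∈ s, ∃ i ∈ ZFSet.omega, p = pair i (sn p)) ∧ (∀ i ∈ ZFSet.omega, ∃ p ∈ s, fs p = i) ∧
    ∀ p ∈ s, ∀ q ∈ s, fs p = fs q → p = q

theorem mem_sqSet' {g : ℕ → ZFSet.{0}} {p : ZFSet.{0}} :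
    p ∈ sqSet g ↔ ∃ n, p = pair (nat n) (g n) := by
  rw [sqSet, ZFSet.mem_range]
  exact ⟨fun ⟨n, h⟩ => ⟨n, h.symm⟩, fun ⟨n, h⟩ => ⟨n, h.symm⟩⟩

theorem sq1_sqSet (g : ℕ → ZFSet.{0}) : Sq1 (sqSet g) := by
  refine ⟨fun p hp => ?_, fun i hi => ?_, fun p hp q hq h => ?_⟩
  · obtain ⟨n, rfl⟩ := mem_sqSet'.1 hp
    exact ⟨nat n, mem_omega_iff.2 ⟨n, rfl⟩, by rw [sn_pair]⟩
  · obtain ⟨n, rfl⟩ := mem_omega_iff.1 hi
    exact ⟨pair (nat n) (g n), mem_sqSet'.2 ⟨n, rfl⟩, fs_pair _ _⟩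
  · obtain ⟨n, rfl⟩ := mem_sqSet'.1 hp
    obtain ⟨m, rfl⟩ := mem_sqSet'.1 hq
    rw [fs_pair, fs_pair] at h
    rw [nat_injective h]

theorem sq1_iff {s : ZFSet.{0}} : Sq1 s ↔ ∃ g, s = sqSet g := by
  constructor
  · rintro ⟨h1, h2, h3⟩
    choose f hf1 hf2 using fun n : ℕ => h2 (nat n) (mem_omega_iff.2 ⟨n, rfl⟩)
    have h4 : ∀ n, f n = pair (nat n) (sn (f n)) := by
      intro n
      obtain ⟨i, hi, h⟩ := h1 _ (hf1 n)
      have h5 := hf2 n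
      rw [h, fs_pair] at h5
      rw [h5] at h
      exact h
    refine ⟨fun n => sn (f n), ?_⟩
    ext p
    rw [mem_sqSet']
    constructor
    · intro hp
      obtain ⟨i, hi, h⟩ := h1 p hp
      obtain ⟨n, rfl⟩ := mem_omega_iff.1 hi
      refine ⟨n, ?_⟩
      rw [← h4]
      refine h3 _ hp _ (hf1 n) ?_
      rw [hf2, h, fs_pair]
    · rintro ⟨n, rfl⟩
      rw [← h4]
      exact hf1 n
  · rintro ⟨g, rfl⟩
    exact sq1_sqSet g

/-- Cofinality `ω`, with the index as a set. -/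
def PCf (N : Set ZFSet.{0}) (z a : ZFSet.{0}) : Prop :=
  ∃ s ∈ N, PC N z s ∧ Sq1 s ∧ (∀ p ∈ s, sn p ∈ a) ∧ ∀ x ∈ a, ∃ p ∈ s, x ∈ sn p

theorem all_sq {g : ℕ → ZFSet.{0}} {a : ZFSet.{0}} :
    (∀ p ∈ sqSet g, sn p ∈ a) ↔ ∀ n, g n ∈ a := by
  constructor
  · intro h n
    have := h _ (mem_sqSet'.2 ⟨n, rfl⟩)
    rwa [sn_pair] at this
  · intro h p hp
    obtain ⟨n, rfl⟩ := mem_sqSet'.1 hp
    rw [sn_pair]
    exact h n

theorem ex_sq {g : ℕ → ZFSet.{0}} {x : ZFSet.{0}} :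
    (∃ p ∈ sqSet g, x ∈ sn p) ↔ ∃ n, x ∈ g n := by
  constructor
  · rintro ⟨p, hp, h⟩
    obtain ⟨n, rfl⟩ := mem_sqSet'.1 hp
    rw [sn_pair] at h
    exact ⟨n, h⟩
  · rintro ⟨n, h⟩
    exact ⟨_, mem_sqSet'.2 ⟨n, rfl⟩, by rwa [sn_pair]⟩

theorem PCf_nat {N : Set ZFSet.{0}} (hN : IsZFC N) {j : ℕ} {a : ZFSet.{0}} :
    PCf N (nat j) a ↔ Cf0 (Cn N j) a := by
  constructor
  · rintro ⟨s, _, h1, h2, h3, h4⟩
    obtain ⟨g, rfl⟩ := sq1_iff.1 h2
    exact ⟨g, PC_nat.1 h1, all_sq.1 h3, fun x hx => ex_sq.1 (h4 x hx)⟩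
  · rintro ⟨g, h1, h2, h3⟩
    exact ⟨sqSet g, (cn_spec hN j).2.1 h1, PC_nat.2 h1, sq1_sqSet g, all_sq.2 h2,
      fun x hx => ex_sq.2 (h3 x hx)⟩

/-- The set of the elements of cofinality `ω`, with the index as a set. -/
def PSW (N : Set ZFSet.{0}) (z a S : ZFSet.{0}) : Prop :=
  (∀ x ∈ S, x ∈ a ∧ PCf N z x) ∧ ∀ x ∈ a, PCf N z x → x ∈ S

theorem PSW_nat {N : Set ZFSet.{0}} (hN : IsZFC N) {j : ℕ} {a S : ZFSet.{0}} :
    PSW N (nat j) a S ↔ S = SWs (Cn N j) a := by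
  constructor
  · rintro ⟨h1, h2⟩
    ext x
    rw [SWs, ZFSet.mem_sep]
    exact ⟨fun h => ⟨(h1 x h).1, (PCf_nat hN).1 (h1 x h).2⟩,
      fun h => h2 x h.1 ((PCf_nat hN).2 h.2)⟩
  · rintro rfl
    refine ⟨fun x hx => ?_, fun x hx h => ?_⟩
    · rw [SWs, ZFSet.mem_sep] at hx
      exact ⟨hx.1, (PCf_nat hN).2 hx.2⟩
    · rw [SWs, ZFSet.mem_sep]
      exact ⟨hx, (PCf_nat hN).1 h⟩

/-- Regular ordinals, with the index as a set. -/
def PRg (N : Set ZFSet.{0}) (z r : ZFSet.{0}) : Prop :=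
  PC N z r ∧ r.IsOrdinal ∧ ZFSet.omega ∈ r ∧ ∀ s ∈ r, ∀ f ∈ N, PC N z f →
    (∀ p ∈ f, ∃ a ∈ s, ∃ b ∈ r, p = pair a b) →
    (∀ a ∈ N, ∀ b ∈ N, ∀ b' ∈ N, pair a b ∈ f → pair a b' ∈ f → b = b') →
    ∃ x ∈ r, ∀ a ∈ N, ∀ b ∈ N, pair a b ∈ f → b ∈ x

theorem PRg_nat {N : Set ZFSet.{0}} (hN : IsZFC N) {j : ℕ} {ρ : Ordinal.{0}} :
    PRg N (nat j) ρ.toZFSet ↔ RegM (Cn N j) ρ := by
  have hsub := (cn_spec hN j).2.1
  have hpm : ∀ {a b f : ZFSet.{0}}, f ∈ N → pair a b ∈ f → a ∈ N ∧ b ∈ N := fun hf h =>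
    hN.toIsZF.of_pair_mem (hN.trans _ hf _ h)
  constructor
  · rintro ⟨h1, _, h2, h3⟩
    refine ⟨PC_nat.1 h1, ?_, fun σ hσ f hf k1 k2 => ?_⟩
    · rwa [omega_eq, Ordinal.toZFSet_mem_toZFSet_iff] at h2
    · obtain ⟨x, hx, h4⟩ := h3 σ.toZFSet (Ordinal.toZFSet_mem_toZFSet_iff.2 hσ) f (hsub hf)
        (PC_nat.2 hf) k1 (fun a _ b _ b' _ => k2 a b b')
      obtain ⟨ξ, hξ, rfl⟩ := Ordinal.mem_toZFSet_iff.1 hx
      refine ⟨ξ, hξ, fun a b hab => ?_⟩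
      have h5 := hpm (hsub hf) hab
      exact h4 a h5.1 b h5.2 hab
  · rintro ⟨h1, h2, h3⟩
    refine ⟨PC_nat.2 h1, ZFSet.isOrdinal_toZFSet _, ?_, fun s hs f hf hf' k1 k2 => ?_⟩
    · rwa [omega_eq, Ordinal.toZFSet_mem_toZFSet_iff]
    · obtain ⟨σ, hσ, rfl⟩ := Ordinal.mem_toZFSet_iff.1 hs
      obtain ⟨ξ, hξ, h4⟩ := h3 σ hσ f (PC_nat.1 hf') k1 (fun a b b' k3 k4 => by
        have h5 := hpm hf k3
        exact k2 a h5.1 b h5.2 b' (hpm hf k4).2 k3 k4)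
      exact ⟨ξ.toZFSet, Ordinal.toZFSet_mem_toZFSet_iff.2 hξ, fun a _ b _ => h4 a b⟩

/-- The ordinals that are regular in the next class, with the index as a set. -/
def PIK (N : Set ZFSet.{0}) (z k : ZFSet.{0}) : Prop := PRg N (insert z z) k ∧ PCf N z k

theorem PIK_nat {N : Set ZFSet.{0}} (hN : IsZFC N) {j : ℕ} {κ : Ordinal.{0}} :
    PIK N (nat j) κ.toZFSet ↔ IsK (Cn N j) κ :=
  and_congr (PRg_nat (j := j + 1) hN) (PCf_nat hN)

/-- The least such ordinal. -/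
def PKp (N : Set ZFSet.{0}) (z k : ZFSet.{0}) : Prop := PIK N z k ∧ ∀ b ∈ k, ¬ PIK N z b

theorem PKp_nat {N : Set ZFSet.{0}} (hN : IsZFC N) {j : ℕ} (hj : IsK (Cn N j) (kp (Cn N j)))
    {k : ZFSet.{0}} : PKp N (nat j) k ↔ k = (kp (Cn N j)).toZFSet := by
  constructor
  · rintro ⟨h1, h2⟩
    have h3 : k.IsOrdinal := h1.1.2.1
    obtain ⟨κ, rfl⟩ : ∃ κ : Ordinal.{0}, k = κ.toZFSet := ⟨k.rank, h3.toZFSet_rank_eq.symm⟩
    have h4 : kp (Cn N j) ≤ κ := csInf_le' ((PIK_nat hN).1 h1)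
    rcases h4.lt_or_eq with h5 | h5
    · exact absurd ((PIK_nat hN).2 hj) (h2 _ (Ordinal.toZFSet_mem_toZFSet_iff.2 h5))
    · rw [h5]
  · rintro rfl
    refine ⟨(PIK_nat hN).2 hj, fun b hb h => ?_⟩
    obtain ⟨κ, hκ, rfl⟩ := Ordinal.mem_toZFSet_iff.1 hb
    exact absurd hκ (not_lt.2 (csInf_le' ((PIK_nat hN).1 h)))

/-- The cofinal sequences, with the index as a set. -/
def PSq (N : Set ZFSet.{0}) (z x : ZFSet.{0}) : Prop :=
  ∃ k ∈ N, PKp N (insert z z) k ∧ Sq1 x ∧ PC N (insert z z) x ∧ (∀ p ∈ x, sn p ∈ k) ∧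
    ∀ y ∈ k, ∃ p ∈ x, y ∈ sn p

theorem PSq_nat {N : Set ZFSet.{0}} (hN : IsZFC N) {j : ℕ}
    (hj : IsK (Cn N (j + 1)) (kp (Cn N (j + 1)))) {x : ZFSet.{0}} :
    PSq N (nat j) x ↔ IsSq (Cn N j) x := by
  constructor
  · rintro ⟨k, _, h1, h2, h3, h4, h5⟩
    obtain ⟨g, rfl⟩ := sq1_iff.1 h2
    have h6 := (PKp_nat (j := j + 1) hN hj).1 h1
    subst h6
    exact ⟨g, rfl, (PC_nat (j := j + 1)).1 h3, all_sq.1 h4, fun y hy => ex_sq.1 (h5 y hy)⟩
  · rintro ⟨g, rfl, h1, h2, h3⟩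
    refine ⟨(kp (Cn N (j + 1))).toZFSet, ?_, (PKp_nat (j := j + 1) hN hj).2 rfl, sq1_sqSet g,
      (PC_nat (j := j + 1)).2 h1, all_sq.2 h2, fun y hy => ex_sq.2 (h3 y hy)⟩
    exact (cn_spec hN (j + 2)).2.1 hj.1.1

/-- The canonical least sequence, with the index as a set. -/
def PTs (N : Set ZFSet.{0}) (z t : ZFSet.{0}) : Prop :=
  ∃ a ∈ N, ∃ S ∈ N, a.IsOrdinal ∧ PSW N z a S ∧ t ∈ fs (Eh S a) ∧ PSq N z t ∧
    (∀ b ∈ a, ∀ S' ∈ N, PSW N z b S' → ∀ y ∈ fs (Eh S' b), ¬ PSq N z y) ∧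
    ∀ y ∈ fs (Eh S a), PSq N z y → t = y ∨ pair t y ∈ fs (sn (Eh S a))

theorem sws_mem {N : Set ZFSet.{0}} (hN : IsZFC N) {j : ℕ} {a : ZFSet.{0}} (ha : a ∈ Cn N j) :
    SWs (Cn N j) a ∈ N :=
  (cn_spec hN j).2.1 ((dfn_SWs (cn_spec hN j).1.toIsZF (n := 1)
    (DfnF.proj (M := Cn N j) (S := Cn N j) 0)).1 (fun _ => a) fun _ => ha)

theorem PTs_nat {N : Set ZFSet.{0}} (hN : IsZFC N) {j : ℕ}
    (hj : IsK (Cn N (j + 1)) (kp (Cn N (j + 1)))) {t : ZFSet.{0}} :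
    PTs N (nat j) t ↔ IsCh (Cn N j) (IsSq (Cn N j)) t := by
  have hord := (cn_spec hN j).2.2.2
  constructor
  · rintro ⟨a, ha, S, hS, h1, h2, h3, h4, h5, h6⟩
    obtain ⟨ξ, rfl⟩ : ∃ ξ : Ordinal.{0}, a = ξ.toZFSet := ⟨a.rank, h1.toZFSet_rank_eq.symm⟩
    have h7 := (PSW_nat hN).1 h2
    subst h7
    have hξ : ξ.toZFSet ∈ Cn N j := (hord ξ).2 ha
    refine ⟨ξ, hξ, h3, (PSq_nat hN hj).1 h4, fun ζ hζ y hy h => ?_, fun y hy h => ?_⟩
    · have hζ' : ζ.toZFSet ∈ Cn N j :=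
        (cn_spec hN j).1.trans _ hξ _ (Ordinal.toZFSet_mem_toZFSet_iff.2 hζ)
      exact h5 ζ.toZFSet (Ordinal.toZFSet_mem_toZFSet_iff.2 hζ) _ (sws_mem hN hζ')
        ((PSW_nat hN).2 rfl) y hy ((PSq_nat hN hj).2 h)
    · exact h6 y hy ((PSq_nat hN hj).2 h)
  · rintro ⟨ξ, hξ, h1, h2, h3, h4⟩
    refine ⟨ξ.toZFSet, (hord ξ).1 hξ, SWs (Cn N j) ξ.toZFSet, sws_mem hN hξ,
      ZFSet.isOrdinal_toZFSet _, (PSW_nat hN).2 rfl, h1, (PSq_nat hN hj).2 h2, ?_, ?_⟩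
    · rintro b hb S' _ hS' y hy h
      obtain ⟨ζ, hζ, rfl⟩ := Ordinal.mem_toZFSet_iff.1 hb
      have h7 := (PSW_nat hN).1 hS'
      subst h7
      exact h3 ζ hζ y hy ((PSq_nat hN hj).1 h)
    · intro y hy h
      exact h4 y hy ((PSq_nat hN hj).1 h)

section dfn

variable {N : Set ZFSet.{0}} (hN : IsZFC N) {n : ℕ} {F G H : (Fin n → ZFSet.{0}) → ZFSet.{0}}

include hN

theorem dPC (hF : DfnF N N F) (hG : DfnF N N G) : Dfn N N fun v => PC N (F v) (G v) :=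
  Dfn.comp2 (Q := PC N) (dfn_Cn hN) hF hG

theorem dSq1 (hF : DfnF N N F) : Dfn N N fun v => Sq1 (F v) := by
  have hM := hN.toIsZF
  have hB := hM.base
  have hom : ZFSet.omega ∈ N := hM.infinity
  refine Dfn.comp1 (Q := Sq1) ?_ hF
  unfold Sq1
  (repeat' first
      | assumption
      | exact DfnF.proj _
      | exact DfnF.const (by assumption)
      | apply Dfn.not | apply Dfn.and | apply Dfn.or | apply Dfn.imp | apply Dfn.iff
      | apply hB.bex | apply hB.ball | apply Dfn.ex | apply Dfn.all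
      | apply Dfn.eq | apply Dfn.mem | apply hB.pair' | apply hM.fs' | apply hM.sn')

theorem dPCf (hF : DfnF N N F) (hG : DfnF N N G) : Dfn N N fun v => PCf N (F v) (G v) := by
  have hM := hN.toIsZF
  have hB := hM.base
  refine Dfn.comp2 (Q := PCf N) ?_ hF hG
  unfold PCf
  (repeat' first
      | assumption
      | exact DfnF.proj _
      | exact DfnF.const (by assumption)
      | apply dPC hN | apply dSq1 hN
      | apply Dfn.not | apply Dfn.and | apply Dfn.or | apply Dfn.imp | apply Dfn.iff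
      | apply hB.bex | apply hB.ball | apply Dfn.ex | apply Dfn.all
      | apply Dfn.eq | apply Dfn.mem | apply hB.pair' | apply hM.fs' | apply hM.sn')

theorem dPSW (hF : DfnF N N F) (hG : DfnF N N G) (hH : DfnF N N H) :
    Dfn N N fun v => PSW N (F v) (G v) (H v) := by
  have hM := hN.toIsZF
  have hB := hM.base
  refine Dfn.comp3 (Q := PSW N) ?_ hF hG hH
  unfold PSW
  (repeat' first
      | assumption
      | exact DfnF.proj _
      | exact DfnF.const (by assumption)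
      | apply dPCf hN
      | apply Dfn.not | apply Dfn.and | apply Dfn.or | apply Dfn.imp | apply Dfn.iff
      | apply hB.bex | apply hB.ball | apply Dfn.ex | apply Dfn.all
      | apply Dfn.eq | apply Dfn.mem | apply hB.pair' | apply hM.fs' | apply hM.sn')

theorem dPRg (hF : DfnF N N F) (hG : DfnF N N G) : Dfn N N fun v => PRg N (F v) (G v) := by
  have hM := hN.toIsZF
  have hB := hM.base
  have hom : ZFSet.omega ∈ N := hM.infinity
  refine Dfn.comp2 (Q := PRg N) ?_ hF hG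
  unfold PRg
  (repeat' first
      | assumption
      | exact DfnF.proj _
      | exact DfnF.const (by assumption)
      | apply dPC hN | apply hB.isOrdinal'
      | apply Dfn.not | apply Dfn.and | apply Dfn.or | apply Dfn.imp | apply Dfn.iff
      | apply hB.bex | apply hB.ball | apply Dfn.ex | apply Dfn.all
      | apply Dfn.eq | apply Dfn.mem | apply hB.pair' | apply hM.fs' | apply hM.sn')

theorem dPIK (hF : DfnF N N F) (hG : DfnF N N G) : Dfn N N fun v => PIK N (F v) (G v) := by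
  have hM := hN.toIsZF
  have hB := hM.base
  exact (dPRg hN (hB.insert' hF hF) hG).and (dPCf hN hF hG)

theorem dPKp (hF : DfnF N N F) (hG : DfnF N N G) : Dfn N N fun v => PKp N (F v) (G v) := by
  have hM := hN.toIsZF
  have hB := hM.base
  refine Dfn.comp2 (Q := PKp N) ?_ hF hG
  unfold PKp
  (repeat' first
      | assumption
      | exact DfnF.proj _
      | exact DfnF.const (by assumption)
      | apply dPIK hN
      | apply Dfn.not | apply Dfn.and | apply Dfn.or | apply Dfn.imp | apply Dfn.iff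
      | apply hB.bex | apply hB.ball | apply Dfn.ex | apply Dfn.all
      | apply Dfn.eq | apply Dfn.mem | apply hB.pair' | apply hM.fs' | apply hM.sn')

theorem dPSq (hF : DfnF N N F) (hG : DfnF N N G) : Dfn N N fun v => PSq N (F v) (G v) := by
  have hM := hN.toIsZF
  have hB := hM.base
  refine Dfn.comp2 (Q := PSq N) ?_ hF hG
  unfold PSq
  (repeat' first
      | assumption
      | exact DfnF.proj _
      | exact DfnF.const (by assumption)
      | apply dPKp hN | apply dSq1 hN | apply dPC hN | apply hB.insert'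
      | apply Dfn.not | apply Dfn.and | apply Dfn.or | apply Dfn.imp | apply Dfn.iff
      | apply hB.bex | apply hB.ball | apply Dfn.ex | apply Dfn.all
      | apply Dfn.eq | apply Dfn.mem | apply hB.pair' | apply hM.fs' | apply hM.sn')

theorem dPTs (hF : DfnF N N F) (hG : DfnF N N G) : Dfn N N fun v => PTs N (F v) (G v) := by
  have hM := hN.toIsZF
  have hB := hM.base
  refine Dfn.comp2 (Q := PTs N) ?_ hF hG
  unfold PTs
  (repeat' first
      | assumption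
      | exact DfnF.proj _
      | exact DfnF.const (by assumption)
      | apply dPSW hN | apply dPSq hN | apply hB.isOrdinal' | apply dfn_Eh2 hM
      | apply Dfn.not | apply Dfn.and | apply Dfn.or | apply Dfn.imp | apply Dfn.iff
      | apply hB.bex | apply hB.ball | apply Dfn.ex | apply Dfn.all
      | apply Dfn.eq | apply Dfn.mem | apply hB.pair' | apply hM.fs' | apply hM.sn')

end dfn

theorem ts_facts {N : Set ZFSet.{0}} (hN : IsZFC N) (h : ∀ n, Cn N (n + 1) ≠ Cn N n) (j : ℕ) :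
    IsK (Cn N (j + 1)) (kp (Cn N (j + 1))) ∧ ts (Cn N j) ∈ N ∧
      IsCh (Cn N j) (IsSq (Cn N j)) (ts (Cn N j)) := by
  have hW := (cn_spec hN j).1
  obtain ⟨h1, h2, h3⟩ := ts_spec hW (h (j + 2))
  have h4 : ∃ x, IsCh (Cn N j) (IsSq (Cn N j)) x := by
    refine ch_exists hW.toIsZF ⟨ts (Cn N j), ?_, h2⟩
    rw [← kc_eq hW]
    exact h3
  refine ⟨h1, (cn_spec hN (j + 1)).2.1 h3, ?_⟩
  unfold ts
  rw [dif_pos h4]
  exact h4.choose_spec

end PH2

/-- Uniformly in `j`, the object `ts` of `C*j` is definable. -/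
theorem dfn_ts {N : Set ZFSet.{0}} (hN : IsZFC N) (h : ∀ n, Cn N (n + 1) ≠ Cn N n) :
    Dfn N N fun w : Fin 2 → ZFSet.{0} => ∃ j : ℕ, w 0 = nat j ∧ w 1 = ts (Cn N j) := by
  have hM := hN.toIsZF
  have hom : ZFSet.omega ∈ N := hM.infinity
  have h1 : Dfn N N fun w : Fin 2 → ZFSet.{0} => w 0 ∈ ZFSet.omega ∧ PH2.PTs N (w 0) (w 1) :=
    (Dfn.mem (DfnF.proj 0) (DfnF.const hom)).and (PH2.dPTs hN (DfnF.proj 0) (DfnF.proj 1))
  refine h1.congr fun v _ => ?_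
  constructor
  · rintro ⟨h2, h3⟩
    obtain ⟨j, hj⟩ := mem_omega_iff.1 h2
    obtain ⟨k1, _, k3⟩ := PH2.ts_facts hN h j
    rw [hj] at h3
    exact ⟨j, hj, ch_unique (cn_spec hN j).1.toIsZF ((PH2.PTs_nat hN k1).1 h3) k3⟩
  · rintro ⟨j, hj, h3⟩
    obtain ⟨k1, _, k3⟩ := PH2.ts_facts hN h j
    refine ⟨mem_omega_iff.2 ⟨j, hj⟩, ?_⟩
    rw [hj, h3]
    exact (PH2.PTs_nat hN k1).2 k3

open Classical in
theorem ts_seq_mem {N : Set ZFSet.{0}} (hN : IsZFC N) (h : ∀ n, Cn N (n + 1) ≠ Cn N n) :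
    sqSet (fun j => ts (Cn N j)) ∈ N := by
  have hM := hN.toIsZF
  have hom : ZFSet.omega ∈ N := hM.infinity
  have h0 : (∅ : ZFSet.{0}) ∈ N := hM.empty_mem
  set F : ZFSet.{0} → ZFSet.{0} := fun z => if k : ∃ j : ℕ, z = nat j then ts (Cn N k.choose) else ∅
    with hFdef
  have hF1 : ∀ j, F (nat j) = ts (Cn N j) := by
    intro j
    have k : ∃ i : ℕ, nat j = nat i := ⟨j, rfl⟩
    simp only [hFdef]
    rw [dif_pos k, ← nat_injective k.choose_spec]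
  have hF2 : ∀ z, z ∉ ZFSet.omega → F z = ∅ := by
    intro z hz
    simp only [hFdef]
    rw [dif_neg fun k => hz (mem_omega_iff.2 k)]
  have hF : DfnF N N fun w : Fin 1 → ZFSet.{0} => F (w 0) := by
    refine DfnF.of_unique (R := fun y v => (∃ j : ℕ, v 0 = nat j ∧ y = ts (Cn N j)) ∨
      (v 0 ∉ ZFSet.omega ∧ y = ∅)) ?_ ?_
    · have h1 := (dfn_ts hN h).comp (![1, 0] : Fin 2 → Fin 2)
      exact h1.or ((Dfn.mem (DfnF.proj 1) (DfnF.const hom)).not.and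
        (Dfn.eq (DfnF.proj 0) (DfnF.const h0)))
    · intro v hv
      by_cases hz : v 0 ∈ ZFSet.omega
      · obtain ⟨j, hj⟩ := mem_omega_iff.1 hz
        refine ⟨?_, fun y _ => ?_⟩
        · rw [hj, hF1]
          exact (PH2.ts_facts hN h j).2.1
        · constructor
          · rintro (⟨i, h1, h2⟩ | ⟨h1, _⟩)
            · rw [h1, hF1]
              exact h2
            · exact absurd hz h1
          · intro h1
            rw [hj, hF1] at h1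
            exact Or.inl ⟨j, hj, h1⟩
      · rw [hF2 _ hz]
        refine ⟨h0, fun y _ => ?_⟩
        constructor
        · rintro (⟨i, h1, h2⟩ | ⟨_, h1⟩)
          · exact absurd (mem_omega_iff.2 ⟨i, h1⟩) hz
          · exact h1
        · exact fun h1 => Or.inr ⟨hz, h1⟩
  have h2 : sqSet (fun j => ts (Cn N j)) = im (fun u => pair u (F u)) ZFSet.omega := by
    ext p
    rw [PH2.mem_sqSet', mem_im]
    constructor
    · rintro ⟨n, rfl⟩
      exact ⟨nat n, mem_omega_iff.2 ⟨n, rfl⟩, by rw [hF1]⟩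
    · rintro ⟨u, hu, rfl⟩
      obtain ⟨n, rfl⟩ := mem_omega_iff.1 hu
      exact ⟨n, by rw [hF1]⟩
  rw [h2]
  exact hM.im_mem hom (hM.base.pair' (DfnF.proj 0) hF)

end Pool.Agent.helper797_it
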