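import Pool.Agent.helper797_it.PU1
import Pool.Agent.helper797_it.PG5

/-! # J1: the argument inside the intersection -/

set_option autoImplicit false
set_option linter.unreachableTactic false
set_option linter.unusedTactic false
namespace Pool.Agent.helper797_it
open Pool.Agent.W868 Pool.Agent.R587 Pool.Agent.helper797_cs
open ZFSet (pair)

namespace PJ1

/-- The value of the function `f` (a set of pairs) at `x`. -/
noncomputable def apl (f x : ZFSet.{0}) : ZFSet.{0} :=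
  ZFSet.sUnion (im sn (ZFSet.sep (fun p => fs p = x) f))

theorem apl' {M : Set ZFSet.{0}} (hM : IsZF M) {n : ℕ} {F G : (Fin n → ZFSet.{0}) → ZFSet.{0}}
    (hF : DfnF M M F) (hG : DfnF M M G) : DfnF M M fun v => apl (F v) (G v) := by
  have hB := hM.base
  unfold apl
  refine hB.sUnion' ?_
  refine hM.im' (F := fun v => ZFSet.sep (fun p => fs p = G v) (F v)) (h := fun p _ => sn p) ?_ ?_
  · refine hM.sep' (Q := fun p v => fs p = G v) hF ?_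
    exact Dfn.eq (hM.fs' (DfnF.proj 0)) hG.tail
  · exact hM.sn' (DfnF.proj 0)

theorem mem_sqSet {g : ℕ → ZFSet.{0}} {p : ZFSet.{0}} :
    p ∈ sqSet g ↔ ∃ n, p = pair (nat n) (g n) := by
  rw [sqSet, ZFSet.mem_range]
  constructor
  · rintro ⟨n, rfl⟩
    exact ⟨n, rfl⟩
  · rintro ⟨n, rfl⟩
    exact ⟨n, rfl⟩

theorem pair_mem_sqSet {g : ℕ → ZFSet.{0}} {n : ℕ} {y : ZFSet.{0}} :
    pair (nat n) y ∈ sqSet g ↔ y = g n := by
  rw [mem_sqSet]
  constructor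
  · rintro ⟨m, hm⟩
    obtain ⟨h1, h2⟩ := ZFSet.pair_inj.1 hm
    rw [nat_injective h1, h2]
  · rintro rfl
    exact ⟨n, rfl⟩

theorem ap_of {f x y : ZFSet.{0}} (h : pair x y ∈ f) (h1 : ∀ z, pair x z ∈ f → z = y)
    (h2 : ∀ p ∈ f, ∃ a b, p = pair a b) : apl f x = y := by
  ext u
  rw [apl, ZFSet.mem_sUnion]
  constructor
  · rintro ⟨z, hz, hu⟩
    rw [mem_im] at hz
    obtain ⟨p, hp, rfl⟩ := hz
    rw [ZFSet.mem_sep] at hp
    obtain ⟨a, b, rfl⟩ := h2 p hp.1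
    rw [fs_pair] at hp
    obtain ⟨hp1, rfl⟩ := hp
    rw [sn_pair] at hu
    rw [← h1 b hp1]
    exact hu
  · intro hu
    refine ⟨y, mem_im.2 ⟨pair x y, ZFSet.mem_sep.2 ⟨h, fs_pair _ _⟩, (sn_pair _ _).symm⟩, hu⟩

theorem ap_sq (g : ℕ → ZFSet.{0}) (n : ℕ) : apl (sqSet g) (nat n) = g n := by
  refine ap_of (pair_mem_sqSet.2 rfl) (fun z hz => pair_mem_sqSet.1 hz) ?_
  intro p hp
  obtain ⟨m, rfl⟩ := mem_sqSet.1 hp
  exact ⟨_, _, rfl⟩

theorem sq_mem {M : Set ZFSet.{0}} (hM : IsZF M) {g : ℕ → ZFSet.{0}} {F : ZFSet.{0} → ZFSet.{0}}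
    (hF : DfnF M M fun w : Fin 1 → ZFSet.{0} => F (w 0)) (h : ∀ n, F (nat n) = g n) :
    sqSet g ∈ M := by
  have hB := hM.base
  have h1 : im (fun z => pair z (F z)) ZFSet.omega ∈ M := by
    refine hM.im_mem hM.infinity ?_
    exact hB.pair' (DfnF.proj 0) hF
  have h2 : sqSet g = im (fun z => pair z (F z)) ZFSet.omega := by
    ext p
    rw [mem_sqSet, mem_im]
    constructor
    · rintro ⟨n, rfl⟩
      exact ⟨nat n, mem_omega_iff.2 ⟨n, rfl⟩, by rw [h]⟩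
    · rintro ⟨z, hz, rfl⟩
      obtain ⟨n, rfl⟩ := mem_omega_iff.1 hz
      exact ⟨n, by rw [h]⟩
  rw [h2]
  exact h1

theorem mem_nat {x : ZFSet.{0}} {l : ℕ} : x ∈ nat l ↔ ∃ m < l, x = nat m := by
  rw [nat_eq, Ordinal.mem_toZFSet_iff]
  constructor
  · rintro ⟨a, ha, rfl⟩
    obtain ⟨m, rfl⟩ := Ordinal.lt_omega0.1 (ha.trans (Ordinal.natCast_lt_omega0 l))
    exact ⟨m, by exact_mod_cast ha, (nat_eq m).symm⟩
  · rintro ⟨m, hm, rfl⟩
    exact ⟨m, by exact_mod_cast hm, (nat_eq m).symm⟩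

theorem sqnat_mem {M : Set ZFSet.{0}} (hM : IsZF M) {k : ℕ → ℕ}
    {R : ZFSet.{0} → ZFSet.{0} → Prop}
    (hR : Dfn M M fun w : Fin 2 → ZFSet.{0} => R (w 0) (w 1))
    (h : ∀ i l, R (nat i) (nat l) ↔ l = k i) : sqSet (fun i => nat (k i)) ∈ M := by
  obtain ⟨f, hf, h1, h2⟩ := hM.rel_mem hM.infinity hM.infinity hR
  have h3 : sqSet (fun i => nat (k i)) = f := by
    ext p
    rw [mem_sqSet]
    constructor
    · rintro ⟨n, rfl⟩
      exact (h2 _ _).2 ⟨mem_omega_iff.2 ⟨n, rfl⟩, mem_omega_iff.2 ⟨k n, rfl⟩, (h _ _).2 rfl⟩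
    · intro hp
      obtain ⟨a, ha, b, hb, rfl⟩ := ZFSet.mem_prod.1 (h1 hp)
      obtain ⟨i, rfl⟩ := mem_omega_iff.1 ha
      obtain ⟨l, rfl⟩ := mem_omega_iff.1 hb
      have h4 := (h _ _).1 ((h2 _ _).1 hp).2.2
      exact ⟨i, by rw [h4]⟩
  rw [h3]
  exact hf

theorem shift_mem {M : Set ZFSet.{0}} (hM : IsZF M) (n : ℕ) :
    sqSet (fun j => nat (n + j)) ∈ M := by
  have h1 : sqSet nat ∈ M := sq_mem hM (F := fun z => z) (DfnF.proj 0) fun n => rfl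
  exact (sqSet_tail hM n h1).1

theorem isFunc_sq {x : ZFSet.{0}} {g : ℕ → ZFSet.{0}} (h : ∀ n, g n ∈ x) :
    ZFSet.IsFunc ZFSet.omega x (sqSet g) := by
  refine ⟨fun p hp => ?_, fun z hz => ?_⟩
  · obtain ⟨n, rfl⟩ := mem_sqSet.1 hp
    exact ZFSet.pair_mem_prod.2 ⟨mem_omega_iff.2 ⟨n, rfl⟩, h n⟩
  · obtain ⟨n, rfl⟩ := mem_omega_iff.1 hz
    exact ⟨g n, pair_mem_sqSet.2 rfl, fun y hy => pair_mem_sqSet.1 hy⟩

theorem isFunc_ap {x y f a : ZFSet.{0}} (h : ZFSet.IsFunc x y f) (ha : a ∈ x) :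
    apl f a ∈ y ∧ pair a (apl f a) ∈ f := by
  obtain ⟨b, hb, h1⟩ := h.2 a ha
  have h2 : apl f a = b := by
    refine ap_of hb h1 fun p hp => ?_
    obtain ⟨u, _, v, _, rfl⟩ := ZFSet.mem_prod.1 (h.1 hp)
    exact ⟨u, v, rfl⟩
  rw [h2]
  exact ⟨(ZFSet.pair_mem_prod.1 (h.1 hb)).2, hb⟩

theorem exists_sq {x f : ZFSet.{0}} (h : ZFSet.IsFunc ZFSet.omega x f) :
    f = sqSet fun n => apl f (nat n) := by
  ext p
  rw [mem_sqSet]
  constructor
  · intro hp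
    obtain ⟨a, ha, b, hb, rfl⟩ := ZFSet.mem_prod.1 (h.1 hp)
    obtain ⟨n, rfl⟩ := mem_omega_iff.1 ha
    obtain ⟨c, hc, h1⟩ := h.2 _ ha
    refine ⟨n, ?_⟩
    rw [h1 b hp, h1 _ (isFunc_ap h ha).2]
  · rintro ⟨n, rfl⟩
    exact (isFunc_ap h (mem_omega_iff.2 ⟨n, rfl⟩)).2

theorem ordinal_trans {α : Ordinal.{0}} {x y : ZFSet.{0}} (h : x ∈ y) (hy : y ∈ α.toZFSet) :
    x ∈ α.toZFSet :=
  (ZFSet.isOrdinal_toZFSet α).mem_trans h hy


theorem nat_sub {m i : ℕ} : nat m ⊆ nat i ↔ m ≤ i := by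
  constructor
  · intro h
    by_contra h1
    exact ZFSet.mem_irrefl _ (h (mem_nat.2 ⟨i, not_le.1 h1, rfl⟩))
  · intro h x hx
    obtain ⟨l, hl, rfl⟩ := mem_nat.1 hx
    exact mem_nat.2 ⟨l, hl.trans_le h, rfl⟩

theorem exists_funs {M : Set ZFSet.{0}} (hM : IsZF M) {x y : ZFSet.{0}} (hx : x ∈ M)
    (hy : y ∈ M) : ∃ E ∈ M, ∀ f, f ∈ E ↔ f ∈ M ∧ ZFSet.IsFunc x y f := by
  obtain ⟨P, hP, hP1⟩ := hM.power _ (hM.prod_mem hx hy)
  refine ⟨ZFSet.sep (fun f => ZFSet.IsFunc x y f) P, ?_, fun f => ?_⟩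
  · exact hM.sep_mem (Q := fun f => ZFSet.IsFunc x y f)
      (hM.base.isFunc' (DfnF.const hx) (DfnF.const hy) (DfnF.proj 0)) hP
  · rw [ZFSet.mem_sep, hP1]
    exact ⟨fun h => ⟨h.1.1, h.2⟩, fun h => ⟨⟨h.1, h.2.1⟩, h.2⟩⟩

theorem least_iff {Q : ℕ → Prop} {k : ℕ} (h : (¬ Q k ∧ ∀ l < k, Q l) ∨ (k = 0 ∧ ∀ l, Q l)) (l : ℕ) :
    ((¬ Q l ∧ ∀ l' < l, Q l') ∨ (l = 0 ∧ ∀ l', Q l')) ↔ l = k := by
  constructor
  · rintro (⟨h1, h2⟩ | ⟨h1, h2⟩)
    · rcases h with ⟨h3, h4⟩ | ⟨h3, h4⟩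
      · rcases lt_trichotomy l k with h5 | h5 | h5
        · exact absurd (h4 l h5) h1
        · exact h5
        · exact absurd (h2 k h5) h3
      · exact absurd (h4 l) h1
    · rcases h with ⟨h3, h4⟩ | ⟨h3, h4⟩
      · exact absurd (h2 k) h3
      · rw [h1, h3]
  · rintro rfl
    exact h

end PJ1

open PJ1

/-- The part of the argument inside the intersection. `κ j` are ordinals, `t j : ℕ → ordinals`
cofinal in `κ j`, the tails of the sequence `t` are in the models. If the axiom of choice holds in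
the intersection then for almost all `j` there is a function in the intersection from a set of
functions `ω → ω` of the intersection to `κ j` which is cofinal. -/
theorem cofinal_of_choice {V : ℕ → Set ZFSet.{0}} (hV : ∀ n, IsZF (V n))
    (hdec : ∀ n, V (n + 1) ⊆ V n) (hI : IsZFC {x | ∀ k, x ∈ V k}) (κ : ℕ → Ordinal.{0})
    (hκ : ∀ j, (κ j).toZFSet ∈ V 0 ∧ (κ j).toZFSet ∈ {x | ∀ k, x ∈ V k}) (t : ℕ → ZFSet.{0})
    (tt : ℕ → ℕ → ZFSet.{0}) (ht : ∀ j, t j = sqSet (tt j)) (h1 : ∀ j n, tt j n ∈ (κ j).toZFSet)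
    (h2 : ∀ j, ∀ y ∈ (κ j).toZFSet, ∃ n, y ∈ tt j n)
    (h3 : ∀ n, sqSet (fun j => t (n + j)) ∈ V n) :
    ∃ m, ∀ j, m ≤ j → ∃ E f : ZFSet.{0}, (∀ k, E ∈ V k) ∧ (∀ k, f ∈ V k) ∧
      (∀ x ∈ E, x ⊆ ZFSet.prod ZFSet.omega ZFSet.omega) ∧
      (∀ p ∈ f, ∃ x ∈ E, ∃ y ∈ (κ j).toZFSet, p = pair x y) ∧
      (∀ x y y', pair x y ∈ f → pair x y' ∈ f → y = y') ∧
      ∀ ξ ∈ (κ j).toZFSet, ∃ x y, pair x y ∈ f ∧ ξ ∈ insert y y := by
  classical
  have hIz := hI.toIsZF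
  have hBI := hIz.base
  have hκn : ∀ j n, (κ j).toZFSet ∈ V n := fun j n => (hκ j).2 n
  have hun : ∀ j, ZFSet.sUnion (im sn (t j)) = (κ j).toZFSet := by
    intro j
    ext y
    rw [ZFSet.mem_sUnion]
    constructor
    · rintro ⟨z, hz, hy⟩
      obtain ⟨p, hp, rfl⟩ := mem_im.1 hz
      rw [ht j] at hp
      obtain ⟨l, rfl⟩ := mem_sqSet.1 hp
      rw [sn_pair] at hy
      exact ordinal_trans hy (h1 j l)
    · intro hy
      obtain ⟨l, hl⟩ := h2 j y hy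
      refine ⟨tt j l, mem_im.2 ⟨pair (nat l) (tt j l), ?_, (sn_pair _ _).symm⟩, hl⟩
      rw [ht j]
      exact pair_mem_sqSet.2 rfl
  -- the sequence of the `κ j`
  obtain ⟨K, hK, hK1⟩ : ∃ K, (∀ n, K ∈ V n) ∧ K = sqSet (fun j => (κ j).toZFSet) := by
    refine ⟨_, fun n => ?_, rfl⟩
    have hZ := hV n
    have hB := hZ.base
    have hT := h3 n
    refine sqSet_mem hZ n (fun i _ => hκn i n) ?_
    refine sq_mem hZ (F := fun z => ZFSet.sUnion (im sn (apl (sqSet (fun j => t (n + j))) z))) ?_ ?_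
    · refine hB.sUnion' ?_
      refine hZ.im' (F := fun v => apl (sqSet (fun j => t (n + j))) (v 0)) (h := fun p _ => sn p)
        ?_ ?_
      · exact apl' hZ (DfnF.const hT) (DfnF.proj 0)
      · exact hZ.sn' (DfnF.proj 0)
    · intro i
      change ZFSet.sUnion (im sn (apl (sqSet (fun j => t (n + j))) (nat i))) = _
      rw [ap_sq]
      exact hun _
  obtain ⟨θ, hθ, hκθ⟩ : ∃ θ, (∀ n, θ ∈ V n) ∧ ∀ j y, y ∈ (κ j).toZFSet → y ∈ θ := by
    refine ⟨ZFSet.sUnion (im sn K), ?_, ?_⟩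
    · exact hIz.union _ (hIz.im_mem hK (hIz.sn' (DfnF.proj 0)))
    · intro j y hy
      refine ZFSet.mem_sUnion.2 ⟨(κ j).toZFSet, mem_im.2 ⟨pair (nat j) (κ j).toZFSet, ?_,
        (sn_pair _ _).symm⟩, hy⟩
      rw [hK1]
      exact pair_mem_sqSet.2 rfl
  have hapK : ∀ j, apl K (nat j) = (κ j).toZFSet := fun j => by
    rw [hK1, ap_sq]
  obtain ⟨E, hE, hE1⟩ := exists_funs hIz hIz.infinity hIz.infinity
  obtain ⟨H, hH, hH1⟩ := exists_funs hIz hIz.infinity (show θ ∈ {x | ∀ k, x ∈ V k} from hθ)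
  have hEH := hIz.prod_mem hE hH
  obtain ⟨Φ, hΦ, hΦ1⟩ : ∃ Φ, Φ ∈ {x : ZFSet.{0} | ∀ k, x ∈ V k} ∧
      ∀ p, p ∈ Φ ↔ p ∈ ZFSet.prod E H ∧ ∃ m : ℕ, ∀ j, m ≤ j →
      apl (sn p) (nat j) = apl (t j) (apl (fs p) (nat j)) := by
    refine ⟨ZFSet.sep (fun p => ∃ m : ℕ, ∀ j, m ≤ j →
      apl (sn p) (nat j) = apl (t j) (apl (fs p) (nat j))) (ZFSet.prod E H), ?_,
      fun p => ZFSet.mem_sep⟩
    intro n
    have hZ := hV n
    have hB := hZ.base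
    obtain ⟨T, hT, hT1⟩ : ∃ T ∈ V n, ∀ i, apl T (nat i) = t (n + i) :=
      ⟨_, h3 n, fun i => ap_sq _ _⟩
    obtain ⟨S, hS, hS1⟩ : ∃ S ∈ V n, ∀ i, apl S (nat i) = nat (n + i) :=
      ⟨_, shift_mem hZ n, fun i => ap_sq _ _⟩
    have hD : Dfn (V n) (V n) fun w : Fin 1 → ZFSet.{0} => ∃ m ∈ ZFSet.omega, ∀ z ∈ ZFSet.omega,
        m ⊆ z → apl (sn (w 0)) (apl S z) = apl (apl T z) (apl (fs (w 0)) (apl S z)) := by
      have h0 := hZ.infinity
      (repeat' first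
      | assumption
      | exact DfnF.proj _
      | exact DfnF.const (by assumption)
      | exact Dfn.prop _
      | apply Dfn.not | apply Dfn.and | apply Dfn.or | apply Dfn.imp | apply Dfn.iff
      | apply hB.bex | apply hB.ball
      | apply hB.subset'
      | apply Dfn.eq | apply Dfn.mem | apply hB.pair' | apply hZ.fs' | apply hZ.sn'
      | apply apl' hZ)
    have h5 := hZ.sep_mem (Q := fun p => ∃ m ∈ ZFSet.omega, ∀ z ∈ ZFSet.omega,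
        m ⊆ z → apl (sn p) (apl S z) = apl (apl T z) (apl (fs p) (apl S z))) hD (hEH n)
    refine (congrArg (fun y => y ∈ V n) ?_).mp h5
    ext p
    rw [ZFSet.mem_sep, ZFSet.mem_sep]
    refine and_congr_right fun _ => ?_
    constructor
    · rintro ⟨m, hm, h6⟩
      obtain ⟨m, rfl⟩ := mem_omega_iff.1 hm
      refine ⟨n + m, fun j hj => ?_⟩
      obtain ⟨i, rfl⟩ := Nat.exists_eq_add_of_le (show n ≤ j by omega)
      have h7 := h6 (nat i) (mem_omega_iff.2 ⟨i, rfl⟩) (nat_sub.2 (by omega))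
      rw [hS1, hT1] at h7
      exact h7
    · rintro ⟨m, hm⟩
      refine ⟨nat m, mem_omega_iff.2 ⟨m, rfl⟩, fun z hz h6 => ?_⟩
      obtain ⟨i, rfl⟩ := mem_omega_iff.1 hz
      have h7 := nat_sub.1 h6
      rw [hS1, hT1]
      exact hm _ (by omega)
  -- the members of the family are nonempty
  have hne : ∀ x ∈ E, ∃ h, pair x h ∈ Φ := by
    intro x hx
    have hxI := ((hE1 x).1 hx).1
    have hxf := ((hE1 x).1 hx).2
    have hxn : ∀ i, ∃ l, apl x (nat i) = nat l := fun i =>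
      mem_omega_iff.1 (isFunc_ap hxf (mem_omega_iff.2 ⟨i, rfl⟩)).1
    choose g hg using hxn
    have hin : ∀ j, tt j (g j) ∈ (κ j).toZFSet := fun j => h1 j _
    refine ⟨sqSet fun j => tt j (g j), (hΦ1 _).2 ⟨ZFSet.pair_mem_prod.2 ⟨hx, (hH1 _).2 ⟨?_, ?_⟩⟩,
      0, fun j _ => ?_⟩⟩
    · intro n
      have hZ := hV n
      have hB := hZ.base
      obtain ⟨T, hT, hT1⟩ : ∃ T ∈ V n, ∀ i, apl T (nat i) = t (n + i) :=
        ⟨_, h3 n, fun i => ap_sq _ _⟩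
      obtain ⟨S, hS, hS1⟩ : ∃ S ∈ V n, ∀ i, apl S (nat i) = nat (n + i) :=
        ⟨_, shift_mem hZ n, fun i => ap_sq _ _⟩
      have hxn : x ∈ V n := hxI n
      refine sqSet_mem hZ n (fun i _ => hZ.trans _ (hκn i n) _ (hin i)) ?_
      refine sq_mem hZ (F := fun z => apl (apl T z) (apl x (apl S z))) ?_ ?_
      · (repeat' first
      | assumption
      | exact DfnF.proj _
      | exact DfnF.const (by assumption)
      | exact Dfn.prop _
      | apply Dfn.not | apply Dfn.and | apply Dfn.or | apply Dfn.imp | apply Dfn.iff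
      | apply hB.bex | apply hB.ball
      | apply hB.subset'
      | apply Dfn.eq | apply Dfn.mem | apply hB.pair' | apply hZ.fs' | apply hZ.sn'
      | apply apl' hZ)
      · intro i
        change apl (apl T (nat i)) (apl x (apl S (nat i))) = _
        rw [hT1, hS1, hg, ht, ap_sq]
    · exact isFunc_sq fun j => hκθ j _ (hin j)
    · rw [fs_pair, sn_pair, ap_sq, hg, ht, ap_sq]
  -- the choice set
  obtain ⟨C, hC, hC1, hC2, hC3⟩ : ∃ C, C ∈ {x : ZFSet.{0} | ∀ k, x ∈ V k} ∧ (∀ p ∈ C, p ∈ Φ) ∧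
      (∀ x ∈ E, ∃ h, pair x h ∈ C) ∧ ∀ x h h', pair x h ∈ C → pair x h' ∈ C → h = h' := by
    have hX : im (fun k => ZFSet.sep (fun p => fs p = k) Φ) E ∈ {x : ZFSet.{0} | ∀ k, x ∈ V k} := by
      refine hIz.im_mem hE ?_
      refine hIz.sep' (Q := fun p v => fs p = v 0) (DfnF.const hΦ) ?_
      exact Dfn.eq (hIz.fs' (DfnF.proj 0)) (DfnF.proj 1)
    obtain ⟨c, hc, hc1⟩ := hI.choice _ hX (by
      intro y hy
      obtain ⟨k, hk, rfl⟩ := mem_im.1 hy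
      obtain ⟨h, hh⟩ := hne k hk
      exact ⟨pair k h, ZFSet.mem_sep.2 ⟨hh, fs_pair _ _⟩⟩) (by
      intro y hy y' hy' z hz hz'
      obtain ⟨k, hk, rfl⟩ := mem_im.1 hy
      obtain ⟨k', hk', rfl⟩ := mem_im.1 hy'
      rw [← (ZFSet.mem_sep.1 hz).2, ← (ZFSet.mem_sep.1 hz').2])
    refine ⟨ZFSet.sep (fun p => p ∈ c) Φ, ?_, fun p hp => (ZFSet.mem_sep.1 hp).1, ?_, ?_⟩
    · exact hIz.sep_mem (Q := fun p => p ∈ c) (Dfn.mem (DfnF.proj 0) (DfnF.const hc)) hΦ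
    · intro x hx
      obtain ⟨z, ⟨hz, hzc⟩, -⟩ := hc1 _ (mem_im.2 ⟨x, hx, rfl⟩)
      obtain ⟨hz1, hz2⟩ := ZFSet.mem_sep.1 hz
      obtain ⟨a, ha, b, hb, rfl⟩ := ZFSet.mem_prod.1 ((hΦ1 _).1 hz1).1
      rw [fs_pair] at hz2
      subst hz2
      exact ⟨b, ZFSet.mem_sep.2 ⟨hz1, hzc⟩⟩
    · intro x h h' hh hh'
      rw [ZFSet.mem_sep] at hh hh'
      have hx : x ∈ E := (ZFSet.pair_mem_prod.1 ((hΦ1 _).1 hh.1).1).1
      obtain ⟨z, -, hz⟩ := hc1 _ (mem_im.2 ⟨x, hx, rfl⟩)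
      have h4 := hz (pair x h) ⟨ZFSet.mem_sep.2 ⟨hh.1, fs_pair _ _⟩, hh.2⟩
      have h5 := hz (pair x h') ⟨ZFSet.mem_sep.2 ⟨hh'.1, fs_pair _ _⟩, hh'.2⟩
      rw [← h5] at h4
      exact (ZFSet.pair_inj.1 h4).2
  have hCp : ∀ p ∈ C, ∃ x ∈ E, ∃ h ∈ H, p = pair x h := fun p hp =>
    ZFSet.mem_prod.1 ((hΦ1 _).1 (hC1 p hp)).1
  -- the sets of the bounded elements
  obtain ⟨B, hB1⟩ : ∃ B : ℕ → ZFSet.{0} → Prop, ∀ j y, B j y ↔ ∃ p ∈ C,
      apl (sn p) (nat j) ∈ (κ j).toZFSet ∧ (y ∈ apl (sn p) (nat j) ∨ y = apl (sn p) (nat j)) :=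
    ⟨_, fun _ _ => Iff.rfl⟩
  have hex : ∀ j, ∃ k, (¬ B j (tt j k) ∧ ∀ l < k, B j (tt j l)) ∨ (k = 0 ∧ ∀ l, B j (tt j l)) := by
    intro j
    by_cases h : ∃ k, ¬ B j (tt j k)
    · refine ⟨Nat.find h, Or.inl ⟨Nat.find_spec h, fun l hl => ?_⟩⟩
      exact not_not.1 (Nat.find_min h hl)
    · exact ⟨0, Or.inr ⟨rfl, fun l => not_not.1 fun h' => h ⟨l, h'⟩⟩⟩
  choose k hk using hex
  have hkI : sqSet (fun j => nat (k j)) ∈ {x : ZFSet.{0} | ∀ k, x ∈ V k} := by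
    intro n
    have hZ := hV n
    have hB := hZ.base
    obtain ⟨T, hT, hT1⟩ : ∃ T ∈ V n, ∀ i, apl T (nat i) = t (n + i) :=
      ⟨_, h3 n, fun i => ap_sq _ _⟩
    obtain ⟨S, hS, hS1⟩ : ∃ S ∈ V n, ∀ i, apl S (nat i) = nat (n + i) :=
      ⟨_, shift_mem hZ n, fun i => ap_sq _ _⟩
    have hCn : C ∈ V n := hC n
    have hKn : K ∈ V n := hK n
    have h0 := hZ.infinity
    have he := hZ.empty_mem
    refine sqSet_mem hZ n (fun i _ => hZ.nat_mem _) ?_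
    obtain ⟨R, hR, hR1⟩ : ∃ R : ZFSet.{0} → ZFSet.{0} → Prop,
        (Dfn (V n) (V n) fun w : Fin 2 → ZFSet.{0} => R (w 0) (w 1)) ∧
        ∀ z l, R z l ↔ ∃ p ∈ C, apl (sn p) (apl S z) ∈ apl K (apl S z) ∧
          (apl (apl T z) l ∈ apl (sn p) (apl S z) ∨ apl (apl T z) l = apl (sn p) (apl S z)) := by
      refine ⟨_, ?_, fun _ _ => Iff.rfl⟩
      (repeat' first
      | assumption
      | exact DfnF.proj _
      | exact DfnF.const (by assumption)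
      | exact Dfn.prop _
      | apply Dfn.not | apply Dfn.and | apply Dfn.or | apply Dfn.imp | apply Dfn.iff
      | apply hB.bex | apply hB.ball
      | apply hB.subset'
      | apply Dfn.eq | apply Dfn.mem | apply hB.pair' | apply hZ.fs' | apply hZ.sn'
      | apply apl' hZ)
    have hR2 : ∀ i l, R (nat i) (nat l) ↔ B (n + i) (tt (n + i) l) := by
      intro i l
      rw [hR1, hB1, hS1, hT1, hapK, ht, ap_sq]
    refine sqnat_mem hZ (k := fun i => k (n + i)) (R := fun z l => (¬ R z l ∧ ∀ l' ∈ l, R z l') ∨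
      (l = ∅ ∧ ∀ l' ∈ ZFSet.omega, R z l')) ?_ ?_
    · apply Dfn.or
      · apply Dfn.and hR.not
        exact hB.ball (DfnF.proj 1) (Dfn.comp2 hR (DfnF.proj 1) (DfnF.proj 0))
      · apply Dfn.and (Dfn.eq (DfnF.proj 1) (DfnF.const he))
        exact hB.ball (DfnF.const h0) (Dfn.comp2 hR (DfnF.proj 1) (DfnF.proj 0))
    · intro i l
      have h4 := least_iff (Q := fun l => B (n + i) (tt (n + i) l)) (hk (n + i)) l
      rw [← h4, hR2]
      refine or_congr (and_congr_right fun _ => ?_) (and_congr ?_ ?_)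
      · constructor
        · intro h5 l' hl'
          exact (hR2 _ _).1 (h5 _ (mem_nat.2 ⟨l', hl', rfl⟩))
        · intro h5 u hu
          obtain ⟨l', hl', rfl⟩ := mem_nat.1 hu
          exact (hR2 _ _).2 (h5 _ hl')
      · constructor
        · intro h5
          exact nat_injective h5
        · rintro rfl
          rfl
      · constructor
        · intro h5 l'
          exact (hR2 _ _).1 (h5 _ (mem_omega_iff.2 ⟨l', rfl⟩))
        · intro h5 l' hl'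
          obtain ⟨l', rfl⟩ := mem_omega_iff.1 hl'
          exact (hR2 _ _).2 (h5 _)
  have hkE : sqSet (fun j => nat (k j)) ∈ E :=
    (hE1 _).2 ⟨hkI, isFunc_sq fun j => mem_omega_iff.2 ⟨k j, rfl⟩⟩
  obtain ⟨hs, hhs⟩ := hC2 _ hkE
  obtain ⟨m, hm⟩ := ((hΦ1 _).1 (hC1 _ hhs)).2
  refine ⟨m, fun j hj => ?_⟩
  have h4 := hm j hj
  rw [sn_pair, fs_pair, ap_sq, ht, ap_sq] at h4
  have h5 : B j (tt j (k j)) := by
    rw [hB1]
    refine ⟨_, hhs, ?_, Or.inr ?_⟩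
    · rw [sn_pair, h4]
      exact h1 _ _
    · rw [sn_pair, h4]
  have h6 : ∀ l, B j (tt j l) := by
    rcases hk j with h7 | h7
    · exact absurd h5 h7.1
    · exact h7.2
  have hκI : (κ j).toZFSet ∈ {x : ZFSet.{0} | ∀ k, x ∈ V k} := (hκ j).2
  have hnI := hIz.nat_mem j
  have hf : ZFSet.sep (fun q => ∃ p ∈ C, fs p = fs q ∧ sn q = apl (sn p) (nat j))
      (ZFSet.prod E (κ j).toZFSet) ∈ {x : ZFSet.{0} | ∀ k, x ∈ V k} := by
    have hZ := hIz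
    have hB := hIz.base
    refine hIz.sep_mem (Q := fun q => ∃ p ∈ C, fs p = fs q ∧ sn q = apl (sn p) (nat j)) ?_
      (hIz.prod_mem hE hκI)
    (repeat' first
      | assumption
      | exact DfnF.proj _
      | exact DfnF.const (by assumption)
      | exact Dfn.prop _
      | apply Dfn.not | apply Dfn.and | apply Dfn.or | apply Dfn.imp | apply Dfn.iff
      | apply hB.bex | apply hB.ball
      | apply hB.subset'
      | apply Dfn.eq | apply Dfn.mem | apply hB.pair' | apply hZ.fs' | apply hZ.sn'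
      | apply apl' hZ)
  refine ⟨E, _, hE, hf, fun x hx => ((hE1 x).1 hx).2.1, ?_, ?_, ?_⟩
  · intro p hp
    exact ZFSet.mem_prod.1 (ZFSet.mem_sep.1 hp).1
  · intro x y y' hy hy'
    obtain ⟨-, p, hp, h7, h8⟩ := ZFSet.mem_sep.1 hy
    obtain ⟨-, p', hp', h7', h8'⟩ := ZFSet.mem_sep.1 hy'
    obtain ⟨a, ha, b, hb, rfl⟩ := hCp p hp
    obtain ⟨a', ha', b', hb', rfl⟩ := hCp p' hp'
    rw [fs_pair, fs_pair] at h7 h7'
    subst h7 h7'
    rw [sn_pair, sn_pair] at h8 h8'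
    rw [h8, h8', hC3 _ _ _ hp hp']
  · intro ξ hξ
    obtain ⟨l, hl⟩ := h2 j ξ hξ
    obtain ⟨p, hp, h7, h8⟩ := (hB1 _ _).1 (h6 l)
    obtain ⟨a, ha, b, hb, rfl⟩ := hCp p hp
    rw [sn_pair] at h7 h8
    refine ⟨a, apl b (nat j), ZFSet.mem_sep.2 ⟨ZFSet.pair_mem_prod.2 ⟨ha, h7⟩, _, hp, ?_, ?_⟩, ?_⟩
    · rw [fs_pair, fs_pair]
    · rw [sn_pair, sn_pair]
    · rw [ZFSet.mem_insert_iff]
      right
      rcases h8 with h8 | h8
      · have h9 : (apl b (nat j)).IsOrdinal := (ZFSet.isOrdinal_toZFSet _).mem h7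
        exact h9.mem_trans hl h8
      · rw [← h8]
        exact hl

end Pool.Agent.helper797_it
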