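import Pool.Agent.helper797_it.PH2
import Pool.Agent.helper797_it.PJ1
import Pool.Agent.helper797_it.PF7
import Pool.Agent.helper797_it.PF8

/-! # J2: the contradiction -/

set_option autoImplicit false
namespace Pool.Agent.helper797_it
open Pool.Agent.W868 Pool.Agent.R587 Pool.Agent.helper797_cs
open ZFSet (pair)

namespace PJ2

/-- A decreasing sequence of ordinals is eventually constant. -/
lemma ev_const {f : ℕ → ZFSet.{0}} (ho : ∀ n, (f n).IsOrdinal) (hd : ∀ n, f (n + 1) ⊆ f n) :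
    ∃ M, ∀ n, M ≤ n → f (n + 1) = f n := by
  have hanti : ∀ m n, m ≤ n → f n ⊆ f m := by
    intro m n hmn
    induction n, hmn using Nat.le_induction with
    | base => exact fun _ h => h
    | succ k _ ih => exact fun _ h => ih (hd k h)
  -- the least rank
  obtain ⟨M, hM⟩ : ∃ M, ∀ n, (f M).rank ≤ (f n).rank := by
    obtain ⟨r, ⟨M, hM⟩, hr⟩ := WellFounded.has_min (wellFounded_lt (α := Ordinal.{0}))
      (Set.range fun n => (f n).rank) ⟨_, ⟨0, rfl⟩⟩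
    refine ⟨M, fun n => ?_⟩
    have := hr _ ⟨n, rfl⟩
    rw [← hM] at this
    exact not_lt.1 this
  have heq : ∀ n, M ≤ n → f n = f M := by
    intro n hn
    have h1 : (f n).rank ≤ (f M).rank := by
      have h0 := hanti M n hn
      rw [← (ho n).toZFSet_rank_eq, ← (ho M).toZFSet_rank_eq] at h0
      exact Ordinal.toZFSet_subset_toZFSet_iff.1 h0
    have h2 : (f n).rank = (f M).rank := le_antisymm h1 (hM n)
    rw [← (ho n).toZFSet_rank_eq, ← (ho M).toZFSet_rank_eq, h2]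
  refine ⟨M, fun n hn => ?_⟩
  rw [heq n hn, heq (n + 1) (by omega)]

end PJ2

/-- **Theorem 2.** -/
theorem not_isZFC_Cw {N : Set ZFSet.{0}} (hN : IsZFC N) (h : ∀ n, Cn N (n + 1) ≠ Cn N n) :
    ¬ IsZFC (Cw N) := by
  intro hC
  have hZ : ∀ n, IsZFC (Cn N n) := fun n => (cn_spec hN n).1
  have hdec : ∀ n, Cn N (n + 1) ⊆ Cn N n := fun n => (cn_spec hN n).2.2.1
  have hord : ∀ (n : ℕ) (α : Ordinal.{0}), α.toZFSet ∈ Cn N n ↔ α.toZFSet ∈ N :=
    fun n => (cn_spec hN n).2.2.2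
  -- the data
  have hts : ∀ j, IsK (Cn N (j + 1)) (kp (Cn N (j + 1))) ∧ IsSq (Cn N j) (ts (Cn N j)) ∧
      ts (Cn N j) ∈ Cn N (j + 1) := fun j => ts_spec (hZ j) (h (j + 2))
  have hseq : ∀ j, ∃ g : ℕ → ZFSet.{0}, ts (Cn N j) = sqSet g ∧
      (∀ n, g n ∈ (kp (Cn N (j + 1))).toZFSet) ∧
      ∀ y ∈ (kp (Cn N (j + 1))).toZFSet, ∃ n, y ∈ g n := by
    intro j
    obtain ⟨g, hg, _, hg1, hg2⟩ := (hts j).2.1
    exact ⟨g, hg, hg1, hg2⟩
  choose tt htt ht1 ht2 using hseq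
  have hκN : ∀ j, (kp (Cn N (j + 1))).toZFSet ∈ N := fun j =>
    (hord (j + 2) _).1 (hts j).1.1.1
  have hκ : ∀ j, (kp (Cn N (j + 1))).toZFSet ∈ Cn N 0 ∧
      (kp (Cn N (j + 1))).toZFSet ∈ {x | ∀ k, x ∈ Cn N k} := fun j =>
    ⟨(hord 0 _).2 (hκN j), fun k => (hord k _).2 (hκN j)⟩
  have h3 : ∀ n, sqSet (fun j => ts (Cn N (n + j))) ∈ Cn N n := by
    intro n
    have := ts_seq_mem (hZ n) (fun m => by
      rw [cn_add, cn_add]
      exact h (n + m))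
    simpa only [cn_add] using this
  obtain ⟨m, hm⟩ := cofinal_of_choice (V := Cn N) (fun n => (hZ n).toIsZF) hdec hC
    (fun j => kp (Cn N (j + 1))) hκ (fun j => ts (Cn N j)) tt htt ht1 ht2 h3
  -- the first two uncountable cardinals
  choose a ha using fun n => exists_U1 (hZ n)
  choose b hb using fun n => exists_U2 (hZ n)
  obtain ⟨M1, hM1⟩ := PJ2.ev_const (f := a) (fun n => (ha n).2.1)
    (fun n => (U_mono (hZ (n + 1)) (hZ n) (hdec n) (ha _) (hb _) (ha _) (hb _)).1)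
  obtain ⟨M2, hM2⟩ := PJ2.ev_const (f := b) (fun n => (hb n).2.1)
    (fun n => (U_mono (hZ (n + 1)) (hZ n) (hdec n) (ha _) (hb _) (ha _) (hb _)).2)
  obtain ⟨j, hj, hj1, hj2⟩ : ∃ j, m ≤ j ∧ M1 ≤ j ∧ M2 ≤ j := ⟨m + M1 + M2, by omega, by omega, by omega⟩
  obtain ⟨E, f, hE, hf, hEr, hf1, hf2, hf3⟩ := hm j hj
  have hreg : RegM (Cn N (j + 2)) (kp (Cn N (j + 1))) := (hts j).1.1
  have hcf : Cf0 (Cn N (j + 1)) (kp (Cn N (j + 1))).toZFSet := (hts j).1.2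
  have hEinj : Inj (Cn N (j + 2)) E (b (j + 2)) := by
    refine real_bound (hZ (j + 2)) (hE _) (fun x hx => ⟨?_, hEr x hx⟩) (hb (j + 2))
    exact (hZ (j + 3)).trans E (hE _) x hx
  have hle : (kp (Cn N (j + 1))).toZFSet ⊆ b (j + 2) :=
    reg_le (hZ (j + 2)) hreg (hE _) (hb (j + 2)).1 (hb (j + 2)).2.1 hEinj (hf _) hf1 hf2 hf3
  have hnot := U_not_cf (hZ (j + 1)) (ha (j + 1)) (hb (j + 1))
  rcases reg_cases (hZ (j + 2)) hreg (ha (j + 2)) (hb (j + 2)) hle with e | e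
  · rw [e, hM1 (j + 1) (by omega)] at hcf
    exact hnot.1 hcf
  · rw [e, hM2 (j + 1) (by omega)] at hcf
    exact hnot.2 hcf

end Pool.Agent.helper797_it
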