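import Pool.Agent.helper797_it.Defs

/-! # U0: recursion with a parameter, the cumulative hierarchy of a model, collection -/

set_option autoImplicit false
namespace Pool.Agent.helper797_it
open Pool.Agent.W868 Pool.Agent.R587 Pool.Agent.helper797_cs
open ZFSet (pair)

namespace PU0

theorem comp3 {S M : Set ZFSet.{0}} {n : ℕ} {f : ZFSet.{0} → ZFSet.{0} → ZFSet.{0} → ZFSet.{0}}
    {F G H : (Fin n → ZFSet.{0}) → ZFSet.{0}}
    (h : DfnF S M fun w : Fin 3 → ZFSet.{0} => f (w 0) (w 1) (w 2)) (hF : DfnF S M F)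
    (hG : DfnF S M G) (hH : DfnF S M H) :
    DfnF S M fun v => f (F v) (G v) (H v) := by
  refine ⟨fun v hv => h.1 ![F v, G v, H v] ?_, ?_⟩
  · intro i
    fin_cases i
    · exact hF.1 v hv
    · exact hG.1 v hv
    · exact hH.1 v hv
  · exact Dfn.comp4 (Q := fun a b c d => a = f b c d) h.2 (DfnF.proj 0) hF.tail hG.tail hH.tail

/-- The predecessors of a pair. -/
noncomputable def pp (p : ZFSet.{0}) : ZFSet.{0} := im (fun u => pair (fs p) u) (sn p)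

theorem pp_wf : WellFounded fun u z : ZFSet.{0} => u ∈ pp z := by
  refine Subrelation.wf (r := InvImage (fun a b : ZFSet.{0} => a ∈ b) sn) ?_
    (InvImage.wf _ ZFSet.mem_wf)
  intro a b hab
  obtain ⟨u, hu, rfl⟩ := mem_im.1 hab
  change sn _ ∈ sn b
  rw [sn_pair]
  exact hu

theorem gr_pp (F : ZFSet.{0} → ZFSet.{0} → ZFSet.{0}) (p : ZFSet.{0}) :
    im (fun q => pair (sn (fs q)) (sn q)) (gr (fun p => F (fs p) (sn p)) (pp p)) =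
      gr (F (fs p)) (sn p) := by
  ext z
  rw [mem_im, mem_gr]
  constructor
  · rintro ⟨q, hq, rfl⟩
    obtain ⟨r, hr, rfl⟩ := mem_gr.1 hq
    obtain ⟨u, hu, rfl⟩ := mem_im.1 hr
    refine ⟨u, hu, ?_⟩
    simp only [fs_pair, sn_pair]
  · rintro ⟨u, hu, rfl⟩
    refine ⟨_, mem_gr.2 ⟨_, mem_im.2 ⟨u, hu, rfl⟩, rfl⟩, ?_⟩
    simp only [fs_pair, sn_pair]

/-- The rank as a set. -/
noncomputable def rk (x : ZFSet.{0}) : ZFSet.{0} := x.rank.toZFSet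

theorem mem_rk {x z : ZFSet.{0}} : z ∈ rk x ↔ ∃ y ∈ x, z ∈ insert (rk y) (rk y) := by
  rw [rk, Ordinal.mem_toZFSet_iff]
  constructor
  · rintro ⟨a, ha, rfl⟩
    obtain ⟨y, hy, h⟩ := ZFSet.lt_rank_iff.1 ha
    refine ⟨y, hy, ?_⟩
    rw [rk, ← Ordinal.toZFSet_succ]
    exact Ordinal.toZFSet_mem_toZFSet_iff.2 (Order.lt_succ_iff.2 h)
  · rintro ⟨y, hy, hz⟩
    rw [rk, ← Ordinal.toZFSet_succ, Ordinal.mem_toZFSet_iff] at hz
    obtain ⟨a, ha, rfl⟩ := hz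
    exact ⟨a, ZFSet.lt_rank_iff.2 ⟨y, hy, Order.lt_succ_iff.1 ha⟩, rfl⟩

theorem rk_eq (x : ZFSet.{0}) :
    rk x = ZFSet.sUnion (im (fun p => insert (sn p) (sn p)) (gr rk x)) := by
  ext z
  rw [mem_rk, ZFSet.mem_sUnion]
  constructor
  · rintro ⟨y, hy, hz⟩
    refine ⟨_, mem_im.2 ⟨_, mem_gr.2 ⟨y, hy, rfl⟩, rfl⟩, ?_⟩
    rw [sn_pair]
    exact hz
  · rintro ⟨w, hw, hz⟩
    obtain ⟨p, hp, rfl⟩ := mem_im.1 hw
    obtain ⟨y, hy, rfl⟩ := mem_gr.1 hp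
    rw [sn_pair] at hz
    exact ⟨y, hy, hz⟩

theorem dfn_rk {M : Set ZFSet.{0}} (hM : IsZF M) :
    DfnF M M fun w : Fin 1 → ZFSet.{0} => rk (w 0) := by
  have hB := hM.base
  refine hM.memrec (G := fun _ g => ZFSet.sUnion (im (fun p => insert (sn p) (sn p)) g)) ?_ rk_eq
  refine hB.sUnion' (hM.im' (h := fun p _ => insert (sn p) (sn p)) (DfnF.proj 1) ?_)
  exact hB.insert' (hM.sn' (DfnF.proj 0)) (hM.sn' (DfnF.proj 0))

theorem rk_mem {M : Set ZFSet.{0}} (hM : IsZF M) {x : ZFSet.{0}} (hx : x ∈ M) : rk x ∈ M :=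
  (dfn_rk hM).1 (fun _ => x) fun _ => hx

end PU0

/-- Recursion along the membership relation, with a parameter. -/
theorem memrec2 {M : Set ZFSet.{0}} (hM : IsZF M) {G : ZFSet.{0} → ZFSet.{0} → ZFSet.{0} → ZFSet.{0}}
    {F : ZFSet.{0} → ZFSet.{0} → ZFSet.{0}}
    (hG : DfnF M M fun w : Fin 3 → ZFSet.{0} => G (w 0) (w 1) (w 2))
    (hF : ∀ x z, F x z = G x z (gr (F x) z)) :
    DfnF M M fun w : Fin 2 → ZFSet.{0} => F (w 0) (w 1) := by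
  have hB := hM.base
  have h1 : DfnF M M fun w : Fin 1 → ZFSet.{0} => F (fs (w 0)) (sn (w 0)) := by
    refine hM.wfrec (pr := PU0.pp) (F := fun p => F (fs p) (sn p))
      (G := fun p g => G (fs p) (sn p) (im (fun q => pair (sn (fs q)) (sn q)) g)) PU0.pp_wf ?_ ?_ ?_
    · exact hM.im' (h := fun u v => pair (fs (v 0)) u) (hM.sn' (DfnF.proj 0))
        (hB.pair' (hM.fs' (DfnF.proj 1)) (DfnF.proj 0))
    · refine PU0.comp3 (f := G) hG (hM.fs' (DfnF.proj 0)) (hM.sn' (DfnF.proj 0)) ?_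
      exact hM.im' (h := fun q _ => pair (sn (fs q)) (sn q)) (DfnF.proj 1)
        (hB.pair' (hM.sn' (hM.fs' (DfnF.proj 0))) (hM.sn' (DfnF.proj 0)))
    · intro p
      change F (fs p) (sn p) = G (fs p) (sn p) _
      rw [PU0.gr_pp, ← hF]
  have h2 := DfnF.comp1 (f := fun p => F (fs p) (sn p)) h1
    (hB.pair' (DfnF.proj (0 : Fin 2)) (DfnF.proj (1 : Fin 2)))
  simpa only [fs_pair, sn_pair] using h2

theorem mem_Pw {M : Set ZFSet.{0}} {x z : ZFSet.{0}} : z ∈ Pw M x ↔ z ∈ M ∧ z ⊆ x := by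
  rw [Pw, ZFSet.mem_sep, ZFSet.mem_powerset]
  exact and_comm

theorem mem_Vh {M : Set ZFSet.{0}} {y z : ZFSet.{0}} : y ∈ Vh M z ↔ ∃ u ∈ z, y ∈ M ∧ y ⊆ Vh M u := by
  rw [Vh, wfF_eq, ← Vh, ZFSet.mem_sUnion]
  constructor
  · rintro ⟨w, hw, hy⟩
    obtain ⟨p, hp, rfl⟩ := mem_im.1 hw
    obtain ⟨u, hu, rfl⟩ := mem_gr.1 hp
    rw [sn_pair, mem_Pw] at hy
    exact ⟨u, hu, hy⟩
  · rintro ⟨u, hu, hy⟩
    refine ⟨_, mem_im.2 ⟨_, mem_gr.2 ⟨u, hu, rfl⟩, rfl⟩, ?_⟩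
    rw [sn_pair, mem_Pw]
    exact hy

theorem vh_trans {M : Set ZFSet.{0}} (hM : IsZF M) (z : ZFSet.{0}) :
    ∀ y ∈ Vh M z, ∀ x ∈ y, x ∈ Vh M z := by
  induction z using ZFSet.inductionOn with
  | _ z ih =>
  intro y hy x hx
  obtain ⟨u, hu, hyM, hyu⟩ := mem_Vh.1 hy
  exact mem_Vh.2 ⟨u, hu, hM.trans _ hyM _ hx, fun w hw => ih u hu x (hyu hx) w hw⟩

theorem vh_mono {M : Set ZFSet.{0}} {z z' : ZFSet.{0}} (h : z ⊆ z') : Vh M z ⊆ Vh M z' := by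
  intro y hy
  obtain ⟨u, hu, h1⟩ := mem_Vh.1 hy
  exact mem_Vh.2 ⟨u, h hu, h1⟩

theorem vh_sub {M : Set ZFSet.{0}} {z : ZFSet.{0}} : ∀ y ∈ Vh M z, y ∈ M := by
  intro y hy
  obtain ⟨u, -, h, -⟩ := mem_Vh.1 hy
  exact h

theorem dfn_Pw {M : Set ZFSet.{0}} (hM : IsZF M) {n : ℕ} {F : (Fin n → ZFSet.{0}) → ZFSet.{0}}
    (hF : DfnF M M F) : DfnF M M fun w => Pw M (F w) := by
  have hB := hM.base
  refine DfnF.comp1 (f := Pw M) ?_ hF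
  refine DfnF.of_unique (R := fun y v => ∀ z ∈ M, z ∈ y ↔ z ⊆ v 0) ?_ ?_
  · apply Dfn.all
    apply Dfn.iff
    · exact Dfn.mem (DfnF.proj 0) (DfnF.proj 1)
    · exact hB.subset' (DfnF.proj 0) (DfnF.proj 2)
  · intro v hv
    obtain ⟨p, hp, h1⟩ := hM.power _ (hv 0)
    have h2 : Pw M (v 0) = p := by
      ext z
      rw [h1, mem_Pw]
    refine ⟨h2 ▸ hp, fun y hy => ?_⟩
    constructor
    · intro h3
      ext z
      rw [mem_Pw]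
      exact ⟨fun hz => ⟨hM.trans _ hy _ hz, (h3 z (hM.trans _ hy _ hz)).1 hz⟩,
        fun hz => (h3 z hz.1).2 hz.2⟩
    · rintro rfl z hz
      rw [mem_Pw]
      exact ⟨fun h => h.2, fun h => ⟨hz, h⟩⟩

theorem dfn_Vh {M : Set ZFSet.{0}} (hM : IsZF M) {n : ℕ} {F : (Fin n → ZFSet.{0}) → ZFSet.{0}}
    (hF : DfnF M M F) : DfnF M M fun w => Vh M (F w) := by
  have hB := hM.base
  refine DfnF.comp1 (f := Vh M) ?_ hF
  refine hM.memrec (G := fun _ g => ZFSet.sUnion (im (fun p => Pw M (sn p)) g)) ?_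
    (wfF_eq _ _ _)
  refine hB.sUnion' (hM.im' (h := fun p _ => Pw M (sn p)) (DfnF.proj 1) ?_)
  exact dfn_Pw hM (hM.sn' (DfnF.proj 0))

/-- The rank of an element of `M` is in `M`, and each element of `M` is in a level. -/
theorem rank_mem {M : Set ZFSet.{0}} (hM : IsZF M) {x : ZFSet.{0}} (hx : x ∈ M) :
    x.rank.toZFSet ∈ M ∧ x ∈ Vh M (Order.succ x.rank).toZFSet := by
  refine ⟨PU0.rk_mem hM hx, ?_⟩
  induction x using ZFSet.inductionOn with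
  | _ x ih =>
  refine mem_Vh.2 ⟨x.rank.toZFSet, Ordinal.toZFSet_mem_toZFSet_iff.2 (Order.lt_succ _), hx, ?_⟩
  intro y hy
  exact vh_mono (Ordinal.toZFSet_subset_toZFSet_iff.2
    (Order.succ_le_of_lt (ZFSet.rank_lt_of_mem hy))) (ih y hy (hM.trans _ hx _ hy))

theorem vh_rank {M : Set ZFSet.{0}} {α : Ordinal.{0}} {x : ZFSet.{0}} (h : x ∈ Vh M α.toZFSet) :
    x.rank < α := by
  induction α using Ordinal.induction generalizing x with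
  | _ α ih =>
  obtain ⟨u, hu, -, hxu⟩ := mem_Vh.1 h
  obtain ⟨a, ha, rfl⟩ := Ordinal.mem_toZFSet_iff.1 hu
  exact (ZFSet.rank_le_iff.2 fun y hy => ih a ha (hxu hy)).trans_lt ha

/-- Collection. -/
theorem collect {M : Set ZFSet.{0}} (hM : IsZF M) {Q : ZFSet.{0} → ZFSet.{0} → Prop}
    (hQ : Dfn M M fun w : Fin 2 → ZFSet.{0} => Q (w 0) (w 1)) {x : ZFSet.{0}} (hx : x ∈ M) :
    ∃ α : Ordinal.{0}, α.toZFSet ∈ M ∧
      ∀ a ∈ x, (∃ b ∈ M, Q b a) → ∃ b ∈ Vh M α.toZFSet, Q b a := by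
  have hB := hM.base
  have h1 : Dfn M M fun w : Fin 2 → ZFSet.{0} => ∃ y ∈ Vh M (w 0), Q y (w 1) := by
    apply hB.bex (dfn_Vh hM (DfnF.proj 0))
    exact Dfn.comp2 (Q := Q) hQ (DfnF.proj 0) (DfnF.proj 2)
  have h2 : DfnF M M fun w : Fin 1 → ZFSet.{0} => lo M fun η => ∃ y ∈ Vh M η, Q y (w 0) :=
    hM.lo' (Q := fun η w => ∃ y ∈ Vh M η, Q y (w 0)) h1
  have h3 := hM.union _ (hM.im_mem (h := fun z => lo M fun η => ∃ y ∈ Vh M η, Q y z) hx h2)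
  have h4 : (ZFSet.sUnion (im (fun z => lo M fun η => ∃ y ∈ Vh M η, Q y z) x)).IsOrdinal := by
    refine isOrdinal_sUnion fun y hy => ?_
    obtain ⟨z, -, rfl⟩ := mem_im.1 hy
    exact lo_isOrdinal
  refine ⟨_, by rw [h4.toZFSet_rank_eq]; exact h3, ?_⟩
  rintro a ha ⟨b, hb, hQb⟩
  obtain ⟨h5, h6⟩ := rank_mem hM hb
  have h7 : (Order.succ b.rank).toZFSet ∈ M := by
    rw [Ordinal.toZFSet_succ]
    exact hM.insert_mem h5 h5
  obtain ⟨-, -, b', h8, h9⟩ := lo_spec (M := M) (P := fun η => ∃ y ∈ Vh M η, Q y a)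
    ⟨_, h7, ZFSet.isOrdinal_toZFSet _, b, h6, hQb⟩
  refine ⟨b', ?_, h9⟩
  rw [h4.toZFSet_rank_eq]
  exact vh_mono (fun u hu => ZFSet.mem_sUnion.2 ⟨_, mem_im.2 ⟨a, ha, rfl⟩, hu⟩) h8

end Pool.Agent.helper797_it
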